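import Pool.Agent.W2helper17.FM.C

/-!
Project EM (helper36): stationary waves with finite moments of a given order; fields of polynomial
growth in the jet.
-/

set_option autoImplicit false
set_option linter.unusedSectionVars false
open MeasureTheory Filter Topology
open scoped ContDiff ENNReal

namespace Pool.Agent.W2helper36.EM

open Pool.Agent.Y139.SW Pool.Agent.W2helper17.FM

noncomputable section

variable {d : ℕ}

lemma csn {α : Type*} [MeasurableSpace α] (ν : Measure α) [IsFiniteMeasure ν] {f : α → ℝ}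
    (hf : Measurable f) {n : ℕ} (hn : 1 ≤ n) :
    ∃ C : ℝ≥0∞, C ≠ ⊤ ∧ ∀ g : α → ℝ, Measurable g →
      (∫⁻ z, ‖g z‖ₑ ∂ν) ^ n ≤ C * ∫⁻ z, ‖g z‖ₑ ^ n ∂ν := by
  refine ⟨(ν Set.univ ^ (1 - 1 / (n : ℝ))) ^ n, ?_, fun g hg => ?_⟩
  · have h1 : (0 : ℝ) ≤ 1 - 1 / (n : ℝ) := by
      have : (1 : ℝ) ≤ n := by exact_mod_cast hn
      have := (div_le_one (by linarith : (0 : ℝ) < n)).2 this
      linarith
    exact ENNReal.pow_ne_top (ENNReal.rpow_ne_top_of_nonneg h1 (measure_ne_top _ _))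
  · have hn0 : (0 : ℝ) < n := by exact_mod_cast hn
    have h := eLpNorm'_le_eLpNorm'_mul_rpow_measure_univ (μ := ν) (p := 1) (q := (n : ℝ))
      zero_lt_one (by exact_mod_cast hn) hg.aestronglyMeasurable
    simp only [eLpNorm', ENNReal.rpow_one, ne_eq, one_ne_zero, not_false_eq_true, div_self,
      ENNReal.rpow_natCast] at h
    have h2 := pow_le_pow_left' h n
    rw [mul_pow] at h2
    have e : ((∫⁻ a, ‖g a‖ₑ ^ n ∂ν) ^ (1 / (n : ℝ))) ^ n = ∫⁻ a, ‖g a‖ₑ ^ n ∂ν := by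
      rw [← ENNReal.rpow_natCast, ← ENNReal.rpow_mul, one_div, inv_mul_cancel₀ hn0.ne',
        ENNReal.rpow_one]
    rw [e, mul_comm] at h2
    exact h2

variable {S : Type*} [MeasurableSpace S] {P : Measure S} {τ : E d → S → S}

/-- stationary solutions of the Helmholtz equation with finite moment of order `n` -/
structure Wn (n : ℕ) (P : Measure S) (τ : E d → S → S) (G : S → E d → ℝ) : Prop where
  sf : SF τ G
  eq : ∀ s y, Lap (G s) y = -G s y
  ln : MemLp (fun s => G s 0) n P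

lemma ln_iff {n : ℕ} (hn : 1 ≤ n) {a : S → ℝ} (ma : Measurable a) :
    MemLp a n P ↔ ∫⁻ s, ‖a s‖ₑ ^ n ∂P ≠ ⊤ := by
  have h0 : (n : ℝ≥0∞) ≠ 0 := by simpa using Nat.one_le_iff_ne_zero.1 hn
  have h1 : (n : ℝ≥0∞) ≠ ⊤ := ENNReal.natCast_ne_top n
  have h2 : (n : ℝ≥0∞).toReal = (n : ℝ) := ENNReal.toReal_natCast n
  have h3 := eLpNorm_lt_top_iff_lintegral_rpow_enorm_lt_top (f := a) (μ := P) h0 h1
  rw [h2] at h3
  simp only [ENNReal.rpow_natCast] at h3
  constructor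
  · intro h; exact (h3.1 h.2).ne
  · intro h; exact ⟨ma.aestronglyMeasurable, h3.2 (lt_top_iff_ne_top.2 h)⟩

/-- derivatives of stationary waves with finite moments -/
lemma Wn.der [IsProbabilityMeasure P] (hτ : ∀ x, MeasurePreserving (τ x) P P) {n : ℕ}
    (hn : 1 ≤ n) {G : S → E d → ℝ} (W : Wn n P τ G) (i : Fin d) :
    Wn n P τ (fun s => D i (G s)) := by
  refine ⟨W.sf.der i, fun s y => ?_, ?_⟩
  · rw [Lap_D (W.sf.smooth s)]
    have : Lap (G s) = fun y => -G s y := funext (W.eq s)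
    rw [this]
    show fderiv ℝ (fun y => -G s y) y _ = -fderiv ℝ (G s) y _
    rw [fderiv_fun_neg]; rfl
  · have mG := W.sf.meas 0
    have mD := (W.sf.der i).meas 0
    have f0 := (ln_iff hn mG).1 W.ln
    rw [ln_iff hn mD]
    have mj : Measurable fun p : S × E d => G p.1 p.2 := (joint W.sf).comp measurable_swap
    obtain ⟨C, hC, hCs⟩ := csn (kap i) (f := fun _ => 0) measurable_const hn
    have h1 : ∀ s, (‖∫ y : E d, φ y‖ₑ * ‖D i (G s) 0‖ₑ) ^ n ≤
        C * ∫⁻ z, ‖G s z‖ₑ ^ n ∂(kap i) := fun s =>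
      le_trans (by gcongr; exact rep_le (W.sf.smooth s) (W.eq s) i)
        (hCs _ (W.sf.smooth s).continuous.measurable)
    have h2 := lintegral_mono (μ := P) h1
    have mm : Measurable (Function.uncurry fun (s : S) (z : E d) => ‖G s z‖ₑ ^ n) :=
      mj.enorm.pow_const n
    have m5 : Measurable fun s => ∫⁻ z, ‖G s z‖ₑ ^ n ∂(kap i) := mm.lintegral_prod_right'
    rw [lintegral_const_mul _ m5, lintegral_lintegral_swap mm.aemeasurable] at h2
    have h3 : ∀ z, ∫⁻ s, ‖G s z‖ₑ ^ n ∂P = ∫⁻ s, ‖G s 0‖ₑ ^ n ∂P := fun z =>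
      st_lint hτ W.sf z (k := fun x => ‖x‖ₑ ^ n) (measurable_id.enorm.pow_const n)
    simp only [h3] at h2
    simp only [mul_pow] at h2
    rw [lintegral_const_mul _ (mD.enorm.pow_const n), lintegral_const] at h2
    intro hcon
    rw [hcon, ENNReal.mul_top] at h2
    · have h4 : kap i Set.univ ≠ ⊤ := measure_ne_top _ _
      exact ENNReal.mul_ne_top hC (ENNReal.mul_ne_top f0 h4) (top_le_iff.1 h2)
    · have : ‖∫ y : E d, φ y‖ₑ ≠ 0 := by simpa using φ_int i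
      exact pow_ne_zero _ this

/-- the size of the jet of order three at the origin -/
def J (G : S → E d → ℝ) (s : S) : ℝ :=
  1 + |G s 0| + ∑ i, |D i (G s) 0| + (∑ i, ∑ j, |D i (D j (G s)) 0|) +
    ∑ i, ∑ j, ∑ k, |D i (D j (D k (G s))) 0|

lemma J_one (G : S → E d → ℝ) (s : S) : 1 ≤ J G s := by
  unfold J
  have h1 : 0 ≤ |G s 0| := abs_nonneg _
  have h2 : 0 ≤ ∑ i, |D i (G s) 0| := Finset.sum_nonneg fun _ _ => abs_nonneg _
  have h3 : 0 ≤ ∑ i, ∑ j, |D i (D j (G s)) 0| :=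
    Finset.sum_nonneg fun _ _ => Finset.sum_nonneg fun _ _ => abs_nonneg _
  have h4 : 0 ≤ ∑ i, ∑ j, ∑ k, |D i (D j (D k (G s))) 0| :=
    Finset.sum_nonneg fun _ _ => Finset.sum_nonneg fun _ _ =>
      Finset.sum_nonneg fun _ _ => abs_nonneg _
  linarith

lemma J0 (G : S → E d → ℝ) (s : S) : |G s 0| ≤ J G s := by
  unfold J
  have h2 : 0 ≤ ∑ i, |D i (G s) 0| := Finset.sum_nonneg fun _ _ => abs_nonneg _
  have h3 : 0 ≤ ∑ i, ∑ j, |D i (D j (G s)) 0| :=
    Finset.sum_nonneg fun _ _ => Finset.sum_nonneg fun _ _ => abs_nonneg _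
  have h4 : 0 ≤ ∑ i, ∑ j, ∑ k, |D i (D j (D k (G s))) 0| :=
    Finset.sum_nonneg fun _ _ => Finset.sum_nonneg fun _ _ =>
      Finset.sum_nonneg fun _ _ => abs_nonneg _
  linarith

lemma J1 (G : S → E d → ℝ) (i : Fin d) (s : S) : |D i (G s) 0| ≤ J G s := by
  unfold J
  have h1 : 0 ≤ |G s 0| := abs_nonneg _
  have h2 : |D i (G s) 0| ≤ ∑ i, |D i (G s) 0| :=
    Finset.single_le_sum (f := fun i => |D i (G s) 0|) (fun _ _ => abs_nonneg _)
      (Finset.mem_univ i)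
  have h3 : 0 ≤ ∑ i, ∑ j, |D i (D j (G s)) 0| :=
    Finset.sum_nonneg fun _ _ => Finset.sum_nonneg fun _ _ => abs_nonneg _
  have h4 : 0 ≤ ∑ i, ∑ j, ∑ k, |D i (D j (D k (G s))) 0| :=
    Finset.sum_nonneg fun _ _ => Finset.sum_nonneg fun _ _ =>
      Finset.sum_nonneg fun _ _ => abs_nonneg _
  linarith

lemma J2 (G : S → E d → ℝ) (i j : Fin d) (s : S) : |D i (D j (G s)) 0| ≤ J G s := by
  unfold J
  have h1 : 0 ≤ |G s 0| := abs_nonneg _
  have h2 : 0 ≤ ∑ i, |D i (G s) 0| := Finset.sum_nonneg fun _ _ => abs_nonneg _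
  have h3 : |D i (D j (G s)) 0| ≤ ∑ i, ∑ j, |D i (D j (G s)) 0| :=
    (Finset.single_le_sum (f := fun j => |D i (D j (G s)) 0|) (fun _ _ => abs_nonneg _)
      (Finset.mem_univ j)).trans
    (Finset.single_le_sum (f := fun i => ∑ j, |D i (D j (G s)) 0|)
      (fun _ _ => Finset.sum_nonneg fun _ _ => abs_nonneg _) (Finset.mem_univ i))
  have h4 : 0 ≤ ∑ i, ∑ j, ∑ k, |D i (D j (D k (G s))) 0| :=
    Finset.sum_nonneg fun _ _ => Finset.sum_nonneg fun _ _ =>
      Finset.sum_nonneg fun _ _ => abs_nonneg _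
  linarith

lemma J3 (G : S → E d → ℝ) (i j k : Fin d) (s : S) : |D i (D j (D k (G s))) 0| ≤ J G s := by
  unfold J
  have h1 : 0 ≤ |G s 0| := abs_nonneg _
  have h2 : 0 ≤ ∑ i, |D i (G s) 0| := Finset.sum_nonneg fun _ _ => abs_nonneg _
  have h3 : 0 ≤ ∑ i, ∑ j, |D i (D j (G s)) 0| :=
    Finset.sum_nonneg fun _ _ => Finset.sum_nonneg fun _ _ => abs_nonneg _
  have h4 : |D i (D j (D k (G s))) 0| ≤ ∑ i, ∑ j, ∑ k, |D i (D j (D k (G s))) 0| :=
    ((Finset.single_le_sum (f := fun k => |D i (D j (D k (G s))) 0|) (fun _ _ => abs_nonneg _)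
      (Finset.mem_univ k)).trans
    (Finset.single_le_sum (f := fun j => ∑ k, |D i (D j (D k (G s))) 0|)
      (fun _ _ => Finset.sum_nonneg fun _ _ => abs_nonneg _) (Finset.mem_univ j))).trans
    (Finset.single_le_sum (f := fun i => ∑ j, ∑ k, |D i (D j (D k (G s))) 0|)
      (fun _ _ => Finset.sum_nonneg fun _ _ => Finset.sum_nonneg fun _ _ => abs_nonneg _)
      (Finset.mem_univ i))
  linarith

lemma J_mem [IsProbabilityMeasure P] (hτ : ∀ x, MeasurePreserving (τ x) P P) {n : ℕ}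
    (hn : 1 ≤ n) {G : S → E d → ℝ} (W : Wn n P τ G) : MemLp (J G) n P := by
  have W1 := fun i => W.der hτ hn i
  have W2 := fun i j => (W1 j).der hτ hn i
  have W3 := fun i j k => (W2 j k).der hτ hn i
  have h0 : MemLp (fun s => |G s 0|) n P := W.ln.abs
  have h1 : MemLp (fun s => ∑ i, |D i (G s) 0|) n P :=
    memLp_finsetSum _ fun i _ => (W1 i).ln.abs
  have h2 : MemLp (fun s => ∑ i, ∑ j, |D i (D j (G s)) 0|) n P :=
    memLp_finsetSum _ fun i _ => memLp_finsetSum _ fun j _ => (W2 i j).ln.abs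
  have h3 : MemLp (fun s => ∑ i, ∑ j, ∑ k, |D i (D j (D k (G s))) 0|) n P :=
    memLp_finsetSum _ fun i _ => memLp_finsetSum _ fun j _ =>
      memLp_finsetSum _ fun k _ => (W3 i j k).ln.abs
  have hc : MemLp (fun _ : S => (1 : ℝ)) n P := memLp_const 1
  have a1 : MemLp (fun s => 1 + |G s 0|) n P := hc.add h0
  have a2 : MemLp (fun s => 1 + |G s 0| + ∑ i, |D i (G s) 0|) n P := a1.add h1
  have a3 : MemLp (fun s => 1 + |G s 0| + ∑ i, |D i (G s) 0| +
    ∑ i, ∑ j, |D i (D j (G s)) 0|) n P := a2.add h2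
  exact a3.add h3

lemma J_int [IsProbabilityMeasure P] (hτ : ∀ x, MeasurePreserving (τ x) P P) {n : ℕ}
    (hn : 1 ≤ n) {G : S → E d → ℝ} (W : Wn n P τ G) : Integrable (fun s => J G s ^ n) P := by
  have h := (J_mem hτ hn W).integrable_norm_pow (Nat.one_le_iff_ne_zero.1 hn)
  refine h.congr (ae_of_all _ fun s => ?_)
  show ‖J G s‖ ^ n = _
  rw [Real.norm_eq_abs, abs_of_nonneg (zero_le_one.trans (J_one G s))]

/-- functions of polynomial growth -/
def Bd (L : S → ℝ) (r : ℕ) (g : S → ℝ) : Prop := ∃ C, 0 ≤ C ∧ ∀ s, |g s| ≤ C * L s ^ r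

section

variable {L : S → ℝ} (hL : ∀ s, 1 ≤ L s)

include hL

lemma Bd.mul {r r' : ℕ} {g h : S → ℝ} (hg : Bd L r g) (hh : Bd L r' h) :
    Bd L (r + r') (fun s => g s * h s) := by
  obtain ⟨C, c0, hC⟩ := hg
  obtain ⟨C', c0', hC'⟩ := hh
  refine ⟨C * C', mul_nonneg c0 c0', fun s => ?_⟩
  rw [abs_mul, pow_add]
  calc |g s| * |h s| ≤ (C * L s ^ r) * (C' * L s ^ r') :=
        mul_le_mul (hC s) (hC' s) (abs_nonneg _)
          (mul_nonneg c0 (pow_nonneg (zero_le_one.trans (hL s)) _))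
    _ = _ := by ring

lemma Bd.mono {r r' : ℕ} (hr : r ≤ r') {g : S → ℝ} (hg : Bd L r g) : Bd L r' g := by
  obtain ⟨C, c0, hC⟩ := hg
  exact ⟨C, c0, fun s => (hC s).trans (mul_le_mul_of_nonneg_left (pow_le_pow_right₀ (hL s) hr) c0)⟩

lemma Bd.add {r : ℕ} {g h : S → ℝ} (hg : Bd L r g) (hh : Bd L r h) :
    Bd L r (fun s => g s + h s) := by
  obtain ⟨C, c0, hC⟩ := hg
  obtain ⟨C', c0', hC'⟩ := hh
  refine ⟨C + C', add_nonneg c0 c0', fun s => ?_⟩
  rw [add_mul]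
  exact (abs_add_le _ _).trans (add_le_add (hC s) (hC' s))

lemma Bd.neg {r : ℕ} {g : S → ℝ} (hg : Bd L r g) : Bd L r (fun s => -g s) := by
  obtain ⟨C, c0, hC⟩ := hg
  exact ⟨C, c0, fun s => by rw [abs_neg]; exact hC s⟩

lemma Bd.sub {r : ℕ} {g h : S → ℝ} (hg : Bd L r g) (hh : Bd L r h) :
    Bd L r (fun s => g s - h s) := by
  simp only [sub_eq_add_neg]
  exact Bd.add hL hg (Bd.neg hL hh)

lemma Bd.zero (r : ℕ) : Bd L r (fun _ => (0 : ℝ)) := ⟨0, le_rfl, fun s => by simp⟩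

lemma Bd.const (c : ℝ) : Bd L 0 (fun _ => c) := ⟨|c|, abs_nonneg _, fun s => by simp⟩

lemma Bd.cmul (c : ℝ) {r : ℕ} {g : S → ℝ} (hg : Bd L r g) : Bd L r (fun s => c * g s) := by
  have := Bd.mul hL (Bd.const hL c) hg
  rwa [zero_add] at this

lemma Bd.sum {ι : Type*} (t : Finset ι) {r : ℕ} {g : ι → S → ℝ} (hg : ∀ i, Bd L r (g i)) :
    Bd L r (fun s => ∑ i ∈ t, g i s) := by
  classical
  induction t using Finset.induction_on with
  | empty => simpa using Bd.zero hL r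
  | insert a t ha ih =>
    simp only [Finset.sum_insert ha]
    exact Bd.add hL (hg a) ih

lemma Bd.pow {r : ℕ} {g : S → ℝ} (hg : Bd L r g) (m : ℕ) : Bd L (m * r) (fun s => g s ^ m) := by
  induction m with
  | zero => simpa using Bd.const hL (1 : ℝ)
  | succ m ih =>
    have := Bd.mul hL ih hg
    have e : (m + 1) * r = m * r + r := by ring
    rw [e]
    simpa only [pow_succ] using this

lemma Bd.int {n : ℕ} (iL : Integrable (fun s => L s ^ n) P) {r : ℕ} (hr : r ≤ n) {g : S → ℝ}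
    (mg : Measurable g) (hg : Bd L r g) : Integrable g P := by
  obtain ⟨C, c0, hC⟩ := Bd.mono hL hr hg
  refine Integrable.mono' (iL.const_mul C) mg.aestronglyMeasurable (ae_of_all _ fun s => ?_)
  exact hC s

end

end

end Pool.Agent.W2helper36.EM
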