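import Pool.Agent.W2helper36.EM.A

/-!
Project EM (helper36): the energy density `f² + |∇f|²` of a solution of `Δf = -f`, pointwise
identities and the pointwise inequality.
-/

set_option autoImplicit false
set_option linter.unusedSectionVars false
open MeasureTheory Filter Topology
open scoped ContDiff ENNReal

namespace Pool.Agent.W2helper36.EM

open Pool.Agent.Y139.SW Pool.Agent.W2helper17.FM

noncomputable section

variable {d : ℕ}

/-- the energy density -/
def En (f : E d → ℝ) (y : E d) : ℝ := f y ^ 2 + Q 1 f y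

/-- `∇f · ∇P` -/
def XX (f : E d → ℝ) (y : E d) : ℝ := ∑ i, D i f y * D i (En f) y

/-- `|∇P|²` -/
def YY (f : E d → ℝ) (y : E d) : ℝ := ∑ i, D i (En f) y ^ 2

lemma YY_nn (f : E d → ℝ) (y : E d) : 0 ≤ YY f y := Finset.sum_nonneg fun _ _ => sq_nonneg _

lemma En_nn (f : E d → ℝ) (y : E d) : 0 ≤ En f y := add_nonneg (sq_nonneg _) (Q_nn _ _ _)

lemma En_sm {f : E d → ℝ} (hf : ContDiff ℝ ∞ f) : ContDiff ℝ ∞ (En f) :=
  (hf.pow 2).add (Q_sm 1 hf)

lemma Lap_add {f g : E d → ℝ} (hf : ContDiff ℝ ∞ f) (hg : ContDiff ℝ ∞ g) (y : E d) :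
    Lap (fun z => f z + g z) y = Lap f y + Lap g y := by
  unfold Lap
  rw [← Finset.sum_add_distrib]
  refine Finset.sum_congr rfl fun i _ => ?_
  have e : D i (fun z => f z + g z) = fun z => D i f z + D i g z :=
    funext fun z => D_add hf hg i z
  rw [e, D_add (D_sm hf i) (D_sm hg i)]

lemma Lap_En {f : E d → ℝ} (hf : ContDiff ℝ ∞ f) (eq : ∀ y, Lap f y = -f y) (y : E d) :
    Lap (En f) y = 2 * Q 2 f y - 2 * f y ^ 2 := by
  have e : En f = fun z => Q 0 f z + Q 1 f z := by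
    funext z; unfold En; rw [Q_zero]
  rw [e, Lap_add (Q_sm 0 hf) (Q_sm 1 hf), Lap_Q 0 hf eq, Lap_Q 1 hf eq, Q_zero]
  ring

lemma D_pow {g : E d → ℝ} (hg : ContDiff ℝ ∞ g) (n : ℕ) (i : Fin d) (y : E d) :
    D i (fun z => g z ^ n) y = n * g y ^ (n - 1) * D i g y := by
  have h := D_comp (k := fun t : ℝ => t ^ n) (f := g) (contDiff_id.pow n) hg i y
  simp only [deriv_pow_field] at h
  exact h

lemma D_Q1 {f : E d → ℝ} (hf : ContDiff ℝ ∞ f) (i : Fin d) (y : E d) :
    D i (Q 1 f) y = 2 * ∑ j, D j (D i f) y * D j f y := by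
  have h := B_D 1 hf hf i y
  have e1 : B 1 (D i f) f y = ∑ j, D j (D i f) y * D j f y := rfl
  have e2 : B 1 f (D i f) y = ∑ j, D j (D i f) y * D j f y := by
    rw [B_symm]; rfl
  rw [e1, e2] at h
  show D i (B 1 f f) y = _
  rw [h]; ring

lemma D_En {f : E d → ℝ} (hf : ContDiff ℝ ∞ f) (i : Fin d) (y : E d) :
    D i (En f) y = 2 * (f y * D i f y + ∑ j, D j (D i f) y * D j f y) := by
  have h := D_add (hf.pow 2) (Q_sm 1 hf) i y
  have h2 := D_pow hf 2 i y
  have h3 : D i (En f) y = D i (fun z => f z ^ 2) y + D i (Q 1 f) y := h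
  rw [h3, h2, D_Q1 hf]
  push_cast
  ring

lemma D_Q1' {f : E d → ℝ} (hf : ContDiff ℝ ∞ f) (i : Fin d) (y : E d) :
    D i (Q 1 f) y = D i (En f) y - 2 * f y * D i f y := by
  rw [D_Q1 hf, D_En hf]; ring

/-- the pointwise inequality -/
lemma key {f : E d → ℝ} (hf : ContDiff ℝ ∞ f) (eq : ∀ y, Lap f y = -f y) (y : E d) :
    1 / 2 * YY f y - 2 * f y * XX f y ≤ Q 1 f y * Lap (En f) y := by
  obtain ⟨h, hh⟩ : ∃ h : Fin d → ℝ, h = fun i => ∑ j, D j (D i f) y * D j f y := ⟨_, rfl⟩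
  have eD : ∀ i, D i (En f) y = 2 * (f y * D i f y + h i) := fun i => by
    rw [D_En hf, hh]
  have e1 : 1 / 2 * YY f y - 2 * f y * XX f y =
      2 * (∑ i, h i ^ 2) - 2 * f y ^ 2 * Q 1 f y := by
    unfold YY XX
    simp only [eD]
    rw [Q_one, Finset.mul_sum, Finset.mul_sum, ← Finset.sum_sub_distrib, Finset.mul_sum,
      Finset.mul_sum, ← Finset.sum_sub_distrib]
    refine Finset.sum_congr rfl fun i _ => ?_
    ring
  have h2 : ∑ i, h i ^ 2 ≤ Q 1 f y * Q 2 f y := by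
    have h3 : Q 1 f y * Q 2 f y = ∑ i, (∑ j, D j (D i f) y ^ 2) * ∑ j, D j f y ^ 2 := by
      rw [Q_succ 1, Finset.mul_sum]
      refine Finset.sum_congr rfl fun i _ => ?_
      rw [Q_one, Q_one, mul_comm]
    rw [h3]
    refine Finset.sum_le_sum fun i _ => ?_
    rw [hh]
    exact Finset.sum_mul_sq_le_sq_mul_sq _ _ _
  rw [e1, Lap_En hf eq]
  nlinarith

/-- the divergence of `a W ∇P` -/
lemma div_one {f a : E d → ℝ} (hf : ContDiff ℝ ∞ f) (ha : ContDiff ℝ ∞ a) {α β : ℝ} {y : E d}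
    (h : ∀ i, D i a y = α * D i (En f) y + β * D i f y) :
    ∑ i, D i (fun z => a z * Q 1 f z * D i (En f) z) y =
      Q 1 f y * (α * YY f y + β * XX f y) + a y * (YY f y - 2 * f y * XX f y) +
        a y * (Q 1 f y * Lap (En f) y) := by
  have hE := En_sm hf
  have e : ∀ i, D i (fun z => a z * Q 1 f z * D i (En f) z) y =
      (D i a y * Q 1 f y + a y * D i (Q 1 f) y) * D i (En f) y +
        a y * Q 1 f y * D i (D i (En f)) y := by
    intro i
    rw [D_mul (ha.mul (Q_sm 1 hf)) (D_sm hE i), D_mul ha (Q_sm 1 hf)]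
  simp only [e, h, D_Q1' hf]
  unfold YY XX Lap
  rw [Finset.sum_add_distrib]
  simp only [Finset.mul_sum, ← Finset.sum_add_distrib, ← Finset.sum_sub_distrib, mul_add, mul_sub]
  refine Finset.sum_congr rfl fun i _ => ?_
  ring

/-- the divergence of `a ∇f` -/
lemma div_two {f a : E d → ℝ} (hf : ContDiff ℝ ∞ f) (ha : ContDiff ℝ ∞ a) {α β : ℝ} {y : E d}
    (h : ∀ i, D i a y = α * D i (En f) y + β * D i f y) :
    ∑ i, D i (fun z => a z * D i f z) y = α * XX f y + β * Q 1 f y + a y * Lap f y := by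
  have e : ∀ i, D i (fun z => a z * D i f z) y = D i a y * D i f y + a y * D i (D i f) y :=
    fun i => D_mul ha (D_sm hf i) i y
  simp only [e, h]
  rw [Q_one]
  unfold XX Lap
  simp only [Finset.mul_sum, ← Finset.sum_add_distrib]
  refine Finset.sum_congr rfl fun i _ => ?_
  ring

/-- the weight -/
def wt (n m : ℕ) (f : E d → ℝ) (y : E d) : ℝ := En f y ^ n * f y ^ m

lemma wt_sm (n m : ℕ) {f : E d → ℝ} (hf : ContDiff ℝ ∞ f) : ContDiff ℝ ∞ (wt n m f) :=
  ((En_sm hf).pow n).mul (hf.pow m)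

lemma D_wt (n m : ℕ) {f : E d → ℝ} (hf : ContDiff ℝ ∞ f) (i : Fin d) (y : E d) :
    D i (wt n m f) y = (n * En f y ^ (n - 1) * f y ^ m) * D i (En f) y +
      (En f y ^ n * (m * f y ^ (m - 1))) * D i f y := by
  have h := D_mul ((En_sm hf).pow n) (hf.pow m) i y
  have h' : D i (wt n m f) y = D i (fun z => En f z ^ n) y * f y ^ m +
      En f y ^ n * D i (fun z => f z ^ m) y := h
  rw [h', D_pow (En_sm hf), D_pow hf]
  ring

lemma sf_En {S : Type*} [MeasurableSpace S] {τ : E d → S → S} {G : S → E d → ℝ}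
    (h : SF τ G) : SF τ (fun s => En (G s)) := by
  have h2 : SF τ (fun s y => G s y ^ 2) := h.comp (k := fun t => t ^ 2) (contDiff_id.pow 2)
  exact sf_add h2 (sf_Q 1 h)

lemma sf_wt (n m : ℕ) {S : Type*} [MeasurableSpace S] {τ : E d → S → S} {G : S → E d → ℝ}
    (h : SF τ G) : SF τ (fun s => wt n m (G s)) := by
  have h1 : SF τ (fun s y => En (G s) y ^ n) :=
    (sf_En h).comp (k := fun t => t ^ n) (contDiff_id.pow n)
  have h2 : SF τ (fun s y => G s y ^ m) := h.comp (k := fun t => t ^ m) (contDiff_id.pow m)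
  exact h1.mul h2

end

end Pool.Agent.W2helper36.EM
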