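import Pool.Agent.W2helper36.EM.B

/-!
Project EM (helper36): integral identities for stationary waves, and the chain of inequalities for
the moments.
-/

set_option autoImplicit false
set_option linter.unusedSectionVars false
open MeasureTheory Filter Topology
open scoped ContDiff ENNReal

namespace Pool.Agent.W2helper36.EM

open Pool.Agent.Y139.SW Pool.Agent.W2helper17.FM

noncomputable section

variable {d : ℕ} {S : Type*} [MeasurableSpace S] {P : Measure S} {τ : E d → S → S}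

section bd

variable (G : S → E d → ℝ)

lemma bd_G : Bd (J G) 1 (fun s => G s 0) := ⟨1, zero_le_one, fun s => by
  rw [one_mul, pow_one]; exact J0 G s⟩

lemma bd_D (i : Fin d) : Bd (J G) 1 (fun s => D i (G s) 0) := ⟨1, zero_le_one, fun s => by
  rw [one_mul, pow_one]; exact J1 G i s⟩

lemma bd_DD (i j : Fin d) : Bd (J G) 1 (fun s => D i (D j (G s)) 0) :=
  ⟨1, zero_le_one, fun s => by rw [one_mul, pow_one]; exact J2 G i j s⟩

lemma bd_DDD (i j k : Fin d) : Bd (J G) 1 (fun s => D i (D j (D k (G s))) 0) :=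
  ⟨1, zero_le_one, fun s => by rw [one_mul, pow_one]; exact J3 G i j k s⟩

lemma bd_Q1 : Bd (J G) 2 (fun s => Q 1 (G s) 0) := by
  have h := Bd.sum (J_one G) Finset.univ (fun i : Fin d =>
    Bd.mul (J_one G) (bd_D G i) (bd_D G i))
  refine ⟨h.choose, h.choose_spec.1, fun s => ?_⟩
  have e : Q 1 (G s) 0 = ∑ i, D i (G s) 0 * D i (G s) 0 := by
    rw [Q_one]; exact Finset.sum_congr rfl fun i _ => sq _
  show |Q 1 (G s) 0| ≤ _
  rw [e]
  exact h.choose_spec.2 s

lemma bd_En : Bd (J G) 2 (fun s => En (G s) 0) := by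
  have h1 := Bd.pow (J_one G) (bd_G G) 2
  exact Bd.add (J_one G) h1 (bd_Q1 G)

variable {G}
variable (hs : ∀ s, ContDiff ℝ ∞ (G s))

include hs

lemma bd_DEn (i : Fin d) : Bd (J G) 2 (fun s => D i (En (G s)) 0) := by
  have e : (fun s => D i (En (G s)) 0) = fun s => 2 * (G s 0 * D i (G s) 0 +
      ∑ j, D j (D i (G s)) 0 * D j (G s) 0) := funext fun s => D_En (hs s) i 0
  rw [e]
  refine Bd.cmul (J_one G) 2 (Bd.add (J_one G) (Bd.mul (J_one G) (bd_G G) (bd_D G i)) ?_)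
  exact Bd.sum (J_one G) _ fun j => Bd.mul (J_one G) (bd_DD G j i) (bd_D G j)

lemma bd_DQ1 (i : Fin d) : Bd (J G) 2 (fun s => D i (Q 1 (G s)) 0) := by
  have e : (fun s => D i (Q 1 (G s)) 0) = fun s => 2 * ∑ j, D j (D i (G s)) 0 * D j (G s) 0 :=
    funext fun s => D_Q1 (hs s) i 0
  rw [e]
  exact Bd.cmul (J_one G) 2 (Bd.sum (J_one G) _ fun j =>
    Bd.mul (J_one G) (bd_DD G j i) (bd_D G j))

lemma bd_DDEn (i : Fin d) : Bd (J G) 2 (fun s => D i (D i (En (G s))) 0) := by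
  have e : (fun s => D i (D i (En (G s))) 0) = fun s => 2 * ((D i (G s) 0 * D i (G s) 0 +
      G s 0 * D i (D i (G s)) 0) + ∑ j, (D i (D j (D i (G s))) 0 * D j (G s) 0 +
        D j (D i (G s)) 0 * D i (D j (G s)) 0)) := by
    funext s
    have hf := hs s
    have e1 : D i (En (G s)) = fun y => 2 * (G s y * D i (G s) y +
        ∑ j, D j (D i (G s)) y * D j (G s) y) := funext fun y => D_En hf i y
    have s1 : ContDiff ℝ ∞ fun y => G s y * D i (G s) y := hf.mul (D_sm hf i)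
    have s3 : ∀ j, ContDiff ℝ ∞ fun y => D j (D i (G s)) y * D j (G s) y := fun j =>
      (D_sm (D_sm hf i) j).mul (D_sm hf j)
    have s2 : ContDiff ℝ ∞ fun y => ∑ j, D j (D i (G s)) y * D j (G s) y :=
      ContDiff.sum fun j _ => s3 j
    have e2 := D_mul (f := fun _ => (2 : ℝ)) (g := fun y => G s y * D i (G s) y +
        ∑ j, D j (D i (G s)) y * D j (G s) y) contDiff_const (s1.add s2) i 0
    have e3 : D i (fun _ : E d => (2 : ℝ)) 0 = 0 := by unfold D; simp
    rw [e3, zero_mul, zero_add] at e2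
    rw [e1, e2, D_add s1 s2, D_mul hf (D_sm hf i)]
    have e4 : D i (fun y => ∑ j, D j (D i (G s)) y * D j (G s) y) 0 =
        ∑ j, D i (fun y => D j (D i (G s)) y * D j (G s) y) 0 := D_sum _ s3 i 0
    rw [e4]
    congr 2
    refine Finset.sum_congr rfl fun j _ => ?_
    exact D_mul (D_sm (D_sm hf i) j) (D_sm hf j) i 0
  rw [e]
  have hL := J_one G
  refine Bd.cmul hL 2 (Bd.add hL (Bd.add hL (Bd.mul hL (bd_D G i) (bd_D G i))
    (Bd.mul hL (bd_G G) (bd_DD G i i))) ?_)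
  exact Bd.sum hL _ fun j => Bd.add hL (Bd.mul hL (bd_DDD G i j i) (bd_D G j))
    (Bd.mul hL (bd_DD G j i) (bd_DD G i j))

lemma bd_XX : Bd (J G) 3 (fun s => XX (G s) 0) :=
  Bd.sum (J_one G) _ fun i => Bd.mul (J_one G) (bd_D G i) (bd_DEn hs i)

lemma bd_YY : Bd (J G) 4 (fun s => YY (G s) 0) :=
  Bd.sum (J_one G) _ fun i => Bd.pow (J_one G) (bd_DEn hs i) 2

omit hs in
lemma bd_wt (n m : ℕ) : Bd (J G) (2 * n + m) (fun s => wt n m (G s) 0) := by
  have h1 := Bd.pow (J_one G) (bd_En G) n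
  have h2 := Bd.pow (J_one G) (bd_G G) m
  have h := Bd.mul (J_one G) h1 h2
  have e : n * 2 + m * 1 = 2 * n + m := by ring
  rw [e] at h
  exact h

lemma bd_Dwt (n m : ℕ) (i : Fin d) : Bd (J G) (2 * n + m) (fun s => D i (wt n m (G s)) 0) := by
  have e : (fun s => D i (wt n m (G s)) 0) = fun s =>
      (n * En (G s) 0 ^ (n - 1) * G s 0 ^ m) * D i (En (G s)) 0 +
      (En (G s) 0 ^ n * (m * G s 0 ^ (m - 1))) * D i (G s) 0 := funext fun s => D_wt n m (hs s) i 0
  rw [e]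
  have hL := J_one G
  refine Bd.add hL ?_ ?_
  · rcases Nat.eq_zero_or_pos n with h0 | h0
    · subst h0
      simpa using Bd.zero hL m
    · have h1 := Bd.mul hL (Bd.mul hL (Bd.mul hL (Bd.const hL (n : ℝ))
        (Bd.pow hL (bd_En G) (n - 1))) (Bd.pow hL (bd_G G) m)) (bd_DEn hs i)
      exact Bd.mono hL (by omega) h1
  · rcases Nat.eq_zero_or_pos m with h0 | h0
    · subst h0
      simpa using Bd.zero hL (2 * n)
    · have h1 := Bd.mul hL (Bd.mul hL (Bd.pow hL (bd_En G) n) (Bd.mul hL (Bd.const hL (m : ℝ))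
        (Bd.pow hL (bd_G G) (m - 1)))) (bd_D G i)
      exact Bd.mono hL (by omega) h1

end bd

lemma sf_XX {G : S → E d → ℝ} (h : SF τ G) : SF τ (fun s => XX (G s)) :=
  sf_sum _ fun i => (h.der i).mul ((sf_En h).der i)

lemma sf_YY {G : S → E d → ℝ} (h : SF τ G) : SF τ (fun s => YY (G s)) := by
  have h1 : SF τ (fun s y => ∑ i, D i (En (G s)) y * D i (En (G s)) y) :=
    sf_sum _ fun i => ((sf_En h).der i).mul ((sf_En h).der i)
  have e : (fun s => YY (G s)) = fun s y => ∑ i, D i (En (G s)) y * D i (En (G s)) y := by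
    funext s y
    exact Finset.sum_congr rfl fun i _ => sq _
  rw [e]; exact h1

/-- moments -/
def aa (P : Measure S) (G : S → E d → ℝ) (n m : ℕ) : ℝ := ∫ s, wt n m (G s) 0 ∂P

/-- moments with `∇f · ∇P` -/
def xx (P : Measure S) (G : S → E d → ℝ) (n m : ℕ) : ℝ := ∫ s, wt n m (G s) 0 * XX (G s) 0 ∂P

/-- moments with `|∇P|²` -/
def yy (P : Measure S) (G : S → E d → ℝ) (n m : ℕ) : ℝ := ∫ s, wt n m (G s) 0 * YY (G s) 0 ∂P

section main

variable [IsProbabilityMeasure P] (hτ : ∀ x, MeasurePreserving (τ x) P P) {N : ℕ} (hN : 1 ≤ N)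
  {G : S → E d → ℝ} (W : Wn N P τ G)

include hτ hN W

lemma int_bd {r : ℕ} (hr : r ≤ N) {g : S → ℝ} (mg : Measurable g) (hg : Bd (J G) r g) :
    Integrable g P := Bd.int (J_one G) (J_int hτ hN W) hr mg hg

lemma aa_int {n m : ℕ} (h : 2 * n + m ≤ N) : Integrable (fun s => wt n m (G s) 0) P :=
  int_bd hτ hN W h ((sf_wt n m W.sf).meas 0) (bd_wt n m)

lemma xx_int {n m : ℕ} (h : 2 * n + m + 3 ≤ N) :
    Integrable (fun s => wt n m (G s) 0 * XX (G s) 0) P :=
  int_bd hτ hN W h (((sf_wt n m W.sf).meas 0).mul ((sf_XX W.sf).meas 0))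
    (Bd.mul (J_one G) (bd_wt n m) (bd_XX W.sf.smooth))

lemma yy_int {n m : ℕ} (h : 2 * n + m + 4 ≤ N) :
    Integrable (fun s => wt n m (G s) 0 * YY (G s) 0) P :=
  int_bd hτ hN W h (((sf_wt n m W.sf).meas 0).mul ((sf_YY W.sf).meas 0))
    (Bd.mul (J_one G) (bd_wt n m) (bd_YY W.sf.smooth))

/-- the divergence of `En^n f^m |∇f|² ∇En` has mean zero -/
lemma div_a {n m : ℕ} (h : 2 * n + m + 4 ≤ N) :
    Integrable (fun s => Q 1 (G s) 0 * ((n * En (G s) 0 ^ (n - 1) * G s 0 ^ m) * YY (G s) 0 +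
        (En (G s) 0 ^ n * (m * G s 0 ^ (m - 1))) * XX (G s) 0) +
      wt n m (G s) 0 * (YY (G s) 0 - 2 * G s 0 * XX (G s) 0) +
      wt n m (G s) 0 * (Q 1 (G s) 0 * Lap (En (G s)) 0)) P ∧
    ∫ s, (Q 1 (G s) 0 * ((n * En (G s) 0 ^ (n - 1) * G s 0 ^ m) * YY (G s) 0 +
        (En (G s) 0 ^ n * (m * G s 0 ^ (m - 1))) * XX (G s) 0) +
      wt n m (G s) 0 * (YY (G s) 0 - 2 * G s 0 * XX (G s) 0) +
      wt n m (G s) 0 * (Q 1 (G s) 0 * Lap (En (G s)) 0)) ∂P = 0 := by
  have hL := J_one G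
  have sW := sf_wt n m W.sf
  have sQ := sf_Q 1 W.sf
  have sE := sf_En W.sf
  have sF : ∀ i, SF τ (fun s z => wt n m (G s) z * Q 1 (G s) z * D i (En (G s)) z) := fun i =>
    (sW.mul sQ).mul (sE.der i)
  have i0 : ∀ i, Integrable (fun s => wt n m (G s) 0 * Q 1 (G s) 0 * D i (En (G s)) 0) P :=
    fun i => int_bd hτ hN W (r := 2 * n + m + 2 + 2) (by omega) ((sF i).meas 0)
      (Bd.mul hL (Bd.mul hL (bd_wt n m) (bd_Q1 G)) (bd_DEn W.sf.smooth i))
  have e1 : ∀ i s, D i (fun z => wt n m (G s) z * Q 1 (G s) z * D i (En (G s)) z) 0 =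
      (D i (wt n m (G s)) 0 * Q 1 (G s) 0 + wt n m (G s) 0 * D i (Q 1 (G s)) 0) *
        D i (En (G s)) 0 + wt n m (G s) 0 * Q 1 (G s) 0 * D i (D i (En (G s))) 0 := by
    intro i s
    have hf := W.sf.smooth s
    rw [D_mul ((wt_sm n m hf).mul (Q_sm 1 hf)) (D_sm (En_sm hf) i), D_mul (wt_sm n m hf) (Q_sm 1 hf)]
  have i1 : ∀ i, Integrable (fun s =>
      D i (fun z => wt n m (G s) z * Q 1 (G s) z * D i (En (G s)) z) 0) P := fun i => by
    refine int_bd hτ hN W (r := 2 * n + m + 2 + 2) (by omega) (((sF i).der i).meas 0) ?_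
    simp only [e1]
    exact Bd.add hL (Bd.mul hL (Bd.add hL (Bd.mul hL (bd_Dwt W.sf.smooth n m i) (bd_Q1 G))
      (Bd.mul hL (bd_wt n m) (bd_DQ1 W.sf.smooth i))) (bd_DEn W.sf.smooth i))
      (Bd.mul hL (Bd.mul hL (bd_wt n m) (bd_Q1 G)) (bd_DDEn W.sf.smooth i))
  have z : ∀ i, ∫ s, D i (fun z => wt n m (G s) z * Q 1 (G s) z * D i (En (G s)) z) 0 ∂P = 0 :=
    fun i => div0 hτ (sF i) i (i0 i) (i1 i)
  have e2 : ∀ s, ∑ i, D i (fun z => wt n m (G s) z * Q 1 (G s) z * D i (En (G s)) z) 0 =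
      Q 1 (G s) 0 * ((n * En (G s) 0 ^ (n - 1) * G s 0 ^ m) * YY (G s) 0 +
        (En (G s) 0 ^ n * (m * G s 0 ^ (m - 1))) * XX (G s) 0) +
      wt n m (G s) 0 * (YY (G s) 0 - 2 * G s 0 * XX (G s) 0) +
      wt n m (G s) 0 * (Q 1 (G s) 0 * Lap (En (G s)) 0) := fun s =>
    div_one (W.sf.smooth s) (wt_sm n m (W.sf.smooth s))
      (fun i => D_wt n m (W.sf.smooth s) i 0)
  simp only [← e2]
  refine ⟨integrable_finsetSum _ fun i _ => i1 i, ?_⟩
  rw [integral_finsetSum _ fun i _ => i1 i]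
  simp only [z, Finset.sum_const_zero]

/-- the basic inequality -/
lemma x_step (n i : ℕ) (h : 2 * n + 2 * i + 4 ≤ N) :
    3 / 2 * yy P G n (2 * i) + 2 * i * xx P G (n + 1) (2 * i - 1) ≤
      (2 * i + 4) * xx P G n (2 * i + 1) := by
  obtain ⟨ii, hz⟩ := div_a hτ hN W (n := n) (m := 2 * i) h
  have iy := yy_int hτ hN W (n := n) (m := 2 * i) h
  have ix := xx_int hτ hN W (n := n) (m := 2 * i + 1) (by omega)
  have ix2 : Integrable (fun s => (2 * i : ℝ) * (wt (n + 1) (2 * i - 1) (G s) 0 * XX (G s) 0)) P := by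
    rcases Nat.eq_zero_or_pos i with h0 | h0
    · subst h0
      simp
    · exact (xx_int hτ hN W (n := n + 1) (m := 2 * i - 1) (by omega)).const_mul _
  have hle : ∫ s, (3 / 2 * (wt n (2 * i) (G s) 0 * YY (G s) 0) +
      (2 * i : ℝ) * (wt (n + 1) (2 * i - 1) (G s) 0 * XX (G s) 0) -
      (2 * i + 4 : ℝ) * (wt n (2 * i + 1) (G s) 0 * XX (G s) 0)) ∂P ≤ 0 := by
    rw [← hz]
    refine integral_mono (((iy.const_mul _).add ix2).sub (ix.const_mul _)) ii fun s => ?_
    have hf := W.sf.smooth s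
    have k := key hf (W.eq s) 0
    have w0 : 0 ≤ wt n (2 * i) (G s) 0 := by
      unfold wt
      rw [pow_mul]
      exact mul_nonneg (pow_nonneg (En_nn _ _) _) (pow_nonneg (sq_nonneg _) _)
    have k2 := mul_le_mul_of_nonneg_left k w0
    have y0 := YY_nn (G s) 0
    have q0 := Q_nn 1 (G s) 0
    have E0 := En_nn (G s) 0
    have a0 : 0 ≤ Q 1 (G s) 0 * ((n * En (G s) 0 ^ (n - 1) * G s 0 ^ (2 * i)) * YY (G s) 0) := by
      refine mul_nonneg q0 (mul_nonneg (mul_nonneg (mul_nonneg (Nat.cast_nonneg _)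
        (pow_nonneg E0 _)) ?_) y0)
      rw [pow_mul]; exact pow_nonneg (sq_nonneg _) _
    have e : Q 1 (G s) 0 * (En (G s) 0 ^ n * (((2 * i : ℕ) : ℝ) * G s 0 ^ (2 * i - 1)) * XX (G s) 0) =
        (2 * i : ℝ) * (wt (n + 1) (2 * i - 1) (G s) 0 * XX (G s) 0) -
        (2 * i : ℝ) * (wt n (2 * i + 1) (G s) 0 * XX (G s) 0) := by
      have hq : Q 1 (G s) 0 = En (G s) 0 - G s 0 ^ 2 := by unfold En; ring
      rcases Nat.eq_zero_or_pos i with h0 | h0
      · subst h0; simp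
      · have e1 : (2 * i + 1 : ℕ) = (2 * i - 1) + 2 := by omega
        unfold wt
        rw [hq, e1, pow_add (G s 0)]
        push_cast
        ring
    have e3 : wt n (2 * i + 1) (G s) 0 = wt n (2 * i) (G s) 0 * G s 0 := by
      unfold wt; ring
    show 3 / 2 * (wt n (2 * i) (G s) 0 * YY (G s) 0) +
      (2 * i : ℝ) * (wt (n + 1) (2 * i - 1) (G s) 0 * XX (G s) 0) -
      (2 * i + 4 : ℝ) * (wt n (2 * i + 1) (G s) 0 * XX (G s) 0) ≤ _
    rw [mul_add (Q 1 (G s) 0), e]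
    rw [e3] at e ⊢
    nlinarith
  have e4 : ∫ s, (3 / 2 * (wt n (2 * i) (G s) 0 * YY (G s) 0) +
      (2 * i : ℝ) * (wt (n + 1) (2 * i - 1) (G s) 0 * XX (G s) 0) -
      (2 * i + 4 : ℝ) * (wt n (2 * i + 1) (G s) 0 * XX (G s) 0)) ∂P =
      3 / 2 * yy P G n (2 * i) + 2 * i * xx P G (n + 1) (2 * i - 1) -
      (2 * i + 4) * xx P G n (2 * i + 1) := by
    have iA : Integrable (fun s => 3 / 2 * (wt n (2 * i) (G s) 0 * YY (G s) 0) +
      (2 * i : ℝ) * (wt (n + 1) (2 * i - 1) (G s) 0 * XX (G s) 0)) P := (iy.const_mul _).add ix2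
    rw [integral_sub iA (ix.const_mul _), integral_add (iy.const_mul _) ix2, integral_const_mul,
      integral_const_mul, integral_const_mul]
    rfl
  rw [e4] at hle
  linarith

lemma yy_nn (n i : ℕ) : 0 ≤ yy P G n (2 * i) := by
  refine integral_nonneg fun s => mul_nonneg ?_ (YY_nn _ _)
  unfold wt
  rw [pow_mul]
  exact mul_nonneg (pow_nonneg (En_nn _ _) _) (pow_nonneg (sq_nonneg _) _)

lemma xx_pos (i : ℕ) : ∀ n, 2 * n + 2 * i + 4 ≤ N → 0 ≤ xx P G n (2 * i + 1) := by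
  induction i with
  | zero =>
    intro n h
    have h1 := x_step hτ hN W n 0 h
    have h2 := yy_nn hτ hN W n 0
    simp only [mul_zero, Nat.cast_zero, zero_mul, zero_add, add_zero] at h1 h2 ⊢
    linarith
  | succ i ih =>
    intro n h
    have h1 := x_step hτ hN W n (i + 1) h
    have h2 := yy_nn hτ hN W n (i + 1)
    have h3 := ih (n + 1) (by omega)
    have e : 2 * (i + 1) - 1 = 2 * i + 1 := by omega
    rw [e] at h1
    push_cast at h1
    have i0 : (0 : ℝ) ≤ i := Nat.cast_nonneg _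
    have h4 : 0 ≤ 2 * ((i : ℝ) + 1) * xx P G (n + 1) (2 * i + 1) := by positivity
    have h5 : 0 ≤ (2 * ((i : ℝ) + 1) + 4) * xx P G n (2 * (i + 1) + 1) := by linarith
    exact nonneg_of_mul_nonneg_right h5 (by positivity)

lemma xx_yy (n : ℕ) (h : 2 * n + 4 ≤ N) : 3 / 8 * yy P G n 0 ≤ xx P G n 1 := by
  have h1 := x_step hτ hN W n 0 (by omega)
  simp only [mul_zero, Nat.cast_zero, zero_mul, zero_add, add_zero] at h1
  linarith

/-- the divergence of `En^n f^m ∇f` has mean zero -/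
lemma a_step (n l : ℕ) (h : 2 * n + 2 * l + 2 ≤ N) :
    (2 * l + 2) * aa P G n (2 * l + 2) =
      (2 * l + 1) * aa P G (n + 1) (2 * l) + n * xx P G (n - 1) (2 * l + 1) := by
  have hL := J_one G
  have sW := sf_wt n (2 * l + 1) W.sf
  have sF : ∀ i, SF τ (fun s z => wt n (2 * l + 1) (G s) z * D i (G s) z) := fun i =>
    sW.mul (W.sf.der i)
  have i0 : ∀ i, Integrable (fun s => wt n (2 * l + 1) (G s) 0 * D i (G s) 0) P :=
    fun i => int_bd hτ hN W (r := 2 * n + (2 * l + 1) + 1) (by omega) ((sF i).meas 0)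
      (Bd.mul hL (bd_wt n _) (bd_D G i))
  have e1 : ∀ i s, D i (fun z => wt n (2 * l + 1) (G s) z * D i (G s) z) 0 =
      D i (wt n (2 * l + 1) (G s)) 0 * D i (G s) 0 + wt n (2 * l + 1) (G s) 0 *
        D i (D i (G s)) 0 := fun i s =>
    D_mul (wt_sm n _ (W.sf.smooth s)) (D_sm (W.sf.smooth s) i) i 0
  have i1 : ∀ i, Integrable (fun s => D i (fun z => wt n (2 * l + 1) (G s) z * D i (G s) z) 0) P :=
    fun i => by
    refine int_bd hτ hN W (r := 2 * n + (2 * l + 1) + 1) (by omega) (((sF i).der i).meas 0) ?_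
    simp only [e1]
    exact Bd.add hL (Bd.mul hL (bd_Dwt W.sf.smooth n _ i) (bd_D G i))
      (Bd.mul hL (bd_wt n _) (bd_DD G i i))
  have z : ∀ i, ∫ s, D i (fun z => wt n (2 * l + 1) (G s) z * D i (G s) z) 0 ∂P = 0 :=
    fun i => div0 hτ (sF i) i (i0 i) (i1 i)
  have e2 : ∀ s, ∑ i, D i (fun z => wt n (2 * l + 1) (G s) z * D i (G s) z) 0 =
      n * (wt (n - 1) (2 * l + 1) (G s) 0 * XX (G s) 0) +
      (2 * l + 1) * wt (n + 1) (2 * l) (G s) 0 - (2 * l + 2) * wt n (2 * l + 2) (G s) 0 := by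
    intro s
    have hq : Q 1 (G s) 0 = En (G s) 0 - G s 0 ^ 2 := by unfold En; ring
    rw [div_two (W.sf.smooth s) (wt_sm n _ (W.sf.smooth s))
      (fun i => D_wt n _ (W.sf.smooth s) i 0), W.eq, hq]
    have e3 : 2 * l + 1 - 1 = 2 * l := by omega
    rw [e3]
    unfold wt
    push_cast
    ring
  have ix : Integrable (fun s => (n : ℝ) * (wt (n - 1) (2 * l + 1) (G s) 0 * XX (G s) 0)) P := by
    rcases Nat.eq_zero_or_pos n with h0 | h0
    · subst h0; simp
    · exact (xx_int hτ hN W (n := n - 1) (m := 2 * l + 1) (by omega)).const_mul _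
  have ia := aa_int hτ hN W (n := n + 1) (m := 2 * l) (by omega)
  have ib := aa_int hτ hN W (n := n) (m := 2 * l + 2) (by omega)
  have z2 : ∫ s, ∑ i, D i (fun z => wt n (2 * l + 1) (G s) z * D i (G s) z) 0 ∂P = 0 := by
    rw [integral_finsetSum _ fun i _ => i1 i]
    simp only [z, Finset.sum_const_zero]
  simp only [e2] at z2
  have iA : Integrable (fun s => n * (wt (n - 1) (2 * l + 1) (G s) 0 * XX (G s) 0) +
      (2 * l + 1) * wt (n + 1) (2 * l) (G s) 0) P := ix.add (ia.const_mul _)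
  rw [integral_sub iA (ib.const_mul _), integral_add ix (ia.const_mul _), integral_const_mul,
    integral_const_mul, integral_const_mul] at z2
  unfold aa xx
  linarith

/-- the constants -/
def cc (j : ℕ) : ℝ := (Nat.centralBinom j : ℝ) / 4 ^ j

omit hτ hN W [IsProbabilityMeasure P] in
lemma cc_zero : cc 0 = 1 := by unfold cc; simp

omit hτ hN W [IsProbabilityMeasure P] in
lemma cc_succ (j : ℕ) : (2 * j + 2) * cc (j + 1) = (2 * j + 1) * cc j := by
  unfold cc
  have h := Nat.succ_mul_centralBinom_succ j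
  have h2 : ((j : ℝ) + 1) * (Nat.centralBinom (j + 1) : ℝ) =
      2 * (2 * j + 1) * (Nat.centralBinom j : ℝ) := by exact_mod_cast h
  rw [pow_succ]
  field_simp
  linarith

omit hτ hN W [IsProbabilityMeasure P] in
lemma cc_pos (j : ℕ) : 0 < cc j := by
  unfold cc
  have := Nat.centralBinom_pos j
  positivity

/-- the chain -/
lemma chain {k : ℕ} (hk : 2 ≤ k) (hkN : 2 * k ≤ N) (j : ℕ) (h1 : 1 ≤ j) (hj : j ≤ k) :
    cc j * (aa P G k 0 + (k - 1) * xx P G (k - 2) 1) ≤ aa P G (k - j) (2 * j) := by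
  induction j, h1 using Nat.le_induction with
  | base =>
    have h := a_step hτ hN W (k - 1) 0 (by omega)
    have e1 : k - 1 + 1 = k := by omega
    have e2 : k - 1 - 1 = k - 2 := by omega
    have e3 : ((k - 1 : ℕ) : ℝ) = (k : ℝ) - 1 := by
      rw [Nat.cast_sub (by omega)]; simp
    rw [e1, e2, e3] at h
    simp only [Nat.cast_zero, mul_zero, zero_add] at h
    have hc := cc_succ 0
    rw [cc_zero] at hc
    simp only [Nat.cast_zero, mul_zero, zero_add, mul_one] at hc ⊢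
    have hc1 : cc 1 = 1 / 2 := by linarith
    rw [hc1]
    linarith
  | succ j h1 ih =>
    have ih := ih (by omega)
    have h := a_step hτ hN W (k - (j + 1)) j (by omega)
    have e1 : k - (j + 1) + 1 = k - j := by omega
    rw [e1] at h
    have hx : 0 ≤ ((k - (j + 1) : ℕ) : ℝ) * xx P G (k - (j + 1) - 1) (2 * j + 1) := by
      rcases Nat.eq_zero_or_pos (k - (j + 1)) with h0 | h0
      · rw [h0]; simp
      · exact mul_nonneg (Nat.cast_nonneg _) (xx_pos hτ hN W j _ (by omega))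
    have hc := cc_succ j
    have e2 : 2 * (j + 1) = 2 * j + 2 := by ring
    rw [e2]
    have j0 : (0 : ℝ) ≤ j := Nat.cast_nonneg _
    have h3 : (2 * (j : ℝ) + 1) * (cc j * (aa P G k 0 + (k - 1) * xx P G (k - 2) 1)) ≤
        (2 * j + 1) * aa P G (k - j) (2 * j) := mul_le_mul_of_nonneg_left ih (by positivity)
    have h4 : (2 * (j : ℝ) + 2) * (cc (j + 1) * (aa P G k 0 + (k - 1) * xx P G (k - 2) 1)) ≤
        (2 * j + 2) * aa P G (k - (j + 1)) (2 * j + 2) := by
      rw [← mul_assoc, hc, mul_assoc, h]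
      linarith
    exact le_of_mul_le_mul_left h4 (by positivity)

/-- the main inequality -/
theorem main_ineq {k : ℕ} (hk : 2 ≤ k) (hkN : 2 * k ≤ N) :
    cc k * (aa P G k 0 + 3 / 8 * (k - 1) * yy P G (k - 2) 0) ≤ aa P G 0 (2 * k) := by
  have h := chain hτ hN W hk hkN k (by omega) le_rfl
  rw [Nat.sub_self] at h
  refine le_trans (mul_le_mul_of_nonneg_left ?_ (cc_pos k).le) h
  have h2 := xx_yy hτ hN W (k - 2) (by omega)
  have k1 : (0 : ℝ) ≤ (k : ℝ) - 1 := by
    have : (2 : ℝ) ≤ k := by exact_mod_cast hk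
    linarith
  nlinarith

/-- the equality for plane waves -/
theorem main_eq (h0 : ∀ᵐ s ∂P, XX (G s) 0 = 0) {k : ℕ} (hkN : 2 * k ≤ N) (j : ℕ) (hj : j ≤ k) :
    aa P G (k - j) (2 * j) = cc j * aa P G k 0 := by
  have hx : ∀ n m, xx P G n m = 0 := by
    intro n m
    unfold xx
    refine integral_eq_zero_of_ae ?_
    filter_upwards [h0] with s hs
    rw [hs]; simp
  induction j with
  | zero => rw [cc_zero]; simp
  | succ j ih =>
    have ih := ih (by omega)
    have h := a_step hτ hN W (k - (j + 1)) j (by omega)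
    have e1 : k - (j + 1) + 1 = k - j := by omega
    rw [e1, hx, mul_zero, add_zero, ih] at h
    have hc := cc_succ j
    have e2 : 2 * (j + 1) = 2 * j + 2 := by ring
    rw [e2]
    have j0 : (0 : ℝ) ≤ j := Nat.cast_nonneg _
    have h4 : (2 * (j : ℝ) + 2) * aa P G (k - (j + 1)) (2 * j + 2) =
        (2 * j + 2) * (cc (j + 1) * aa P G k 0) := by
      rw [h, ← mul_assoc, ← mul_assoc, hc]
    exact mul_left_cancel₀ (by positivity) h4

end main

end

end Pool.Agent.W2helper36.EM
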