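import Pool.Agent.W2helper36.EM.C
import Pool.Agent.W2helper17.FM.F

/-!
Project EM (helper36): all even moments of translation invariant laws on the space of waves.
-/

set_option autoImplicit false
set_option linter.unusedSectionVars false
open MeasureTheory Filter Topology
open scoped ContDiff ENNReal

namespace Pool.Agent.W2helper36.EM

open Pool.Agent.Y139.SW Pool.Agent.W2helper17.FM

noncomputable section

variable {d : ℕ}

lemma tang {x y : ℝ} (hx : 0 ≤ x) (hy : 0 ≤ y) (k : ℕ) (hk : 2 ≤ k) :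
    y ^ k + k * y ^ (k - 1) * (x - y) + y ^ (k - 2) * (x - y) ^ 2 ≤ x ^ k := by
  induction k, hk using Nat.le_induction with
  | base => simp; nlinarith
  | succ k hk ih =>
    obtain ⟨m, rfl⟩ : ∃ m, k = m + 2 := ⟨k - 2, by omega⟩
    have e1 : m + 2 - 1 = m + 1 := by omega
    have e2 : m + 2 - 2 = m := by omega
    have e3 : m + 2 + 1 - 1 = m + 2 := by omega
    have e4 : m + 2 + 1 - 2 = m + 1 := by omega
    rw [e1, e2] at ih
    rw [e3, e4]
    have h1 := mul_le_mul_of_nonneg_left ih hx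
    have ym : 0 ≤ y ^ m := pow_nonneg hy m
    have h2 : 0 ≤ x * (y ^ m * (x - y) ^ 2) := by positivity
    have h3 : 0 ≤ (m + 1 : ℝ) * (y ^ (m + 1) * (x - y) ^ 2) := by positivity
    push_cast at h1 ⊢
    have e5 : x ^ (m + 2 + 1) = x * x ^ (m + 2) := by ring
    rw [e5]
    refine le_trans ?_ h1
    have e6 : x * (y ^ (m + 2) + ((m : ℝ) + 2) * y ^ (m + 1) * (x - y) + y ^ m * (x - y) ^ 2) -
        (y ^ (m + 2 + 1) + ((m : ℝ) + 2 + 1) * y ^ (m + 2) * (x - y) +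
          y ^ (m + 1) * (x - y) ^ 2) =
        x * (y ^ m * (x - y) ^ 2) + (m + 1 : ℝ) * (y ^ (m + 1) * (x - y) ^ 2) := by
      ring
    linarith

lemma young {a b : ℝ} (ha : 0 ≤ a) (hb : 0 ≤ b) {k : ℕ} (hk : 1 ≤ k) :
    a ^ (k - 1) * b ≤ a ^ k + b ^ k := by
  obtain ⟨m, rfl⟩ : ∃ m, k = m + 1 := ⟨k - 1, by omega⟩
  have e1 : m + 1 - 1 = m := by omega
  rw [e1]
  rcases le_total a b with h | h
  · have : a ^ m * b ≤ b ^ m * b := mul_le_mul_of_nonneg_right (pow_le_pow_left₀ ha h m) hb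
    have h2 : 0 ≤ a ^ (m + 1) := pow_nonneg ha _
    rw [pow_succ b]; linarith
  · have : a ^ m * b ≤ a ^ m * a := mul_le_mul_of_nonneg_left h (pow_nonneg ha m)
    have h2 : 0 ≤ b ^ (m + 1) := pow_nonneg hb _
    rw [pow_succ a]; linarith

variable {μ : Measure (Sp d)} [IsProbabilityMeasure μ]

section

variable {k : ℕ} (hk : 2 ≤ k) (h : Integrable (fun f : Sp d => f.1 0 ^ (2 * k)) μ)

include hk h

lemma Wn_of : Wn (2 * k) μ sh (fun f : Sp d => f.1) := by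
  have sf : SF sh (fun f : Sp d => f.1) :=
    ⟨fun y => (measurable_pi_apply y).comp measurable_subtype_coe, fun f => f.2.1,
      fun _ _ _ => rfl⟩
  refine ⟨sf, fun f y => f.2.2 y, ?_⟩
  rw [ln_iff (by omega) (sf.meas 0)]
  have h2 := h.2
  unfold HasFiniteIntegral at h2
  have e : ∀ f : Sp d, ‖f.1 0 ^ (2 * k)‖ₑ = ‖f.1 0‖ₑ ^ (2 * k) := fun f => enorm_pow _ _
  simp only [e] at h2
  exact h2.ne

lemma int4 : Integrable (fun f : Sp d => f.1 0 ^ 4) μ := by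
  have W := Wn_of hk h
  refine Integrable.mono' ((integrable_const (1 : ℝ)).add h)
    ((W.sf.meas 0).pow_const 4).aestronglyMeasurable (ae_of_all _ fun f => ?_)
  have e : f.1 0 ^ (2 * k) = (f.1 0 ^ 2) ^ k := by rw [pow_mul]
  have e4 : f.1 0 ^ 4 = (f.1 0 ^ 2) ^ 2 := by ring
  have x0 : 0 ≤ f.1 0 ^ 2 := sq_nonneg _
  show ‖f.1 0 ^ 4‖ ≤ 1 + f.1 0 ^ (2 * k)
  rw [e, e4, Real.norm_eq_abs, abs_of_nonneg (by positivity)]
  rcases le_total (f.1 0 ^ 2) 1 with h1 | h1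
  · have : (f.1 0 ^ 2) ^ 2 ≤ 1 := pow_le_one₀ x0 h1
    have : 0 ≤ (f.1 0 ^ 2) ^ k := pow_nonneg x0 _
    linarith
  · have := pow_le_pow_right₀ h1 hk
    linarith

lemma mass_ae : ∀ᵐ f ∂μ, 0 ≤ mass μ f := by
  have := condExp_nonneg (μ := μ) (m := inv d) (f := fun f : Sp d => f.1 0 ^ 2)
    (ae_of_all _ fun f => sq_nonneg _)
  exact this

lemma mass_lk : MemLp (mass μ) k μ := by
  have W := Wn_of hk h
  have h2 : MemLp (fun f : Sp d => f.1 0 ^ 2) k μ := by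
    rw [ln_iff (by omega) ((W.sf.meas 0).pow_const 2)]
    have := (ln_iff (by omega) (W.sf.meas 0)).1 W.ln
    have e : ∀ f : Sp d, ‖f.1 0 ^ 2‖ₑ ^ k = ‖f.1 0‖ₑ ^ (2 * k) := fun f => by
      rw [enorm_pow, ← pow_mul]
    simp only [e]
    exact this
  exact h2.condExp (by exact_mod_cast (by omega : 1 ≤ k))

lemma mass_me' : Measurable (mass μ) := mass_me.mono inv_le le_rfl

lemma mass_ik : Integrable (fun f => |mass μ f| ^ k) μ := by
  have := (mass_lk hk h).integrable_norm_pow (by omega)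
  exact this

lemma mass_ik' : Integrable (fun f => mass μ f ^ k) μ := by
  refine Integrable.mono' (mass_ik hk h) ((mass_me' hk h).pow_const k).aestronglyMeasurable
    (ae_of_all _ fun f => ?_)
  rw [Real.norm_eq_abs, abs_pow]

variable (hμ : ∀ x : E d, MeasurePreserving (sh x) μ μ)

include hμ

/-- integrability of `m^(k-1) g` -/
lemma mg_int {g : Sp d → ℝ} (mg : Measurable g) (bg : Bd (J fun f : Sp d => f.1) 2 g) :
    Integrable (fun f => mass μ f ^ (k - 1) * g f) μ := by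
  have W := Wn_of hk h
  obtain ⟨C, c0, hC⟩ := bg
  have i1 := mass_ik hk h
  have i2 := J_int hμ (by omega) W
  refine Integrable.mono' ((i1.add i2).const_mul C)
    (((mass_me' hk h).pow_const _).mul mg).aestronglyMeasurable (ae_of_all _ fun f => ?_)
  have j1 := J_one (fun f : Sp d => f.1) f
  have j0 : 0 ≤ J (fun f : Sp d => f.1) f := by linarith
  have y := young (a := |mass μ f|) (b := J (fun f : Sp d => f.1) f ^ 2) (k := k) (abs_nonneg _)
    (by positivity) (by omega)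
  rw [← pow_mul] at y
  show ‖mass μ f ^ (k - 1) * g f‖ ≤ C * (|mass μ f| ^ k + J (fun f : Sp d => f.1) f ^ (2 * k))
  rw [Real.norm_eq_abs, abs_mul, abs_pow]
  calc |mass μ f| ^ (k - 1) * |g f| ≤ |mass μ f| ^ (k - 1) * (C * J (fun f : Sp d => f.1) f ^ 2) :=
        mul_le_mul_of_nonneg_left (hC f) (by positivity)
    _ = C * (|mass μ f| ^ (k - 1) * J (fun f : Sp d => f.1) f ^ 2) := by ring
    _ ≤ _ := mul_le_mul_of_nonneg_left y c0

lemma mass_sq_eq : ∫ f, mass μ f ^ (k - 1) * f.1 0 ^ 2 ∂μ = ∫ f, mass μ f ^ k ∂μ := by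
  have W := Wn_of hk h
  have bd2 : Bd (J fun f : Sp d => f.1) 2 (fun f : Sp d => f.1 0 ^ 2) :=
    Bd.pow (J_one _) (bd_G _) 2
  have i0 : Integrable (fun f : Sp d => mass μ f ^ (k - 1) * f.1 0 ^ 2) μ :=
    mg_int hk h hμ ((W.sf.meas 0).pow_const 2) bd2
  have i2 : Integrable (fun f : Sp d => f.1 0 ^ 2) μ :=
    (sq_l2 (int4 hk h)).integrable (by norm_num)
  have sm : StronglyMeasurable[inv d] (fun f : Sp d => mass μ f ^ (k - 1)) := by
    have : Measurable[inv d] (fun f : Sp d => mass μ f ^ (k - 1)) := mass_me.pow_const _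
    exact this.stronglyMeasurable
  have h2 := condExp_mul_of_stronglyMeasurable_left (m := inv d) (μ := μ) sm i0 i2
  have h3 := integral_condExp (μ := μ) (inv_le (d := d))
    (f := (fun f : Sp d => mass μ f ^ (k - 1)) * (fun f : Sp d => f.1 0 ^ 2))
  have h4 : ∫ f, mass μ f ^ (k - 1) * f.1 0 ^ 2 ∂μ =
      ∫ f, ((fun f : Sp d => mass μ f ^ (k - 1)) * (fun f : Sp d => f.1 0 ^ 2)) f ∂μ := rfl
  rw [h4, ← h3, integral_congr_ae h2]
  refine integral_congr_ae (ae_of_all _ fun f => ?_)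
  show mass μ f ^ (k - 1) * mass μ f = mass μ f ^ k
  rw [← pow_succ]
  congr 1; omega

lemma mass_Q : ∫ f, mass μ f ^ (k - 1) * Q 1 f.1 0 ∂μ = ∫ f, mass μ f ^ k ∂μ := by
  have W := Wn_of hk h
  have hL := J_one (fun f : Sp d => f.1)
  have hs := W.sf.smooth
  rw [← mass_sq_eq hk h hμ]
  have e1 : ∀ f : Sp d, mass μ f ^ (k - 1) * Q 1 f.1 0 = mass μ f ^ (k - 1) * f.1 0 ^ 2 +
      1 / 2 * ∑ i, mass μ f ^ (k - 1) * D i (D i (fun y => f.1 y ^ 2)) 0 := by
    intro f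
    have h1 := Lap_Q 0 f.2.1 f.2.2 0
    have h2 : Q 0 f.1 = fun y => f.1 y ^ 2 := funext fun y => Q_zero _ _
    rw [h2] at h1
    unfold Lap at h1
    rw [← Finset.mul_sum, h1]; ring
  have sg : SF sh (fun (f : Sp d) y => f.1 y ^ 2) := W.sf.comp (k := fun t => t ^ 2)
    (contDiff_id.pow 2)
  have sm : SF sh (fun (f : Sp d) (_ : E d) => mass μ f ^ (k - 1)) :=
    ⟨fun _ => (mass_me' hk h).pow_const _, fun _ => contDiff_const, fun x f _ => by
      rw [inv_fun mass_me x f]⟩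
  have d1 : ∀ i (f : Sp d) y, D i (fun y => f.1 y ^ 2) y = 2 * (f.1 y * D i f.1 y) := by
    intro i f y
    rw [D_pow f.2.1]; push_cast; ring
  have d2 : ∀ i (f : Sp d), D i (D i (fun y => f.1 y ^ 2)) 0 =
      2 * (D i f.1 0 * D i f.1 0 + f.1 0 * D i (D i f.1) 0) := by
    intro i f
    have e2 : D i (fun y => f.1 y ^ 2) = fun y => 2 * (f.1 y * D i f.1 y) :=
      funext fun y => d1 i f y
    have e3 := D_mul (f := fun _ => (2 : ℝ)) (g := fun y => f.1 y * D i f.1 y) contDiff_const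
      (f.2.1.mul (D_sm f.2.1 i)) i 0
    have e4 : D i (fun _ : E d => (2 : ℝ)) 0 = 0 := by unfold D; simp
    rw [e4, zero_mul, zero_add, D_mul f.2.1 (D_sm f.2.1 i)] at e3
    rw [e2]
    exact e3
  have b1 : ∀ i, Bd (J fun f : Sp d => f.1) 2 (fun f : Sp d => D i (fun y => f.1 y ^ 2) 0) := by
    intro i
    simp only [d1]
    exact Bd.cmul hL 2 (Bd.mul hL (bd_G _) (bd_D _ i))
  have b2 : ∀ i, Bd (J fun f : Sp d => f.1) 2
      (fun f : Sp d => D i (D i (fun y => f.1 y ^ 2)) 0) := by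
    intro i
    simp only [d2]
    exact Bd.cmul hL 2 (Bd.add hL (Bd.mul hL (bd_D _ i) (bd_D _ i))
      (Bd.mul hL (bd_G _) (bd_DD _ i i)))
  have i1 := fun i => mg_int hk h hμ ((sg.der i).meas 0) (b1 i)
  have i2 := fun i => mg_int hk h hμ (((sg.der i).der i).meas 0) (b2 i)
  have i3 : Integrable (fun f : Sp d => mass μ f ^ (k - 1) * f.1 0 ^ 2) μ :=
    mg_int hk h hμ ((W.sf.meas 0).pow_const 2) (Bd.pow hL (bd_G _) 2)
  have z : ∀ i, ∫ f : Sp d, mass μ f ^ (k - 1) * D i (D i (fun y => f.1 y ^ 2)) 0 ∂μ = 0 := by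
    intro i
    have e5 : ∀ f : Sp d, D i (fun y => mass μ f ^ (k - 1) * D i (fun y => f.1 y ^ 2) y) 0 =
        mass μ f ^ (k - 1) * D i (D i (fun y => f.1 y ^ 2)) 0 := by
      intro f
      have e6 := D_mul (f := fun _ : E d => mass μ f ^ (k - 1))
        (g := D i (fun y => f.1 y ^ 2)) contDiff_const (D_sm (f.2.1.pow 2) i) i 0
      have e7 : D i (fun _ : E d => mass μ f ^ (k - 1)) 0 = 0 := by unfold D; simp
      rw [e7, zero_mul, zero_add] at e6
      exact e6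
    have := div0 hμ (sm.mul (sg.der i)) i (i1 i) (by
      simp only [e5]
      exact i2 i)
    simp only [e5] at this
    exact this
  simp only [e1]
  rw [integral_add i3 ((integrable_finsetSum _ fun i _ => i2 i).const_mul _), integral_const_mul,
    integral_finsetSum _ fun i _ => i2 i]
  simp only [z, Finset.sum_const_zero, mul_zero, add_zero]

lemma En_ik : Integrable (fun f : Sp d => En f.1 0 ^ k) μ := by
  have W := Wn_of hk h
  have := aa_int hμ (by omega) W (n := k) (m := 0) (by omega)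
  refine this.congr (ae_of_all _ fun f => ?_)
  unfold wt; simp

lemma aa_k : aa μ (fun f : Sp d => f.1) k 0 = ∫ f : Sp d, En f.1 0 ^ k ∂μ := by
  unfold aa
  refine integral_congr_ae (ae_of_all _ fun f => ?_)
  show wt k 0 f.1 0 = _
  unfold wt; simp

lemma aa_0 : aa μ (fun f : Sp d => f.1) 0 (2 * k) = ∫ f : Sp d, f.1 0 ^ (2 * k) ∂μ := by
  unfold aa
  refine integral_congr_ae (ae_of_all _ fun f => ?_)
  show wt 0 (2 * k) f.1 0 = _
  unfold wt; simp

/-- Jensen's inequality for the energy density -/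
lemma jensen : ∫ f, (2 * mass μ f) ^ k ∂μ ≤ ∫ f : Sp d, En f.1 0 ^ k ∂μ := by
  have W := Wn_of hk h
  have hL := J_one (fun f : Sp d => f.1)
  have i1 : Integrable (fun f : Sp d => (2 * mass μ f) ^ k) μ := by
    simp only [mul_pow]
    exact (mass_ik' hk h).const_mul _
  have i2 : Integrable (fun f : Sp d => mass μ f ^ (k - 1) * En f.1 0) μ :=
    mg_int hk h hμ ((sf_En W.sf).meas 0) (bd_En _)
  have i3 : Integrable (fun f : Sp d => mass μ f ^ k) μ := mass_ik' hk h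
  have e0 : ∀ f : Sp d, mass μ f ^ (k - 1) * mass μ f = mass μ f ^ k := fun f => by
    rw [← pow_succ]; congr 1; omega
  have hz : ∫ f : Sp d, (mass μ f ^ (k - 1) * En f.1 0 - 2 * mass μ f ^ k) ∂μ = 0 := by
    rw [integral_sub i2 (i3.const_mul _), integral_const_mul]
    have e1 : ∀ f : Sp d, mass μ f ^ (k - 1) * En f.1 0 =
        mass μ f ^ (k - 1) * f.1 0 ^ 2 + mass μ f ^ (k - 1) * Q 1 f.1 0 := fun f => by
      unfold En; ring
    simp only [e1]
    rw [integral_add (mg_int hk h hμ ((W.sf.meas 0).pow_const 2) (Bd.pow hL (bd_G _) 2))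
      (mg_int hk h hμ ((sf_Q 1 W.sf).meas 0) (bd_Q1 _)), mass_sq_eq hk h hμ, mass_Q hk h hμ]
    ring
  have i4 : Integrable (fun f : Sp d => (k : ℝ) * 2 ^ (k - 1) *
      (mass μ f ^ (k - 1) * En f.1 0 - 2 * mass μ f ^ k)) μ :=
    (i2.sub (i3.const_mul _)).const_mul _
  have h5 : ∫ f : Sp d, ((2 * mass μ f) ^ k + (k : ℝ) * 2 ^ (k - 1) *
      (mass μ f ^ (k - 1) * En f.1 0 - 2 * mass μ f ^ k)) ∂μ ≤ ∫ f : Sp d, En f.1 0 ^ k ∂μ := by
    refine integral_mono_ae (i1.add i4) (En_ik hk h hμ) ?_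
    filter_upwards [mass_ae hk h] with f hf
    have t := tang (x := En f.1 0) (y := 2 * mass μ f) (En_nn _ _) (by linarith) k hk
    have t2 : 0 ≤ (2 * mass μ f) ^ (k - 2) * (En f.1 0 - 2 * mass μ f) ^ 2 :=
      mul_nonneg (pow_nonneg (by linarith) _) (sq_nonneg _)
    show (2 * mass μ f) ^ k + (k : ℝ) * 2 ^ (k - 1) *
      (mass μ f ^ (k - 1) * En f.1 0 - 2 * mass μ f ^ k) ≤ En f.1 0 ^ k
    have e6 : (k : ℝ) * (2 * mass μ f) ^ (k - 1) * (En f.1 0 - 2 * mass μ f) =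
        (k : ℝ) * 2 ^ (k - 1) * (mass μ f ^ (k - 1) * En f.1 0 - 2 * mass μ f ^ k) := by
      rw [mul_pow, ← e0 f]; ring
    rw [e6] at t
    linarith
  rw [integral_add i1 i4, integral_const_mul, hz, mul_zero, add_zero] at h5
  exact h5

/-- the inequality -/
theorem ineq : cc k * (∫ f : Sp d, En f.1 0 ^ k ∂μ + 3 / 8 * (k - 1) *
    ∫ f : Sp d, En f.1 0 ^ (k - 2) * YY f.1 0 ∂μ) ≤ ∫ f : Sp d, f.1 0 ^ (2 * k) ∂μ := by
  have W := Wn_of hk h
  have h1 := main_ineq hμ (by omega) W hk le_rfl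
  rw [aa_k hk h hμ, aa_0 hk h hμ] at h1
  have e : yy μ (fun f : Sp d => f.1) (k - 2) 0 = ∫ f : Sp d, En f.1 0 ^ (k - 2) * YY f.1 0 ∂μ := by
    unfold yy
    refine integral_congr_ae (ae_of_all _ fun f => ?_)
    show wt (k - 2) 0 f.1 0 * YY f.1 0 = _
    unfold wt; simp
  rw [e] at h1
  exact h1

lemma rem_nn : 0 ≤ ∫ f : Sp d, En f.1 0 ^ (k - 2) * YY f.1 0 ∂μ :=
  integral_nonneg fun _ => mul_nonneg (pow_nonneg (En_nn _ _) _) (YY_nn _ _)

/-- vanishing at the origin gives vanishing everywhere -/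
lemma ever {H : Sp d → E d → ℝ} (sH : SF sh H) (h0 : ∀ᵐ f ∂μ, H f 0 = 0) :
    ∀ᵐ f ∂μ, ∀ y, H f y = 0 := by
  have hy : ∀ y, ∀ᵐ f ∂μ, H f y = 0 := by
    intro y
    have h1 := (hμ y).quasiMeasurePreserving.ae h0
    filter_upwards [h1] with f hf
    have e := sH.cov y f 0
    rw [zero_add] at e
    rw [← e]; exact hf
  have hall := ae_all_iff.2 fun n => hy (TopologicalSpace.denseSeq (E d) n)
  filter_upwards [hall] with f hf y
  have hz : H f = fun _ => 0 := by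
    refine Continuous.ext_on (TopologicalSpace.denseRange_denseSeq (E d))
      (sH.smooth f).continuous continuous_const ?_
    rintro _ ⟨n, rfl⟩
    exact hf n
  exact congrFun hz y

omit hk h hμ [IsProbabilityMeasure μ] in
/-- if `P^n |∇P|² = 0` everywhere then `P` is constant -/
lemma const_En {f : E d → ℝ} (hf : ContDiff ℝ ∞ f) {n : ℕ}
    (h0 : ∀ y, En f y ^ n * YY f y = 0) (y : E d) : En f y = En f 0 := by
  have h1 : ∀ i y, D i (En f) y = 0 := by
    intro i y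
    rcases mul_eq_zero.1 (h0 y) with hE | hY
    · have hE0 : En f y = 0 := by
        by_contra hne
        exact (pow_ne_zero n hne) hE
      have hm : IsLocalMin (En f) y := by
        refine Filter.Eventually.of_forall fun z => ?_
        show En f y ≤ En f z
        rw [hE0]; exact En_nn f z
      have := hm.fderiv_eq_zero
      unfold D
      rw [this]; simp
    · unfold YY at hY
      have := (Finset.sum_eq_zero_iff_of_nonneg (fun i _ => sq_nonneg (D i (En f) y))).1 hY i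
        (Finset.mem_univ i)
      exact pow_eq_zero_iff (two_ne_zero) |>.1 this
  exact const_of_D (En_sm hf) h1 y 0

/-- the equality case, first part -/
lemma eq_fwd (hd : 0 < d) (he : ∫ f : Sp d, f.1 0 ^ (2 * k) ∂μ =
    cc k * ∫ f, (2 * mass μ f) ^ k ∂μ) : ∀ᵐ f : Sp d ∂μ, ∃ a, PW a f.1 := by
  have W := Wn_of hk h
  have h1 := ineq hk h hμ
  have h2 := jensen hk h hμ
  have h3 := rem_nn hk h hμ
  have hc := cc_pos k
  have k1 : (1 : ℝ) ≤ (k : ℝ) - 1 := by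
    have : (2 : ℝ) ≤ k := by exact_mod_cast hk
    linarith
  have h4 : ∫ f : Sp d, En f.1 0 ^ (k - 2) * YY f.1 0 ∂μ = 0 := by
    rw [he] at h1
    have h5 := le_of_mul_le_mul_left h1 hc
    nlinarith
  have iy : Integrable (fun f : Sp d => En f.1 0 ^ (k - 2) * YY f.1 0) μ := by
    have := yy_int hμ (by omega) W (n := k - 2) (m := 0) (by omega)
    refine this.congr (ae_of_all _ fun f => ?_)
    unfold wt; simp
  have h5 := (integral_eq_zero_iff_of_nonneg (fun f : Sp d => mul_nonneg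
    (pow_nonneg (En_nn f.1 0) (k - 2)) (YY_nn f.1 0)) iy).1 h4
  have sH : SF sh (fun (f : Sp d) y => En f.1 y ^ (k - 2) * YY f.1 y) :=
    ((sf_En W.sf).comp (k := fun t => t ^ (k - 2)) (contDiff_id.pow _)).mul (sf_YY W.sf)
  filter_upwards [ever hk h hμ sH h5] with f hf
  have hc2 := const_En f.2.1 hf
  obtain ⟨w, a, φ, hw, _, hfa⟩ := plane_wave f.2.1 f.2.2 (c := En f.1 0) (fun y => hc2 y) hd
  exact ⟨a, w, φ, hw, hfa⟩

lemma XX_pw {f : Sp d} {a : ℝ} (hf : PW a f.1) (y : E d) : En f.1 y = a ^ 2 ∧ XX f.1 y = 0 := by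
  obtain ⟨w, φ, hw, hfa⟩ := hf
  have e : ∀ y, En f.1 y = a ^ 2 := fun y => plane_wave_conv hw hfa y
  refine ⟨e y, ?_⟩
  have e2 : En f.1 = fun _ => a ^ 2 := funext e
  unfold XX
  rw [e2]
  refine Finset.sum_eq_zero fun i _ => ?_
  have : D i (fun _ : E d => a ^ 2) y = 0 := by unfold D; simp
  rw [this, mul_zero]

lemma eq_pw (hpw : ∀ᵐ f : Sp d ∂μ, ∃ a, PW a f.1) : ∫ f : Sp d, f.1 0 ^ (2 * k) ∂μ =
    cc k * ∫ f : Sp d, En f.1 0 ^ k ∂μ := by
  have W := Wn_of hk h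
  have h1 := main_eq hμ (by omega) W (by
    filter_upwards [hpw] with f hf
    obtain ⟨a, ha⟩ := hf
    exact (XX_pw hk h hμ ha 0).2) (k := k) le_rfl k le_rfl
  rw [Nat.sub_self, aa_k hk h hμ, aa_0 hk h hμ] at h1
  exact h1

/-- the equality case, second part -/
lemma eq_bwd (hpw : ∀ᵐ f : Sp d ∂μ, ∃ a, PW a f.1) : ∫ f : Sp d, f.1 0 ^ (2 * k) ∂μ =
    cc k * ∫ f, (2 * mass μ f) ^ k ∂μ := by
  rw [eq_pw hk h hμ hpw]
  congr 1
  have h4 := int4 hk h
  have h1 := pw_bwd h4 hμ hpw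
  have h2 := core' h4 hμ
  rw [h1] at h2
  have h3 : ∫ f : Sp d, (f.1 0 ^ 2 + Q 1 f.1 0 - 2 * mass μ f) ^ 2 ∂μ = 0 := by
    refine le_antisymm ?_ (integral_nonneg fun f => sq_nonneg _)
    linarith
  have h5 := (integral_eq_zero_iff_of_nonneg (fun f : Sp d => sq_nonneg
    (f.1 0 ^ 2 + Q 1 f.1 0 - 2 * mass μ f)) (core_int h4 (mass_l2 h4) hμ)).1 h3
  refine integral_congr_ae ?_
  filter_upwards [h5] with f hf
  have : f.1 0 ^ 2 + Q 1 f.1 0 - 2 * mass μ f = 0 := pow_eq_zero_iff (two_ne_zero) |>.1 hf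
  have e : En f.1 0 = 2 * mass μ f := by unfold En; linarith
  rw [e]

/-- Jensen's inequality for the local mass -/
lemma jensen2 : (∫ f : Sp d, f.1 0 ^ 2 ∂μ) ^ k ≤ ∫ f, mass μ f ^ k ∂μ ∧
    ((∫ f : Sp d, f.1 0 ^ 2 ∂μ) ^ k = ∫ f, mass μ f ^ k ∂μ →
      ∀ᵐ f : Sp d ∂μ, mass μ f = ∫ f : Sp d, f.1 0 ^ 2 ∂μ) := by
  have h4 := int4 hk h
  obtain ⟨M, hM⟩ : ∃ M, M = ∫ g : Sp d, g.1 0 ^ 2 ∂μ := ⟨_, rfl⟩
  have M0 : 0 ≤ M := by rw [hM]; exact integral_nonneg fun g => sq_nonneg _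
  rw [← hM]
  have i3 := mass_ik' hk h
  have i1 : Integrable (mass μ) μ := (mass_l2 h4).integrable (by norm_num)
  have i2 : Integrable (fun f => (mass μ f - M) ^ 2) μ := by
    have hl : MemLp (fun f => mass μ f - M) 2 μ := (mass_l2 h4).sub (memLp_const M)
    exact (memLp_two_iff_integrable_sq hl.1).1 hl
  have hm : ∫ f, mass μ f ∂μ = M := by rw [hM]; exact mass_int h4
  have key2 : M ^ k + M ^ (k - 2) * ∫ f, (mass μ f - M) ^ 2 ∂μ ≤ ∫ f, mass μ f ^ k ∂μ := by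
    have ia : Integrable (fun f => M ^ k + (k : ℝ) * M ^ (k - 1) * (mass μ f - M)) μ :=
      (integrable_const _).add ((i1.sub (integrable_const _)).const_mul _)
    have ib : Integrable (fun f => M ^ (k - 2) * (mass μ f - M) ^ 2) μ := i2.const_mul _
    have h5 : ∫ f, (M ^ k + (k : ℝ) * M ^ (k - 1) * (mass μ f - M) +
        M ^ (k - 2) * (mass μ f - M) ^ 2) ∂μ ≤ ∫ f, mass μ f ^ k ∂μ := by
      refine integral_mono_ae (ia.add ib) i3 ?_
      filter_upwards [mass_ae hk h] with f hf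
      exact tang hf M0 k hk
    have ic : Integrable (fun f => (k : ℝ) * M ^ (k - 1) * (mass μ f - M)) μ :=
      (i1.sub (integrable_const _)).const_mul _
    rw [integral_add ia ib, integral_add (integrable_const _) ic, integral_const_mul,
      integral_const_mul, integral_sub i1 (integrable_const _), hm] at h5
    simp only [integral_const, probReal_univ, smul_eq_mul, one_mul, sub_self, mul_zero,
      add_zero] at h5
    exact h5
  have h6 : 0 ≤ ∫ f, (mass μ f - M) ^ 2 ∂μ := integral_nonneg fun f => sq_nonneg _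
  refine ⟨?_, fun he => ?_⟩
  · have : 0 ≤ M ^ (k - 2) * ∫ f, (mass μ f - M) ^ 2 ∂μ := mul_nonneg (pow_nonneg M0 _) h6
    linarith
  · rcases M0.eq_or_lt with hz | hp
    · -- `M = 0`
      have h7 : ∫ f, mass μ f ∂μ = 0 := by rw [hm, ← hz]
      have h8 := (integral_eq_zero_iff_of_nonneg_ae (mass_ae hk h) i1).1 h7
      filter_upwards [h8] with f hf
      rw [hf, ← hz]; rfl
    · have h7 : M ^ (k - 2) * ∫ f, (mass μ f - M) ^ 2 ∂μ ≤ 0 := by linarith
      have h8 : ∫ f, (mass μ f - M) ^ 2 ∂μ = 0 := by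
        have hpk : 0 < M ^ (k - 2) := pow_pos hp _
        nlinarith
      have h9 := (integral_eq_zero_iff_of_nonneg (fun f => sq_nonneg (mass μ f - M)) i2).1 h8
      filter_upwards [h9] with f hf
      have : mass μ f - M = 0 := pow_eq_zero_iff (two_ne_zero) |>.1 hf
      linarith

omit hk h hμ [IsProbabilityMeasure μ] in
lemma cc_two (k : ℕ) (x : ℝ) : cc k * (2 * x) ^ k = (Nat.centralBinom k : ℝ) / 2 ^ k * x ^ k := by
  unfold cc
  rw [mul_pow, show (4 : ℝ) = 2 * 2 by norm_num, mul_pow]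
  have : (2 : ℝ) ^ k ≠ 0 := by positivity
  field_simp

lemma pw_amp (hd : 0 < d) : ∫ f : Sp d, f.1 0 ^ (2 * k) ∂μ =
    (Nat.centralBinom k : ℝ) / 2 ^ k * (∫ f : Sp d, f.1 0 ^ 2 ∂μ) ^ k ↔
    ∀ᵐ f : Sp d ∂μ, PW (√(2 * ∫ g : Sp d, g.1 0 ^ 2 ∂μ)) f.1 := by
  have W := Wn_of hk h
  have h4 := int4 hk h
  obtain ⟨M, hM⟩ : ∃ M, M = ∫ g : Sp d, g.1 0 ^ 2 ∂μ := ⟨_, rfl⟩
  have M0 : 0 ≤ M := by rw [hM]; exact integral_nonneg fun g => sq_nonneg _
  have hj := jensen2 hk h hμ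
  rw [← hM] at hj ⊢
  have hcb : 0 < (Nat.centralBinom k : ℝ) / 2 ^ k := by
    have := Nat.centralBinom_pos k
    positivity
  have e1 : cc k * ∫ f, (2 * mass μ f) ^ k ∂μ =
      (Nat.centralBinom k : ℝ) / 2 ^ k * ∫ f, mass μ f ^ k ∂μ := by
    rw [← integral_const_mul, ← integral_const_mul]
    simp only [cc_two]
  have h1 := ineq hk h hμ
  have h2 := jensen hk h hμ
  have h3 := rem_nn hk h hμ
  have hc := cc_pos k
  have k1 : (1 : ℝ) ≤ (k : ℝ) - 1 := by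
    have : (2 : ℝ) ≤ k := by exact_mod_cast hk
    linarith
  have h5 : cc k * ∫ f, (2 * mass μ f) ^ k ∂μ ≤ ∫ f : Sp d, f.1 0 ^ (2 * k) ∂μ := by
    refine le_trans (mul_le_mul_of_nonneg_left (h2.trans ?_) hc.le) h1
    have : 0 ≤ 3 / 8 * ((k : ℝ) - 1) * ∫ f : Sp d, En f.1 0 ^ (k - 2) * YY f.1 0 ∂μ := by
      refine mul_nonneg ?_ h3
      nlinarith
    linarith
  constructor
  · intro he
    have h6 : ∫ f, mass μ f ^ k ∂μ ≤ M ^ k := by
      rw [he, e1] at h5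
      exact le_of_mul_le_mul_left h5 hcb
    have h7 : M ^ k = ∫ f, mass μ f ^ k ∂μ := le_antisymm hj.1 h6
    have h8 := hj.2 h7
    have h9 := eq_fwd hk h hμ hd (by rw [he, e1, h7])
    have h10 := pw_bwd h4 hμ h9
    have h11 := core' h4 hμ
    rw [h10] at h11
    have h12 : ∫ f : Sp d, (f.1 0 ^ 2 + Q 1 f.1 0 - 2 * mass μ f) ^ 2 ∂μ = 0 := by
      refine le_antisymm ?_ (integral_nonneg fun f => sq_nonneg _)
      linarith
    filter_upwards [everywhere h4 hμ mass_me h12 (core_int h4 (mass_l2 h4) hμ), h8] with f hf hmf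
    obtain ⟨w, a, φ, hw, ha, hfa⟩ := plane_wave f.2.1 f.2.2 hf hd
    refine ⟨w, φ, hw, ?_⟩
    have h13 : a ^ 2 = 2 * M := by
      rw [← plane_wave_conv hw hfa 0, hf 0, hmf]
    have h14 : √(2 * M) = a := by rw [← h13, Real.sqrt_sq ha]
    rw [h14]
    exact hfa
  · intro hpw
    have h6 := eq_pw hk h hμ (by
      filter_upwards [hpw] with f hf
      exact ⟨_, hf⟩)
    rw [h6]
    have h7 : ∫ f : Sp d, En f.1 0 ^ k ∂μ = (2 * M) ^ k := by
      have : ∫ f : Sp d, En f.1 0 ^ k ∂μ = ∫ _ : Sp d, (2 * M) ^ k ∂μ := by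
        refine integral_congr_ae ?_
        filter_upwards [hpw] with f hf
        rw [(XX_pw hk h hμ hf 0).1, Real.sq_sqrt (by linarith)]
      rw [this]; simp
    rw [h7, cc_two]

end

/-- the energy density with explicit partial derivatives -/
def en (f : E d → ℝ) (y : E d) : ℝ := f y ^ 2 + ∑ i, fderiv ℝ f y (EuclideanSpace.single i 1) ^ 2

lemma En_eq (f : E d → ℝ) : En f = en f := by
  funext y; unfold En en; rw [Q_one]; rfl

lemma YY_eq (f : E d → ℝ) (y : E d) :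
    YY f y = ∑ i, fderiv ℝ (en f) y (EuclideanSpace.single i 1) ^ 2 := by
  unfold YY; rw [En_eq]; rfl

theorem final (hd : 1 ≤ d) (μ : Measure (Sp d)) (pμ : IsProbabilityMeasure μ)
    (hμ : ∀ x : E d, μ.map (sh x) = μ) {k : ℕ} (hk : 2 ≤ k)
    (h : Integrable (fun f : Sp d => f.1 0 ^ (2 * k)) μ) :
    (Integrable (fun f => mass μ f ^ k) μ ∧ Integrable (fun f : Sp d => en f.1 0 ^ k) μ ∧
      Integrable (fun f : Sp d => en f.1 0 ^ (k - 2) *
        ∑ i, fderiv ℝ (en f.1) 0 (EuclideanSpace.single i 1) ^ 2) μ) ∧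
    (Nat.centralBinom k : ℝ) / 4 ^ k * (∫ f : Sp d, en f.1 0 ^ k ∂μ + 3 / 8 * (k - 1) *
      ∫ f : Sp d, en f.1 0 ^ (k - 2) *
        ∑ i, fderiv ℝ (en f.1) 0 (EuclideanSpace.single i 1) ^ 2 ∂μ) ≤
      ∫ f : Sp d, f.1 0 ^ (2 * k) ∂μ ∧
    2 ^ k * ∫ f, mass μ f ^ k ∂μ ≤ ∫ f : Sp d, en f.1 0 ^ k ∂μ ∧
    (∫ f : Sp d, f.1 0 ^ 2 ∂μ) ^ k ≤ ∫ f, mass μ f ^ k ∂μ ∧
    (∫ f : Sp d, f.1 0 ^ (2 * k) ∂μ =
      (Nat.centralBinom k : ℝ) / 2 ^ k * ∫ f, mass μ f ^ k ∂μ ↔ ∀ᵐ f ∂μ, ∃ a, PW' a f) ∧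
    (∫ f : Sp d, f.1 0 ^ (2 * k) ∂μ =
      (Nat.centralBinom k : ℝ) / 2 ^ k * (∫ f : Sp d, f.1 0 ^ 2 ∂μ) ^ k ↔
      ∀ᵐ f : Sp d ∂μ, PW' (√(2 * ∫ g : Sp d, g.1 0 ^ 2 ∂μ)) f) := by
  have hμ' : ∀ x, MeasurePreserving (sh (d := d) x) μ μ := fun x => ⟨sh_me x, hμ x⟩
  have W := Wn_of hk h
  have iE := En_ik hk h hμ'
  have iY : Integrable (fun f : Sp d => En f.1 0 ^ (k - 2) * YY f.1 0) μ := by
    have := yy_int hμ' (by omega) W (n := k - 2) (m := 0) (by omega)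
    refine this.congr (ae_of_all _ fun f => ?_)
    unfold wt; simp
  have h1 := ineq hk h hμ'
  have h2 := jensen hk h hμ'
  have e1 : cc k * ∫ f, (2 * mass μ f) ^ k ∂μ =
      (Nat.centralBinom k : ℝ) / 2 ^ k * ∫ f, mass μ f ^ k ∂μ := by
    rw [← integral_const_mul, ← integral_const_mul]
    simp only [cc_two]
  have e2 : ∫ f, (2 * mass μ f) ^ k ∂μ = 2 ^ k * ∫ f, mass μ f ^ k ∂μ := by
    rw [← integral_const_mul]
    simp only [mul_pow]
  simp only [En_eq, YY_eq] at iE iY h1 h2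
  rw [e2] at h2
  refine ⟨⟨mass_ik' hk h, iE, iY⟩, h1, h2, (jensen2 hk h hμ').1, ⟨fun he => ?_, fun he => ?_⟩,
    pw_amp hk h hμ' hd⟩
  · exact eq_fwd hk h hμ' hd (by rw [he, e1])
  · rw [← e1]; exact eq_bwd hk h hμ' he

end

end Pool.Agent.W2helper36.EM
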