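import Mathlib

/-!
Project EM (helper36): the calibration functions of one variable for the first moment.
-/

set_option autoImplicit false
open Filter Topology Real

namespace Pool.Agent.W2helper36.EM

noncomputable section

section ext

variable {u u' : ℝ → ℝ}

/-- odd extension -/
def oddx (u : ℝ → ℝ) (t : ℝ) : ℝ := if 0 ≤ t then u t else -u (-t)

lemma oddx_deriv (h : ∀ t, HasDerivAt u (u' t) t) (hc : Continuous u') (h0 : u 0 = 0) (t : ℝ) :
    HasDerivAt (oddx u) (u' |t|) t := by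
  have cu : Continuous u := continuous_iff_continuousAt.2 fun x => (h x).continuousAt
  refine hasDerivAt_of_hasDerivAt_of_ne' (g := fun t => u' |t|) (x := 0) ?_ ?_ ?_ t
  · intro y hy
    rcases lt_or_gt_of_ne hy with hn | hp
    · have e : oddx u =ᶠ[𝓝 y] fun z => -u (-z) := by
        filter_upwards [Iio_mem_nhds hn] with z hz
        unfold oddx
        rw [if_neg (not_le.2 hz)]
      rw [abs_of_neg hn]
      have h1 := ((h (-y)).comp y (hasDerivAt_neg y)).neg
      have h2 : HasDerivAt (fun z => -u (-z)) (u' (-y)) y := by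
        refine h1.congr_deriv ?_
        ring
      exact h2.congr_of_eventuallyEq e
    · have e : oddx u =ᶠ[𝓝 y] u := by
        filter_upwards [Ioi_mem_nhds hp] with z hz
        unfold oddx
        rw [if_pos (le_of_lt hz)]
      rw [abs_of_pos hp]
      exact (h y).congr_of_eventuallyEq e
  · have : Continuous (oddx u) := by
      unfold oddx
      refine Continuous.if_le cu (cu.comp continuous_neg).neg continuous_const continuous_id ?_
      intro x hx
      show u x = -u (-x)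
      rw [← hx, neg_zero, h0, neg_zero]
    exact this.continuousAt
  · exact (hc.comp continuous_abs).continuousAt

lemma even_deriv (h : ∀ t, HasDerivAt u (t * u' t) t) (hc : Continuous u') (t : ℝ) :
    HasDerivAt (fun t => u |t|) (t * u' |t|) t := by
  have cu : Continuous u := continuous_iff_continuousAt.2 fun x => (h x).continuousAt
  refine hasDerivAt_of_hasDerivAt_of_ne' (g := fun t => t * u' |t|) (x := 0) ?_ ?_ ?_ t
  · intro y hy
    rcases lt_or_gt_of_ne hy with hn | hp
    · have e : (fun t => u |t|) =ᶠ[𝓝 y] fun z => u (-z) := by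
        filter_upwards [Iio_mem_nhds hn] with z hz
        rw [abs_of_neg hz]
      rw [abs_of_neg hn]
      have h1 := (h (-y)).comp y (hasDerivAt_neg y)
      have h2 : HasDerivAt (fun z => u (-z)) (y * u' (-y)) y := by
        refine h1.congr_deriv ?_
        ring
      exact h2.congr_of_eventuallyEq e
    · have e : (fun t => u |t|) =ᶠ[𝓝 y] u := by
        filter_upwards [Ioi_mem_nhds hp] with z hz
        rw [abs_of_pos hz]
      rw [abs_of_pos hp]
      exact (h y).congr_of_eventuallyEq e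
  · exact (cu.comp continuous_abs).continuousAt
  · exact (continuous_id.mul (hc.comp continuous_abs)).continuousAt

end ext

/-- `√(1+t²)` -/
def rr (t : ℝ) : ℝ := √(1 + t ^ 2)

lemma rr_sq (t : ℝ) : rr t ^ 2 = 1 + t ^ 2 := Real.sq_sqrt (by positivity)

lemma rr_pos (t : ℝ) : 0 < rr t := Real.sqrt_pos.2 (by positivity)

lemma rr_cont : Continuous rr := by unfold rr; fun_prop

lemma rr_deriv (t : ℝ) : HasDerivAt rr (t / rr t) t := by
  have h1 : HasDerivAt (fun t : ℝ => 1 + t ^ 2) (2 * t) t := by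
    have := ((hasDerivAt_id t).pow 2).const_add 1
    refine this.congr_deriv ?_
    simp
  have h2 := h1.sqrt (by positivity)
  refine h2.congr_deriv ?_
  unfold rr
  field_simp

/-- the angle -/
def ph (t : ℝ) : ℝ := π / 2 - arctan t

lemma ph_cont : Continuous ph := continuous_const.sub continuous_arctan

lemma ph_deriv (t : ℝ) : HasDerivAt ph (-(1 / rr t ^ 2)) t := by
  rw [rr_sq]
  exact (hasDerivAt_arctan t).const_sub _

lemma ph_pos (t : ℝ) : 0 < ph t := by unfold ph; linarith [arctan_lt_pi_div_two t]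

lemma ph_le {t : ℝ} (ht : 0 ≤ t) : ph t ≤ π / 2 := by
  unfold ph; linarith [arctan_nonneg.2 ht]

lemma sin_ph (t : ℝ) : sin (ph t) = 1 / rr t := by
  unfold ph rr
  rw [sin_pi_div_two_sub, cos_arctan]

lemma cos_ph (t : ℝ) : cos (ph t) = t / rr t := by
  unfold ph rr
  rw [cos_pi_div_two_sub, sin_arctan]

lemma ph_ge (t : ℝ) : 1 / rr t ≤ ph t := by
  rw [← sin_ph]; exact sin_le (ph_pos t).le

lemma ph_mul_le {t : ℝ} (ht : 0 ≤ t) : ph t * t ≤ 1 := by
  rcases ht.eq_or_lt with h | h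
  · rw [← h]; simp
  · have h1 : ph t < π / 2 := by unfold ph; linarith [arctan_pos.2 h]
    have h2 := lt_tan (ph_pos t) h1
    rw [tan_eq_sin_div_cos, sin_ph, cos_ph] at h2
    have h3 : 1 / rr t / (t / rr t) = 1 / t := by
      have := (rr_pos t).ne'
      field_simp
    rw [h3] at h2
    have := (mul_lt_mul_of_pos_right h2 h).le
    rwa [one_div, inv_mul_cancel₀ h.ne'] at this

lemma ph_up {t : ℝ} (ht : 0 ≤ t) : ph t ≤ 2 / rr t := by
  have h1 := mul_le_sin (ph_pos t).le (ph_le ht)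
  rw [sin_ph] at h1
  have h2 : ph t / 2 ≤ 2 / π * ph t := by
    have h3 : (1 : ℝ) / 2 ≤ 2 / π := by
      rw [div_le_div_iff₀ (by norm_num) pi_pos]
      linarith [pi_le_four]
    have := mul_le_mul_of_nonneg_right h3 (ph_pos t).le
    linarith
  have h4 : ph t / 2 ≤ 1 / rr t := h2.trans h1
  have : 2 / rr t = 2 * (1 / rr t) := by ring
  rw [this]; linarith

/-- `x² + 2 x sin x cos x ≤ 3 sin² x` -/
lemma kappa {x : ℝ} (h0 : 0 ≤ x) (h1 : x ≤ π / 2) :
    x ^ 2 + 2 * (x * (sin x * cos x)) - 3 * sin x ^ 2 ≤ 0 := by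
  have hd : ∀ x, HasDerivAt (fun x => x ^ 2 + 2 * (x * (sin x * cos x)) - 3 * sin x ^ 2)
      (4 * cos x * (x * cos x - sin x)) x := by
    intro x
    have a1 := (hasDerivAt_id x).pow 2
    have a2 := (((hasDerivAt_id x).mul ((hasDerivAt_sin x).mul (hasDerivAt_cos x))).const_mul 2)
    have a3 := ((hasDerivAt_sin x).pow 2).const_mul 3
    refine ((a1.add a2).sub a3).congr_deriv ?_
    have hs : sin x ^ 2 = 1 - cos x ^ 2 := by linarith [sin_sq_add_cos_sq x]
    simp
    linear_combination (-2 * x) * hs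
  have anti : AntitoneOn (fun x => x ^ 2 + 2 * (x * (sin x * cos x)) - 3 * sin x ^ 2)
      (Set.Icc 0 (π / 2)) := by
    refine antitoneOn_of_deriv_nonpos (convex_Icc _ _)
      (fun x _ => (hd x).continuousAt.continuousWithinAt)
      (fun x _ => (hd x).differentiableAt.differentiableWithinAt) fun x hx => ?_
    rw [interior_Icc] at hx
    rw [(hd x).deriv]
    have c0 : 0 ≤ cos x := cos_nonneg_of_mem_Icc ⟨by linarith [hx.1, pi_pos], hx.2.le⟩
    have h2 : x * cos x - sin x ≤ 0 := by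
      have h3 := (lt_tan hx.1 hx.2).le
      have c1 : 0 < cos x := cos_pos_of_mem_Ioo ⟨by linarith [hx.1, pi_pos], hx.2⟩
      rw [tan_eq_sin_div_cos, le_div_iff₀ c1] at h3
      linarith
    nlinarith
  have := anti (Set.left_mem_Icc.2 (by linarith [pi_pos])) ⟨h0, h1⟩ h0
  simpa using this

/-- `1 - φ t` for `t ≥ 0` -/
def al (t : ℝ) : ℝ := 1 - ph t * t

lemma al_nn {t : ℝ} (ht : 0 ≤ t) : 0 ≤ al t := by unfold al; linarith [ph_mul_le ht]

lemma al_le {t : ℝ} (ht : 0 ≤ t) : al t ≤ 1 / rr t ^ 2 := by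
  unfold al
  have h1 : t / rr t ^ 2 ≤ ph t := by
    refine le_trans ?_ (ph_ge t)
    have := rr_pos t
    rw [div_le_div_iff₀ (by positivity) this]
    have h2 : t ≤ rr t := by
      unfold rr
      exact Real.le_sqrt_of_sq_le (by linarith)
    nlinarith
  have h2 := mul_le_mul_of_nonneg_right h1 ht
  have h3 : t / rr t ^ 2 * t = 1 - 1 / rr t ^ 2 := by
    have h4 := rr_sq t
    have := rr_pos t
    field_simp
    nlinarith
  linarith

/-- the coefficient of `∇f` for `t ≥ 0` -/
def ua (t : ℝ) : ℝ := π / 2 - ph t * rr t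

/-- the coefficient of `∇P` for `t ≥ 0`, times `√P` -/
def ub (t : ℝ) : ℝ := (rr t ^ 2 * ph t ^ 2 + 2 * (ph t * t) - 3) / 8

lemma ua_zero : ua 0 = 0 := by unfold ua ph rr; simp

lemma ua_deriv (t : ℝ) : HasDerivAt ua (al t / rr t) t := by
  have h := ((ph_deriv t).mul (rr_deriv t)).const_sub (π / 2)
  refine h.congr_deriv ?_
  have := (rr_pos t).ne'
  unfold al
  field_simp
  ring

/-- the derivative of `ub` divided by `t` -/
def ub' (t : ℝ) : ℝ := (ph t ^ 2 - 1 / rr t ^ 2) / 4

lemma ub_deriv (t : ℝ) : HasDerivAt ub (t * ub' t) t := by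
  have h1 := (((rr_deriv t).pow 2).mul ((ph_deriv t).pow 2))
  have h2 := ((ph_deriv t).mul (hasDerivAt_id t)).const_mul 2
  have h := ((h1.add h2).sub_const 3).div_const 8
  refine h.congr_deriv ?_
  have := (rr_pos t).ne'
  unfold ub'
  simp
  field_simp
  ring

lemma ub_np {t : ℝ} (ht : 0 ≤ t) : ub t ≤ 0 := by
  have h := kappa (ph_pos t).le (ph_le ht)
  rw [sin_ph, cos_ph] at h
  have hr := rr_pos t
  have e : ph t ^ 2 + 2 * (ph t * (1 / rr t * (t / rr t))) - 3 * (1 / rr t) ^ 2 =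
      8 * ub t / rr t ^ 2 := by
    unfold ub; field_simp
  rw [e] at h
  have h2 : 8 * ub t ≤ 0 := by
    by_contra hc
    push Not at hc
    have : 0 < 8 * ub t / rr t ^ 2 := by positivity
    linarith
  linarith

lemma ub_ge {t : ℝ} (ht : 0 ≤ t) : -(3 / 8 / rr t ^ 2) ≤ ub t := by
  have hr := rr_pos t
  have h1 := al_le ht
  have h2 := ph_ge t
  unfold al at h1
  have h3 : (1 / rr t) ^ 2 ≤ ph t ^ 2 := pow_le_pow_left₀ (by positivity) h2 2
  have h5 : 1 ≤ rr t ^ 2 * ph t ^ 2 := by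
    have := mul_le_mul_of_nonneg_left h3 (by positivity : 0 ≤ rr t ^ 2)
    have e : rr t ^ 2 * (1 / rr t) ^ 2 = 1 := by field_simp
    linarith
  have h6 : 1 / rr t ^ 2 ≤ 1 := by
    rw [div_le_one (by positivity), rr_sq]
    nlinarith [sq_nonneg t]
  unfold ub
  have e : 3 / 8 / rr t ^ 2 = 3 / 8 * (1 / rr t ^ 2) := by ring
  have h7 : 0 ≤ 1 / rr t ^ 2 := by positivity
  rw [e]
  linarith

lemma ub'_le {t : ℝ} (ht : 0 ≤ t) : |t * ub' t| ≤ 1 / rr t := by
  have hr := rr_pos t
  have h1 := ph_ge t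
  have h2 := ph_mul_le ht
  have h3 := ph_up ht
  have h4 : 0 ≤ ub' t := by
    unfold ub'
    have : 1 / rr t ^ 2 ≤ ph t ^ 2 := by
      have := pow_le_pow_left₀ (by positivity) h1 2
      rwa [div_pow, one_pow] at this
    linarith
  rw [abs_of_nonneg (mul_nonneg ht h4)]
  have h5 : t * ub' t ≤ t * (ph t ^ 2 / 4) := by
    refine mul_le_mul_of_nonneg_left ?_ ht
    unfold ub'
    have : 0 ≤ 1 / rr t ^ 2 := by positivity
    linarith
  have h6 : t * (ph t ^ 2 / 4) ≤ ph t / 4 := by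
    have := mul_le_mul_of_nonneg_left h2 (ph_pos t).le
    nlinarith
  have h7 : ph t / 4 ≤ 1 / rr t := by
    have e : 2 / rr t = 2 * (1 / rr t) := by ring
    rw [e] at h3
    have : 0 ≤ 1 / rr t := by positivity
    linarith
  linarith

lemma ua_bd {t : ℝ} (ht : 0 ≤ t) : |ua t| ≤ 2 := by
  have hr := rr_pos t
  have h1 := ph_ge t
  have h3 := ph_up ht
  have h4 : 1 ≤ ph t * rr t := by rwa [div_le_iff₀ hr] at h1
  have h5 : ph t * rr t ≤ 2 := by rwa [le_div_iff₀ hr] at h3
  unfold ua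
  rw [abs_le]
  constructor <;> linarith [pi_gt_three, pi_le_four]

/-- the identity for the mixed term -/
lemma id_X (t : ℝ) : rr t ^ 2 * ub' t = 1 / 2 * al t + 2 * ub t := by
  have hr := (rr_pos t).ne'
  unfold ub' al ub
  field_simp
  ring

/-- the coefficient of `|∇P|²` -/
lemma id_Y {t : ℝ} (ht : 0 ≤ t) : ub t * (1 - 1 / rr t ^ 2) - t * (t * ub' t) ≤
    -(t ^ 2 / (8 * rr t ^ 4)) := by
  have hr := rr_pos t
  have e : ub t * (1 - 1 / rr t ^ 2) - t * (t * ub' t) =
      -(t ^ 2 / (8 * rr t ^ 2)) * (rr t ^ 2 * ph t ^ 2 - 2 * (ph t * t) + 1) := by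
    have e1 : 1 - 1 / rr t ^ 2 = t ^ 2 / rr t ^ 2 := by
      have := rr_sq t
      field_simp
      linarith
    rw [e1]
    unfold ub ub'
    field_simp
    ring
  have h1 : 1 / rr t ^ 2 ≤ rr t ^ 2 * ph t ^ 2 - 2 * (ph t * t) + 1 := by
    have h2 : rr t ^ 2 * ph t ^ 2 - 2 * (ph t * t) + 1 = ph t ^ 2 + (ph t * t - 1) ^ 2 := by
      rw [rr_sq]; ring
    have h3 := pow_le_pow_left₀ (by positivity) (ph_ge t) 2
    rw [div_pow, one_pow] at h3
    rw [h2]
    nlinarith [sq_nonneg (ph t * t - 1)]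
  rw [e]
  have h4 : 0 ≤ t ^ 2 / (8 * rr t ^ 2) := by positivity
  have h5 := mul_le_mul_of_nonneg_left h1 h4
  have h6 : t ^ 2 / (8 * rr t ^ 2) * (1 / rr t ^ 2) = t ^ 2 / (8 * rr t ^ 4) := by
    field_simp
  linarith

/-- the coefficient of `∇f` -/
def fa (t : ℝ) : ℝ := oddx ua t

/-- the coefficient of `∇P` -/
def fb (t : ℝ) : ℝ := ub |t|

lemma al_cont : Continuous al := by unfold al; exact continuous_const.sub (ph_cont.mul continuous_id)

lemma ub'_cont : Continuous ub' := by
  unfold ub'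
  have h : ∀ t, rr t ^ 2 ≠ 0 := fun t => (pow_pos (rr_pos t) 2).ne'
  exact ((ph_cont.pow 2).sub (continuous_const.div (rr_cont.pow 2) h)).div_const 4

lemma fa_deriv (t : ℝ) : HasDerivAt fa (al |t| / rr |t|) t :=
  oddx_deriv (u' := fun t => al t / rr t) ua_deriv
    (al_cont.div rr_cont fun t => (rr_pos t).ne') ua_zero t

lemma fb_deriv (t : ℝ) : HasDerivAt fb (t * ub' |t|) t := even_deriv ub_deriv ub'_cont t

lemma fa_cont : Continuous fa := continuous_iff_continuousAt.2 fun x => (fa_deriv x).continuousAt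

lemma fb_cont : Continuous fb := continuous_iff_continuousAt.2 fun x => (fb_deriv x).continuousAt

lemma fa_mul (t : ℝ) : fa t * t = ua (abs t) * abs t := by
  unfold fa oddx
  split_ifs with h
  · rw [abs_of_nonneg h]
  · rw [abs_of_neg (not_le.1 h)]; ring

lemma fa_abs (t : ℝ) : abs (fa t) = abs (ua (abs t)) := by
  unfold fa oddx
  split_ifs with h
  · rw [abs_of_nonneg h]
  · rw [abs_of_neg (not_le.1 h), abs_neg]

lemma rr_abs (t : ℝ) : rr (abs t) = rr t := by unfold rr; rw [sq_abs]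

end

end Pool.Agent.W2helper36.EM
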