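import Pool.Agent.W2helper36.EM.C
import Pool.Agent.W2helper36.EM.E

/-!
Project EM (helper36): the divergence lemma for continuously differentiable stationary fields.
-/

set_option autoImplicit false
set_option linter.unusedSectionVars false
open MeasureTheory Filter Topology
open scoped ContDiff ENNReal

namespace Pool.Agent.W2helper36.EM

open Pool.Agent.Y139.SW Pool.Agent.W2helper17.FM

noncomputable section

variable {d : ℕ} {S : Type*} [MeasurableSpace S] {P : Measure S} {τ : E d → S → S}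

/-- continuous random fields which are stationary under `τ` -/
structure CF (τ : E d → S → S) (G : S → E d → ℝ) : Prop where
  meas : ∀ y, Measurable fun s => G s y
  cont : ∀ s, Continuous (G s)
  cov : ∀ x s y, G (τ x s) y = G s (y + x)

lemma cf {G : S → E d → ℝ} (h : SF τ G) : CF τ G := ⟨h.meas, fun s => (h.smooth s).continuous, h.cov⟩

lemma CF.mul {G H : S → E d → ℝ} (h : CF τ G) (h' : CF τ H) : CF τ (fun s y => G s y * H s y) :=
  ⟨fun y => (h.meas y).mul (h'.meas y), fun s => (h.cont s).mul (h'.cont s),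
    fun x s y => by rw [h.cov, h'.cov]⟩

lemma CF.add {G H : S → E d → ℝ} (h : CF τ G) (h' : CF τ H) : CF τ (fun s y => G s y + H s y) :=
  ⟨fun y => (h.meas y).add (h'.meas y), fun s => (h.cont s).add (h'.cont s),
    fun x s y => by rw [h.cov, h'.cov]⟩

lemma CF.neg {G : S → E d → ℝ} (h : CF τ G) : CF τ (fun s y => -G s y) :=
  ⟨fun y => (h.meas y).neg, fun s => (h.cont s).neg, fun x s y => by rw [h.cov]⟩

lemma CF.inv {G : S → E d → ℝ} (h : CF τ G) (h0 : ∀ s y, G s y ≠ 0) :
    CF τ (fun s y => (G s y)⁻¹) :=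
  ⟨fun y => (h.meas y).inv, fun s => (h.cont s).inv₀ (h0 s), fun x s y => by rw [h.cov]⟩

lemma CF.comp {G : S → E d → ℝ} {k : ℝ → ℝ} (hk : Continuous k) (h : CF τ G) :
    CF τ (fun s y => k (G s y)) :=
  ⟨fun y => hk.measurable.comp (h.meas y), fun s => hk.comp (h.cont s),
    fun x s y => by rw [h.cov]⟩

lemma cst_int (hτ : ∀ x, MeasurePreserving (τ x) P P) {G : S → E d → ℝ} (h : CF τ G) (y : E d)
    {k : ℝ → ℝ} (hk : Measurable k) : ∫ s, k (G s y) ∂P = ∫ s, k (G s 0) ∂P := by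
  have e : ∀ s, G s y = G (τ y s) 0 := fun s => by rw [h.cov, zero_add]
  have m : Measurable fun s => k (G s 0) := hk.comp (h.meas 0)
  simp only [e]
  have h1 := integral_map (μ := P) (hτ y).measurable.aemeasurable
    (f := fun s => k (G s 0)) m.aestronglyMeasurable
  rw [(hτ y).map_eq] at h1
  exact h1.symm

lemma cst_integrable (hτ : ∀ x, MeasurePreserving (τ x) P P) {G : S → E d → ℝ} (h : CF τ G)
    (y : E d) (hi : Integrable (fun s => G s 0) P) : Integrable (fun s => G s y) P := by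
  have e : (fun s => G s y) = (fun s => G s 0) ∘ τ y := by
    funext s
    show G s y = G (τ y s) 0
    rw [h.cov, zero_add]
  rw [e]
  exact (hτ y).integrable_comp_of_integrable hi

/-- the divergence lemma -/
theorem div1 [IsProbabilityMeasure P] (hτ : ∀ x, MeasurePreserving (τ x) P P)
    {G G' : S → E d → ℝ} (h : CF τ G) (h' : CF τ G') (i : Fin d)
    (hd : ∀ s (t : ℝ), HasDerivAt (fun t : ℝ => G s (t • EuclideanSpace.single i 1))
      (G' s (t • EuclideanSpace.single i 1)) t)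
    (i0 : Integrable (fun s => G s 0) P) (i1 : Integrable (fun s => G' s 0) P) :
    ∫ s, G' s 0 ∂P = 0 := by
  obtain ⟨e, he⟩ : ∃ e : E d, e = EuclideanSpace.single i 1 := ⟨_, rfl⟩
  rw [← he] at hd
  obtain ⟨K, hK⟩ : ∃ K : ℝ → S → ℝ, K = fun t s => G' s (t • e) := ⟨_, rfl⟩
  have mK : Measurable (Function.uncurry K) := by
    refine measurable_uncurry_of_continuous_of_measurable (fun s => ?_) fun t => ?_
    · rw [hK]
      exact (h'.cont s).comp (continuous_id.smul continuous_const)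
    · rw [hK]; exact h'.meas _
  have sl : ∀ t, Integrable (K t) P := fun t => by
    rw [hK]; exact cst_integrable hτ h' _ i1
  have iK : Integrable (Function.uncurry K) ((volume.restrict (Set.Ioc (0 : ℝ) 1)).prod P) := by
    rw [integrable_prod_iff mK.aestronglyMeasurable]
    refine ⟨ae_of_all _ fun t => sl t, ?_⟩
    have : (fun t => ∫ s, ‖Function.uncurry K (t, s)‖ ∂P) = fun _ => ∫ s, ‖G' s 0‖ ∂P := by
      funext t
      rw [hK]
      exact cst_int hτ h' (t • e) measurable_norm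
    rw [this]
    exact integrable_const _
  have sw := integral_integral_swap iK
  have l1 : ∫ t in Set.Ioc (0 : ℝ) 1, ∫ s, K t s ∂P = ∫ s, G' s 0 ∂P := by
    have : ∀ t, ∫ s, K t s ∂P = ∫ s, G' s 0 ∂P := fun t => by
      rw [hK]
      exact cst_int hτ h' (t • e) measurable_id
    simp only [this]
    simp
  have l2 : ∀ s, ∫ t in Set.Ioc (0 : ℝ) 1, K t s = G s e - G s 0 := by
    intro s
    rw [← intervalIntegral.integral_of_le zero_le_one, hK]
    have := intervalIntegral.integral_eq_sub_of_hasDerivAt (a := 0) (b := 1)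
      (f := fun t : ℝ => G s (t • e)) (f' := fun t => G' s (t • e)) (fun t _ => hd s t) ?_
    · rw [this, one_smul, zero_smul]
    · exact ((h'.cont s).comp
        (continuous_id.smul continuous_const)).intervalIntegrable 0 1
  rw [l1] at sw
  rw [sw]
  simp only [l2]
  rw [integral_sub (cst_integrable hτ h e i0) i0]
  have := cst_int hτ h e (k := fun x => x) measurable_id
  rw [this, sub_self]

/-- the derivative along a line -/
lemma line {f : E d → ℝ} (hf : ContDiff ℝ ∞ f) (i : Fin d) (t : ℝ) :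
    HasDerivAt (fun t : ℝ => f (t • EuclideanSpace.single i 1))
      (D i f (t • EuclideanSpace.single i 1)) t := by
  have h1 : HasDerivAt (fun t : ℝ => t • (EuclideanSpace.single i 1 : E d))
      ((1 : ℝ) • (EuclideanSpace.single i 1 : E d)) t := (hasDerivAt_id t).smul_const _
  have h2 := (sdiff hf (t • (EuclideanSpace.single i 1 : E d))).hasFDerivAt.comp_hasDerivAt t h1
  rw [one_smul] at h2
  exact h2

lemma line_comp {k k' : ℝ → ℝ} (hk : ∀ x, HasDerivAt k (k' x) x) {f : E d → ℝ}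
    (hf : ContDiff ℝ ∞ f) (i : Fin d) (t : ℝ) :
    HasDerivAt (fun t : ℝ => k (f (t • EuclideanSpace.single i 1)))
      (k' (f (t • EuclideanSpace.single i 1)) * D i f (t • EuclideanSpace.single i 1)) t :=
  (hk _).comp t (line hf i t)

lemma D_sqrt {g : E d → ℝ} (hg : ContDiff ℝ ∞ g) (h0 : ∀ y, 0 < g y) (i : Fin d) (y : E d) :
    D i (fun y => √(g y)) y = D i g y / (2 * √(g y)) := by
  unfold D
  rw [((sdiff hg y).hasFDerivAt.sqrt (h0 y).ne').fderiv]
  simp only [smul_apply, smul_eq_mul]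
  ring

lemma sqrt_sm {g : E d → ℝ} (hg : ContDiff ℝ ∞ g) (h0 : ∀ y, 0 < g y) :
    ContDiff ℝ ∞ (fun y => √(g y)) := hg.sqrt fun y => (h0 y).ne'

lemma sf_sqrt {G : S → E d → ℝ} (h : SF τ G) (h0 : ∀ s y, 0 < G s y) :
    SF τ (fun s y => √(G s y)) :=
  ⟨fun y => (h.meas y).sqrt, fun s => sqrt_sm (h.smooth s) (h0 s), fun x s y => by rw [h.cov]⟩

lemma sf_const (c : ℝ) : SF τ (fun (_ : S) (_ : E d) => c) :=
  ⟨fun _ => measurable_const, fun _ => contDiff_const, fun _ _ _ => rfl⟩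

/-- the regularised length of the gradient -/
def Rf (ε : ℝ) (f : E d → ℝ) (y : E d) : ℝ := √(Q 1 f y + ε ^ 2)

/-- the regularised square root of the energy density -/
def qf (ε : ℝ) (f : E d → ℝ) (y : E d) : ℝ := √(En f y + ε ^ 2)

/-- the ratio of `f` and the length of its gradient -/
def tf (ε : ℝ) (f : E d → ℝ) (y : E d) : ℝ := f y * (Rf ε f y)⁻¹

section

variable {ε : ℝ} (hε : 0 < ε)

include hε

lemma pR (f : E d → ℝ) (y : E d) : 0 < Q 1 f y + ε ^ 2 := by
  have := Q_nn 1 f y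
  positivity

lemma pq (f : E d → ℝ) (y : E d) : 0 < En f y + ε ^ 2 := by
  have := En_nn f y
  positivity

lemma Rf_pos (f : E d → ℝ) (y : E d) : 0 < Rf ε f y := Real.sqrt_pos.2 (pR hε f y)

lemma qf_pos (f : E d → ℝ) (y : E d) : 0 < qf ε f y := Real.sqrt_pos.2 (pq hε f y)

lemma Rf_sq (f : E d → ℝ) (y : E d) : Rf ε f y ^ 2 = Q 1 f y + ε ^ 2 :=
  Real.sq_sqrt (pR hε f y).le

lemma qf_sq (f : E d → ℝ) (y : E d) : qf ε f y ^ 2 = f y ^ 2 + Rf ε f y ^ 2 := by
  rw [Rf_sq hε, qf, Real.sq_sqrt (pq hε f y).le, En]; ring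

lemma Rf_ge (f : E d → ℝ) (y : E d) : ε ≤ Rf ε f y := by
  refine Real.le_sqrt_of_sq_le ?_
  have := Q_nn 1 f y
  linarith

lemma qf_ge (f : E d → ℝ) (y : E d) : ε ≤ qf ε f y := by
  refine Real.le_sqrt_of_sq_le ?_
  have := En_nn f y
  linarith

lemma Rf_le (f : E d → ℝ) (y : E d) : Rf ε f y ≤ qf ε f y := by
  have h1 := qf_sq hε f y
  have h2 := Rf_pos hε f y
  have h3 := qf_pos hε f y
  nlinarith [sq_nonneg (f y)]

lemma rr_tf (f : E d → ℝ) (y : E d) : rr (tf ε f y) = qf ε f y / Rf ε f y := by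
  have h1 := qf_sq hε f y
  have h2 := Rf_pos hε f y
  have h3 := qf_pos hε f y
  have h4 : rr (tf ε f y) ^ 2 = (qf ε f y / Rf ε f y) ^ 2 := by
    rw [rr_sq, tf, div_pow, h1]
    field_simp
    ring
  exact (pow_left_inj₀ (rr_pos _).le (by positivity) two_ne_zero).1 h4

variable {f : E d → ℝ} (hf : ContDiff ℝ ∞ f)

include hf

lemma Rf_sm : ContDiff ℝ ∞ (Rf ε f) := sqrt_sm ((Q_sm 1 hf).add contDiff_const) (pR hε f)

lemma qf_sm : ContDiff ℝ ∞ (qf ε f) := sqrt_sm ((En_sm hf).add contDiff_const) (pq hε f)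

lemma tf_sm : ContDiff ℝ ∞ (tf ε f) :=
  hf.mul ((Rf_sm hε hf).inv fun y => (Rf_pos hε f y).ne')

lemma D_addc {g : E d → ℝ} (hg : ContDiff ℝ ∞ g) (c : ℝ) (i : Fin d) (y : E d) :
    D i (fun y => g y + c) y = D i g y := by
  have h := D_add hg (contDiff_const (c := c)) i y
  have e : D i (fun _ : E d => c) y = 0 := by unfold D; simp
  rw [h, e, add_zero]

lemma D_Rf (i : Fin d) (y : E d) :
    D i (Rf ε f) y = (D i (En f) y - 2 * f y * D i f y) / (2 * Rf ε f y) := by
  have h := D_sqrt ((Q_sm 1 hf).add (contDiff_const (c := ε ^ 2))) (pR hε f) i y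
  have h2 : D i (fun y => Q 1 f y + ε ^ 2) y = D i (Q 1 f) y := D_addc hε hf (Q_sm 1 hf) _ i y
  rw [h2, D_Q1' hf] at h
  exact h

lemma D_qf (i : Fin d) (y : E d) : D i (qf ε f) y = D i (En f) y / (2 * qf ε f y) := by
  have h := D_sqrt ((En_sm hf).add (contDiff_const (c := ε ^ 2))) (pq hε f) i y
  have h2 : D i (fun y => En f y + ε ^ 2) y = D i (En f) y := D_addc hε hf (En_sm hf) _ i y
  rw [h2] at h
  exact h

lemma D_tf (i : Fin d) (y : E d) : D i (tf ε f) y =
    (qf ε f y ^ 2 * D i f y - 1 / 2 * f y * D i (En f) y) / Rf ε f y ^ 3 := by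
  have h0 := Rf_pos hε f y
  have h := D_mul hf ((Rf_sm hε hf).inv fun y => (Rf_pos hε f y).ne') i y
  have h2 := D_inv (Rf_sm hε hf) h0.ne' i
  have h3 : D i (tf ε f) y = D i f y * (Rf ε f y)⁻¹ + f y * D i (fun w => (Rf ε f w)⁻¹) y := h
  rw [h3, h2, D_Rf hε hf, qf_sq hε]
  field_simp
  ring

end

end

end Pool.Agent.W2helper36.EM
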