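import Pool.Agent.W2helper36.EM.F

/-!
Project EM (helper36): the calibrating field for the first moment.
-/

set_option autoImplicit false
set_option linter.unusedSectionVars false
open MeasureTheory Filter Topology
open scoped ContDiff ENNReal

namespace Pool.Agent.W2helper36.EM

open Pool.Agent.Y139.SW Pool.Agent.W2helper17.FM

noncomputable section

/-- values of the one variable functions at `t = f / R` -/
structure Val (f R q α β w A : ℝ) : Prop where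
  α0 : 0 ≤ α
  α1 : α ≤ R ^ 2 / q ^ 2
  β0 : β ≤ 0
  β1 : -(3 / 8 * (R ^ 2 / q ^ 2)) ≤ β
  hw : w * q ^ 2 = f * (1 / 2 * α + 2 * β) * R
  hY : β * (1 - R ^ 2 / q ^ 2) - f / R * w ≤ -(f ^ 2 * R ^ 2 / (8 * q ^ 4))
  hA : A * f = Real.pi / 2 * |f| - (1 - α) * q
  wb : |w| ≤ R / q
  Ab : |A| ≤ 2

lemma val {f R q : ℝ} (hR : 0 < R) (hq : 0 < q) (h2 : q ^ 2 = f ^ 2 + R ^ 2) :
    rr |f * R⁻¹| = q / R ∧
    Val f R q (al |f * R⁻¹|) (fb (f * R⁻¹)) (f * R⁻¹ * ub' |f * R⁻¹|) (fa (f * R⁻¹)) := by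
  obtain ⟨t, ht⟩ : ∃ t, t = f * R⁻¹ := ⟨_, rfl⟩
  rw [← ht]
  have hf : f = t * R := by rw [ht]; field_simp
  have hr : rr |t| = q / R := by
    have h4 : rr |t| ^ 2 = (q / R) ^ 2 := by
      rw [rr_sq, sq_abs, div_pow, h2, hf]
      field_simp
      ring
    exact (pow_left_inj₀ (rr_pos _).le (by positivity) two_ne_zero).1 h4
  have hr2 : 1 / rr |t| ^ 2 = R ^ 2 / q ^ 2 := by rw [hr]; field_simp
  have a0 : 0 ≤ |t| := abs_nonneg t
  refine ⟨hr, ⟨al_nn a0, ?_, ub_np a0, ?_, ?_, ?_, ?_, ?_, ?_⟩⟩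
  · rw [← hr2]; exact al_le a0
  · have := ub_ge a0
    have e : 3 / 8 / rr |t| ^ 2 = 3 / 8 * (1 / rr |t| ^ 2) := by ring
    rw [e, hr2] at this
    exact this
  · have h := id_X |t|
    rw [hr] at h
    have e : t * ub' |t| * q ^ 2 = t * ((q / R) ^ 2 * ub' |t|) * R ^ 2 := by field_simp
    rw [e, h, hf]
    unfold fb
    ring
  · have h := id_Y a0
    rw [hr2] at h
    have e1 : |t| ^ 2 / (8 * rr |t| ^ 4) = f ^ 2 * R ^ 2 / (8 * q ^ 4) := by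
      rw [sq_abs, hr, hf]; field_simp
    have e2 : |t| * (|t| * ub' |t|) = f / R * (t * ub' |t|) := by
      have : |t| * |t| = t * t := abs_mul_abs_self t
      have e3 : f / R = t := by rw [hf]; field_simp
      rw [e3, ← mul_assoc, ← mul_assoc, this]
    rw [e1, e2] at h
    exact h
  · have h := fa_mul t
    have e1 : fa t * f = (fa t * t) * R := by rw [hf]; ring
    have e2 : |f| = |t| * R := by rw [hf, abs_mul, abs_of_pos hR]
    rw [e1, h, e2]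
    unfold ua al
    rw [hr]
    field_simp
    ring
  · have h := ub'_le a0
    have e1 : 1 / rr |t| = R / q := by rw [hr]; field_simp
    rw [e1] at h
    rw [abs_mul] at h ⊢
    rw [abs_abs] at h
    exact h
  · rw [fa_abs]; exact ua_bd a0

section real

variable {f R q α β w A ε g X Y L : ℝ} (v : Val f R q α β w A) (hR : 0 < R) (hq : 0 < q)
  (h1 : R ^ 2 = g + ε ^ 2) (h2 : q ^ 2 = f ^ 2 + R ^ 2)

include v hR hq

lemma T3 : w * ((q ^ 2 * X - 1 / 2 * f * Y) / R ^ 3) * q⁻¹ =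
    f * (α / 2 + 2 * β) * (X / (q * R ^ 2)) - f / R * w * (Y / (2 * q * R ^ 2)) := by
  have hw := v.hw
  have e : w * ((q ^ 2 * X - 1 / 2 * f * Y) / R ^ 3) * q⁻¹ =
      (w * q ^ 2) * X / (R ^ 3 * q) - f / R * w * (Y / (2 * q * R ^ 2)) := by
    field_simp
  rw [e, hw]
  field_simp

include h1

lemma keyR (hε : 0 < ε) (hεq : ε ≤ q) (hk : 1 / 2 * Y - 2 * f * X ≤ g * L)
    (hL : -(2 * f ^ 2) ≤ L) (hY : 0 ≤ Y) (hg : 0 ≤ g) (hfq : f ^ 2 ≤ q ^ 2) :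
    α / (q / R) * ((q ^ 2 * g - 1 / 2 * f * X) / R ^ 3) + A * (-f) +
      w * ((q ^ 2 * X - 1 / 2 * f * Y) / R ^ 3) * q⁻¹ + β * (-(Y / (2 * q)) / q ^ 2) +
      β * q⁻¹ * L ≤ q - Real.pi / 2 * |f| + 3 / 4 * ε - f ^ 2 * Y / (16 * q ^ 5) := by
  have t1 : α / (q / R) * ((q ^ 2 * g - 1 / 2 * f * X) / R ^ 3) =
      α * q * (g / R ^ 2) - α * f / 2 * (X / (q * R ^ 2)) := by
    field_simp
  have t3 := T3 (X := X) (Y := Y) v hR hq
  have t4 : β * (-(Y / (2 * q)) / q ^ 2) = -(β * (R ^ 2 / q ^ 2) * (Y / (2 * q * R ^ 2))) := by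
    field_simp
  have t5 : β * q⁻¹ * L ≤ β / (q * R ^ 2) * (1 / 2 * Y - 2 * f * X - 2 * ε ^ 2 * f ^ 2) := by
    have h3 : 1 / 2 * Y - 2 * f * X - 2 * ε ^ 2 * f ^ 2 ≤ R ^ 2 * L := by
      rw [h1]
      have : 0 ≤ ε ^ 2 * (L + 2 * f ^ 2) := mul_nonneg (sq_nonneg _) (by linarith)
      nlinarith
    have h4 : β / (q * R ^ 2) ≤ 0 := div_nonpos_of_nonpos_of_nonneg v.β0 (by positivity)
    have h5 := mul_le_mul_of_nonpos_left h3 h4
    have e : β * q⁻¹ * L = β / (q * R ^ 2) * (R ^ 2 * L) := by field_simp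
    rw [e]; exact h5
  have t6 : β / (q * R ^ 2) * (1 / 2 * Y - 2 * f * X - 2 * ε ^ 2 * f ^ 2) =
      β * (Y / (2 * q * R ^ 2)) - 2 * f * β * (X / (q * R ^ 2)) -
        2 * ε ^ 2 * f ^ 2 * (β / (q * R ^ 2)) := by
    field_simp
  have t7 : (β * (1 - R ^ 2 / q ^ 2) - f / R * w) * (Y / (2 * q * R ^ 2)) ≤
      -(f ^ 2 * Y / (16 * q ^ 5)) := by
    have h3 := mul_le_mul_of_nonneg_right v.hY (by positivity : 0 ≤ Y / (2 * q * R ^ 2))
    refine h3.trans (le_of_eq ?_)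
    field_simp
    ring
  have t8 : α * q * (g / R ^ 2) ≤ α * q := by
    have h3 : g / R ^ 2 ≤ 1 := by
      rw [div_le_one (by positivity), h1]
      nlinarith [sq_nonneg ε]
    have := mul_le_mul_of_nonneg_left h3 (mul_nonneg v.α0 hq.le)
    linarith
  have t9 : -(2 * ε ^ 2 * f ^ 2 * (β / (q * R ^ 2))) ≤ 3 / 4 * ε := by
    have h3 : -(β / (q * R ^ 2)) ≤ 3 / 8 / q ^ 3 := by
      have h4 := v.β1
      have h5 : -β ≤ 3 / 8 * (R ^ 2 / q ^ 2) := by linarith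
      have h6 := div_le_div_of_nonneg_right h5 (by positivity : 0 ≤ q * R ^ 2)
      have e : 3 / 8 * (R ^ 2 / q ^ 2) / (q * R ^ 2) = 3 / 8 / q ^ 3 := by field_simp
      rw [e, neg_div] at h6
      exact h6
    have h7 : 2 * ε ^ 2 * f ^ 2 * (-(β / (q * R ^ 2))) ≤ 2 * ε ^ 2 * f ^ 2 * (3 / 8 / q ^ 3) :=
      mul_le_mul_of_nonneg_left h3 (by positivity)
    have h8 : 2 * ε ^ 2 * f ^ 2 * (3 / 8 / q ^ 3) ≤ 2 * ε ^ 2 * q ^ 2 * (3 / 8 / q ^ 3) := by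
      have : 0 ≤ 2 * ε ^ 2 * (3 / 8 / q ^ 3) := by positivity
      nlinarith
    have h9 : 2 * ε ^ 2 * q ^ 2 * (3 / 8 / q ^ 3) ≤ 3 / 4 * ε := by
      have e : 2 * ε ^ 2 * q ^ 2 * (3 / 8 / q ^ 3) = 3 / 4 * (ε * (ε / q)) := by
        field_simp
        ring
      rw [e]
      have h10 : ε / q ≤ 1 := (div_le_one hq).2 hεq
      have := mul_le_mul_of_nonneg_left h10 hε.le
      linarith
    linarith
  have t2 := v.hA
  have e1 : (β * (1 - R ^ 2 / q ^ 2) - f / R * w) * (Y / (2 * q * R ^ 2)) =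
      β * (Y / (2 * q * R ^ 2)) - β * (R ^ 2 / q ^ 2) * (Y / (2 * q * R ^ 2)) -
        f / R * w * (Y / (2 * q * R ^ 2)) := by ring
  rw [t1, t3, t4]
  rw [t6] at t5
  rw [e1] at t7
  linarith

/-- the case of a plane wave -/
lemma keyE (hε : 0 < ε) (hεq : ε ≤ q) : q - Real.pi / 2 * |f| - ε ≤
    α / (q / R) * ((q ^ 2 * g - 1 / 2 * f * 0) / R ^ 3) + A * (-f) +
      w * ((q ^ 2 * 0 - 1 / 2 * f * 0) / R ^ 3) * q⁻¹ + β * (-(0 / (2 * q)) / q ^ 2) +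
      β * q⁻¹ * 0 := by
  have t2 := v.hA
  have t1 : α / (q / R) * ((q ^ 2 * g - 1 / 2 * f * 0) / R ^ 3) = α * q - α * q * (ε ^ 2 / R ^ 2) := by
    have : g = R ^ 2 - ε ^ 2 := by linarith
    rw [this]; field_simp; ring
  have t3 : α * q * (ε ^ 2 / R ^ 2) ≤ ε := by
    have h3 := mul_le_mul_of_nonneg_right v.α1 (by positivity : 0 ≤ q * (ε ^ 2 / R ^ 2))
    have e : R ^ 2 / q ^ 2 * (q * (ε ^ 2 / R ^ 2)) = ε * (ε / q) := by field_simp
    rw [e] at h3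
    have h10 : ε / q ≤ 1 := (div_le_one hq).2 hεq
    have := mul_le_mul_of_nonneg_left h10 hε.le
    linarith
  rw [t1]
  simp only [mul_zero, zero_div, neg_zero, sub_zero, add_zero, zero_mul]
  linarith

end real

section bound

variable {f R q α β w A ε u p a b J C : ℝ} (v : Val f R q α β w A) (hR : 0 < R) (hε : 0 < ε)
  (hεR : ε ≤ R) (hRq : R ≤ q) (hf : |f| ≤ q) (hu : |u| ≤ R) (hp : |p| ≤ C * R * J) (hJ : 1 ≤ J)
  (hC : 0 ≤ C)

include v hR hε hεR hRq hf hu hp hJ hC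

lemma bd_T : |(q ^ 2 * u - 1 / 2 * f * p) / R ^ 3| ≤ q ^ 2 / R ^ 2 + q * C * J / R ^ 2 := by
  have hq : 0 < q := hR.trans_le hRq
  rw [abs_div, abs_of_pos (by positivity : 0 < R ^ 3), div_le_iff₀ (by positivity)]
  have h1 : |q ^ 2 * u - 1 / 2 * f * p| ≤ q ^ 2 * |u| + 1 / 2 * |f| * |p| := by
    refine (abs_sub _ _).trans (le_of_eq ?_)
    rw [abs_mul, abs_mul, abs_mul, abs_of_nonneg (sq_nonneg q)]
    norm_num
  have h2 : q ^ 2 * |u| ≤ q ^ 2 * R := mul_le_mul_of_nonneg_left hu (sq_nonneg q)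
  have h3 : 1 / 2 * |f| * |p| ≤ 1 / 2 * q * (C * R * J) := by
    have := mul_le_mul hf hp (abs_nonneg _) hq.le
    nlinarith
  have h4 : (q ^ 2 / R ^ 2 + q * C * J / R ^ 2) * R ^ 3 = q ^ 2 * R + q * C * J * R := by
    field_simp
  rw [h4]
  have : 0 ≤ q * C * J * R := by positivity
  linarith

lemma bd_V' : |α / (q / R) * ((q ^ 2 * u - 1 / 2 * f * p) / R ^ 3) * u + A * a +
    (w * ((q ^ 2 * u - 1 / 2 * f * p) / R ^ 3) * q⁻¹ + β * (-(p / (2 * q)) / q ^ 2)) * p +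
    β * q⁻¹ * b| ≤ q + 2 * C * J + 2 * C ^ 2 * J ^ 2 / ε + 2 * |a| + |b| / ε := by
  have hq : 0 < q := hR.trans_le hRq
  have hJ0 : 0 < J := by linarith
  have hT := bd_T v hR hε hεR hRq hf hu hp hJ hC
  obtain ⟨T, eT⟩ : ∃ T, T = (q ^ 2 * u - 1 / 2 * f * p) / R ^ 3 := ⟨_, rfl⟩
  rw [← eT] at hT ⊢
  have hqR : ε ≤ q := hεR.trans hRq
  have a1 : |α| ≤ R ^ 2 / q ^ 2 := by rw [abs_of_nonneg v.α0]; exact v.α1
  have a2 : |α| ≤ 1 := by
    refine a1.trans ((div_le_one (by positivity)).2 ?_)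
    exact pow_le_pow_left₀ hR.le hRq 2
  have b1 : |β| ≤ 3 / 8 * (R ^ 2 / q ^ 2) := by
    rw [abs_of_nonpos v.β0]; linarith [v.β1]
  have b2 : |β| ≤ 1 := by
    refine b1.trans ?_
    have : R ^ 2 / q ^ 2 ≤ 1 := (div_le_one (by positivity)).2 (pow_le_pow_left₀ hR.le hRq 2)
    linarith
  have m1 : |α / (q / R) * T * u| ≤ q + C * J := by
    rw [abs_mul, abs_mul, abs_div, abs_of_pos (by positivity : 0 < q / R)]
    have h3 : |α| / (q / R) ≤ 1 / (q / R) := div_le_div_of_nonneg_right a2 (by positivity)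
    have h4 : |α| / (q / R) * |T| ≤ 1 / (q / R) * (q ^ 2 / R ^ 2 + q * C * J / R ^ 2) :=
      mul_le_mul h3 hT (abs_nonneg _) (by positivity)
    have h5 : |α| / (q / R) * |T| * |u| ≤
        1 / (q / R) * (q ^ 2 / R ^ 2 + q * C * J / R ^ 2) * R :=
      mul_le_mul h4 hu (abs_nonneg _) (by positivity)
    refine h5.trans (le_of_eq ?_)
    field_simp
  have m2 : |A * a| ≤ 2 * |a| := by
    rw [abs_mul]; exact mul_le_mul_of_nonneg_right v.Ab (abs_nonneg _)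
  have m3 : |w * T * q⁻¹ * p| ≤ C * J + C ^ 2 * J ^ 2 / ε := by
    rw [abs_mul, abs_mul, abs_mul, abs_of_pos (inv_pos.2 hq)]
    have h3 : |w| * |T| ≤ R / q * (q ^ 2 / R ^ 2 + q * C * J / R ^ 2) :=
      mul_le_mul v.wb hT (abs_nonneg _) (by positivity)
    have h4 : |w| * |T| * q⁻¹ ≤ R / q * (q ^ 2 / R ^ 2 + q * C * J / R ^ 2) * q⁻¹ :=
      mul_le_mul_of_nonneg_right h3 (inv_pos.2 hq).le
    have h5 : |w| * |T| * q⁻¹ * |p| ≤
        R / q * (q ^ 2 / R ^ 2 + q * C * J / R ^ 2) * q⁻¹ * (C * R * J) :=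
      mul_le_mul h4 hp (abs_nonneg _) (by positivity)
    have e : R / q * (q ^ 2 / R ^ 2 + q * C * J / R ^ 2) * q⁻¹ * (C * R * J) =
        C * J + C ^ 2 * J ^ 2 / q := by
      field_simp
    rw [e] at h5
    have h6 : C ^ 2 * J ^ 2 / q ≤ C ^ 2 * J ^ 2 / ε :=
      div_le_div_of_nonneg_left (by positivity) hε hqR
    linarith
  have m4 : |β * (-(p / (2 * q)) / q ^ 2) * p| ≤ C ^ 2 * J ^ 2 / ε := by
    have e0 : β * (-(p / (2 * q)) / q ^ 2) * p = -(β * (p ^ 2 / (2 * q ^ 3))) := by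
      field_simp
    rw [e0, abs_neg, abs_mul, abs_of_nonneg (by positivity : 0 ≤ p ^ 2 / (2 * q ^ 3))]
    have h3 : p ^ 2 ≤ (C * R * J) ^ 2 := by
      rw [← sq_abs p]; exact pow_le_pow_left₀ (abs_nonneg _) hp 2
    have h4 : p ^ 2 / (2 * q ^ 3) ≤ (C * R * J) ^ 2 / (2 * q ^ 3) :=
      div_le_div_of_nonneg_right h3 (by positivity)
    have h5 : (C * R * J) ^ 2 / (2 * q ^ 3) ≤ C ^ 2 * J ^ 2 / ε := by
      rw [div_le_div_iff₀ (by positivity) hε]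
      have h6 : R ^ 2 ≤ q ^ 2 := pow_le_pow_left₀ hR.le hRq 2
      have h7 : R ^ 2 * ε ≤ q ^ 2 * q := mul_le_mul h6 hqR hε.le (by positivity)
      have h8 := mul_le_mul_of_nonneg_left h7 (by positivity : 0 ≤ C ^ 2 * J ^ 2)
      have h9 : 0 ≤ C ^ 2 * J ^ 2 * q ^ 3 := by positivity
      nlinarith
    have h10 : |β| * (p ^ 2 / (2 * q ^ 3)) ≤ 1 * (p ^ 2 / (2 * q ^ 3)) :=
      mul_le_mul_of_nonneg_right b2 (by positivity)
    linarith
  have m5 : |β * q⁻¹ * b| ≤ |b| / ε := by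
    rw [abs_mul, abs_mul, abs_of_pos (inv_pos.2 hq)]
    have h3 : |β| * q⁻¹ ≤ 1 * ε⁻¹ :=
      mul_le_mul b2 (inv_anti₀ hε hqR) (inv_pos.2 hq).le zero_le_one
    have h4 := mul_le_mul_of_nonneg_right h3 (abs_nonneg b)
    have e : |b| / ε = 1 * ε⁻¹ * |b| := by ring
    rw [e]; exact h4
  have e : α / (q / R) * T * u + A * a + (w * T * q⁻¹ + β * (-(p / (2 * q)) / q ^ 2)) * p +
      β * q⁻¹ * b = α / (q / R) * T * u + A * a + w * T * q⁻¹ * p +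
        β * (-(p / (2 * q)) / q ^ 2) * p + β * q⁻¹ * b := by ring
  rw [e]
  have s1 := abs_add_le (α / (q / R) * T * u + A * a + w * T * q⁻¹ * p +
        β * (-(p / (2 * q)) / q ^ 2) * p) (β * q⁻¹ * b)
  have s2 := abs_add_le (α / (q / R) * T * u + A * a + w * T * q⁻¹ * p)
    (β * (-(p / (2 * q)) / q ^ 2) * p)
  have s3 := abs_add_le (α / (q / R) * T * u + A * a) (w * T * q⁻¹ * p)
  have s4 := abs_add_le (α / (q / R) * T * u) (A * a)
  have e9 : 2 * C ^ 2 * J ^ 2 / ε = C ^ 2 * J ^ 2 / ε + C ^ 2 * J ^ 2 / ε := by ring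
  rw [e9]
  linarith

end bound

end

end Pool.Agent.W2helper36.EM
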