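import Pool.Agent.W2helper36.EM.G

/-!
Project EM (helper36): the inequality for the first moment, regularised form.
-/

set_option autoImplicit false
set_option linter.unusedSectionVars false
open MeasureTheory Filter Topology
open scoped ContDiff ENNReal

namespace Pool.Agent.W2helper36.EM

open Pool.Agent.Y139.SW Pool.Agent.W2helper17.FM

noncomputable section

variable {d : ℕ}

/-- the field -/
def VV (ε : ℝ) (i : Fin d) (f : E d → ℝ) (y : E d) : ℝ :=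
  fa (tf ε f y) * D i f y + fb (tf ε f y) * (qf ε f y)⁻¹ * D i (En f) y

/-- its derivative -/
def VV' (ε : ℝ) (i : Fin d) (f : E d → ℝ) (y : E d) : ℝ :=
  al |tf ε f y| / rr |tf ε f y| * D i (tf ε f) y * D i f y + fa (tf ε f y) * D i (D i f) y +
  (tf ε f y * ub' |tf ε f y| * D i (tf ε f) y * (qf ε f y)⁻¹ +
    fb (tf ε f y) * (-(D i (qf ε f) y) / qf ε f y ^ 2)) * D i (En f) y +
  fb (tf ε f y) * (qf ε f y)⁻¹ * D i (D i (En f)) y

lemma VV_line {ε : ℝ} (hε : 0 < ε) {f : E d → ℝ} (hf : ContDiff ℝ ∞ f) (i : Fin d) (t : ℝ) :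
    HasDerivAt (fun t : ℝ => VV ε i f (t • EuclideanSpace.single i 1))
      (VV' ε i f (t • EuclideanSpace.single i 1)) t := by
  have h1 := (line_comp fa_deriv (tf_sm hε hf) i t).fun_mul (line (D_sm hf i) i t)
  have h2 := line_comp fb_deriv (tf_sm hε hf) i t
  have h3 := (line (qf_sm hε hf) i t).fun_inv (qf_pos hε f _).ne'
  have h4 := (h2.fun_mul h3).fun_mul (line (D_sm (En_sm hf) i) i t)
  refine (h1.fun_add h4).congr_deriv ?_
  unfold VV'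
  ring

variable {S : Type*} [MeasurableSpace S] {P : Measure S} {τ : E d → S → S}

lemma sf_qf {ε : ℝ} (hε : 0 < ε) {G : S → E d → ℝ} (h : SF τ G) : SF τ (fun s => qf ε (G s)) :=
  sf_sqrt (sf_add (sf_En h) (sf_const (ε ^ 2))) fun s y => pq hε (G s) y

lemma sf_Rf {ε : ℝ} (hε : 0 < ε) {G : S → E d → ℝ} (h : SF τ G) : SF τ (fun s => Rf ε (G s)) :=
  sf_sqrt (sf_add (sf_Q 1 h) (sf_const (ε ^ 2))) fun s y => pR hε (G s) y

lemma sf_tf {ε : ℝ} (hε : 0 < ε) {G : S → E d → ℝ} (h : SF τ G) : SF τ (fun s => tf ε (G s)) :=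
  h.mul ((sf_Rf hε h).inv fun s y => (Rf_pos hε (G s) y).ne')

lemma cf_VV {ε : ℝ} (hε : 0 < ε) {G : S → E d → ℝ} (h : SF τ G) (i : Fin d) :
    CF τ (fun s => VV ε i (G s)) := by
  have ct := cf (sf_tf hε h)
  have cq := (cf (sf_qf hε h)).inv fun s y => (qf_pos hε (G s) y).ne'
  exact ((ct.comp fa_cont).mul (cf (h.der i))).add
    (((ct.comp fb_cont).mul cq).mul (cf ((sf_En h).der i)))

lemma cf_VV' {ε : ℝ} (hε : 0 < ε) {G : S → E d → ℝ} (h : SF τ G) (i : Fin d) :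
    CF τ (fun s => VV' ε i (G s)) := by
  have ct := cf (sf_tf hε h)
  have cq := (cf (sf_qf hε h)).inv fun s y => (qf_pos hε (G s) y).ne'
  have k1 : Continuous fun x : ℝ => al |x| / rr |x| :=
    (al_cont.comp continuous_abs).div (rr_cont.comp continuous_abs) fun x => (rr_pos _).ne'
  have k2 : Continuous fun x : ℝ => x * ub' |x| := continuous_id.mul (ub'_cont.comp continuous_abs)
  have c1 := ((ct.comp k1).mul (cf ((sf_tf hε h).der i))).mul (cf (h.der i))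
  have c2 := (ct.comp fa_cont).mul (cf ((h.der i).der i))
  have c3 := ((ct.comp k2).mul (cf ((sf_tf hε h).der i))).mul cq
  have sqq : SF τ (fun s y => qf ε (G s) y * qf ε (G s) y) := (sf_qf hε h).mul (sf_qf hε h)
  have c4 := (ct.comp fb_cont).mul ((cf ((sf_qf hε h).der i)).neg.mul
    ((cf sqq).inv fun s y => (mul_pos (qf_pos hε (G s) y) (qf_pos hε (G s) y)).ne'))
  have c5 := ((ct.comp fb_cont).mul cq).mul (cf (((sf_En h).der i).der i))
  have c6 := ((c1.add c2).add ((c3.add c4).mul (cf ((sf_En h).der i)))).add c5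
  have e : (fun s => VV' ε i (G s)) = fun s y =>
      al |tf ε (G s) y| / rr |tf ε (G s) y| * D i (tf ε (G s)) y * D i (G s) y +
      fa (tf ε (G s) y) * D i (D i (G s)) y +
      (tf ε (G s) y * ub' |tf ε (G s) y| * D i (tf ε (G s)) y * (qf ε (G s) y)⁻¹ +
      fb (tf ε (G s) y) * (-(D i (qf ε (G s)) y) * (qf ε (G s) y * qf ε (G s) y)⁻¹)) *
        D i (En (G s)) y +
      fb (tf ε (G s) y) * (qf ε (G s) y)⁻¹ * D i (D i (En (G s))) y := by
    funext s y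
    unfold VV'
    simp only [← sq, div_eq_mul_inv]
  rw [e]
  exact c6

lemma abs_D_le {ε : ℝ} (hε : 0 < ε) (f : E d → ℝ) (y : E d) (i : Fin d) :
    |D i f y| ≤ Rf ε f y := by
  refine Real.abs_le_sqrt ?_
  rw [Q_one]
  have : D i f y ^ 2 ≤ ∑ j, D j f y ^ 2 :=
    Finset.single_le_sum (f := fun j => D j f y ^ 2) (fun _ _ => sq_nonneg _) (Finset.mem_univ i)
  have := sq_nonneg ε
  linarith

lemma abs_le_qf {ε : ℝ} (hε : 0 < ε) (f : E d → ℝ) (y : E d) : |f y| ≤ qf ε f y := by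
  refine Real.abs_le_sqrt ?_
  unfold En
  have := Q_nn 1 f y
  have := sq_nonneg ε
  linarith

/-- the constant in the bound of `∇P` -/
def cd (d : ℕ) : ℝ := 2 * (1 + d)

lemma p_bd {ε : ℝ} (hε : 0 < ε) {G : S → E d → ℝ} (hs : ∀ s, ContDiff ℝ ∞ (G s)) (i : Fin d)
    (s : S) : |D i (En (G s)) 0| ≤ cd d * Rf ε (G s) 0 * J G s := by
  rw [D_En (hs s)]
  have hR := Rf_pos hε (G s) 0
  have hJ := J_one G s
  have h1 : |G s 0 * D i (G s) 0| ≤ J G s * Rf ε (G s) 0 := by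
    rw [abs_mul]
    exact mul_le_mul (J0 G s) (abs_D_le hε _ _ i) (abs_nonneg _) (by linarith)
  have h2 : |∑ j, D j (D i (G s)) 0 * D j (G s) 0| ≤ d * (J G s * Rf ε (G s) 0) := by
    refine (Finset.abs_sum_le_sum_abs _ _).trans ?_
    have : ∀ j ∈ Finset.univ, |D j (D i (G s)) 0 * D j (G s) 0| ≤ J G s * Rf ε (G s) 0 := by
      intro j _
      rw [abs_mul]
      exact mul_le_mul (J2 G j i s) (abs_D_le hε _ _ j) (abs_nonneg _) (by linarith)
    refine (Finset.sum_le_card_nsmul _ _ _ this).trans (le_of_eq ?_)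
    simp
  rw [abs_mul, abs_of_pos (by norm_num : (0 : ℝ) < 2)]
  have h3 := abs_add_le (G s 0 * D i (G s) 0) (∑ j, D j (D i (G s)) 0 * D j (G s) 0)
  unfold cd
  have e : 2 * (1 + (d : ℝ)) * Rf ε (G s) 0 * J G s =
      2 * (J G s * Rf ε (G s) 0 + d * (J G s * Rf ε (G s) 0)) := by ring
  rw [e]
  linarith

lemma cd_nn (d : ℕ) : 0 ≤ cd d := by unfold cd; positivity

lemma bd_qf {ε : ℝ} (hε : 0 < ε) (G : S → E d → ℝ) : Bd (J G) 2 (fun s => qf ε (G s) 0) := by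
  have hL := J_one G
  obtain ⟨C, c0, hC⟩ := Bd.add hL (bd_En G) (Bd.mono hL (by norm_num : 0 ≤ 2)
    (Bd.const hL (ε ^ 2)))
  refine ⟨C / ε, by positivity, fun s => ?_⟩
  have h1 : |En (G s) 0 + ε ^ 2| ≤ C * J G s ^ 2 := hC s
  have hq := qf_pos hε (G s) 0
  have hq2 := qf_ge hε (G s) 0
  have h2 : qf ε (G s) 0 ^ 2 = En (G s) 0 + ε ^ 2 := Real.sq_sqrt (pq hε (G s) 0).le
  rw [← h2, abs_of_nonneg (sq_nonneg _)] at h1
  show |qf ε (G s) 0| ≤ _
  rw [abs_of_pos hq]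
  have h3 : qf ε (G s) 0 * ε ≤ qf ε (G s) 0 ^ 2 := by nlinarith
  have e : C / ε * J G s ^ 2 = C * J G s ^ 2 / ε := by ring
  rw [e, le_div_iff₀ hε]
  linarith

section main

variable [IsProbabilityMeasure P] (hτ : ∀ x, MeasurePreserving (τ x) P P)
  {G : S → E d → ℝ} (W : Wn 2 P τ G) {ε : ℝ} (hε : 0 < ε)

include hτ W hε

lemma VV_int (i : Fin d) : Integrable (fun s => VV ε i (G s) 0) P := by
  have hL := J_one G
  refine int_bd hτ (by norm_num) W le_rfl ((cf_VV hε W.sf i).meas 0) ?_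
  obtain ⟨C, c0, hC⟩ := bd_DEn W.sf.smooth i (G := G)
  refine ⟨2 + C / ε, by positivity, fun s => ?_⟩
  have hR := Rf_pos hε (G s) 0
  have hq := qf_pos hε (G s) 0
  obtain ⟨_, v⟩ := val hR hq (qf_sq hε (G s) 0)
  have h1 : |fa (tf ε (G s) 0) * D i (G s) 0| ≤ 2 * J G s ^ 2 := by
    rw [abs_mul]
    have h3 := J1 G i s
    have h4 : J G s ≤ J G s ^ 2 := by nlinarith [hL s]
    have h5 : |fa (tf ε (G s) 0)| ≤ 2 := v.Ab
    have := mul_le_mul h5 (h3.trans h4) (abs_nonneg _) (by norm_num)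
    linarith
  have h2 : |fb (tf ε (G s) 0) * (qf ε (G s) 0)⁻¹ * D i (En (G s)) 0| ≤
      C / ε * J G s ^ 2 := by
    have b1 : |fb (tf ε (G s) 0)| ≤ 1 := by
      have b0 : fb (tf ε (G s) 0) ≤ 0 := v.β0
      have b2 : -(3 / 8 * (Rf ε (G s) 0 ^ 2 / qf ε (G s) 0 ^ 2)) ≤ fb (tf ε (G s) 0) := v.β1
      have : Rf ε (G s) 0 ^ 2 / qf ε (G s) 0 ^ 2 ≤ 1 :=
        (div_le_one (by positivity)).2 (pow_le_pow_left₀ hR.le (Rf_le hε _ _) 2)
      rw [abs_of_nonpos b0]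
      linarith
    have b2 : (qf ε (G s) 0)⁻¹ ≤ ε⁻¹ := inv_anti₀ hε (qf_ge hε _ _)
    rw [abs_mul, abs_mul, abs_of_pos (inv_pos.2 hq)]
    have h3 : |fb (tf ε (G s) 0)| * (qf ε (G s) 0)⁻¹ ≤ 1 * ε⁻¹ :=
      mul_le_mul b1 b2 (inv_pos.2 hq).le zero_le_one
    have h4 : |fb (tf ε (G s) 0)| * (qf ε (G s) 0)⁻¹ * |D i (En (G s)) 0| ≤
        1 * ε⁻¹ * (C * J G s ^ 2) := mul_le_mul h3 (hC s) (abs_nonneg _) (by positivity)
    refine h4.trans (le_of_eq ?_)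
    ring
  have h3 := abs_add_le (fa (tf ε (G s) 0) * D i (G s) 0)
    (fb (tf ε (G s) 0) * (qf ε (G s) 0)⁻¹ * D i (En (G s)) 0)
  show |fa (tf ε (G s) 0) * D i (G s) 0 + fb (tf ε (G s) 0) * (qf ε (G s) 0)⁻¹ *
    D i (En (G s)) 0| ≤ _
  rw [add_mul]
  linarith

lemma VV'_int (i : Fin d) : Integrable (fun s => VV' ε i (G s) 0) P := by
  have hL := J_one G
  refine int_bd hτ (by norm_num) W le_rfl ((cf_VV' hε W.sf i).meas 0) ?_
  obtain ⟨C1, c1, hC1⟩ := bd_DDEn W.sf.smooth i (G := G)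
  obtain ⟨C2, c2, hC2⟩ := bd_qf hε G
  have c3 := cd_nn d
  refine ⟨C2 + 2 * cd d + 2 * cd d ^ 2 / ε + 2 + C1 / ε, by positivity, fun s => ?_⟩
  have hR := Rf_pos hε (G s) 0
  have hq := qf_pos hε (G s) 0
  obtain ⟨hr, v⟩ := val hR hq (qf_sq hε (G s) 0)
  have b := bd_V' (f := G s 0) (R := Rf ε (G s) 0) (q := qf ε (G s) 0) (u := D i (G s) 0)
    (p := D i (En (G s)) 0) (a := D i (D i (G s)) 0) (b := D i (D i (En (G s))) 0) v hR hε
    (Rf_ge hε _ _) (Rf_le hε _ _) (abs_le_qf hε _ _) (abs_D_le hε _ _ i)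
    (p_bd hε W.sf.smooth i s) (hL s) c3
  have e : VV' ε i (G s) 0 = al |G s 0 * (Rf ε (G s) 0)⁻¹| / (qf ε (G s) 0 / Rf ε (G s) 0) *
      ((qf ε (G s) 0 ^ 2 * D i (G s) 0 - 1 / 2 * G s 0 * D i (En (G s)) 0) / Rf ε (G s) 0 ^ 3) *
        D i (G s) 0 + fa (G s 0 * (Rf ε (G s) 0)⁻¹) * D i (D i (G s)) 0 +
      (G s 0 * (Rf ε (G s) 0)⁻¹ * ub' |G s 0 * (Rf ε (G s) 0)⁻¹| *
      ((qf ε (G s) 0 ^ 2 * D i (G s) 0 - 1 / 2 * G s 0 * D i (En (G s)) 0) / Rf ε (G s) 0 ^ 3) *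
        (qf ε (G s) 0)⁻¹ + fb (G s 0 * (Rf ε (G s) 0)⁻¹) *
          (-(D i (En (G s)) 0 / (2 * qf ε (G s) 0)) / qf ε (G s) 0 ^ 2)) * D i (En (G s)) 0 +
      fb (G s 0 * (Rf ε (G s) 0)⁻¹) * (qf ε (G s) 0)⁻¹ * D i (D i (En (G s))) 0 := by
    unfold VV'
    rw [D_tf hε (W.sf.smooth s), D_qf hε (W.sf.smooth s)]
    rw [← hr]
    rfl
  show |VV' ε i (G s) 0| ≤ _
  rw [e]
  refine b.trans ?_
  have j1 : J G s ≤ J G s ^ 2 := by nlinarith [hL s]
  have m1 : qf ε (G s) 0 ≤ C2 * J G s ^ 2 := (le_abs_self _).trans (hC2 s)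
  have m2 : 2 * cd d * J G s ≤ 2 * cd d * J G s ^ 2 :=
    mul_le_mul_of_nonneg_left j1 (by positivity)
  have m3 : 2 * |D i (D i (G s)) 0| ≤ 2 * J G s ^ 2 := by
    have := J2 G i i s
    linarith
  have m4 : |D i (D i (En (G s))) 0| / ε ≤ C1 / ε * J G s ^ 2 := by
    have := div_le_div_of_nonneg_right (hC1 s) hε.le
    have e2 : C1 / ε * J G s ^ 2 = C1 * J G s ^ 2 / ε := by ring
    rw [e2]; exact this
  have e3 : (C2 + 2 * cd d + 2 * cd d ^ 2 / ε + 2 + C1 / ε) * J G s ^ 2 =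
      C2 * J G s ^ 2 + 2 * cd d * J G s ^ 2 + 2 * cd d ^ 2 * J G s ^ 2 / ε + 2 * J G s ^ 2 +
        C1 / ε * J G s ^ 2 := by ring
  rw [e3]
  linarith

omit hτ [IsProbabilityMeasure P] in
lemma sum_VV' (s : S) : ∑ i, VV' ε i (G s) 0 =
    al |G s 0 * (Rf ε (G s) 0)⁻¹| / (qf ε (G s) 0 / Rf ε (G s) 0) *
      ((qf ε (G s) 0 ^ 2 * Q 1 (G s) 0 - 1 / 2 * G s 0 * XX (G s) 0) / Rf ε (G s) 0 ^ 3) +
    fa (G s 0 * (Rf ε (G s) 0)⁻¹) * (-G s 0) +
    (G s 0 * (Rf ε (G s) 0)⁻¹ * ub' |G s 0 * (Rf ε (G s) 0)⁻¹|) *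
      ((qf ε (G s) 0 ^ 2 * XX (G s) 0 - 1 / 2 * G s 0 * YY (G s) 0) / Rf ε (G s) 0 ^ 3) *
        (qf ε (G s) 0)⁻¹ +
    fb (G s 0 * (Rf ε (G s) 0)⁻¹) * (-(YY (G s) 0 / (2 * qf ε (G s) 0)) / qf ε (G s) 0 ^ 2) +
    fb (G s 0 * (Rf ε (G s) 0)⁻¹) * (qf ε (G s) 0)⁻¹ * Lap (En (G s)) 0 := by
  have hR := Rf_pos hε (G s) 0
  have hq := qf_pos hε (G s) 0
  obtain ⟨hr, v⟩ := val hR hq (qf_sq hε (G s) 0)
  rw [← W.eq s 0, Q_one]
  unfold XX YY Lap
  simp only [Finset.mul_sum, Finset.sum_div, Finset.sum_mul, ← Finset.sum_sub_distrib,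
    ← Finset.sum_add_distrib, ← Finset.sum_neg_distrib]
  refine Finset.sum_congr rfl fun i _ => ?_
  unfold VV'
  rw [D_tf hε (W.sf.smooth s), D_qf hε (W.sf.smooth s)]
  rw [← hr]
  unfold tf
  ring

lemma sum_int : Integrable (fun s => ∑ i, VV' ε i (G s) 0) P :=
  integrable_finsetSum _ fun i _ => VV'_int hτ W hε i

lemma sum_zero : ∫ s, ∑ i, VV' ε i (G s) 0 ∂P = 0 := by
  rw [integral_finsetSum _ fun i _ => VV'_int hτ W hε i]
  refine Finset.sum_eq_zero fun i _ => ?_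
  exact div1 hτ (cf_VV hε W.sf i) (cf_VV' hε W.sf i) i
    (fun s t => VV_line hε (W.sf.smooth s) i t) (VV_int hτ W hε i) (VV'_int hτ W hε i)

omit hτ [IsProbabilityMeasure P] in
lemma point (s : S) : ∑ i, VV' ε i (G s) 0 ≤ qf ε (G s) 0 - Real.pi / 2 * |G s 0| + 3 / 4 * ε -
    G s 0 ^ 2 * YY (G s) 0 / (16 * qf ε (G s) 0 ^ 5) := by
  have hR := Rf_pos hε (G s) 0
  have hq := qf_pos hε (G s) 0
  obtain ⟨hr, v⟩ := val hR hq (qf_sq hε (G s) 0)
  rw [sum_VV' W hε s]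
  have hf := W.sf.smooth s
  have k := key hf (W.eq s) 0
  have hL : -(2 * G s 0 ^ 2) ≤ Lap (En (G s)) 0 := by
    rw [Lap_En hf (W.eq s)]
    have := Q_nn 2 (G s) 0
    linarith
  have hfq : G s 0 ^ 2 ≤ qf ε (G s) 0 ^ 2 := by
    rw [qf_sq hε]
    have := sq_nonneg (Rf ε (G s) 0)
    linarith
  exact keyR v hR hq (Rf_sq hε _ _) hε (qf_ge hε _ _) k hL (YY_nn _ _) (Q_nn _ _ _) hfq

lemma rem_int : Integrable (fun s => G s 0 ^ 2 * YY (G s) 0 / (16 * qf ε (G s) 0 ^ 5)) P := by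
  have hL := J_one G
  have m5 : Measurable fun s => 16 * qf ε (G s) 0 ^ 5 :=
    measurable_const.mul (((sf_qf hε W.sf).meas 0).pow_const 5)
  refine int_bd hτ (by norm_num) W le_rfl
    ((((W.sf.meas 0).pow_const 2).mul ((sf_YY W.sf).meas 0)).div m5) ?_
  refine ⟨d * cd d ^ 2 / ε, by positivity, fun s => ?_⟩
  have hR := Rf_pos hε (G s) 0
  have hq := qf_pos hε (G s) 0
  have hRq := Rf_le hε (G s) 0
  have hj : 0 < J G s := by linarith [hL s]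
  have hY : YY (G s) 0 ≤ d * (cd d * qf ε (G s) 0 * J G s) ^ 2 := by
    unfold YY
    have : ∀ i ∈ Finset.univ, D i (En (G s)) 0 ^ 2 ≤ (cd d * qf ε (G s) 0 * J G s) ^ 2 := by
      intro i _
      rw [← sq_abs (D i (En (G s)) 0)]
      refine pow_le_pow_left₀ (abs_nonneg _) ((p_bd hε W.sf.smooth i s).trans ?_) 2
      refine mul_le_mul_of_nonneg_right ?_ hj.le
      exact mul_le_mul_of_nonneg_left hRq (cd_nn d)
    refine (Finset.sum_le_card_nsmul _ _ _ this).trans (le_of_eq ?_)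
    simp
  have hfq : G s 0 ^ 2 ≤ qf ε (G s) 0 ^ 2 := by
    rw [qf_sq hε]
    have := sq_nonneg (Rf ε (G s) 0)
    linarith
  have h0 : 0 ≤ G s 0 ^ 2 * YY (G s) 0 / (16 * qf ε (G s) 0 ^ 5) :=
    div_nonneg (mul_nonneg (sq_nonneg _) (YY_nn _ _)) (by positivity)
  rw [abs_of_nonneg h0, div_le_iff₀ (by positivity)]
  have h1 := mul_le_mul hfq hY (YY_nn _ _) (sq_nonneg _)
  refine h1.trans ?_
  have h2 : d * cd d ^ 2 / ε * J G s ^ 2 * (16 * qf ε (G s) 0 ^ 5) =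
      16 * (qf ε (G s) 0 / ε) *
        (qf ε (G s) 0 ^ 2 * (d * (cd d * qf ε (G s) 0 * J G s) ^ 2)) := by
    field_simp
  rw [h2]
  have h3 : 1 ≤ qf ε (G s) 0 / ε := (one_le_div hε).2 (qf_ge hε _ _)
  have h4 : 0 ≤ qf ε (G s) 0 ^ 2 * (d * (cd d * qf ε (G s) 0 * J G s) ^ 2) := by positivity
  nlinarith

lemma qf_int : Integrable (fun s => qf ε (G s) 0) P :=
  int_bd hτ (by norm_num) W le_rfl ((sf_qf hε W.sf).meas 0) (bd_qf hε G)

omit hε in
lemma abs_int : Integrable (fun s => |G s 0|) P := by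
  have := W.ln.integrable (by norm_num)
  exact this.abs

/-- the regularised inequality -/
theorem reg : ∫ s, G s 0 ^ 2 * YY (G s) 0 / (16 * qf ε (G s) 0 ^ 5) ∂P +
    Real.pi / 2 * ∫ s, |G s 0| ∂P ≤ ∫ s, qf ε (G s) 0 ∂P + 3 / 4 * ε := by
  have i1 := sum_int hτ W hε
  have i2 := qf_int hτ W hε
  have i3 := abs_int hτ W
  have i4 := rem_int hτ W hε
  have j1 : Integrable (fun s => qf ε (G s) 0 - Real.pi / 2 * |G s 0|) P :=
    i2.sub (i3.const_mul (Real.pi / 2))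
  have j2 : Integrable (fun s => qf ε (G s) 0 - Real.pi / 2 * |G s 0| + 3 / 4 * ε) P :=
    j1.add (integrable_const (3 / 4 * ε))
  have h := integral_mono (μ := P) i1 (j2.sub i4) (point W hε)
  rw [sum_zero hτ W hε] at h
  have e : ∫ s, (qf ε (G s) 0 - Real.pi / 2 * |G s 0| + 3 / 4 * ε -
      G s 0 ^ 2 * YY (G s) 0 / (16 * qf ε (G s) 0 ^ 5)) ∂P =
      ∫ s, qf ε (G s) 0 ∂P - Real.pi / 2 * ∫ s, |G s 0| ∂P + 3 / 4 * ε -
        ∫ s, G s 0 ^ 2 * YY (G s) 0 / (16 * qf ε (G s) 0 ^ 5) ∂P := by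
    rw [integral_sub j2 i4, integral_add j1 (integrable_const (3 / 4 * ε)),
      integral_sub i2 (i3.const_mul (Real.pi / 2)), integral_const_mul]
    simp
  have h' : 0 ≤ ∫ s, (qf ε (G s) 0 - Real.pi / 2 * |G s 0| + 3 / 4 * ε -
      G s 0 ^ 2 * YY (G s) 0 / (16 * qf ε (G s) 0 ^ 5)) ∂P := h
  rw [e] at h'
  linarith

/-- the regularised equality for waves with constant energy density -/
theorem regE (h0 : ∀ᵐ s ∂P, ∀ y, En (G s) y = En (G s) 0) :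
    ∫ s, qf ε (G s) 0 ∂P ≤ Real.pi / 2 * ∫ s, |G s 0| ∂P + ε := by
  have i1 := sum_int hτ W hε
  have i2 := qf_int hτ W hε
  have i3 := abs_int hτ W
  have j1 : Integrable (fun s => qf ε (G s) 0 - Real.pi / 2 * |G s 0|) P :=
    i2.sub (i3.const_mul (Real.pi / 2))
  have h := integral_mono_ae (μ := P) (j1.sub (integrable_const ε)) i1 (by
      filter_upwards [h0] with s hs
      have hR := Rf_pos hε (G s) 0
      have hq := qf_pos hε (G s) 0
      obtain ⟨hr, v⟩ := val hR hq (qf_sq hε (G s) 0)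
      have e2 : En (G s) = fun _ => En (G s) 0 := funext hs
      have z : ∀ i, D i (En (G s)) = fun _ => 0 := by
        intro i
        funext y
        rw [e2]; unfold D; simp
      have eX : XX (G s) 0 = 0 := by
        unfold XX; simp only [z, mul_zero, Finset.sum_const_zero]
      have eY : YY (G s) 0 = 0 := by
        unfold YY; simp [z]
      have eL : Lap (En (G s)) 0 = 0 := by
        unfold Lap
        refine Finset.sum_eq_zero fun i _ => ?_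
        rw [z]; unfold D; simp
      have k := keyE v hR hq (Rf_sq hε _ _) hε (qf_ge hε _ _)
      rw [sum_VV' W hε s, eX, eY, eL]
      exact k)
  rw [sum_zero hτ W hε] at h
  have e : ∫ s, (qf ε (G s) 0 - Real.pi / 2 * |G s 0| - ε) ∂P =
      ∫ s, qf ε (G s) 0 ∂P - Real.pi / 2 * ∫ s, |G s 0| ∂P - ε := by
    rw [integral_sub j1 (integrable_const ε), integral_sub i2 (i3.const_mul (Real.pi / 2)),
      integral_const_mul]
    simp
  have h' : ∫ s, (qf ε (G s) 0 - Real.pi / 2 * |G s 0| - ε) ∂P ≤ 0 := h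
  rw [e] at h'
  linarith

end main

end

end Pool.Agent.W2helper36.EM
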