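import Pool.Agent.W2helper36.EM.H

/-!
Project EM (helper36): the inequality for the first moment.
-/

set_option autoImplicit false
set_option linter.unusedSectionVars false
open MeasureTheory Filter Topology
open scoped ContDiff ENNReal

namespace Pool.Agent.W2helper36.EM

open Pool.Agent.Y139.SW Pool.Agent.W2helper17.FM

noncomputable section

/-- Fatou for real integrals with a converging bound -/
lemma fatou {S : Type*} [MeasurableSpace S] {P : Measure S} {F : ℕ → S → ℝ} {F0 : S → ℝ}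
    {b : ℕ → ℝ} {b0 : ℝ} (hF : ∀ n s, 0 ≤ F n s) (mF : ∀ n, Measurable (F n))
    (iF : ∀ n, Integrable (F n) P) (hb : ∀ n, ∫ s, F n s ∂P ≤ b n)
    (hl : ∀ s, Tendsto (fun n => F n s) atTop (𝓝 (F0 s))) (hb0 : Tendsto b atTop (𝓝 b0)) :
    Integrable F0 P ∧ ∫ s, F0 s ∂P ≤ b0 := by
  have h0 : ∀ s, 0 ≤ F0 s := fun s => ge_of_tendsto' (hl s) fun n => hF n s
  have m0 : Measurable F0 := measurable_of_tendsto_metrizable mF (tendsto_pi_nhds.2 hl)
  have b0n : 0 ≤ b0 := ge_of_tendsto' hb0 fun n => (integral_nonneg (hF n)).trans (hb n)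
  have e1 : ∀ s, liminf (fun n => ENNReal.ofReal (F n s)) atTop = ENNReal.ofReal (F0 s) :=
    fun s => ((ENNReal.continuous_ofReal.tendsto _).comp (hl s)).liminf_eq
  have h1 := lintegral_liminf_le (μ := P) (u := atTop)
    (f := fun (n : ℕ) (s : S) => ENNReal.ofReal (F n s)) fun n => (mF n).ennreal_ofReal
  simp only [e1] at h1
  have h2 : ∀ n, ∫⁻ s, ENNReal.ofReal (F n s) ∂P ≤ ENNReal.ofReal (b n) := by
    intro n
    rw [← ofReal_integral_eq_lintegral_ofReal (iF n) (ae_of_all _ (hF n))]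
    exact ENNReal.ofReal_le_ofReal (hb n)
  have h3 : liminf (fun n => ∫⁻ s, ENNReal.ofReal (F n s) ∂P) atTop ≤ ENNReal.ofReal b0 := by
    have h4 : Tendsto (fun n => ENNReal.ofReal (b n)) atTop (𝓝 (ENNReal.ofReal b0)) :=
      (ENNReal.continuous_ofReal.tendsto _).comp hb0
    rw [← h4.liminf_eq]
    exact liminf_le_liminf (Eventually.of_forall h2)
  have h5 := h1.trans h3
  have i0 : Integrable F0 P := by
    refine ⟨m0.aestronglyMeasurable, ?_⟩
    rw [hasFiniteIntegral_iff_ofReal (ae_of_all _ h0)]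
    exact lt_of_le_of_lt h5 ENNReal.ofReal_lt_top
  refine ⟨i0, ?_⟩
  rw [integral_eq_lintegral_of_nonneg_ae (ae_of_all _ h0) m0.aestronglyMeasurable]
  have h6 := ENNReal.toReal_mono ENNReal.ofReal_ne_top h5
  rwa [ENNReal.toReal_ofReal b0n] at h6

variable {d : ℕ} {S : Type*} [MeasurableSpace S] {P : Measure S} {τ : E d → S → S}
variable [IsProbabilityMeasure P] (hτ : ∀ x, MeasurePreserving (τ x) P P)
  {G : S → E d → ℝ} (W : Wn 2 P τ G)

include hτ W

omit hτ W [IsProbabilityMeasure P] [MeasurableSpace S] in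
lemma qf_le {ε : ℝ} (hε : 0 < ε) (f : E d → ℝ) (y : E d) : qf ε f y ≤ √(En f y) + ε := by
  have h := Real.sqrt_nonneg (En f y)
  have h2 := Real.sq_sqrt (En_nn f y)
  refine Real.sqrt_le_iff.2 ⟨by linarith, ?_⟩
  nlinarith [mul_nonneg h hε.le]

omit hτ W [IsProbabilityMeasure P] [MeasurableSpace S] in
lemma le_qf {ε : ℝ} (hε : 0 < ε) (f : E d → ℝ) (y : E d) : √(En f y) ≤ qf ε f y := by
  refine Real.sqrt_le_sqrt ?_
  have := sq_nonneg ε
  linarith

lemma sE_int : Integrable (fun s => √(En (G s) 0)) P := by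
  refine Integrable.mono' (qf_int hτ W one_pos) ((sf_En W.sf).meas 0).sqrt.aestronglyMeasurable
    (ae_of_all _ fun s => ?_)
  rw [Real.norm_eq_abs, abs_of_nonneg (Real.sqrt_nonneg _)]
  exact le_qf one_pos _ _

lemma qf_E {ε : ℝ} (hε : 0 < ε) : ∫ s, qf ε (G s) 0 ∂P ≤ ∫ s, √(En (G s) 0) ∂P + ε := by
  have i1 := sE_int hτ W
  have h := integral_mono (qf_int hτ W hε) (i1.add (integrable_const ε))
    (fun s => qf_le hε (G s) 0)
  have e : ∫ s, (√(En (G s) 0) + ε) ∂P = ∫ s, √(En (G s) 0) ∂P + ε := by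
    rw [integral_add i1 (integrable_const ε)]; simp
  rw [← e]
  exact h

omit hτ W [IsProbabilityMeasure P] [MeasurableSpace S] in
lemma qf_lim (f : E d → ℝ) (y : E d) {e : ℕ → ℝ} (he : Tendsto e atTop (𝓝 0)) :
    Tendsto (fun n => qf (e n) f y) atTop (𝓝 (√(En f y))) := by
  have h1 : Tendsto (fun n => En f y + e n ^ 2) atTop (𝓝 (En f y + 0 ^ 2)) :=
    tendsto_const_nhds.add (he.pow 2)
  have h2 : En f y + 0 ^ 2 = En f y := by ring
  rw [h2] at h1
  exact (Real.continuous_sqrt.tendsto _).comp h1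

/-- **the first moment** -/
theorem first : Integrable (fun s => G s 0 ^ 2 * YY (G s) 0 / (16 * √(En (G s) 0) ^ 5)) P ∧
    ∫ s, G s 0 ^ 2 * YY (G s) 0 / (16 * √(En (G s) 0) ^ 5) ∂P +
      Real.pi / 2 * ∫ s, |G s 0| ∂P ≤ ∫ s, √(En (G s) 0) ∂P := by
  obtain ⟨e, he⟩ : ∃ e : ℕ → ℝ, e = fun n : ℕ => 1 / ((n : ℝ) + 1) := ⟨_, rfl⟩
  have e0 : ∀ n, 0 < e n := fun n => by rw [he]; positivity
  have el : Tendsto e atTop (𝓝 0) := by rw [he]; exact tendsto_one_div_add_atTop_nhds_zero_nat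
  have h := fatou (P := P) (F := fun n s => G s 0 ^ 2 * YY (G s) 0 / (16 * qf (e n) (G s) 0 ^ 5))
    (F0 := fun s => G s 0 ^ 2 * YY (G s) 0 / (16 * √(En (G s) 0) ^ 5))
    (b := fun n => ∫ s, √(En (G s) 0) ∂P - Real.pi / 2 * ∫ s, |G s 0| ∂P + 7 / 4 * e n)
    (b0 := ∫ s, √(En (G s) 0) ∂P - Real.pi / 2 * ∫ s, |G s 0| ∂P + 7 / 4 * 0)
    (fun n s => div_nonneg (mul_nonneg (sq_nonneg _) (YY_nn _ _))
      (by have := qf_pos (e0 n) (G s) 0; positivity))
    (fun n => (((W.sf.meas 0).pow_const 2).mul ((sf_YY W.sf).meas 0)).div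
      (measurable_const.mul (((sf_qf (e0 n) W.sf).meas 0).pow_const 5)))
    (fun n => rem_int hτ W (e0 n)) (fun n => ?_) (fun s => ?_)
    (tendsto_const_nhds.add (el.const_mul _))
  · refine ⟨h.1, ?_⟩
    have := h.2
    linarith
  · have h1 := reg hτ W (e0 n)
    have h2 := qf_E hτ W (e0 n)
    show ∫ s, G s 0 ^ 2 * YY (G s) 0 / (16 * qf (e n) (G s) 0 ^ 5) ∂P ≤ _
    linarith
  · rcases (En_nn (G s) 0).eq_or_lt with hz | hp
    · have hG : G s 0 = 0 := by
        have h1 : G s 0 ^ 2 + Q 1 (G s) 0 = 0 := hz.symm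
        have h2 := Q_nn 1 (G s) 0
        have h3 : G s 0 ^ 2 = 0 := le_antisymm (by linarith) (sq_nonneg _)
        exact pow_eq_zero_iff (two_ne_zero) |>.1 h3
      simp [hG]
    · have h1 := qf_lim (G s) 0 el
      have h2 : 16 * √(En (G s) 0) ^ 5 ≠ 0 := by positivity
      exact tendsto_const_nhds.div ((h1.pow 5).const_mul 16) h2

/-- the converse inequality for waves with constant energy density -/
theorem firstE (h0 : ∀ᵐ s ∂P, ∀ y, En (G s) y = En (G s) 0) :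
    ∫ s, √(En (G s) 0) ∂P ≤ Real.pi / 2 * ∫ s, |G s 0| ∂P := by
  refine le_of_forall_pos_le_add fun ε hε => ?_
  have h1 := regE hτ W hε h0
  have h2 := integral_mono (sE_int hτ W) (qf_int hτ W hε) (fun s => le_qf hε (G s) 0)
  exact h2.trans h1

end

end Pool.Agent.W2helper36.EM
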