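import Pool.Agent.W2helper36.EM.I
import Pool.Agent.W2helper36.EM.D

/-!
Project EM (helper36): the first moment of translation invariant laws on the space of waves.
-/

set_option autoImplicit false
set_option linter.unusedSectionVars false
open MeasureTheory Filter Topology
open scoped ContDiff ENNReal

namespace Pool.Agent.W2helper36.EM

open Pool.Agent.Y139.SW Pool.Agent.W2helper17.FM

noncomputable section

variable {d : ℕ} {μ : Measure (Sp d)} [IsProbabilityMeasure μ]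

/-- a measurable function which is constant on orbits is measurable for the invariant sets -/
lemma inv_meas {h : Sp d → ℝ} (mh : Measurable h) (ih : ∀ x f, h (sh x f) = h f) :
    Measurable[inv d] h := by
  intro B hB
  refine ⟨mh hB, fun x => ?_⟩
  ext f
  show h (sh x f) ∈ B ↔ h f ∈ B
  rw [ih]

lemma sfS : SF sh (fun f : Sp d => f.1) :=
  ⟨fun y => (measurable_pi_apply y).comp measurable_subtype_coe, fun f => f.2.1,
    fun _ _ _ => rfl⟩

section

variable (h : Integrable (fun f : Sp d => f.1 0 ^ 2) μ)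

include h

lemma W2_of : Wn 2 μ sh (fun f : Sp d => f.1) := by
  refine ⟨sfS, fun f y => f.2.2 y, ?_⟩
  have := (memLp_two_iff_integrable_sq (sfS.meas 0).aestronglyMeasurable).2 h
  exact_mod_cast this

variable (hμ : ∀ x : E d, MeasurePreserving (sh x) μ μ)

include hμ

omit h in
/-- vanishing at the origin gives vanishing everywhere -/
lemma ever2 {H : Sp d → E d → ℝ} (sH : SF sh H) (h0 : ∀ᵐ f ∂μ, H f 0 = 0) :
    ∀ᵐ f ∂μ, ∀ y, H f y = 0 := by
  have hy : ∀ y, ∀ᵐ f ∂μ, H f y = 0 := by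
    intro y
    have h1 := (hμ y).quasiMeasurePreserving.ae h0
    filter_upwards [h1] with f hf
    have e := sH.cov y f 0
    rw [zero_add] at e
    rw [← e]; exact hf
  have hall := ae_all_iff.2 fun n => hy (TopologicalSpace.denseSeq (E d) n)
  filter_upwards [hall] with f hf y
  have hz : H f = fun _ => 0 := by
    refine Continuous.ext_on (TopologicalSpace.denseRange_denseSeq (E d))
      (sH.smooth f).continuous continuous_const ?_
    rintro _ ⟨n, rfl⟩
    exact hf n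
  exact congrFun hz y

lemma En_i : Integrable (fun f : Sp d => En f.1 0) μ :=
  int_bd hμ (by norm_num) (W2_of h) le_rfl ((sf_En sfS).meas 0) (bd_En _)

/-- the energy over an invariant set -/
lemma En_set {A : Set (Sp d)} (hA : MeasurableSet[inv d] A) :
    ∫ f in A, En f.1 0 ∂μ = 2 * ∫ f in A, f.1 0 ^ 2 ∂μ := by
  have W := W2_of h
  have hL := J_one (fun f : Sp d => f.1)
  have mA : MeasurableSet A := hA.1
  obtain ⟨w, hw⟩ : ∃ w : Sp d → ℝ, w = A.indicator (fun _ => 1) := ⟨_, rfl⟩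
  have mw : Measurable w := by rw [hw]; exact measurable_const.indicator mA
  have iw : ∀ x f, w (sh x f) = w f := by
    intro x f
    rw [hw]
    have : sh x f ∈ A ↔ f ∈ A := by
      have := hA.2 x
      rw [Set.ext_iff] at this
      exact this f
    by_cases hf : f ∈ A
    · rw [Set.indicator_of_mem (this.2 hf), Set.indicator_of_mem hf]
    · rw [Set.indicator_of_notMem (fun hc => hf (this.1 hc)), Set.indicator_of_notMem hf]
  have bw : Bd (J fun f : Sp d => f.1) 0 w := by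
    refine ⟨1, zero_le_one, fun f => ?_⟩
    rw [hw]
    by_cases hf : f ∈ A
    · rw [Set.indicator_of_mem hf]; simp
    · rw [Set.indicator_of_notMem hf]; simp
  have ew : ∀ g : Sp d → ℝ, ∫ f in A, g f ∂μ = ∫ f, w f * g f ∂μ := by
    intro g
    rw [← integral_indicator mA]
    refine integral_congr_ae (ae_of_all _ fun f => ?_)
    show A.indicator g f = w f * g f
    rw [hw]
    by_cases hf : f ∈ A
    · rw [Set.indicator_of_mem hf, Set.indicator_of_mem hf, one_mul]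
    · rw [Set.indicator_of_notMem hf, Set.indicator_of_notMem hf, zero_mul]
  rw [ew, ew]
  have e1 : ∀ f : Sp d, w f * En f.1 0 = 2 * (w f * f.1 0 ^ 2) +
      1 / 2 * ∑ i, w f * D i (D i (fun y => f.1 y ^ 2)) 0 := by
    intro f
    have h1 := Lap_Q 0 f.2.1 f.2.2 0
    have h2 : Q 0 f.1 = fun y => f.1 y ^ 2 := funext fun y => Q_zero _ _
    rw [h2] at h1
    unfold Lap at h1
    rw [← Finset.mul_sum, h1]
    unfold En
    ring
  have sg : SF sh (fun (f : Sp d) y => f.1 y ^ 2) := sfS.comp (k := fun t => t ^ 2)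
    (contDiff_id.pow 2)
  have sm : SF sh (fun (f : Sp d) (_ : E d) => w f) :=
    ⟨fun _ => mw, fun _ => contDiff_const, fun x f _ => iw x f⟩
  have d1 : ∀ i (f : Sp d) y, D i (fun y => f.1 y ^ 2) y = 2 * (f.1 y * D i f.1 y) := by
    intro i f y
    rw [D_pow f.2.1]; push_cast; ring
  have d2 : ∀ i (f : Sp d), D i (D i (fun y => f.1 y ^ 2)) 0 =
      2 * (D i f.1 0 * D i f.1 0 + f.1 0 * D i (D i f.1) 0) := by
    intro i f
    have e2 : D i (fun y => f.1 y ^ 2) = fun y => 2 * (f.1 y * D i f.1 y) :=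
      funext fun y => d1 i f y
    have e3 := D_mul (f := fun _ => (2 : ℝ)) (g := fun y => f.1 y * D i f.1 y) contDiff_const
      (f.2.1.mul (D_sm f.2.1 i)) i 0
    have e4 : D i (fun _ : E d => (2 : ℝ)) 0 = 0 := by unfold D; simp
    rw [e4, zero_mul, zero_add, D_mul f.2.1 (D_sm f.2.1 i)] at e3
    rw [e2]
    exact e3
  have b1 : ∀ i, Bd (J fun f : Sp d => f.1) (0 + 2)
      (fun f : Sp d => w f * D i (fun y => f.1 y ^ 2) 0) := by
    intro i
    simp only [d1]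
    exact Bd.mul hL bw (Bd.cmul hL 2 (Bd.mul hL (bd_G _) (bd_D _ i)))
  have b2 : ∀ i, Bd (J fun f : Sp d => f.1) (0 + 2)
      (fun f : Sp d => w f * D i (D i (fun y => f.1 y ^ 2)) 0) := by
    intro i
    simp only [d2]
    exact Bd.mul hL bw (Bd.cmul hL 2 (Bd.add hL (Bd.mul hL (bd_D _ i) (bd_D _ i))
      (Bd.mul hL (bd_G _) (bd_DD _ i i))))
  have i1 : ∀ i, Integrable (fun f : Sp d => w f * D i (fun y => f.1 y ^ 2) 0) μ := fun i =>
    int_bd hμ (by norm_num) W (le_refl 2) (mw.mul ((sg.der i).meas 0)) (b1 i)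
  have i2 : ∀ i, Integrable (fun f : Sp d => w f * D i (D i (fun y => f.1 y ^ 2)) 0) μ :=
    fun i => int_bd hμ (by norm_num) W (le_refl 2) (mw.mul (((sg.der i).der i).meas 0)) (b2 i)
  have i3 : Integrable (fun f : Sp d => w f * f.1 0 ^ 2) μ :=
    int_bd hμ (by norm_num) W (le_refl 2) (mw.mul ((sfS.meas 0).pow_const 2))
      (Bd.mul (r := 0) (r' := 2) hL bw (Bd.pow hL (bd_G _) 2))
  have z : ∀ i, ∫ f : Sp d, w f * D i (D i (fun y => f.1 y ^ 2)) 0 ∂μ = 0 := by
    intro i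
    have e5 : ∀ f : Sp d, D i (fun y => w f * D i (fun y => f.1 y ^ 2) y) 0 =
        w f * D i (D i (fun y => f.1 y ^ 2)) 0 := by
      intro f
      have e6 := D_mul (f := fun _ : E d => w f)
        (g := D i (fun y => f.1 y ^ 2)) contDiff_const (D_sm (f.2.1.pow 2) i) i 0
      have e7 : D i (fun _ : E d => w f) 0 = 0 := by unfold D; simp
      rw [e7, zero_mul, zero_add] at e6
      exact e6
    have := div0 hμ (sm.mul (sg.der i)) i (i1 i) (by
      simp only [e5]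
      exact i2 i)
    simp only [e5] at this
    exact this
  simp only [e1]
  rw [integral_add (i3.const_mul 2) ((integrable_finsetSum _ fun i _ => i2 i).const_mul _),
    integral_const_mul, integral_const_mul, integral_finsetSum _ fun i _ => i2 i]
  simp only [z, Finset.sum_const_zero, mul_zero, add_zero]

/-- the conditional expectation of the energy -/
lemma En_cond : (fun f => 2 * mass μ f) =ᵐ[μ] μ[fun f : Sp d => En f.1 0 | inv d] := by
  have im : Integrable (mass μ) μ := integrable_condExp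
  refine ae_eq_condExp_of_forall_setIntegral_eq inv_le (En_i h hμ)
    (fun A _ _ => (im.const_mul 2).integrableOn) (fun A hA _ => ?_) ?_
  · rw [En_set h hμ hA, integral_const_mul]
    congr 1
    exact setIntegral_condExp inv_le h hA
  · exact (mass_me.const_mul 2).aestronglyMeasurable

omit h hμ in
lemma mass_nn : ∀ᵐ f ∂μ, 0 ≤ mass μ f :=
  condExp_nonneg (μ := μ) (m := inv d) (f := fun f : Sp d => f.1 0 ^ 2)
    (ae_of_all _ fun f => sq_nonneg _)

omit h hμ in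
lemma mass_m : Measurable (mass μ) := mass_me.mono inv_le le_rfl

omit h hμ in
lemma sm_int : Integrable (fun f => √(2 * mass μ f)) μ := by
  have im : Integrable (mass μ) μ := integrable_condExp
  refine Integrable.mono' ((integrable_const (1 : ℝ)).add (im.norm.const_mul 2))
    (mass_m.const_mul 2).sqrt.aestronglyMeasurable (ae_of_all _ fun f => ?_)
  rw [Real.norm_eq_abs, abs_of_nonneg (Real.sqrt_nonneg _)]
  show √(2 * mass μ f) ≤ 1 + 2 * ‖mass μ f‖
  have h1 : 0 ≤ ‖mass μ f‖ := norm_nonneg _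
  have h2 : mass μ f ≤ ‖mass μ f‖ := le_abs_self _
  refine Real.sqrt_le_iff.2 ⟨by linarith, ?_⟩
  nlinarith [sq_nonneg (‖mass μ f‖)]

/-- Jensen's inequality, conditionally on the invariant sets -/
lemma jen1 : ∫ f : Sp d, √(En f.1 0) ∂μ ≤ ∫ f, √(2 * mass μ f) ∂μ := by
  have W := W2_of h
  have iE := En_i h hμ
  have iS := sE_int hμ W
  have hj := ConcaveOn.condExp_map_le (μ := μ) (m := inv d) (f := fun f : Sp d => En f.1 0)
    (φ := Real.sqrt) (s := Set.Ici 0) inv_le Real.strictConcaveOn_sqrt.concaveOn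
    (Real.continuous_sqrt.continuousOn.upperSemicontinuousOn)
    (ae_of_all _ fun f => En_nn f.1 0) isClosed_Ici iE iS
  have h2 := En_cond h hμ
  rw [← integral_condExp (μ := μ) (inv_le (d := d)) (f := fun f : Sp d => √(En f.1 0))]
  refine integral_mono_ae integrable_condExp sm_int ?_
  filter_upwards [hj, h2] with f hf hf2
  refine hf.trans (le_of_eq ?_)
  show √((μ[fun f : Sp d => En f.1 0 | inv d]) f) = _
  rw [← hf2]

/-- Jensen's inequality for the local mass -/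
lemma jen2 : ∫ f, √(2 * mass μ f) ∂μ ≤ √(2 * ∫ f : Sp d, f.1 0 ^ 2 ∂μ) ∧
    (∫ f, √(2 * mass μ f) ∂μ = √(2 * ∫ f : Sp d, f.1 0 ^ 2 ∂μ) →
      ∀ᵐ f ∂μ, √(2 * mass μ f) = √(2 * ∫ f : Sp d, f.1 0 ^ 2 ∂μ)) := by
  obtain ⟨g, hg⟩ : ∃ g : Sp d → ℝ, g = fun f => √(2 * mass μ f) := ⟨_, rfl⟩
  obtain ⟨M, hM⟩ : ∃ M, M = ∫ f, g f ∂μ := ⟨_, rfl⟩
  obtain ⟨N, hN⟩ : ∃ N, N = 2 * ∫ f : Sp d, f.1 0 ^ 2 ∂μ := ⟨_, rfl⟩
  have im : Integrable (mass μ) μ := integrable_condExp
  have ig : Integrable g μ := by rw [hg]; exact sm_int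
  have e1 : (fun f => g f ^ 2) =ᵐ[μ] fun f => 2 * mass μ f := by
    filter_upwards [mass_nn (μ := μ)] with f hf
    rw [hg]
    exact Real.sq_sqrt (by linarith)
  have ig2 : Integrable (fun f => g f ^ 2) μ := (im.const_mul 2).congr e1.symm
  have hN2 : ∫ f, g f ^ 2 ∂μ = N := by
    rw [integral_congr_ae e1, integral_const_mul, hN]
    congr 1
    exact integral_condExp inv_le
  have N0 : 0 ≤ N := by
    rw [hN]
    have : 0 ≤ ∫ f : Sp d, f.1 0 ^ 2 ∂μ := integral_nonneg fun f => sq_nonneg _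
    linarith
  have e2 : ∀ f, (g f - M) ^ 2 = g f ^ 2 - 2 * M * g f + M ^ 2 := fun f => by ring
  have i2 : Integrable (fun f => g f ^ 2 - 2 * M * g f) μ := ig2.sub (ig.const_mul _)
  have i3 : Integrable (fun f => (g f - M) ^ 2) μ := by
    simp only [e2]
    exact i2.add (integrable_const _)
  have key3 : ∫ f, (g f - M) ^ 2 ∂μ = N - M ^ 2 := by
    simp only [e2]
    rw [integral_add i2 (integrable_const _), integral_sub ig2 (ig.const_mul _),
      integral_const_mul, hN2, ← hM]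
    simp
    ring
  have h3 : 0 ≤ ∫ f, (g f - M) ^ 2 ∂μ := integral_nonneg fun f => sq_nonneg _
  have M0 : 0 ≤ M := by
    rw [hM]
    exact integral_nonneg fun f => by rw [hg]; exact Real.sqrt_nonneg _
  have hMg : ∫ f, √(2 * mass μ f) ∂μ = M := by rw [hM, hg]
  rw [hMg, ← hN]
  refine ⟨Real.le_sqrt_of_sq_le (by linarith), fun he => ?_⟩
  have h4 : ∫ f, (g f - M) ^ 2 ∂μ = 0 := by
    rw [key3, he, Real.sq_sqrt N0, sub_self]
  have h5 := (integral_eq_zero_iff_of_nonneg (fun f => sq_nonneg (g f - M)) i3).1 h4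
  filter_upwards [h5] with f hf
  have h6 : g f - M = 0 := pow_eq_zero_iff (two_ne_zero) |>.1 hf
  have h7 : g f = √(2 * mass μ f) := by rw [hg]
  rw [← h7, ← he]
  linarith

omit h hμ [IsProbabilityMeasure μ] in
/-- `f² |∇P|² = 0` implies that `P` is constant -/
lemma const2 {f : E d → ℝ} (hf : ContDiff ℝ ∞ f) (h0 : ∀ y, f y ^ 2 * YY f y = 0) (y : E d) :
    En f y = En f 0 := by
  have hY : ∀ y, YY f y = 0 := by
    intro y
    by_contra hne
    have cY : Continuous (YY f) := by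
      unfold YY
      exact continuous_finsetSum _ fun i _ => ((D_sm (En_sm hf) i).continuous).pow 2
    have h1 : ∀ᶠ z in 𝓝 y, YY f z ≠ 0 := cY.continuousAt.eventually_ne hne
    have h2 : ∀ᶠ z in 𝓝 y, f z = 0 := by
      filter_upwards [h1] with z hz
      rcases mul_eq_zero.1 (h0 z) with h3 | h3
      · exact pow_eq_zero_iff (two_ne_zero) |>.1 h3
      · exact absurd h3 hz
    have h3 : ∀ᶠ z in 𝓝 y, En f z = 0 := by
      filter_upwards [h2, h2.eventually_nhds] with z hz hz2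
      unfold En
      rw [hz, Q_one]
      have : ∀ i, D i f z = 0 := fun i => D_eq_zero_of_eventually hz2 i
      simp [this]
    apply hne
    unfold YY
    refine Finset.sum_eq_zero fun i _ => ?_
    rw [D_eq_zero_of_eventually h3 i]; simp
  exact const_En hf (n := 0) (fun y => by rw [hY]; simp) y

omit h hμ [IsProbabilityMeasure μ] in
lemma En_pw {f : E d → ℝ} {a : ℝ} (hf : PW a f) (y : E d) : En f y = a ^ 2 := by
  obtain ⟨w, φ, hw, hfa⟩ := hf
  exact plane_wave_conv hw hfa y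

lemma rig_fwd (hd : 0 < d)
    (he : Real.pi / 2 * ∫ f : Sp d, |f.1 0| ∂μ = ∫ f, √(2 * mass μ f) ∂μ) :
    ∀ᵐ f : Sp d ∂μ, ∃ a, 0 ≤ a ∧ PW a f.1 := by
  have W := W2_of h
  obtain ⟨i1, h1⟩ := first hμ W
  have h2 := jen1 h hμ
  have n0 : ∀ f : Sp d, 0 ≤ f.1 0 ^ 2 * YY f.1 0 / (16 * √(En f.1 0) ^ 5) := fun f =>
    div_nonneg (mul_nonneg (sq_nonneg _) (YY_nn _ _)) (by positivity)
  have h3 : ∫ f : Sp d, f.1 0 ^ 2 * YY f.1 0 / (16 * √(En f.1 0) ^ 5) ∂μ = 0 := by
    refine le_antisymm ?_ (integral_nonneg n0)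
    linarith
  have h4 := (integral_eq_zero_iff_of_nonneg n0 i1).1 h3
  have sH : SF sh (fun (f : Sp d) y => f.1 y ^ 2 * YY f.1 y) :=
    (sfS.comp (k := fun t => t ^ 2) (contDiff_id.pow 2)).mul (sf_YY sfS)
  have h5 : ∀ᵐ f : Sp d ∂μ, f.1 0 ^ 2 * YY f.1 0 = 0 := by
    filter_upwards [h4] with f hf
    have hf' : f.1 0 ^ 2 * YY f.1 0 / (16 * √(En f.1 0) ^ 5) = 0 := hf
    rcases div_eq_zero_iff.1 hf' with h6 | h6
    · exact h6
    · have h7 : √(En f.1 0) = 0 := by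
        by_contra hc
        have : √(En f.1 0) ^ 5 ≠ 0 := pow_ne_zero 5 hc
        have h8 : (16 : ℝ) * √(En f.1 0) ^ 5 ≠ 0 := by positivity
        exact h8 h6
      have h8 : En f.1 0 = 0 := (Real.sqrt_eq_zero (En_nn _ _)).1 h7
      have h9 : f.1 0 ^ 2 + Q 1 f.1 0 = 0 := h8
      have h10 := Q_nn 1 f.1 0
      have h11 : f.1 0 ^ 2 = 0 := le_antisymm (by linarith) (sq_nonneg _)
      rw [h11, zero_mul]
  filter_upwards [ever2 hμ sH h5] with f hf
  have hc2 := const2 f.2.1 hf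
  obtain ⟨w, a, φ, hw, ha, hfa⟩ := plane_wave f.2.1 f.2.2 (c := En f.1 0) (fun y => hc2 y) hd
  exact ⟨a, ha, w, φ, hw, hfa⟩

/-- for plane waves the energy is twice the local mass -/
lemma En_mass (hpw : ∀ᵐ f : Sp d ∂μ, ∃ a, PW a f.1) : ∀ᵐ f : Sp d ∂μ, En f.1 0 = 2 * mass μ f := by
  classical
  obtain ⟨A, hA⟩ : ∃ A : Set (Sp d), A = {f | ∀ y, En f.1 y = En f.1 0} := ⟨_, rfl⟩
  have sE := sf_En (sfS (d := d))
  have mA : MeasurableSet A := by
    have e : A = ⋂ n : ℕ, {f : Sp d | En f.1 (TopologicalSpace.denseSeq (E d) n) = En f.1 0} := by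
      ext f
      rw [hA]
      simp only [Set.mem_setOf_eq, Set.mem_iInter]
      constructor
      · intro hf n; exact hf _
      · intro hf y
        have hz : En f.1 = fun _ => En f.1 0 := by
          refine Continuous.ext_on (TopologicalSpace.denseRange_denseSeq (E d))
            (sE.smooth f).continuous continuous_const ?_
          rintro _ ⟨n, rfl⟩
          exact hf n
        exact congrFun hz y
    rw [e]
    exact MeasurableSet.iInter fun n => measurableSet_eq_fun (sE.meas _) (sE.meas 0)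
  have iA : ∀ x f, sh x f ∈ A ↔ f ∈ A := by
    intro x f
    rw [hA]
    simp only [Set.mem_setOf_eq]
    have c : ∀ y, En (sh x f).1 y = En f.1 (y + x) := fun y => sE.cov x f y
    simp only [c]
    constructor
    · intro hf y
      have h1 := hf (y - x)
      have h2 := hf (-x)
      rw [sub_add_cancel] at h1
      rw [neg_add_cancel] at h2
      rw [h1, h2]
    · intro hf y
      rw [hf (y + x), hf (0 + x)]
  obtain ⟨g, hg⟩ : ∃ g : Sp d → ℝ, g = A.indicator fun f => En f.1 0 := ⟨_, rfl⟩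
  have mg : Measurable g := by rw [hg]; exact (sE.meas 0).indicator mA
  have ig : ∀ x f, g (sh x f) = g f := by
    intro x f
    rw [hg]
    by_cases hf : f ∈ A
    · rw [Set.indicator_of_mem ((iA x f).2 hf), Set.indicator_of_mem hf]
      have h1 : En (sh x f).1 0 = En f.1 (0 + x) := sE.cov x f 0
      have h2 : f ∈ {f : Sp d | ∀ y, En f.1 y = En f.1 0} := by rw [← hA]; exact hf
      show En (sh x f).1 0 = En f.1 0
      rw [h1]; exact h2 _
    · rw [Set.indicator_of_notMem (fun hc => hf ((iA x f).1 hc)), Set.indicator_of_notMem hf]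
  have eg : (fun f : Sp d => En f.1 0) =ᵐ[μ] g := by
    filter_upwards [hpw] with f hf
    obtain ⟨a, ha⟩ := hf
    have : f ∈ A := by
      rw [hA]
      intro y
      rw [En_pw ha, En_pw ha]
    rw [hg, Set.indicator_of_mem this]
  have h1 := condExp_congr_ae (m := inv d) eg
  have ig2 : Integrable g μ := (En_i h hμ).congr eg
  have h2 : μ[g | inv d] = g :=
    condExp_of_stronglyMeasurable inv_le (inv_meas mg ig).stronglyMeasurable ig2
  rw [h2] at h1
  filter_upwards [eg, h1, En_cond h hμ] with f hf1 hf2 hf3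
  rw [hf1, ← hf2, ← hf3]

lemma rig_bwd (hpw : ∀ᵐ f : Sp d ∂μ, ∃ a, PW a f.1) :
    Real.pi / 2 * ∫ f : Sp d, |f.1 0| ∂μ = ∫ f : Sp d, √(En f.1 0) ∂μ := by
  have W := W2_of h
  obtain ⟨_, h1⟩ := first hμ W
  have n0 : ∀ f : Sp d, 0 ≤ f.1 0 ^ 2 * YY f.1 0 / (16 * √(En f.1 0) ^ 5) := fun f =>
    div_nonneg (mul_nonneg (sq_nonneg _) (YY_nn _ _)) (by positivity)
  have h3 : 0 ≤ ∫ f : Sp d, f.1 0 ^ 2 * YY f.1 0 / (16 * √(En f.1 0) ^ 5) ∂μ :=
    integral_nonneg fun f => n0 f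
  have h2 := firstE hμ W (by
    filter_upwards [hpw] with f hf y
    obtain ⟨a, ha⟩ := hf
    rw [En_pw ha, En_pw ha])
  exact le_antisymm (by linarith) h2

lemma rig (hd : 0 < d) : Real.pi / 2 * ∫ f : Sp d, |f.1 0| ∂μ = ∫ f, √(2 * mass μ f) ∂μ ↔
    ∀ᵐ f : Sp d ∂μ, ∃ a, PW a f.1 := by
  constructor
  · intro he
    filter_upwards [rig_fwd h hμ hd he] with f hf
    obtain ⟨a, _, ha⟩ := hf
    exact ⟨a, ha⟩
  · intro hpw
    rw [rig_bwd h hμ hpw]
    refine integral_congr_ae ?_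
    filter_upwards [En_mass h hμ hpw] with f hf
    rw [hf]

lemma amp (hd : 0 < d) : Real.pi / 2 * ∫ f : Sp d, |f.1 0| ∂μ =
    √(2 * ∫ f : Sp d, f.1 0 ^ 2 ∂μ) ↔
    ∀ᵐ f : Sp d ∂μ, PW (√(2 * ∫ g : Sp d, g.1 0 ^ 2 ∂μ)) f.1 := by
  have W := W2_of h
  obtain ⟨_, h1⟩ := first hμ W
  have n0 : ∀ f : Sp d, 0 ≤ f.1 0 ^ 2 * YY f.1 0 / (16 * √(En f.1 0) ^ 5) := fun f =>
    div_nonneg (mul_nonneg (sq_nonneg _) (YY_nn _ _)) (by positivity)
  have h0 : 0 ≤ ∫ f : Sp d, f.1 0 ^ 2 * YY f.1 0 / (16 * √(En f.1 0) ^ 5) ∂μ :=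
    integral_nonneg fun f => n0 f
  have h2 := jen1 h hμ
  obtain ⟨h3, h4⟩ := jen2 h hμ
  obtain ⟨N, hN⟩ : ∃ N, N = 2 * ∫ g : Sp d, g.1 0 ^ 2 ∂μ := ⟨_, rfl⟩
  have N0 : 0 ≤ N := by
    rw [hN]
    have : 0 ≤ ∫ f : Sp d, f.1 0 ^ 2 ∂μ := integral_nonneg fun f => sq_nonneg _
    linarith
  rw [← hN] at h3 h4 ⊢
  constructor
  · intro he
    have h5 : ∫ f, √(2 * mass μ f) ∂μ = √N := le_antisymm h3 (by linarith)
    have h6 := rig_fwd h hμ hd (by rw [he, h5])
    have h7 := En_mass h hμ (by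
      filter_upwards [h6] with f hf
      obtain ⟨a, _, ha⟩ := hf
      exact ⟨a, ha⟩)
    filter_upwards [h6, h7, h4 h5] with f hf hf2 hf3
    obtain ⟨a, ha, hpw⟩ := hf
    have h8 : a = √N := by
      rw [← hf3, ← hf2, En_pw hpw, Real.sqrt_sq ha]
    rw [← h8]
    exact hpw
  · intro hpw
    have h5 := rig_bwd h hμ (by
      filter_upwards [hpw] with f hf
      exact ⟨_, hf⟩)
    rw [h5]
    have h6 : ∫ f : Sp d, √(En f.1 0) ∂μ = ∫ _ : Sp d, √N ∂μ := by
      refine integral_congr_ae ?_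
      filter_upwards [hpw] with f hf
      rw [En_pw hf, Real.sq_sqrt N0]
    rw [h6]; simp

end

theorem final1 (hd : 1 ≤ d) (μ : Measure (Sp d)) (pμ : IsProbabilityMeasure μ)
    (hμ : ∀ x : E d, μ.map (sh x) = μ) (h : Integrable (fun f : Sp d => f.1 0 ^ 2) μ) :
    (Integrable (fun f : Sp d => √(en f.1 0)) μ ∧
      Integrable (fun f : Sp d => f.1 0 ^ 2 *
        (∑ i, fderiv ℝ (en f.1) 0 (EuclideanSpace.single i 1) ^ 2) / √(en f.1 0) ^ 5) μ) ∧
    Real.pi / 2 * ∫ f : Sp d, |f.1 0| ∂μ + 1 / 16 * ∫ f : Sp d, f.1 0 ^ 2 *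
        (∑ i, fderiv ℝ (en f.1) 0 (EuclideanSpace.single i 1) ^ 2) / √(en f.1 0) ^ 5 ∂μ ≤
      ∫ f : Sp d, √(en f.1 0) ∂μ ∧
    ∫ f : Sp d, √(en f.1 0) ∂μ ≤ ∫ f, √(2 * mass μ f) ∂μ ∧
    ∫ f, √(2 * mass μ f) ∂μ ≤ √(2 * ∫ f : Sp d, f.1 0 ^ 2 ∂μ) ∧
    (Real.pi / 2 * ∫ f : Sp d, |f.1 0| ∂μ = ∫ f, √(2 * mass μ f) ∂μ ↔
      ∀ᵐ f ∂μ, ∃ a, PW' a f) ∧
    (Real.pi / 2 * ∫ f : Sp d, |f.1 0| ∂μ = √(2 * ∫ f : Sp d, f.1 0 ^ 2 ∂μ) ↔
      ∀ᵐ f : Sp d ∂μ, PW' (√(2 * ∫ g : Sp d, g.1 0 ^ 2 ∂μ)) f) := by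
  have hμ' : ∀ x, MeasurePreserving (sh (d := d) x) μ μ := fun x => ⟨sh_me x, hμ x⟩
  have W := W2_of h
  obtain ⟨i1, h1⟩ := first hμ' W
  have i2 := sE_int hμ' W
  have h2 := jen1 h hμ'
  have e1 : ∀ f : Sp d, f.1 0 ^ 2 * YY f.1 0 / (16 * √(En f.1 0) ^ 5) =
      1 / 16 * (f.1 0 ^ 2 * YY f.1 0 / √(En f.1 0) ^ 5) := fun f => by
    rw [div_mul_eq_div_div]; ring
  have i3 : Integrable (fun f : Sp d => f.1 0 ^ 2 * YY f.1 0 / √(En f.1 0) ^ 5) μ := by
    refine (i1.const_mul 16).congr (ae_of_all _ fun f => ?_)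
    show 16 * (f.1 0 ^ 2 * YY f.1 0 / (16 * √(En f.1 0) ^ 5)) = _
    rw [e1]; ring
  simp only [e1] at h1
  rw [integral_const_mul] at h1
  simp only [En_eq, YY_eq] at i2 i3 h1 h2
  exact ⟨⟨i2, i3⟩, by linarith, h2, (jen2 h hμ').1, rig h hμ' hd, amp h hμ' hd⟩

end

end Pool.Agent.W2helper36.EM
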