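import Pool.Agent.W2helper36.EM.E

/-!
Project EM (helper36): the calibration functions for the length of level sets in the plane.
-/

set_option autoImplicit false
open Filter Topology Real MeasureTheory

namespace Pool.Agent.W2helper36.EM

noncomputable section

/-- `x - sin x cos x ≥ (2/3) sin³ x` -/
lemma sin3 {x : ℝ} (h0 : 0 ≤ x) : 2 / 3 * sin x ^ 3 ≤ x - sin x * cos x := by
  have hd : ∀ x, HasDerivAt (fun x => x - sin x * cos x - 2 / 3 * sin x ^ 3)
      (2 * sin x ^ 2 * (1 - cos x)) x := by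
    intro x
    have a1 := (hasDerivAt_id x).sub ((hasDerivAt_sin x).mul (hasDerivAt_cos x))
    have a2 := ((hasDerivAt_sin x).pow 3).const_mul (2 / 3)
    refine (a1.sub a2).congr_deriv ?_
    have hs : sin x ^ 2 = 1 - cos x ^ 2 := by linarith [sin_sq_add_cos_sq x]
    simp
    linear_combination (-1 : ℝ) * hs
  have mono : Monotone (fun x => x - sin x * cos x - 2 / 3 * sin x ^ 3) := by
    refine monotone_of_deriv_nonneg (fun x => (hd x).differentiableAt) fun x => ?_
    rw [(hd x).deriv]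
    have := cos_le_one x
    exact mul_nonneg (by positivity) (by linarith)
  have := mono h0
  simp at this
  linarith

/-- `φ + sin φ cos φ ≤ 2 sin φ` -/
lemma two_sin {x : ℝ} (h0 : 0 ≤ x) (h1 : x ≤ π / 2) : x + sin x * cos x ≤ 2 * sin x := by
  have h := kappa h0 h1
  have s0 : 0 ≤ sin x := sin_nonneg_of_nonneg_of_le_pi h0 (by linarith [pi_pos])
  have c1 : cos x ^ 2 ≤ 1 := by
    have := sin_sq_add_cos_sq x
    nlinarith [sq_nonneg (sin x)]
  refine le_of_sq_le_sq ?_ (by linarith)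
  nlinarith [mul_le_mul_of_nonneg_left c1 (sq_nonneg (sin x))]

/-- the basic function for `0 ≤ c < 1` -/
def h0 (c : ℝ) : ℝ := 1 / 2 * (arccos c / √(1 - c ^ 2) - c)

lemma h0_bd {c : ℝ} (hc0 : 0 ≤ c) (hc1 : c < 1) : 1 / 3 * (1 - c ^ 2) ≤ h0 c ∧ h0 c ≤ 1 - c := by
  have hp : 0 < 1 - c ^ 2 := by nlinarith
  obtain ⟨x, hx⟩ : ∃ x, x = arccos c := ⟨_, rfl⟩
  have x0 : 0 ≤ x := by rw [hx]; exact arccos_nonneg c
  have x1 : x ≤ π / 2 := by rw [hx]; exact arccos_le_pi_div_two.2 hc0
  have hs : sin x = √(1 - c ^ 2) := by rw [hx]; exact sin_arccos c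
  have hcx : cos x = c := by rw [hx]; exact cos_arccos (by linarith) hc1.le
  have sp : 0 < sin x := by rw [hs]; exact Real.sqrt_pos.2 hp
  have s2 : sin x ^ 2 = 1 - c ^ 2 := by rw [hs]; exact Real.sq_sqrt hp.le
  have e : h0 c = 1 / 2 * ((x - sin x * cos x) / sin x) := by
    unfold h0
    rw [← hx, ← hs, hcx]
    field_simp
  constructor
  · have h := sin3 x0
    have h2 : 2 / 3 * sin x ^ 2 ≤ (x - sin x * cos x) / sin x := by
      rw [le_div_iff₀ sp]
      nlinarith
    rw [e, ← s2]; linarith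
  · have h := two_sin x0 x1
    have h2 : (x - sin x * cos x) / sin x ≤ 2 - 2 * cos x := by
      rw [div_le_iff₀ sp]
      nlinarith
    rw [e]
    rw [hcx] at h2 ⊢
    linarith

/-- the derivative of `hh` -/
def h1 (c : ℝ) : ℝ := if c < 1 then h0 (max c 0) else 0

lemma h1_nn (c : ℝ) : 0 ≤ h1 c := by
  unfold h1
  split_ifs with h
  · have h2 := (h0_bd (le_max_right c 0) (max_lt h one_pos)).1
    have h3 : max c 0 < 1 := max_lt h one_pos
    have h4 := le_max_right c 0
    nlinarith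
  · exact le_rfl

lemma h1_le_one (c : ℝ) : h1 c ≤ 1 := by
  unfold h1
  split_ifs with h
  · have h2 := (h0_bd (le_max_right c 0) (max_lt h one_pos)).2
    have := le_max_right c 0
    linarith
  · exact zero_le_one

lemma h1_le {c : ℝ} (hc0 : 0 ≤ c) (hc1 : c ≤ 1) : h1 c ≤ 1 - c := by
  unfold h1
  split_ifs with h
  · rw [max_eq_left hc0]
    exact (h0_bd hc0 h).2
  · linarith

lemma h1_one {c : ℝ} (hc : 1 ≤ c) : h1 c = 0 := by
  unfold h1
  rw [if_neg (not_lt.2 hc)]

lemma h1_cont : Continuous h1 := by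
  rw [continuous_iff_continuousAt]
  intro c
  rcases lt_trichotomy c 1 with h | h | h
  · have e : h1 =ᶠ[𝓝 c] fun c => h0 (max c 0) := by
      filter_upwards [Iio_mem_nhds h] with z hz
      unfold h1
      rw [if_pos (Set.mem_Iio.1 hz)]
    refine ContinuousAt.congr ?_ e.symm
    have hm : max c 0 < 1 := max_lt h one_pos
    have hm0 := le_max_right c 0
    have hp : √(1 - (max c 0) ^ 2) ≠ 0 := (Real.sqrt_pos.2 (by nlinarith)).ne'
    unfold h0
    have c1 : ContinuousAt (fun c : ℝ => max c 0) c := by fun_prop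
    refine continuousAt_const.mul (ContinuousAt.sub (ContinuousAt.div ?_ ?_ hp) c1)
    · exact continuous_arccos.continuousAt.comp c1
    · exact Real.continuous_sqrt.continuousAt.comp (continuousAt_const.sub (c1.pow 2))
  · rw [h]
    have e : h1 1 = 0 := h1_one le_rfl
    unfold ContinuousAt
    rw [e]
    have hb : ∀ᶠ z in 𝓝 (1 : ℝ), h1 z ≤ |1 - z| := by
      filter_upwards [Ioi_mem_nhds (zero_lt_one' ℝ)] with z hz
      rcases le_total z 1 with h2 | h2
      · exact (h1_le (le_of_lt hz) h2).trans (le_abs_self _)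
      · rw [h1_one h2]; exact abs_nonneg _
    have hl : Tendsto (fun z : ℝ => |1 - z|) (𝓝 1) (𝓝 0) := by
      have : Continuous fun z : ℝ => |1 - z| := by fun_prop
      have h3 := this.tendsto 1
      simpa using h3
    exact squeeze_zero' (Eventually.of_forall h1_nn) hb hl
  · have e : h1 =ᶠ[𝓝 c] fun _ => 0 := by
      filter_upwards [Ioi_mem_nhds h] with z hz
      exact h1_one (le_of_lt hz)
    exact ContinuousAt.congr continuousAt_const e.symm

/-- the primitive -/
def hh (c : ℝ) : ℝ := ∫ x in (1 : ℝ)..c, h1 x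

lemma hh_deriv (c : ℝ) : HasDerivAt hh (h1 c) c := (h1_cont.integral_hasStrictDerivAt 1 c).hasDerivAt

lemma hh_cont : Continuous hh := continuous_iff_continuousAt.2 fun x => (hh_deriv x).continuousAt

lemma hh_mono : Monotone hh := by
  refine monotone_of_deriv_nonneg (fun x => (hh_deriv x).differentiableAt) fun x => ?_
  rw [(hh_deriv x).deriv]; exact h1_nn x

lemma hh_one : hh 1 = 0 := by unfold hh; simp

lemma hh_zero {c : ℝ} (hc : 1 ≤ c) : hh c = 0 := by
  unfold hh
  rw [intervalIntegral.integral_congr (g := fun _ => 0)]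
  · simp
  · intro x hx
    rw [Set.uIcc_of_le hc] at hx
    exact h1_one hx.1

lemma hh_np (c : ℝ) : hh c ≤ 0 := by
  rcases le_total c 1 with h | h
  · rw [← hh_one]; exact hh_mono h
  · rw [hh_zero h]

lemma hh_ge {c : ℝ} (hc0 : 0 ≤ c) (hc1 : c ≤ 1) : -(1 / 2 * (1 - c) ^ 2) ≤ hh c := by
  have hd : ∀ x, HasDerivAt (fun x => hh x + 1 / 2 * (1 - x) ^ 2) (h1 x - (1 - x)) x := by
    intro x
    have a1 := ((((hasDerivAt_id x).const_sub 1).pow 2).const_mul (1 / 2))
    refine ((hh_deriv x).add a1).congr_deriv ?_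
    simp
    ring
  have anti : AntitoneOn (fun x => hh x + 1 / 2 * (1 - x) ^ 2) (Set.Icc 0 1) := by
    refine antitoneOn_of_deriv_nonpos (convex_Icc _ _)
      (fun x _ => (hd x).continuousAt.continuousWithinAt)
      (fun x _ => (hd x).differentiableAt.differentiableWithinAt) fun x hx => ?_
    rw [interior_Icc] at hx
    rw [(hd x).deriv]
    linarith [h1_le hx.1.le hx.2.le]
  have := anti ⟨hc0, hc1⟩ (Set.right_mem_Icc.2 zero_le_one) hc1
  simp only [hh_one, sub_self] at this
  linarith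

lemma hh_ge' {c : ℝ} (hc0 : 0 ≤ c) : -1 ≤ hh c := by
  rcases le_total c 1 with h | h
  · have := hh_ge hc0 h
    nlinarith
  · rw [hh_zero h]; norm_num

lemma hh_abs {c : ℝ} (hc : -1 ≤ c) : |hh c| ≤ 2 := by
  rw [abs_of_nonpos (hh_np c)]
  rcases le_total 0 c with h | h
  · linarith [hh_ge' h]
  · have hd : ∀ x, HasDerivAt (fun x => hh x - x) (h1 x - 1) x := fun x =>
      (hh_deriv x).sub (hasDerivAt_id x)
    have anti : Antitone (fun x => hh x - x) := by
      refine antitone_of_deriv_nonpos (fun x => (hd x).differentiableAt) fun x => ?_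
      rw [(hd x).deriv]; linarith [h1_le_one x]
    have h2 := anti h
    have h3 := hh_ge' le_rfl
    simp only [sub_zero] at h2
    linarith

/-- the kernels -/
structure Ker (κ : ℝ → ℝ) (δ M C : ℝ) : Prop where
  cont : Continuous κ
  nn : ∀ x, 0 ≤ κ x
  le : ∀ x, κ x ≤ C
  δ0 : 0 < δ
  δM : δ ≤ M
  lo : ∀ x, x ≤ δ → κ x = 0
  hi : ∀ x, M ≤ x → κ x = 0

/-- the primitive of the kernel -/
def Sk (κ : ℝ → ℝ) (x : ℝ) : ℝ := ∫ a in (0 : ℝ)..x, κ a

/-- the second coefficient -/
def Kk (κ : ℝ → ℝ) (x l : ℝ) : ℝ := ∫ a in (0 : ℝ)..x, κ a * hh (a * l)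

/-- its derivative -/
def Kl (κ : ℝ → ℝ) (x l : ℝ) : ℝ := ∫ a in (0 : ℝ)..x, κ a * (a * h1 (a * l))

section ker

variable {κ : ℝ → ℝ} {δ M C : ℝ} (k : Ker κ δ M C)

include k

lemma Sk_deriv (x : ℝ) : HasDerivAt (Sk κ) (κ x) x := (k.cont.integral_hasStrictDerivAt 0 x).hasDerivAt

lemma Sk_cont : Continuous (Sk κ) := continuous_iff_continuousAt.2 fun x => (Sk_deriv k x).continuousAt

lemma Sk_mono : Monotone (Sk κ) := by
  refine monotone_of_deriv_nonneg (fun x => (Sk_deriv k x).differentiableAt) fun x => ?_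
  rw [(Sk_deriv k x).deriv]; exact k.nn x

lemma int_lo {g : ℝ → ℝ} {x : ℝ} (hx : x ≤ δ) : ∫ a in (0 : ℝ)..x, κ a * g a = 0 := by
  rw [intervalIntegral.integral_congr (g := fun _ => 0)]
  · simp
  · intro a ha
    have h2 : a ≤ δ := by
      rcases le_total 0 x with h | h
      · rw [Set.uIcc_of_le h] at ha; exact ha.2.trans hx
      · rw [Set.uIcc_of_ge h] at ha; exact ha.2.trans k.δ0.le
    show κ a * g a = 0
    rw [k.lo a h2, zero_mul]

lemma Sk_lo {x : ℝ} (hx : x ≤ δ) : Sk κ x = 0 := by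
  have := int_lo k (g := fun _ => 1) hx
  simpa [Sk] using this

lemma Kk_lo {x l : ℝ} (hx : x ≤ δ) : Kk κ x l = 0 := int_lo k hx

lemma Kl_lo {x l : ℝ} (hx : x ≤ δ) : Kl κ x l = 0 := int_lo k hx

lemma Sk_nn (x : ℝ) : 0 ≤ Sk κ x := by
  rcases le_total x 0 with h | h
  · rw [Sk_lo k (h.trans k.δ0.le)]
  · exact intervalIntegral.integral_nonneg h fun a _ => k.nn a

lemma int_hi {g : ℝ → ℝ} (hg : Continuous g) {x : ℝ} (hx : M ≤ x) :
    ∫ a in (0 : ℝ)..x, κ a * g a = ∫ a in (0 : ℝ)..M, κ a * g a := by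
  have c : Continuous fun a => κ a * g a := k.cont.mul hg
  rw [← intervalIntegral.integral_add_adjacent_intervals (c.intervalIntegrable 0 M)
    (c.intervalIntegrable M x)]
  have : ∫ a in M..x, κ a * g a = 0 := by
    rw [intervalIntegral.integral_congr (g := fun _ => 0)]
    · simp
    · intro a ha
      rw [Set.uIcc_of_le hx] at ha
      show κ a * g a = 0
      rw [k.hi a ha.1, zero_mul]
  rw [this, add_zero]

lemma Sk_hi {x : ℝ} (hx : M ≤ x) : Sk κ x = Sk κ M := by
  have := int_hi k (g := fun _ => 1) continuous_const hx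
  simpa [Sk] using this

lemma Sk_le (x : ℝ) : Sk κ x ≤ Sk κ M := by
  rcases le_total x M with h | h
  · exact Sk_mono k h
  · rw [Sk_hi k h]

omit k in
lemma c_hh (l : ℝ) : Continuous fun a : ℝ => hh (a * l) :=
  hh_cont.comp (continuous_id.mul continuous_const)

omit k in
lemma c_h1 (l : ℝ) : Continuous fun a : ℝ => a * h1 (a * l) :=
  continuous_id.mul (h1_cont.comp (continuous_id.mul continuous_const))

lemma Kk_hi {x l : ℝ} (hx : M ≤ x) : Kk κ x l = Kk κ M l := int_hi k (c_hh l) hx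

lemma Kl_hi {x l : ℝ} (hx : M ≤ x) : Kl κ x l = Kl κ M l := int_hi k (c_h1 l) hx

lemma Kk_cont : Continuous fun p : ℝ × ℝ => Kk κ p.1 p.2 := by
  have h : Continuous (Function.uncurry fun (l a : ℝ) => κ a * hh (a * l)) := by
    have h2 := k.cont
    have h3 := hh_cont
    unfold Function.uncurry
    fun_prop
  have := (intervalIntegral.continuous_parametric_primitive_of_continuous (μ := volume)
    (a₀ := 0) h).comp (continuous_swap (X := ℝ) (Y := ℝ))
  exact this

lemma Kl_cont : Continuous fun p : ℝ × ℝ => Kl κ p.1 p.2 := by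
  have h : Continuous (Function.uncurry fun (l a : ℝ) => κ a * (a * h1 (a * l))) := by
    have h2 := k.cont
    have h3 := h1_cont
    unfold Function.uncurry
    fun_prop
  have := (intervalIntegral.continuous_parametric_primitive_of_continuous (μ := volume)
    (a₀ := 0) h).comp (continuous_swap (X := ℝ) (Y := ℝ))
  exact this

lemma κ_abs {a : ℝ} (b : ℝ) (hb : |b| ≤ 1) : |κ a * (a * b)| ≤ C * M := by
  have c0 : 0 ≤ C := (k.nn 0).trans (k.le 0)
  have m0 : 0 ≤ M := k.δ0.le.trans k.δM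
  rcases le_total a δ with h | h
  · rw [k.lo a h, zero_mul, abs_zero]; positivity
  · rcases le_total M a with h2 | h2
    · rw [k.hi a h2, zero_mul, abs_zero]; positivity
    · have a0 : 0 ≤ a := k.δ0.le.trans h
      rw [abs_mul, abs_mul, abs_of_nonneg (k.nn a), abs_of_nonneg a0]
      have : a * |b| ≤ M * 1 := mul_le_mul h2 hb (abs_nonneg _) m0
      rw [mul_one] at this
      exact mul_le_mul (k.le a) this (by positivity) c0

lemma Kk_dl (x l : ℝ) : HasDerivAt (fun l => Kk κ x l) (Kl κ x l) l := by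
  have h := intervalIntegral.hasDerivAt_integral_of_dominated_loc_of_deriv_le (μ := volume)
    (F := fun l a => κ a * hh (a * l)) (F' := fun l a => κ a * (a * h1 (a * l)))
    (x₀ := l) (s := Set.univ) (a := 0) (b := x) (bound := fun _ => C * M) univ_mem
    (Eventually.of_forall fun l => (k.cont.mul (c_hh l)).aestronglyMeasurable)
    ((k.cont.mul (c_hh l)).intervalIntegrable _ _) (k.cont.mul (c_h1 l)).aestronglyMeasurable
    (ae_of_all _ fun a _ l _ => ?_) (continuous_const.intervalIntegrable _ _)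
    (ae_of_all _ fun a _ l _ => ?_)
  · exact h.2
  · refine κ_abs k _ ?_
    rw [abs_of_nonneg (h1_nn _)]
    exact h1_le_one _
  · have h1 : HasDerivAt (fun l : ℝ => a * l) a l := by
      have := (hasDerivAt_id l).const_mul a
      simpa using this
    have h2 := ((hh_deriv (a * l)).comp l h1).const_mul (κ a)
    refine h2.congr_deriv ?_
    ring

lemma Kk_dx (x l : ℝ) : HasDerivAt (fun x => Kk κ x l) (κ x * hh (x * l)) x :=
  ((k.cont.mul (c_hh l)).integral_hasStrictDerivAt 0 x).hasDerivAt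

/-- the chain rule -/
lemma Kk_comp {x l : ℝ → ℝ} {x' l' t : ℝ} (hx : HasDerivAt x x' t) (hl : HasDerivAt l l' t) :
    HasDerivAt (fun t => Kk κ (x t) (l t))
      (κ (x t) * hh (x t * l t) * x' + Kl κ (x t) (l t) * l') t := by
  have h := hasStrictFDerivAt_uncurry_coprod (𝕜 := ℝ) (u := (x t, l t)) (f := Kk κ)
    (f₁ := fun x l => ContinuousLinearMap.toSpanSingleton ℝ (κ x * hh (x * l)))
    (f₂ := fun x l => ContinuousLinearMap.toSpanSingleton ℝ (Kl κ x l))
    (Eventually.of_forall fun v => (Kk_dx k v.1 v.2).hasFDerivAt)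
    (Eventually.of_forall fun v => (Kk_dl k v.1 v.2).hasFDerivAt) ?_ ?_
  · have h2 := h.hasFDerivAt.comp_hasDerivAt t (hx.prodMk hl)
    refine h2.congr_deriv ?_
    simp [Function.HasUncurry.uncurry, mul_comm]
  · have c : Continuous fun p : ℝ × ℝ => κ p.1 * hh (p.1 * p.2) := by
      have h2 := k.cont
      have h3 := hh_cont
      fun_prop
    have : Continuous fun p : ℝ × ℝ =>
        ContinuousLinearMap.toSpanSingleton ℝ (κ p.1 * hh (p.1 * p.2)) :=
      (ContinuousLinearMap.toSpanSingletonLIE ℝ ℝ).continuous.comp c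
    exact this.continuousAt
  · have : Continuous fun p : ℝ × ℝ =>
        ContinuousLinearMap.toSpanSingleton ℝ (Kl κ p.1 p.2) :=
      (ContinuousLinearMap.toSpanSingletonLIE ℝ ℝ).continuous.comp (Kl_cont k)
    exact this.continuousAt

end ker

end

end Pool.Agent.W2helper36.EM
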