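import Pool.Agent.W2helper36.EM.L
import Pool.Agent.W2helper36.EM.I

/-!
Project EM (helper36): the calibrating field for level sets in the plane.
-/

set_option autoImplicit false
set_option linter.unusedSectionVars false
open MeasureTheory Filter Topology
open scoped ContDiff ENNReal

namespace Pool.Agent.W2helper36.EM

open Pool.Agent.Y139.SW Pool.Agent.W2helper17.FM

noncomputable section

section ker

variable {κ : ℝ → ℝ} {δ M C : ℝ} (k : Ker κ δ M C)

include k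

/-- the second potential -/
def Wk (κ : ℝ → ℝ) (M x l : ℝ) : ℝ := Sk κ x * hh (x * l) + (Kk κ M l - Kk κ x l)

lemma Kk_sub {x l : ℝ} : Kk κ M l - Kk κ x l = ∫ a in x..M, κ a * hh (a * l) := by
  have c := k.cont.mul (c_hh l)
  exact intervalIntegral.integral_interval_sub_left (c.intervalIntegrable 0 M)
    (c.intervalIntegrable 0 x)

lemma Kl_sub {x l : ℝ} : Kl κ M l - Kl κ x l = ∫ a in x..M, κ a * (a * h1 (a * l)) := by
  have c := k.cont.mul (c_h1 l)
  exact intervalIntegral.integral_interval_sub_left (c.intervalIntegrable 0 M)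
    (c.intervalIntegrable 0 x)

lemma Sk_sub {x : ℝ} : Sk κ M - Sk κ x = ∫ a in x..M, κ a :=
  intervalIntegral.integral_interval_sub_left (k.cont.intervalIntegrable 0 M)
    (k.cont.intervalIntegrable 0 x)

lemma Wk_np {x l : ℝ} : Wk κ M x l ≤ 0 := by
  unfold Wk
  have h1 : Sk κ x * hh (x * l) ≤ 0 := mul_nonpos_of_nonneg_of_nonpos (Sk_nn k x) (hh_np _)
  rcases le_total x M with h | h
  · rw [Kk_sub k]
    have h2 : ∫ a in x..M, κ a * hh (a * l) ≤ 0 := by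
      rw [← neg_nonneg, ← intervalIntegral.integral_neg]
      refine intervalIntegral.integral_nonneg h fun a _ => ?_
      have := mul_nonpos_of_nonneg_of_nonpos (k.nn a) (hh_np (a * l))
      linarith
    linarith
  · rw [Kk_hi k h, sub_self]; linarith

lemma Wk_ge {x l : ℝ} (hl : 0 ≤ l) : Sk κ M * hh (x * l) ≤ Wk κ M x l := by
  unfold Wk
  rcases le_total x M with h | h
  · have h2 : (Sk κ M - Sk κ x) * hh (x * l) ≤ Kk κ M l - Kk κ x l := by
      rw [Kk_sub k, Sk_sub k, ← intervalIntegral.integral_mul_const]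
      refine intervalIntegral.integral_mono_on h ((k.cont.mul continuous_const).intervalIntegrable _ _)
        ((k.cont.mul (c_hh l)).intervalIntegrable _ _) fun a ha => ?_
      exact mul_le_mul_of_nonneg_left (hh_mono (mul_le_mul_of_nonneg_right ha.1 hl)) (k.nn a)
    linarith
  · rw [Kk_hi k h, sub_self, Sk_hi k h]; linarith

lemma Wk_zero {x l : ℝ} (hl : 1 ≤ δ * l) (hx : x ≤ δ) : Wk κ M x l = 0 := by
  unfold Wk
  have l0 : 0 < l := by
    by_contra hc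
    push Not at hc
    have := mul_nonpos_of_nonneg_of_nonpos k.δ0.le hc
    linarith
  rw [Sk_lo k hx, Kk_lo k hx, zero_mul, zero_add, sub_zero]
  unfold Kk
  rw [intervalIntegral.integral_congr (g := fun _ => 0)]
  · simp
  · intro a _
    show κ a * hh (a * l) = 0
    rcases le_total a δ with h | h
    · rw [k.lo a h, zero_mul]
    · rw [hh_zero (hl.trans (mul_le_mul_of_nonneg_right h l0.le)), mul_zero]

lemma Kl_diff {x l : ℝ} (hx : 0 ≤ x) : 0 ≤ Kl κ M l - Kl κ x l := by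
  rcases le_total x M with h | h
  · rw [Kl_sub k]
    refine intervalIntegral.integral_nonneg h fun a ha => ?_
    exact mul_nonneg (k.nn a) (mul_nonneg (hx.trans ha.1) (h1_nn _))
  · rw [Kl_hi k h, sub_self]

lemma Kk_abs {x l : ℝ} (hl : 0 ≤ l) : |Kk κ x l| ≤ Sk κ M := by
  rcases le_total x δ with h | h
  · rw [Kk_lo k h, abs_zero]; exact Sk_nn k M
  · have x0 : 0 ≤ x := k.δ0.le.trans h
    have h2 : |∫ a in (0 : ℝ)..x, κ a * hh (a * l)| ≤ ∫ a in (0 : ℝ)..x, κ a := by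
      have h3 := intervalIntegral.norm_integral_le_of_norm_le (μ := volume) (a := 0) (b := x)
        (f := fun a => κ a * hh (a * l)) (g := κ) x0 (ae_of_all _ fun a ha => ?_)
        (k.cont.intervalIntegrable _ _)
      · exact h3
      · rw [Real.norm_eq_abs, abs_mul, abs_of_nonneg (k.nn a), abs_of_nonpos (hh_np _)]
        have := hh_ge' (mul_nonneg ha.1.le hl)
        have := mul_le_mul_of_nonneg_left (by linarith : -hh (a * l) ≤ 1) (k.nn a)
        linarith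
    exact h2.trans (Sk_le k x)

lemma Kl_abs {x l : ℝ} : |Kl κ x l| ≤ M * Sk κ M := by
  have m0 : 0 ≤ M := k.δ0.le.trans k.δM
  rcases le_total x δ with h | h
  · rw [Kl_lo k h, abs_zero]; exact mul_nonneg m0 (Sk_nn k M)
  · have x0 : 0 ≤ x := k.δ0.le.trans h
    have h2 : |∫ a in (0 : ℝ)..x, κ a * (a * h1 (a * l))| ≤ ∫ a in (0 : ℝ)..x, M * κ a := by
      have h3 := intervalIntegral.norm_integral_le_of_norm_le (μ := volume) (a := 0) (b := x)
        (f := fun a => κ a * (a * h1 (a * l))) (g := fun a => M * κ a) x0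
        (ae_of_all _ fun a ha => ?_) ((continuous_const.mul k.cont).intervalIntegrable _ _)
      · exact h3
      · rw [Real.norm_eq_abs, abs_mul, abs_of_nonneg (k.nn a)]
        rcases le_total M a with h4 | h4
        · rw [k.hi a h4]; simp
        · have h5 : |a * h1 (a * l)| ≤ M := by
            rw [abs_mul, abs_of_nonneg ha.1.le, abs_of_nonneg (h1_nn _)]
            have := mul_le_mul h4 (h1_le_one (a * l)) (h1_nn _) m0
            linarith
          have := mul_le_mul_of_nonneg_left h5 (k.nn a)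
          linarith
    refine h2.trans ?_
    rw [intervalIntegral.integral_const_mul]
    exact mul_le_mul_of_nonneg_left (Sk_le k x) m0

end ker

/-- the derivative of the field in terms of the jet -/
def FU (κ : ℝ → ℝ) (φ x u p R q uu pp : ℝ) : ℝ :=
  κ x * φ * (u * R⁻¹) * u +
  Sk κ x * (-(u * R⁻¹) + 1 / 2 * (x * q⁻¹) * q⁻¹ * (p * R⁻¹)) * (u * R⁻¹) -
  Sk κ x * φ * (1 / 2 * (p * R⁻¹) * R⁻¹ - x * R⁻¹ * (u * R⁻¹)) * (u * R⁻¹) +
  Sk κ x * φ * R⁻¹ * uu +
  Sk κ x * h1 (x * q⁻¹) * (u * q⁻¹ * R⁻¹ * (p * R⁻¹) -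
    1 / 2 * (x * q⁻¹) * q⁻¹ * q⁻¹ * (p * R⁻¹) * (p * R⁻¹)) +
  1 / 2 * Kl κ x q⁻¹ * (q⁻¹ * q⁻¹ * q⁻¹ * (p * R⁻¹) * (p * R⁻¹)) -
  (Sk κ x * hh (x * q⁻¹) - Kk κ x q⁻¹) *
    (((p * R⁻¹) * (p * R⁻¹) - 2 * x * (u * R⁻¹) * (p * R⁻¹)) * R⁻¹ * R⁻¹) +
  (Sk κ x * hh (x * q⁻¹) - Kk κ x q⁻¹) * (R⁻¹ * R⁻¹ * pp)

/-- the same for the part without `∇f` -/
def FN (κ : ℝ → ℝ) (M x u p R q pp : ℝ) : ℝ :=
  -(1 / 2 * Kl κ M q⁻¹ * (q⁻¹ * q⁻¹ * q⁻¹ * (p * R⁻¹) * (p * R⁻¹))) -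
  Kk κ M q⁻¹ * (((p * R⁻¹) * (p * R⁻¹) - 2 * x * (u * R⁻¹) * (p * R⁻¹)) * R⁻¹ * R⁻¹) +
  Kk κ M q⁻¹ * (R⁻¹ * R⁻¹ * pp)

variable {d : ℕ}

/-- the field -/
def UU (κ : ℝ → ℝ) (ε σ : ℝ) (i : Fin d) (f : E d → ℝ) (y : E d) : ℝ :=
  Sk κ (σ * f y) * ph (σ * tf ε f y) * (Rf ε f y)⁻¹ * (σ * D i f y) +
  (Sk κ (σ * f y) * hh (σ * f y * (qf ε f y)⁻¹) - Kk κ (σ * f y) (qf ε f y)⁻¹) *
    ((Rf ε f y)⁻¹ * (Rf ε f y)⁻¹) * D i (En f) y

/-- its derivative -/
def UU' (κ : ℝ → ℝ) (ε σ : ℝ) (i : Fin d) (f : E d → ℝ) (y : E d) : ℝ :=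
  FU κ (ph (σ * tf ε f y)) (σ * f y) (σ * D i f y) (D i (En f) y) (Rf ε f y) (qf ε f y)
    (σ * D i (D i f) y) (D i (D i (En f)) y)

/-- the second field -/
def NN (κ : ℝ → ℝ) (M ε : ℝ) (i : Fin d) (f : E d → ℝ) (y : E d) : ℝ :=
  Kk κ M (qf ε f y)⁻¹ * ((Rf ε f y)⁻¹ * (Rf ε f y)⁻¹) * D i (En f) y

/-- its derivative -/
def NN' (κ : ℝ → ℝ) (M ε : ℝ) (i : Fin d) (f : E d → ℝ) (y : E d) : ℝ :=
  FN κ M (f y) (D i f y) (D i (En f) y) (Rf ε f y) (qf ε f y) (D i (D i (En f)) y)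

section line

variable {κ : ℝ → ℝ} {δ M C : ℝ} (k : Ker κ δ M C) {ε : ℝ} (hε : 0 < ε) {f : E d → ℝ}
  (hf : ContDiff ℝ ∞ f)

include k hε hf

lemma UU_line {σ : ℝ} (hσ : σ = 1 ∨ σ = -1) (i : Fin d) (t : ℝ) :
    HasDerivAt (fun t : ℝ => UU κ ε σ i f (t • EuclideanSpace.single i 1))
      (UU' κ ε σ i f (t • EuclideanSpace.single i 1)) t := by
  obtain ⟨y, hy⟩ : ∃ y : E d, y = t • EuclideanSpace.single i 1 := ⟨_, rfl⟩
  have hx := (line hf i t).const_mul σ
  have hS := (Sk_deriv k _).comp t hx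
  have hph := (ph_deriv _).comp t ((line (tf_sm hε hf) i t).const_mul σ)
  have hRi := (line (Rf_sm hε hf) i t).fun_inv (Rf_pos hε f _).ne'
  have hqi := (line (qf_sm hε hf) i t).fun_inv (qf_pos hε f _).ne'
  have hu := (line (D_sm hf i) i t).const_mul σ
  have hp := line (D_sm (En_sm hf) i) i t
  have hhh := (hh_deriv _).comp t (hx.fun_mul hqi)
  have hK := Kk_comp k hx hqi
  have h1 := ((hS.fun_mul hph).fun_mul hRi).fun_mul hu
  have h2 := (((hS.fun_mul hhh).fun_sub hK).fun_mul (hRi.fun_mul hRi)).fun_mul hp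
  refine (h1.fun_add h2).congr_deriv ?_
  simp only [Function.comp_def]
  rw [← hy]
  unfold UU' FU
  have hr : rr (σ * tf ε f y) = qf ε f y / Rf ε f y := by
    rw [← rr_tf hε f y]
    unfold rr
    rcases hσ with rfl | rfl
    · rw [one_mul]
    · congr 1; ring
  rw [hr, D_tf hε hf, D_Rf hε hf, D_qf hε hf]
  have hR := (Rf_pos hε f y).ne'
  have hq := (qf_pos hε f y).ne'
  rcases hσ with rfl | rfl
  · field_simp
    ring
  · field_simp
    ring

lemma NN_line (i : Fin d) (t : ℝ) :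
    HasDerivAt (fun t : ℝ => NN κ M ε i f (t • EuclideanSpace.single i 1))
      (NN' κ M ε i f (t • EuclideanSpace.single i 1)) t := by
  obtain ⟨y, hy⟩ : ∃ y : E d, y = t • EuclideanSpace.single i 1 := ⟨_, rfl⟩
  have hRi := (line (Rf_sm hε hf) i t).fun_inv (Rf_pos hε f _).ne'
  have hqi := (line (qf_sm hε hf) i t).fun_inv (qf_pos hε f _).ne'
  have hp := line (D_sm (En_sm hf) i) i t
  have hK := (Kk_dl k M _).comp t hqi
  have h2 := (hK.fun_mul (hRi.fun_mul hRi)).fun_mul hp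
  refine h2.congr_deriv ?_
  simp only [Function.comp_def]
  rw [← hy]
  unfold NN' FN
  rw [D_Rf hε hf, D_qf hε hf]
  have hR := (Rf_pos hε f y).ne'
  have hq := (qf_pos hε f y).ne'
  field_simp
  ring

end line

end

end Pool.Agent.W2helper36.EM
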