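import Pool.Agent.W2helper36.EM.M

/-!
Project EM (helper36): level sets in the plane, the pointwise inequality.
-/

set_option autoImplicit false
set_option linter.unusedSectionVars false
open MeasureTheory Filter Topology
open scoped ContDiff ENNReal

namespace Pool.Agent.W2helper36.EM

open Pool.Agent.Y139.SW Pool.Agent.W2helper17.FM

noncomputable section

/-- the divergence of the first field -/
def GU (κ : ℝ → ℝ) (φ x R q g X Y U L : ℝ) : ℝ :=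
  κ x * φ * R⁻¹ * g + Sk κ x * (-(R⁻¹ * R⁻¹ * g) + 1 / 2 * (x * q⁻¹) * q⁻¹ * R⁻¹ * R⁻¹ * X) -
  Sk κ x * φ * (1 / 2 * R⁻¹ * R⁻¹ * R⁻¹ * X - x * R⁻¹ * R⁻¹ * R⁻¹ * g) +
  Sk κ x * φ * R⁻¹ * U +
  Sk κ x * h1 (x * q⁻¹) * (q⁻¹ * R⁻¹ * R⁻¹ * X - 1 / 2 * (x * q⁻¹) * q⁻¹ * q⁻¹ * R⁻¹ * R⁻¹ * Y) +
  1 / 2 * Kl κ x q⁻¹ * (q⁻¹ * q⁻¹ * q⁻¹ * R⁻¹ * R⁻¹ * Y) -
  (Sk κ x * hh (x * q⁻¹) - Kk κ x q⁻¹) * ((Y - 2 * x * X) * R⁻¹ * R⁻¹ * R⁻¹ * R⁻¹) +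
  (Sk κ x * hh (x * q⁻¹) - Kk κ x q⁻¹) * (R⁻¹ * R⁻¹ * L)

/-- the divergence of the second field -/
def GN (κ : ℝ → ℝ) (M x R q X Y L : ℝ) : ℝ :=
  -(1 / 2 * Kl κ M q⁻¹ * (q⁻¹ * q⁻¹ * q⁻¹ * R⁻¹ * R⁻¹ * Y)) -
  Kk κ M q⁻¹ * ((Y - 2 * x * X) * R⁻¹ * R⁻¹ * R⁻¹ * R⁻¹) + Kk κ M q⁻¹ * (R⁻¹ * R⁻¹ * L)

section ker

variable {κ : ℝ → ℝ} {δ M C : ℝ} (k : Ker κ δ M C)

include k

lemma GU_zero {φ x R q g X Y U L : ℝ} (hx : x ≤ δ) : GU κ φ x R q g X Y U L = 0 := by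
  unfold GU
  rw [k.lo x hx, Sk_lo k hx, Kk_lo k hx, Kl_lo k hx]
  ring

variable {x R q ε g X Y L : ℝ} (hx : 0 ≤ x) (hR : 0 < R) (hq : 0 < q)
  (e1 : R ^ 2 = g + ε ^ 2) (e2 : q ^ 2 = x ^ 2 + R ^ 2)

include hx hR hq e2

lemma arccos_ph : Real.arccos (x * q⁻¹) = ph (x * R⁻¹) := by
  have hr : rr (x * R⁻¹) = q / R := by
    have h4 : rr (x * R⁻¹) ^ 2 = (q / R) ^ 2 := by
      rw [rr_sq, div_pow, e2]
      field_simp
      ring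
    exact (pow_left_inj₀ (rr_pos _).le (by positivity) two_ne_zero).1 h4
  have hc : Real.cos (ph (x * R⁻¹)) = x * q⁻¹ := by
    rw [cos_ph, hr]; field_simp
  rw [← hc]
  exact Real.arccos_cos (ph_pos _).le ((ph_le (by positivity)).trans (by linarith [Real.pi_pos]))

lemma xq_lt : x * q⁻¹ < 1 := by
  rw [← div_eq_mul_inv, div_lt_one hq]
  nlinarith

lemma h1_val : h1 (x * q⁻¹) = 1 / 2 * (ph (x * R⁻¹) * q / R - x / q) := by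
  have hlt := xq_lt k hx hR hq e2
  have h0' : 0 ≤ x * q⁻¹ := by positivity
  unfold h1
  rw [if_pos hlt, max_eq_left h0']
  unfold h0
  have hs : √(1 - (x * q⁻¹) ^ 2) = R / q := by
    have : 1 - (x * q⁻¹) ^ 2 = (R / q) ^ 2 := by
      field_simp
      linarith
    rw [this, Real.sqrt_sq (by positivity)]
  rw [arccos_ph k hx hR hq e2, hs]
  field_simp

lemma h1_lower : 1 / 3 * (R ^ 2 / q ^ 2) ≤ h1 (x * q⁻¹) := by
  have hlt := xq_lt k hx hR hq e2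
  have h0' : 0 ≤ x * q⁻¹ := by positivity
  have h := (h0_bd h0' hlt).1
  unfold h1
  rw [if_pos hlt, max_eq_left h0']
  have : 1 - (x * q⁻¹) ^ 2 = R ^ 2 / q ^ 2 := by
    field_simp
    linarith
  rw [this] at h
  exact h

lemma hh_lower : -(1 / 2 * (R ^ 2 / q ^ 2) ^ 2) ≤ hh (x * q⁻¹) := by
  have hlt := xq_lt k hx hR hq e2
  have h0' : 0 ≤ x * q⁻¹ := by positivity
  have h := hh_ge h0' hlt.le
  have : 1 - (x * q⁻¹) ^ 2 = R ^ 2 / q ^ 2 := by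
    field_simp
    linarith
  rw [← this]
  have h3 : 1 - x * q⁻¹ ≤ 1 - (x * q⁻¹) ^ 2 := by nlinarith
  have h4 : (1 - x * q⁻¹) ^ 2 ≤ (1 - (x * q⁻¹) ^ 2) ^ 2 :=
    pow_le_pow_left₀ (by linarith) h3 2
  linarith

include e1

lemma gform (hkey : g * L = Y - 2 * x * X) :
    GU κ (ph (x * R⁻¹)) x R q g X Y (-x) L + GN κ M x R q X Y L =
    κ x * ph (x * R⁻¹) * (g / R) - Sk κ x + Sk κ x * (ε ^ 2 / R ^ 2) * al (x * R⁻¹) -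
      Sk κ x * h1 (x * q⁻¹) * (x * Y / (2 * q ^ 3 * R ^ 2)) -
      (Kl κ M q⁻¹ - Kl κ x q⁻¹) * (Y / (2 * q ^ 3 * R ^ 2)) +
      Wk κ M x q⁻¹ * (ε ^ 2 * L / R ^ 4) := by
  have hv := h1_val k hx hR hq e2
  have hg : g = R ^ 2 - ε ^ 2 := by linarith
  have hL : (R ^ 2 - ε ^ 2) * L = Y - 2 * x * X := by rw [← hg]; exact hkey
  have t1 : Sk κ x * (-(R⁻¹ * R⁻¹ * g) + 1 / 2 * (x * q⁻¹) * q⁻¹ * R⁻¹ * R⁻¹ * X) -
      Sk κ x * ph (x * R⁻¹) * (1 / 2 * R⁻¹ * R⁻¹ * R⁻¹ * X - x * R⁻¹ * R⁻¹ * R⁻¹ * g) +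
      Sk κ x * ph (x * R⁻¹) * R⁻¹ * (-x) +
      Sk κ x * h1 (x * q⁻¹) * (q⁻¹ * R⁻¹ * R⁻¹ * X -
        1 / 2 * (x * q⁻¹) * q⁻¹ * q⁻¹ * R⁻¹ * R⁻¹ * Y) =
      - Sk κ x + Sk κ x * (ε ^ 2 / R ^ 2) * al (x * R⁻¹) -
      Sk κ x * h1 (x * q⁻¹) * (x * Y / (2 * q ^ 3 * R ^ 2)) := by
    have t2 : Sk κ x * h1 (x * q⁻¹) * (q⁻¹ * R⁻¹ * R⁻¹ * X) =
        Sk κ x * (1 / 2 * (ph (x * R⁻¹) * q / R - x / q)) * (q⁻¹ * R⁻¹ * R⁻¹ * X) := by rw [hv]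
    rw [mul_sub (Sk κ x * h1 (x * q⁻¹)), t2, hg]
    unfold al
    field_simp
    ring
  have t3 : -((Sk κ x * hh (x * q⁻¹) - Kk κ x q⁻¹) *
        ((Y - 2 * x * X) * R⁻¹ * R⁻¹ * R⁻¹ * R⁻¹)) +
      (Sk κ x * hh (x * q⁻¹) - Kk κ x q⁻¹) * (R⁻¹ * R⁻¹ * L) -
      Kk κ M q⁻¹ * ((Y - 2 * x * X) * R⁻¹ * R⁻¹ * R⁻¹ * R⁻¹) + Kk κ M q⁻¹ * (R⁻¹ * R⁻¹ * L) =
      Wk κ M x q⁻¹ * (ε ^ 2 * L / R ^ 4) := by
    rw [← hL]
    unfold Wk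
    field_simp
    ring
  unfold GU GN
  linear_combination t1 + t3

/-- the pointwise inequality -/
lemma keyN (hε : 0 < ε) (hkey : g * L = Y - 2 * x * X) (hL : -(2 * x ^ 2) ≤ L) (hY : 0 ≤ Y) :
    GU κ (ph (x * R⁻¹)) x R q g X Y (-x) L + GN κ M x R q X Y L ≤
    κ x * ph (x * R⁻¹) * (g / R) - Sk κ x - Sk κ x * x * Y / (6 * q ^ 5) +
      2 * ε ^ 2 * Sk κ M / δ ^ 2 := by
  rw [gform k hx hR hq e1 e2 hkey]
  have S0 := Sk_nn k x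
  have SM := Sk_nn k M
  have hδ := k.δ0
  have a1 : Sk κ x * (ε ^ 2 / R ^ 2) * al (x * R⁻¹) ≤ ε ^ 2 * Sk κ M / δ ^ 2 := by
    rcases le_total x δ with h | h
    · rw [Sk_lo k h]
      simp only [zero_mul]
      positivity
    · have h2 : al (x * R⁻¹) ≤ R ^ 2 / q ^ 2 := by
        have h3 := al_le (t := x * R⁻¹) (by positivity)
        rw [rr_sq] at h3
        have : 1 / (1 + (x * R⁻¹) ^ 2) = R ^ 2 / q ^ 2 := by
          rw [e2]; field_simp; ring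
        rwa [this] at h3
      have h4 : Sk κ x * (ε ^ 2 / R ^ 2) * al (x * R⁻¹) ≤
          Sk κ x * (ε ^ 2 / R ^ 2) * (R ^ 2 / q ^ 2) :=
        mul_le_mul_of_nonneg_left h2 (by positivity)
      have e : Sk κ x * (ε ^ 2 / R ^ 2) * (R ^ 2 / q ^ 2) = ε ^ 2 * Sk κ x / q ^ 2 := by
        field_simp
      rw [e] at h4
      refine h4.trans ?_
      have h5 : δ ^ 2 ≤ q ^ 2 := by nlinarith
      exact div_le_div₀ (by positivity) (mul_le_mul_of_nonneg_left (Sk_le k x) (sq_nonneg ε))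
        (by positivity) h5
  have a2 : Sk κ x * x * Y / (6 * q ^ 5) ≤ Sk κ x * h1 (x * q⁻¹) * (x * Y / (2 * q ^ 3 * R ^ 2)) := by
    have h2 := mul_le_mul_of_nonneg_left (h1_lower k hx hR hq e2)
      (by positivity : 0 ≤ Sk κ x * (x * Y / (2 * q ^ 3 * R ^ 2)))
    have e : Sk κ x * (x * Y / (2 * q ^ 3 * R ^ 2)) * (1 / 3 * (R ^ 2 / q ^ 2)) =
        Sk κ x * x * Y / (6 * q ^ 5) := by
      field_simp
      ring
    rw [e] at h2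
    linarith
  have a3 : 0 ≤ (Kl κ M q⁻¹ - Kl κ x q⁻¹) * (Y / (2 * q ^ 3 * R ^ 2)) :=
    mul_nonneg (Kl_diff k hx) (by positivity)
  have a4 : Wk κ M x q⁻¹ * (ε ^ 2 * L / R ^ 4) ≤ ε ^ 2 * Sk κ M / δ ^ 2 := by
    have hqi : 0 < q⁻¹ := inv_pos.2 hq
    rcases le_total q δ with h | h
    · have h2 : 1 ≤ δ * q⁻¹ := by
        rw [← div_eq_mul_inv, one_le_div hq]; exact h
      have h3 : x ≤ δ := by nlinarith
      rw [Wk_zero k h2 h3, zero_mul]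
      positivity
    · have h2 := Wk_ge k (x := x) hqi.le
      have h3 := hh_lower k hx hR hq e2
      have h4 : -(Sk κ M * (1 / 2 * (R ^ 2 / q ^ 2) ^ 2)) ≤ Wk κ M x q⁻¹ := by
        have := mul_le_mul_of_nonneg_left h3 SM
        linarith
      have h5 := Wk_np k (x := x) (l := q⁻¹)
      have h6 : Wk κ M x q⁻¹ * (ε ^ 2 * L / R ^ 4) ≤
          Wk κ M x q⁻¹ * (ε ^ 2 * (-(2 * x ^ 2)) / R ^ 4) := by
        refine mul_le_mul_of_nonpos_left ?_ h5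
        exact div_le_div_of_nonneg_right (mul_le_mul_of_nonneg_left hL (sq_nonneg ε)) (by positivity)
      have h7 : Wk κ M x q⁻¹ * (ε ^ 2 * (-(2 * x ^ 2)) / R ^ 4) ≤
          -(Sk κ M * (1 / 2 * (R ^ 2 / q ^ 2) ^ 2)) * (ε ^ 2 * (-(2 * x ^ 2)) / R ^ 4) := by
        refine mul_le_mul_of_nonpos_right h4 ?_
        have : 0 ≤ ε ^ 2 * (2 * x ^ 2) / R ^ 4 := by positivity
        have e : ε ^ 2 * (-(2 * x ^ 2)) / R ^ 4 = -(ε ^ 2 * (2 * x ^ 2) / R ^ 4) := by ring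
        rw [e]; linarith
      have h8 : -(Sk κ M * (1 / 2 * (R ^ 2 / q ^ 2) ^ 2)) * (ε ^ 2 * (-(2 * x ^ 2)) / R ^ 4) =
          ε ^ 2 * Sk κ M * (x ^ 2 / q ^ 4) := by
        field_simp
      have h9 : x ^ 2 / q ^ 4 ≤ 1 / δ ^ 2 := by
        rw [div_le_div_iff₀ (by positivity) (by positivity)]
        have h10 : δ ^ 2 ≤ q ^ 2 := pow_le_pow_left₀ hδ.le h 2
        have h11 : x ^ 2 ≤ q ^ 2 := by nlinarith
        have := mul_le_mul h11 h10 (by positivity) (by positivity)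
        nlinarith
      have h12 : ε ^ 2 * Sk κ M * (x ^ 2 / q ^ 4) ≤ ε ^ 2 * Sk κ M * (1 / δ ^ 2) :=
        mul_le_mul_of_nonneg_left h9 (by positivity)
      have h13 : ε ^ 2 * Sk κ M * (1 / δ ^ 2) = ε ^ 2 * Sk κ M / δ ^ 2 := by ring
      linarith
  have e3 : 2 * ε ^ 2 * Sk κ M / δ ^ 2 = ε ^ 2 * Sk κ M / δ ^ 2 + ε ^ 2 * Sk κ M / δ ^ 2 := by ring
  rw [e3]
  linarith

/-- the case of a plane wave -/
lemma keyNE : κ x * ph (x * R⁻¹) * (g / R) - Sk κ x ≤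
    GU κ (ph (x * R⁻¹)) x R q g 0 0 (-x) 0 + GN κ M x R q 0 0 0 := by
  rw [gform k hx hR hq e1 e2 (by ring)]
  have h2 := al_nn (t := x * R⁻¹) (by positivity)
  have S0 := Sk_nn k x
  have : 0 ≤ Sk κ x * (ε ^ 2 / R ^ 2) * al (x * R⁻¹) := by positivity
  simp only [mul_zero, zero_div, sub_zero, add_zero]
  linarith

end ker

/-- the exact identity in the plane -/
lemma key2 {f : E 2 → ℝ} (hf : ContDiff ℝ ∞ f) (eq : ∀ y, Lap f y = -f y) (y : E 2) :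
    Q 1 f y * Lap (En f) y = YY f y - 2 * f y * XX f y := by
  have e0 := eq y
  have hc := D_comm hf 0 1 y
  unfold Lap at e0
  rw [Fin.sum_univ_two] at e0
  rw [Lap_En hf eq, Q_succ 1 f y]
  unfold YY XX
  simp only [Fin.sum_univ_two, Q_one, D_En hf]
  rw [hc]
  have e1 : f y = -(D 0 (D 0 f) y + D 1 (D 1 f) y) := by linarith
  rw [e1]
  ring

end

end Pool.Agent.W2helper36.EM
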