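import Pool.Agent.W2helper36.EM.N

/-!
Project EM (helper36): level sets in the plane, integrability and the regularised inequality.
-/

set_option autoImplicit false
set_option linter.unusedSectionVars false
open MeasureTheory Filter Topology
open scoped ContDiff ENNReal

namespace Pool.Agent.W2helper36.EM

open Pool.Agent.Y139.SW Pool.Agent.W2helper17.FM

noncomputable section

variable {d : ℕ} {S : Type*} [MeasurableSpace S] {P : Measure S} {τ : E d → S → S}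

lemma CF.sub {G H : S → E d → ℝ} (h : CF τ G) (h' : CF τ H) : CF τ (fun s y => G s y - H s y) :=
  ⟨fun y => (h.meas y).sub (h'.meas y), fun s => (h.cont s).sub (h'.cont s),
    fun x s y => by rw [h.cov, h'.cov]⟩

lemma CF.const (c : ℝ) : CF τ (fun (_ : S) (_ : E d) => c) :=
  ⟨fun _ => measurable_const, fun _ => continuous_const, fun _ _ _ => rfl⟩

lemma CF.comp2 {G H : S → E d → ℝ} {k : ℝ → ℝ → ℝ} (hk : Continuous fun p : ℝ × ℝ => k p.1 p.2)
    (h : CF τ G) (h' : CF τ H) : CF τ (fun s y => k (G s y) (H s y)) :=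
  ⟨fun y => hk.measurable.comp ((h.meas y).prodMk (h'.meas y)),
    fun s => hk.comp ((h.cont s).prodMk (h'.cont s)), fun x s y => by rw [h.cov, h'.cov]⟩

section cf

variable {κ : ℝ → ℝ} {δ M C : ℝ} (k : Ker κ δ M C) {ε : ℝ} (hε : 0 < ε) {G : S → E d → ℝ}
  (h : SF τ G)

include k hε h

omit k hε in
lemma c_x (σ : ℝ) : CF τ (fun s y => σ * G s y) := (CF.const σ).mul (cf h)

omit k hε in
lemma c_u (σ : ℝ) (i : Fin d) : CF τ (fun s y => σ * D i (G s) y) := (CF.const σ).mul (cf (h.der i))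

omit k in
lemma c_Ri : CF τ (fun s y => (Rf ε (G s) y)⁻¹) :=
  (cf (sf_Rf hε h)).inv fun s y => (Rf_pos hε (G s) y).ne'

omit k in
lemma c_qi : CF τ (fun s y => (qf ε (G s) y)⁻¹) :=
  (cf (sf_qf hε h)).inv fun s y => (qf_pos hε (G s) y).ne'

omit k in
lemma c_ph (σ : ℝ) : CF τ (fun s y => ph (σ * tf ε (G s) y)) :=
  ((CF.const σ).mul (cf (sf_tf hε h))).comp ph_cont

lemma cf_UU (σ : ℝ) (i : Fin d) : CF τ (fun s => UU κ ε σ i (G s)) := by
  have x := c_x h σ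
  have u := c_u h σ i
  have R := c_Ri hε h
  have q := c_qi hε h
  have f := c_ph hε h σ
  have p := cf ((sf_En h).der i)
  exact ((((x.comp (Sk_cont k)).mul f).mul R).mul u).add
    (((((x.comp (Sk_cont k)).mul ((x.mul q).comp hh_cont)).sub (x.comp2 (Kk_cont k) q)).mul
      (R.mul R)).mul p)

lemma cf_UU' (σ : ℝ) (i : Fin d) : CF τ (fun s => UU' κ ε σ i (G s)) := by
  have x := c_x h σ
  have u := c_u h σ i
  have R := c_Ri hε h
  have q := c_qi hε h
  have f := c_ph hε h σ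
  have p := cf ((sf_En h).der i)
  have pp := cf (((sf_En h).der i).der i)
  have uu : CF τ (fun s y => σ * D i (D i (G s)) y) := (CF.const σ).mul (cf ((h.der i).der i))
  have ck := x.comp k.cont
  have cS := x.comp (Sk_cont k)
  have c1 := (x.mul q).comp h1_cont
  have ch := (x.mul q).comp hh_cont
  have cK := x.comp2 (Kk_cont k) q
  have cL := x.comp2 (Kl_cont k) q
  have uR := u.mul R
  have pR := p.mul R
  have hf := CF.const (τ := τ) (1 / 2)
  have two := CF.const (τ := τ) 2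
  have t1 := ((ck.mul f).mul uR).mul u
  have t2 := (cS.mul (uR.neg.add (((hf.mul (x.mul q)).mul q).mul pR))).mul uR
  have t3 := ((cS.mul f).mul (((hf.mul pR).mul R).sub ((x.mul R).mul uR))).mul uR
  have t4 := ((cS.mul f).mul R).mul uu
  have t5 := (cS.mul c1).mul ((((u.mul q).mul R).mul pR).sub
    (((((hf.mul (x.mul q)).mul q).mul q).mul pR).mul pR))
  have t6 := (hf.mul cL).mul ((((q.mul q).mul q).mul pR).mul pR)
  have W := (cS.mul ch).sub cK
  have t7 := W.mul ((((pR.mul pR).sub (((two.mul x).mul uR).mul pR)).mul R).mul R)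
  have t8 := W.mul ((R.mul R).mul pp)
  exact ((((((t1.add t2).sub t3).add t4).add t5).add t6).sub t7).add t8

lemma cf_NN (i : Fin d) : CF τ (fun s => NN κ M ε i (G s)) := by
  have R := c_Ri hε h
  have q := c_qi hε h
  have p := cf ((sf_En h).der i)
  exact (((CF.const M).comp2 (Kk_cont k) q).mul (R.mul R)).mul p

lemma cf_NN' (i : Fin d) : CF τ (fun s => NN' κ M ε i (G s)) := by
  have x := cf h
  have u := cf (h.der i)
  have R := c_Ri hε h
  have q := c_qi hε h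
  have p := cf ((sf_En h).der i)
  have pp := cf (((sf_En h).der i).der i)
  have cK := (CF.const (τ := τ) M).comp2 (Kk_cont k) q
  have cL := (CF.const (τ := τ) M).comp2 (Kl_cont k) q
  have uR := u.mul R
  have pR := p.mul R
  have hf := CF.const (τ := τ) (1 / 2)
  have two := CF.const (τ := τ) 2
  have t6 := ((hf.mul cL).mul ((((q.mul q).mul q).mul pR).mul pR)).neg
  have t7 := cK.mul ((((pR.mul pR).sub (((two.mul x).mul uR).mul pR)).mul R).mul R)
  have t8 := cK.mul ((R.mul R).mul pp)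
  exact (t6.sub t7).add t8

end cf

section bd

variable {κ : ℝ → ℝ} {δ M C : ℝ} (k : Ker κ δ M C) {ε : ℝ} (hε : 0 < ε) {G : S → E d → ℝ}
  (hs : ∀ s, ContDiff ℝ ∞ (G s)) {σ : ℝ} (hσ : |σ| = 1)

/-- bounded functions -/
lemma bd0 {g : S → ℝ} {c : ℝ} (hc : ∀ s, |g s| ≤ c) : Bd (J G) 0 g :=
  ⟨|c|, abs_nonneg _, fun s => by rw [pow_zero, mul_one]; exact (hc s).trans (le_abs_self _)⟩

include k hε hs hσ

omit k hε hs in
lemma b_x : Bd (J G) 1 (fun s => σ * G s 0) := ⟨1, zero_le_one, fun s => by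
  rw [abs_mul, hσ, one_mul, one_mul, pow_one]; exact J0 G s⟩

omit k hε hs in
lemma b_u (i : Fin d) : Bd (J G) 1 (fun s => σ * D i (G s) 0) := ⟨1, zero_le_one, fun s => by
  rw [abs_mul, hσ, one_mul, one_mul, pow_one]; exact J1 G i s⟩

omit k hε hs in
lemma b_uu (i : Fin d) : Bd (J G) 1 (fun s => σ * D i (D i (G s)) 0) := ⟨1, zero_le_one, fun s => by
  rw [abs_mul, hσ, one_mul, one_mul, pow_one]; exact J2 G i i s⟩

omit k hs hσ in
lemma b_R : Bd (J G) 0 (fun s => (Rf ε (G s) 0)⁻¹) := bd0 (c := ε⁻¹) fun s => by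
  rw [abs_of_pos (inv_pos.2 (Rf_pos hε _ _))]
  exact inv_anti₀ hε (Rf_ge hε _ _)

omit k hs hσ in
lemma b_q : Bd (J G) 0 (fun s => (qf ε (G s) 0)⁻¹) := bd0 (c := ε⁻¹) fun s => by
  rw [abs_of_pos (inv_pos.2 (qf_pos hε _ _))]
  exact inv_anti₀ hε (qf_ge hε _ _)

omit k hs in
lemma b_uR (i : Fin d) : Bd (J G) 0 (fun s => σ * D i (G s) 0 * (Rf ε (G s) 0)⁻¹) :=
  bd0 (c := 1) fun s => by
  have hR := Rf_pos hε (G s) 0
  rw [abs_mul, abs_mul, hσ, one_mul, abs_of_pos (inv_pos.2 hR), ← div_eq_mul_inv,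
    div_le_one hR]
  exact abs_D_le hε _ _ i

omit k hs in
lemma b_xq : Bd (J G) 0 (fun s => σ * G s 0 * (qf ε (G s) 0)⁻¹) := bd0 (c := 1) fun s => by
  have hR := qf_pos hε (G s) 0
  rw [abs_mul, abs_mul, hσ, one_mul, abs_of_pos (inv_pos.2 hR), ← div_eq_mul_inv,
    div_le_one hR]
  exact abs_le_qf hε _ _

omit k hσ in
lemma b_pR (i : Fin d) : Bd (J G) 1 (fun s => D i (En (G s)) 0 * (Rf ε (G s) 0)⁻¹) := by
  refine ⟨cd d, cd_nn d, fun s => ?_⟩
  have hR := Rf_pos hε (G s) 0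
  rw [abs_mul, abs_of_pos (inv_pos.2 hR), ← div_eq_mul_inv, div_le_iff₀ hR, pow_one]
  have := p_bd hε hs i s
  linarith

omit k hs hσ in
lemma b_ph (σ : ℝ) : Bd (J G) 0 (fun s => ph (σ * tf ε (G s) 0)) := bd0 (c := Real.pi) fun s => by
  rw [abs_of_pos (ph_pos _)]
  unfold ph
  have := Real.neg_pi_div_two_lt_arctan (σ * tf ε (G s) 0)
  linarith

omit hε hs hσ in
lemma b_κ : Bd (J G) 0 (fun s => κ (σ * G s 0)) := bd0 (c := C) fun s => by
  rw [abs_of_nonneg (k.nn _)]; exact k.le _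

omit hε hs hσ in
lemma b_S : Bd (J G) 0 (fun s => Sk κ (σ * G s 0)) := bd0 (c := Sk κ M) fun s => by
  rw [abs_of_nonneg (Sk_nn k _)]; exact Sk_le k _

omit k hε hs hσ in
lemma b_1 (g : S → ℝ) : Bd (J G) 0 (fun s => h1 (g s)) := bd0 (c := 1) fun s => by
  rw [abs_of_nonneg (h1_nn _)]; exact h1_le_one _

omit k hs in
lemma b_hh : Bd (J G) 0 (fun s => hh (σ * G s 0 * (qf ε (G s) 0)⁻¹)) := bd0 (c := 2) fun s => by
  refine hh_abs ?_
  have hR := qf_pos hε (G s) 0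
  have : |σ * G s 0 * (qf ε (G s) 0)⁻¹| ≤ 1 := by
    rw [abs_mul, abs_mul, hσ, one_mul, abs_of_pos (inv_pos.2 hR), ← div_eq_mul_inv,
      div_le_one hR]
    exact abs_le_qf hε _ _
  exact (abs_le.1 this).1

omit hs hσ in
lemma b_K (g : S → ℝ) : Bd (J G) 0 (fun s => Kk κ (g s) (qf ε (G s) 0)⁻¹) :=
  bd0 (c := Sk κ M) fun s => Kk_abs k (inv_pos.2 (qf_pos hε (G s) 0)).le

omit hε hs hσ in
lemma b_L (g l : S → ℝ) : Bd (J G) 0 (fun s => Kl κ (g s) (l s)) :=
  bd0 (c := M * Sk κ M) fun s => Kl_abs k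

lemma b_UU (i : Fin d) : Bd (J G) 2 (fun s => UU κ ε σ i (G s) 0) := by
  have hL := J_one G
  have x := b_x (G := G) hσ
  have u := b_u (G := G) hσ i
  have R := b_R hε (G := G)
  have f := b_ph hε (G := G) σ
  have cS := b_S k (G := G) (σ := σ)
  have p := bd_DEn hs i (G := G)
  have W := Bd.sub hL (Bd.mul hL cS (b_hh hε (G := G) hσ)) (b_K k hε (G := G) fun s => σ * G s 0)
  have t1 := Bd.mul hL (Bd.mul hL (Bd.mul hL cS f) R) u
  have t2 := Bd.mul hL (Bd.mul hL W (Bd.mul hL R R)) p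
  exact Bd.add hL (Bd.mono hL (by norm_num) t1) (Bd.mono hL (by norm_num) t2)

lemma b_UU' (i : Fin d) : Bd (J G) 2 (fun s => UU' κ ε σ i (G s) 0) := by
  have hL := J_one G
  have x := b_x (G := G) hσ
  have u := b_u (G := G) hσ i
  have R := b_R hε (G := G)
  have q := b_q hε (G := G)
  have f := b_ph hε (G := G) σ
  have cS := b_S k (G := G) (σ := σ)
  have pp := bd_DDEn hs i (G := G)
  have uu := b_uu (G := G) hσ i
  have ck := b_κ k (G := G) (σ := σ)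
  have c1 := b_1 (G := G) fun s => σ * G s 0 * (qf ε (G s) 0)⁻¹
  have cL := b_L k (G := G) (fun s => σ * G s 0) (fun s => (qf ε (G s) 0)⁻¹)
  have uR := b_uR hε (G := G) hσ i
  have pR := b_pR hε hs i
  have xq := b_xq hε (G := G) hσ
  have hf := Bd.const hL (1 / 2)
  have two := Bd.const hL 2
  have W := Bd.sub hL (Bd.mul hL cS (b_hh hε (G := G) hσ)) (b_K k hε (G := G) fun s => σ * G s 0)
  have t1 := Bd.mul hL (Bd.mul hL (Bd.mul hL ck f) uR) u
  have t2 := Bd.mul hL (Bd.mul hL cS (Bd.add hL (Bd.mono hL (by norm_num : 0 ≤ 1) (Bd.neg hL uR))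
    (Bd.mul hL (Bd.mul hL (Bd.mul hL hf xq) q) pR))) uR
  have t3 := Bd.mul hL (Bd.mul hL (Bd.mul hL cS f) (Bd.sub hL
    (Bd.mono hL (by norm_num : _ ≤ 1) (Bd.mul hL (Bd.mul hL hf pR) R))
    (Bd.mono hL (by norm_num : _ ≤ 1) (Bd.mul hL (Bd.mul hL x R) uR)))) uR
  have t4 := Bd.mul hL (Bd.mul hL (Bd.mul hL cS f) R) uu
  have t5 := Bd.mul hL (Bd.mul hL cS c1) (Bd.sub hL
    (Bd.mono hL (by norm_num : _ ≤ 2) (Bd.mul hL (Bd.mul hL (Bd.mul hL u q) R) pR))
    (Bd.mono hL (by norm_num : _ ≤ 2)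
      (Bd.mul hL (Bd.mul hL (Bd.mul hL (Bd.mul hL (Bd.mul hL hf xq) q) q) pR) pR)))
  have t6 := Bd.mul hL (Bd.mul hL hf cL)
    (Bd.mul hL (Bd.mul hL (Bd.mul hL (Bd.mul hL q q) q) pR) pR)
  have t7 := Bd.mul hL W (Bd.mul hL (Bd.mul hL (Bd.sub hL
    (Bd.mono hL (by norm_num : _ ≤ 2) (Bd.mul hL pR pR))
    (Bd.mono hL (by norm_num : _ ≤ 2) (Bd.mul hL (Bd.mul hL (Bd.mul hL two x) uR) pR))) R) R)
  have t8 := Bd.mul hL W (Bd.mul hL (Bd.mul hL R R) pp)
  have m1 := Bd.mono hL (by norm_num : _ ≤ 2) t1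
  have m2 := Bd.mono hL (by norm_num : _ ≤ 2) t2
  have m3 := Bd.mono hL (by norm_num : _ ≤ 2) t3
  have m4 := Bd.mono hL (by norm_num : _ ≤ 2) t4
  have m5 := Bd.mono hL (by norm_num : _ ≤ 2) t5
  have m6 := Bd.mono hL (by norm_num : _ ≤ 2) t6
  have m7 := Bd.mono hL (by norm_num : _ ≤ 2) t7
  have m8 := Bd.mono hL (by norm_num : _ ≤ 2) t8
  exact Bd.add hL (Bd.sub hL (Bd.add hL (Bd.add hL (Bd.add hL (Bd.sub hL (Bd.add hL m1 m2) m3) m4)
    m5) m6) m7) m8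

omit hσ in
lemma b_NN (i : Fin d) : Bd (J G) 2 (fun s => NN κ M ε i (G s) 0) := by
  have hL := J_one G
  have R := b_R hε (G := G)
  have p := bd_DEn hs i (G := G)
  have K := b_K k hε (G := G) fun _ => M
  exact Bd.mono hL (by norm_num) (Bd.mul hL (Bd.mul hL K (Bd.mul hL R R)) p)

omit hσ in
lemma b_NN' (i : Fin d) : Bd (J G) 2 (fun s => NN' κ M ε i (G s) 0) := by
  have hL := J_one G
  have x := bd_G G
  have uR : Bd (J G) 0 (fun s => D i (G s) 0 * (Rf ε (G s) 0)⁻¹) := bd0 (c := 1) fun s => by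
    have hR := Rf_pos hε (G s) 0
    rw [abs_mul, abs_of_pos (inv_pos.2 hR), ← div_eq_mul_inv, div_le_one hR]
    exact abs_D_le hε _ _ i
  have R := b_R hε (G := G)
  have q := b_q hε (G := G)
  have pp := bd_DDEn hs i (G := G)
  have cL := b_L k (G := G) (fun _ => M) (fun s => (qf ε (G s) 0)⁻¹)
  have pR := b_pR hε hs i
  have hf := Bd.const hL (1 / 2)
  have two := Bd.const hL 2
  have W := b_K k hε (G := G) fun _ => M
  have t6 := Bd.neg hL (Bd.mul hL (Bd.mul hL hf cL)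
    (Bd.mul hL (Bd.mul hL (Bd.mul hL (Bd.mul hL q q) q) pR) pR))
  have t7 := Bd.mul hL W (Bd.mul hL (Bd.mul hL (Bd.sub hL
    (Bd.mono hL (by norm_num : _ ≤ 2) (Bd.mul hL pR pR))
    (Bd.mono hL (by norm_num : _ ≤ 2) (Bd.mul hL (Bd.mul hL (Bd.mul hL two x) uR) pR))) R) R)
  have t8 := Bd.mul hL W (Bd.mul hL (Bd.mul hL R R) pp)
  have m6 := Bd.mono hL (by norm_num : _ ≤ 2) t6
  have m7 := Bd.mono hL (by norm_num : _ ≤ 2) t7
  have m8 := Bd.mono hL (by norm_num : _ ≤ 2) t8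
  exact Bd.add hL (Bd.sub hL m6 m7) m8

end bd

end

end Pool.Agent.W2helper36.EM
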