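import Pool.Agent.W2helper36.EM.O

/-!
Project EM (helper36): level sets in the plane, the inequality for smooth kernels.
-/

set_option autoImplicit false
set_option linter.unusedSectionVars false
open MeasureTheory Filter Topology
open scoped ContDiff ENNReal

namespace Pool.Agent.W2helper36.EM

open Pool.Agent.Y139.SW Pool.Agent.W2helper17.FM

noncomputable section

/-- `|∇f| arctan (|∇f| / |f|)` -/
def AT {d : ℕ} (f : E d → ℝ) (y : E d) : ℝ :=
  √(Q 1 f y) * Real.arctan (√(Q 1 f y) / |f y|)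

lemma AT_nn {d : ℕ} (f : E d → ℝ) (y : E d) : 0 ≤ AT f y :=
  mul_nonneg (Real.sqrt_nonneg _) (Real.arctan_nonneg.2 (by positivity))

lemma AT_le {d : ℕ} (f : E d → ℝ) (y : E d) : AT f y ≤ Real.pi / 2 * √(Q 1 f y) := by
  unfold AT
  have := (Real.arctan_lt_pi_div_two (√(Q 1 f y) / |f y|)).le
  have h := mul_le_mul_of_nonneg_left this (Real.sqrt_nonneg (Q 1 f y))
  linarith

lemma arctan_lip {a b : ℝ} (h : b ≤ a) : Real.arctan a ≤ Real.arctan b + (a - b) := by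
  have hd : ∀ x, HasDerivAt (fun x => x - Real.arctan x) (1 - 1 / (1 + x ^ 2)) x := fun x =>
    (hasDerivAt_id x).sub (Real.hasDerivAt_arctan x)
  have mono : Monotone (fun x => x - Real.arctan x) := by
    refine monotone_of_deriv_nonneg (fun x => (hd x).differentiableAt) fun x => ?_
    rw [(hd x).deriv]
    have : 1 / (1 + x ^ 2) ≤ 1 := (div_le_one (by positivity)).2 (by nlinarith [sq_nonneg x])
    linarith
  have := mono h
  simp only at this
  linarith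

lemma ph_arctan {x R : ℝ} (hx : 0 < x) (hR : 0 < R) : ph (x * R⁻¹) = Real.arctan (R / x) := by
  unfold ph
  have h : (x * R⁻¹)⁻¹ = R / x := by field_simp
  rw [← h, Real.arctan_inv_of_pos (by positivity)]

section real

variable {κ : ℝ → ℝ} {δ M C : ℝ} (k : Ker κ δ M C) {x g ε R : ℝ} (hx : 0 ≤ x) (hR : 0 < R)
  (hε : 0 < ε) (hg : 0 ≤ g) (e1 : R ^ 2 = g + ε ^ 2)

include k hx hR hε hg e1

lemma sg_R : √g ≤ R := by
  have h := Real.sq_sqrt hg
  have h0 := Real.sqrt_nonneg g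
  nlinarith [sq_nonneg ε]

lemma R_sg : R ≤ √g + ε := by
  have h := Real.sq_sqrt hg
  have h0 := Real.sqrt_nonneg g
  nlinarith

lemma kap_up : κ x * ph (x * R⁻¹) * (g / R) ≤
    κ x * (√g * Real.arctan (√g / x)) + C * (ε / δ) * √g := by
  have s0 := Real.sqrt_nonneg g
  have s2 := Real.sq_sqrt hg
  have C0 : 0 ≤ C := (k.nn 0).trans (k.le 0)
  have hδ := k.δ0
  rcases le_total x δ with h | h
  · rw [k.lo x h]
    simp only [zero_mul, zero_add]
    positivity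
  · have x0 : 0 < x := hδ.trans_le h
    have h1 : g / R ≤ √g := by
      rw [div_le_iff₀ hR]
      have := sg_R k hx hR hε hg e1
      nlinarith
    have h2 : ph (x * R⁻¹) ≤ Real.arctan (√g / x) + ε / δ := by
      rw [ph_arctan x0 hR]
      have h3 := arctan_lip (div_le_div_of_nonneg_right (sg_R k hx hR hε hg e1) x0.le)
      have h4 : R / x - √g / x ≤ ε / δ := by
        rw [← sub_div]
        have h5 : R - √g ≤ ε := by linarith [R_sg k hx hR hε hg e1]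
        exact div_le_div₀ hε.le h5 hδ h
      linarith
    have p0 := (ph_pos (x * R⁻¹)).le
    have h5 : κ x * ph (x * R⁻¹) * (g / R) ≤ κ x * (Real.arctan (√g / x) + ε / δ) * √g :=
      mul_le_mul (mul_le_mul_of_nonneg_left h2 (k.nn x)) h1 (by positivity)
        (mul_nonneg (k.nn x) (p0.trans h2))
    have h6 : κ x * (ε / δ) * √g ≤ C * (ε / δ) * √g :=
      mul_le_mul_of_nonneg_right (mul_le_mul_of_nonneg_right (k.le x) (by positivity)) s0
    have e : κ x * (Real.arctan (√g / x) + ε / δ) * √g =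
      κ x * (√g * Real.arctan (√g / x)) + κ x * (ε / δ) * √g := by ring
    rw [e] at h5
    linarith

lemma kap_low : κ x * Real.arctan (√g / x) * (g / R) ≤ κ x * ph (x * R⁻¹) * (g / R) := by
  rcases le_total x δ with h | h
  · rw [k.lo x h]; simp
  · have x0 : 0 < x := k.δ0.trans_le h
    refine mul_le_mul_of_nonneg_right (mul_le_mul_of_nonneg_left ?_ (k.nn x)) (by positivity)
    rw [ph_arctan x0 hR]
    exact Real.arctan_strictMono.monotone
      (div_le_div_of_nonneg_right (sg_R k hx hR hε hg e1) x0.le)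

end real

section sum

variable {d : ℕ} {κ : ℝ → ℝ} {M ε : ℝ} {f : E d → ℝ}
  (eq : ∀ y, Lap f y = -f y)

lemma sum_UU' (eq : ∀ y, Lap f y = -f y) {σ : ℝ} (hσ : σ = 1 ∨ σ = -1) (y : E d) :
    ∑ i, UU' κ ε σ i f y =
    GU κ (ph (σ * tf ε f y)) (σ * f y) (Rf ε f y) (qf ε f y) (Q 1 f y) (σ * XX f y) (YY f y)
      (-(σ * f y)) (Lap (En f) y) := by
  have e1 : -(σ * f y) = σ * Lap f y := by rw [eq]; ring
  rw [e1, Q_one]
  unfold GU XX YY Lap
  simp only [Finset.mul_sum, Finset.sum_mul, ← Finset.sum_sub_distrib,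
    ← Finset.sum_add_distrib, ← Finset.sum_neg_distrib]
  refine Finset.sum_congr rfl fun i _ => ?_
  unfold UU' FU
  rcases hσ with rfl | rfl
  · ring
  · ring

lemma sum_NN' (y : E d) : ∑ i, NN' κ M ε i f y =
    GN κ M (f y) (Rf ε f y) (qf ε f y) (XX f y) (YY f y) (Lap (En f) y) := by
  unfold GN XX YY Lap
  simp only [Finset.mul_sum, Finset.sum_mul, ← Finset.sum_sub_distrib,
    ← Finset.sum_add_distrib, ← Finset.sum_neg_distrib]
  refine Finset.sum_congr rfl fun i _ => ?_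
  unfold NN' FN
  ring

end sum

/-- the total divergence -/
def TT (κ : ℝ → ℝ) (M ε : ℝ) (f : E 2 → ℝ) (y : E 2) : ℝ :=
  ∑ i, UU' κ ε 1 i f y + ∑ i, UU' κ ε (-1) i f y + ∑ i, NN' κ M ε i f y

section tot

variable {κ : ℝ → ℝ} {δ M C : ℝ} (k : Ker κ δ M C) {ε : ℝ} (hε : 0 < ε) {f : E 2 → ℝ}
  (eq : ∀ y, Lap f y = -f y)

include k hε eq

lemma TT_eq (y : E 2) : ∃ X, f y * XX f y = |f y| * X ∧ (XX f y = 0 → X = 0) ∧ TT κ M ε f y =
    GU κ (ph (|f y| * (Rf ε f y)⁻¹)) |f y| (Rf ε f y) (qf ε f y) (Q 1 f y) X (YY f y) (-|f y|)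
      (Lap (En f) y) +
    GN κ M |f y| (Rf ε f y) (qf ε f y) X (YY f y) (Lap (En f) y) := by
  unfold TT
  rw [sum_UU' eq (Or.inl rfl), sum_UU' eq (Or.inr rfl), sum_NN']
  have hδ := k.δ0
  rcases le_total 0 (f y) with h | h
  · refine ⟨XX f y, by rw [abs_of_nonneg h], id, ?_⟩
    rw [abs_of_nonneg h, GU_zero k (x := -1 * f y) (by linarith)]
    unfold tf
    simp only [one_mul, add_zero]
  · refine ⟨-XX f y, by rw [abs_of_nonpos h]; ring, fun h => by rw [h, neg_zero], ?_⟩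
    rw [abs_of_nonpos h, GU_zero k (x := 1 * f y) (by linarith)]
    have e : GN κ M (f y) (Rf ε f y) (qf ε f y) (XX f y) (YY f y) (Lap (En f) y) =
        GN κ M (-f y) (Rf ε f y) (qf ε f y) (-XX f y) (YY f y) (Lap (En f) y) := by
      unfold GN; ring
    rw [e]
    unfold tf
    simp only [neg_mul, one_mul, zero_add]

lemma TT_le (hf : ContDiff ℝ ∞ f) (y : E 2) : TT κ M ε f y ≤
    κ |f y| * AT f y + C * (ε / δ) * √(Q 1 f y) - Sk κ |f y| -
      Sk κ |f y| * |f y| * YY f y / (6 * qf ε f y ^ 5) + 2 * ε ^ 2 * Sk κ M / δ ^ 2 := by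
  obtain ⟨X, hX, _, hT⟩ := TT_eq k hε eq y
  have hR := Rf_pos hε f y
  have hq := qf_pos hε f y
  have hg := Q_nn 1 f y
  have e1 := Rf_sq hε f y
  have e2 : qf ε f y ^ 2 = |f y| ^ 2 + Rf ε f y ^ 2 := by rw [sq_abs]; exact qf_sq hε f y
  have hkey : Q 1 f y * Lap (En f) y = YY f y - 2 * |f y| * X := by
    rw [key2 hf eq, mul_assoc 2 |f y| X, ← hX]; ring
  have hL : -(2 * |f y| ^ 2) ≤ Lap (En f) y := by
    rw [Lap_En hf eq, sq_abs]
    have := Q_nn 2 f y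
    linarith
  have h1 := keyN k (abs_nonneg (f y)) hR hq e1 e2 hε hkey hL (YY_nn f y)
  have h2 := kap_up k (abs_nonneg (f y)) hR hε hg e1
  rw [hT]
  unfold AT
  linarith

lemma TT_ge (hE : ∀ z, En f z = En f 0) (y : E 2) :
    κ |f y| * Real.arctan (√(Q 1 f y) / |f y|) * (Q 1 f y / Rf ε f y) - Sk κ |f y| ≤
      TT κ M ε f y := by
  obtain ⟨X, _, hX0, hT⟩ := TT_eq k hε eq y
  have hR := Rf_pos hε f y
  have hq := qf_pos hε f y
  have hg := Q_nn 1 f y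
  have e1 := Rf_sq hε f y
  have e2 : qf ε f y ^ 2 = |f y| ^ 2 + Rf ε f y ^ 2 := by rw [sq_abs]; exact qf_sq hε f y
  have e3 : En f = fun _ => En f 0 := funext hE
  have z : ∀ i, D i (En f) = fun _ => 0 := by
    intro i
    funext y
    rw [e3]; unfold D; simp
  have eX : XX f y = 0 := by
    unfold XX; simp only [z, mul_zero, Finset.sum_const_zero]
  have eY : YY f y = 0 := by
    unfold YY; simp [z]
  have eL : Lap (En f) y = 0 := by
    unfold Lap
    refine Finset.sum_eq_zero fun i _ => ?_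
    rw [z]; unfold D; simp
  have h1 := keyNE k (abs_nonneg (f y)) hR hq e1 e2
  have h2 := kap_low k (abs_nonneg (f y)) hR hε hg e1
  rw [hT, eY, eL, hX0 eX]
  linarith

end tot

section main

variable {S : Type*} [MeasurableSpace S] {P : Measure S} {τ : E 2 → S → S}
variable [IsProbabilityMeasure P] (hτ : ∀ x, MeasurePreserving (τ x) P P)
  {G : S → E 2 → ℝ} (W : Wn 2 P τ G) {κ : ℝ → ℝ} {δ M C : ℝ} (k : Ker κ δ M C)

include hτ W k

lemma TT_int {ε : ℝ} (hε : 0 < ε) : Integrable (fun s => TT κ M ε (G s) 0) P := by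
  have a1 : |(1 : ℝ)| = 1 := by norm_num
  have a2 : |(-1 : ℝ)| = 1 := by norm_num
  have i1 := fun i => int_bd hτ (by norm_num) W le_rfl ((cf_UU' k hε W.sf 1 i).meas 0)
    (b_UU' k hε W.sf.smooth a1 i)
  have i2 := fun i => int_bd hτ (by norm_num) W le_rfl ((cf_UU' k hε W.sf (-1) i).meas 0)
    (b_UU' k hε W.sf.smooth a2 i)
  have i3 := fun i => int_bd hτ (by norm_num) W le_rfl ((cf_NN' k hε W.sf i).meas 0)
    (b_NN' k hε W.sf.smooth i)
  exact ((integrable_finsetSum _ fun i _ => i1 i).add (integrable_finsetSum _ fun i _ => i2 i)).add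
    (integrable_finsetSum _ fun i _ => i3 i)

lemma TT_zero {ε : ℝ} (hε : 0 < ε) : ∫ s, TT κ M ε (G s) 0 ∂P = 0 := by
  have a1 : |(1 : ℝ)| = 1 := by norm_num
  have a2 : |(-1 : ℝ)| = 1 := by norm_num
  have i1 := fun i => int_bd hτ (by norm_num) W le_rfl ((cf_UU' k hε W.sf 1 i).meas 0)
    (b_UU' k hε W.sf.smooth a1 i)
  have i2 := fun i => int_bd hτ (by norm_num) W le_rfl ((cf_UU' k hε W.sf (-1) i).meas 0)
    (b_UU' k hε W.sf.smooth a2 i)
  have i3 := fun i => int_bd hτ (by norm_num) W le_rfl ((cf_NN' k hε W.sf i).meas 0)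
    (b_NN' k hε W.sf.smooth i)
  have j1 := fun i => int_bd hτ (by norm_num) W le_rfl ((cf_UU k hε W.sf 1 i).meas 0)
    (b_UU k hε W.sf.smooth a1 i)
  have j2 := fun i => int_bd hτ (by norm_num) W le_rfl ((cf_UU k hε W.sf (-1) i).meas 0)
    (b_UU k hε W.sf.smooth a2 i)
  have j3 := fun i => int_bd hτ (by norm_num) W le_rfl ((cf_NN k hε W.sf i).meas 0)
    (b_NN k hε W.sf.smooth i)
  have z1 := fun i => div1 hτ (cf_UU k hε W.sf 1 i) (cf_UU' k hε W.sf 1 i) i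
    (fun s t => UU_line k hε (W.sf.smooth s) (Or.inl rfl) i t) (j1 i) (i1 i)
  have z2 := fun i => div1 hτ (cf_UU k hε W.sf (-1) i) (cf_UU' k hε W.sf (-1) i) i
    (fun s t => UU_line k hε (W.sf.smooth s) (Or.inr rfl) i t) (j2 i) (i2 i)
  have z3 := fun i => div1 hτ (cf_NN k hε W.sf i) (cf_NN' k hε W.sf i) i
    (fun s t => NN_line k hε (W.sf.smooth s) i t) (j3 i) (i3 i)
  have I1 : Integrable (fun s => ∑ i, UU' κ ε 1 i (G s) 0) P := integrable_finsetSum _ fun i _ => i1 i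
  have I2 : Integrable (fun s => ∑ i, UU' κ ε (-1) i (G s) 0) P :=
    integrable_finsetSum _ fun i _ => i2 i
  have I3 : Integrable (fun s => ∑ i, NN' κ M ε i (G s) 0) P := integrable_finsetSum _ fun i _ => i3 i
  have I12 : Integrable (fun s => ∑ i, UU' κ ε 1 i (G s) 0 + ∑ i, UU' κ ε (-1) i (G s) 0) P :=
    I1.add I2
  unfold TT
  rw [integral_add I12 I3, integral_add I1 I2, integral_finsetSum _ fun i _ => i1 i,
    integral_finsetSum _ fun i _ => i2 i, integral_finsetSum _ fun i _ => i3 i]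
  simp only [z1, z2, z3, Finset.sum_const_zero, add_zero]

omit k in
lemma sQ_int : Integrable (fun s => √(Q 1 (G s) 0)) P := by
  have h := Bd.add (J_one G) (Bd.mono (J_one G) (by norm_num : 0 ≤ 2) (Bd.const (J_one G) 1))
    (bd_Q1 G)
  have i1 := int_bd hτ (by norm_num) W le_rfl
    (measurable_const.add ((sf_Q 1 W.sf).meas 0)) h
  refine Integrable.mono' i1 ((sf_Q 1 W.sf).meas 0).sqrt.aestronglyMeasurable
    (ae_of_all _ fun s => ?_)
  rw [Real.norm_eq_abs, abs_of_nonneg (Real.sqrt_nonneg _)]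
  show √(Q 1 (G s) 0) ≤ 1 + Q 1 (G s) 0
  have := Q_nn 1 (G s) 0
  refine Real.sqrt_le_iff.2 ⟨by linarith, ?_⟩
  nlinarith

omit k in
lemma AT_meas : Measurable (fun s => AT (G s) 0) := by
  have h1 := ((sf_Q 1 W.sf).meas 0).sqrt
  have h2 : Measurable fun s => |G s 0| := measurable_norm.comp (W.sf.meas 0)
  exact h1.mul (Real.measurable_arctan.comp (h1.div h2))

omit k in
lemma AT_int : Integrable (fun s => AT (G s) 0) P := by
  refine Integrable.mono' ((sQ_int hτ W).const_mul (Real.pi / 2)) (AT_meas hτ W).aestronglyMeasurable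
    (ae_of_all _ fun s => ?_)
  rw [Real.norm_eq_abs, abs_of_nonneg (AT_nn _ _)]
  exact AT_le _ _

lemma kAT_int : Integrable (fun s => κ |G s 0| * AT (G s) 0) P := by
  have h2 : Measurable fun s => |G s 0| := measurable_norm.comp (W.sf.meas 0)
  refine Integrable.mono' ((AT_int hτ W).const_mul C)
    ((k.cont.measurable.comp h2).mul (AT_meas hτ W)).aestronglyMeasurable
    (ae_of_all _ fun s => ?_)
  rw [Real.norm_eq_abs, abs_of_nonneg (mul_nonneg (k.nn _) (AT_nn _ _))]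
  exact mul_le_mul_of_nonneg_right (k.le _) (AT_nn _ _)

lemma Sk_int : Integrable (fun s => Sk κ |G s 0|) P := by
  have h2 : Measurable fun s => |G s 0| := measurable_norm.comp (W.sf.meas 0)
  refine Integrable.mono' (integrable_const (Sk κ M))
    ((Sk_cont k).measurable.comp h2).aestronglyMeasurable (ae_of_all _ fun s => ?_)
  rw [Real.norm_eq_abs, abs_of_nonneg (Sk_nn k _)]
  exact Sk_le k _

lemma remS_meas {ε : ℝ} (hε : 0 < ε) :
    Measurable (fun s => Sk κ |G s 0| * |G s 0| * YY (G s) 0 / (6 * qf ε (G s) 0 ^ 5)) := by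
  have h2 : Measurable fun s => |G s 0| := measurable_norm.comp (W.sf.meas 0)
  exact ((((Sk_cont k).measurable.comp h2).mul h2).mul ((sf_YY W.sf).meas 0)).div
    (measurable_const.mul (((sf_qf hε W.sf).meas 0).pow_const 5))

lemma remS_int {ε : ℝ} (hε : 0 < ε) :
    Integrable (fun s => Sk κ |G s 0| * |G s 0| * YY (G s) 0 / (6 * qf ε (G s) 0 ^ 5)) P := by
  have hL := J_one G
  have SM := Sk_nn k M
  refine int_bd hτ (by norm_num) W (le_refl 2) (remS_meas hτ W k hε) ?_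
  refine ⟨Sk κ M * (2 * cd 2 ^ 2) / ε ^ 2, by positivity, fun s => ?_⟩
  have hR := Rf_pos hε (G s) 0
  have hq := qf_pos hε (G s) 0
  have hqe := qf_ge hε (G s) 0
  have hRq := Rf_le hε (G s) 0
  have hj : 0 < J G s := by linarith [hL s]
  have S0 := Sk_nn k |G s 0|
  have SL := Sk_le k |G s 0|
  have hY : YY (G s) 0 ≤ 2 * (cd 2 * qf ε (G s) 0 * J G s) ^ 2 := by
    unfold YY
    have : ∀ i ∈ Finset.univ, D i (En (G s)) 0 ^ 2 ≤ (cd 2 * qf ε (G s) 0 * J G s) ^ 2 := by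
      intro i _
      rw [← sq_abs (D i (En (G s)) 0)]
      refine pow_le_pow_left₀ (abs_nonneg _) ((p_bd hε W.sf.smooth i s).trans ?_) 2
      refine mul_le_mul_of_nonneg_right ?_ hj.le
      exact mul_le_mul_of_nonneg_left hRq (cd_nn 2)
    refine (Finset.sum_le_card_nsmul _ _ _ this).trans (le_of_eq ?_)
    simp
  have hY0 := YY_nn (G s) 0
  have hfq := abs_le_qf hε (G s) 0
  have h0 : 0 ≤ Sk κ |G s 0| * |G s 0| * YY (G s) 0 / (6 * qf ε (G s) 0 ^ 5) := by positivity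
  rw [abs_of_nonneg h0, div_le_iff₀ (by positivity)]
  have h1 : Sk κ |G s 0| * |G s 0| * YY (G s) 0 ≤
      Sk κ M * qf ε (G s) 0 * (2 * (cd 2 * qf ε (G s) 0 * J G s) ^ 2) :=
    mul_le_mul (mul_le_mul SL hfq (abs_nonneg _) SM) hY hY0 (by positivity)
  refine h1.trans ?_
  have h2 : Sk κ M * (2 * cd 2 ^ 2) / ε ^ 2 * J G s ^ 2 * (6 * qf ε (G s) 0 ^ 5) =
      6 * (qf ε (G s) 0 / ε) ^ 2 *
        (Sk κ M * qf ε (G s) 0 * (2 * (cd 2 * qf ε (G s) 0 * J G s) ^ 2)) := by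
    field_simp
  rw [h2]
  have h3 : 1 ≤ qf ε (G s) 0 / ε := (one_le_div hε).2 (qf_ge hε _ _)
  have h3' : 1 ≤ (qf ε (G s) 0 / ε) ^ 2 := one_le_pow₀ h3
  have h4 : 0 ≤ Sk κ M * qf ε (G s) 0 * (2 * (cd 2 * qf ε (G s) 0 * J G s) ^ 2) := by positivity
  nlinarith

/-- the regularised inequality -/
theorem regS {ε : ℝ} (hε : 0 < ε) :
    ∫ s, Sk κ |G s 0| * |G s 0| * YY (G s) 0 / (6 * qf ε (G s) 0 ^ 5) ∂P +
      ∫ s, Sk κ |G s 0| ∂P ≤ ∫ s, κ |G s 0| * AT (G s) 0 ∂P +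
        C * (ε / δ) * ∫ s, √(Q 1 (G s) 0) ∂P + 2 * ε ^ 2 * Sk κ M / δ ^ 2 := by
  have i1 := TT_int hτ W k hε
  have i2 := kAT_int hτ W k
  have i3 := (sQ_int hτ W).const_mul (C * (ε / δ))
  have i4 := Sk_int hτ W k
  have i5 := remS_int hτ W k hε
  have j1 : Integrable (fun s => κ |G s 0| * AT (G s) 0 + C * (ε / δ) * √(Q 1 (G s) 0)) P :=
    i2.add i3
  have j2 : Integrable (fun s => κ |G s 0| * AT (G s) 0 + C * (ε / δ) * √(Q 1 (G s) 0) -
    Sk κ |G s 0|) P := j1.sub i4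
  have j3 : Integrable (fun s => κ |G s 0| * AT (G s) 0 + C * (ε / δ) * √(Q 1 (G s) 0) -
    Sk κ |G s 0| - Sk κ |G s 0| * |G s 0| * YY (G s) 0 / (6 * qf ε (G s) 0 ^ 5)) P := j2.sub i5
  have h := integral_mono (μ := P) i1 (j3.add (integrable_const (2 * ε ^ 2 * Sk κ M / δ ^ 2)))
    (fun s => TT_le k hε (W.eq s) (W.sf.smooth s) 0)
  rw [TT_zero hτ W k hε] at h
  have e : ∫ s, (κ |G s 0| * AT (G s) 0 + C * (ε / δ) * √(Q 1 (G s) 0) -
      Sk κ |G s 0| - Sk κ |G s 0| * |G s 0| * YY (G s) 0 / (6 * qf ε (G s) 0 ^ 5) +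
      2 * ε ^ 2 * Sk κ M / δ ^ 2) ∂P =
      ∫ s, κ |G s 0| * AT (G s) 0 ∂P + C * (ε / δ) * ∫ s, √(Q 1 (G s) 0) ∂P -
      ∫ s, Sk κ |G s 0| ∂P -
      ∫ s, Sk κ |G s 0| * |G s 0| * YY (G s) 0 / (6 * qf ε (G s) 0 ^ 5) ∂P +
      2 * ε ^ 2 * Sk κ M / δ ^ 2 := by
    rw [integral_add j3 (integrable_const _), integral_sub j2 i5, integral_sub j1 i4,
      integral_add i2 i3, integral_const_mul]
    simp
  have h' : 0 ≤ ∫ s, (κ |G s 0| * AT (G s) 0 + C * (ε / δ) * √(Q 1 (G s) 0) -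
      Sk κ |G s 0| - Sk κ |G s 0| * |G s 0| * YY (G s) 0 / (6 * qf ε (G s) 0 ^ 5) +
      2 * ε ^ 2 * Sk κ M / δ ^ 2) ∂P := h
  rw [e] at h'
  linarith

/-- **the inequality for level sets** -/
theorem levS : Integrable
      (fun s => Sk κ |G s 0| * |G s 0| * YY (G s) 0 / (6 * √(En (G s) 0) ^ 5)) P ∧
    ∫ s, Sk κ |G s 0| * |G s 0| * YY (G s) 0 / (6 * √(En (G s) 0) ^ 5) ∂P +
      ∫ s, Sk κ |G s 0| ∂P ≤ ∫ s, κ |G s 0| * AT (G s) 0 ∂P := by
  obtain ⟨e, he⟩ : ∃ e : ℕ → ℝ, e = fun n : ℕ => 1 / ((n : ℝ) + 1) := ⟨_, rfl⟩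
  have e0 : ∀ n, 0 < e n := fun n => by rw [he]; positivity
  have el : Tendsto e atTop (𝓝 0) := by rw [he]; exact tendsto_one_div_add_atTop_nhds_zero_nat
  obtain ⟨A, hA⟩ : ∃ A, A = ∫ s, κ |G s 0| * AT (G s) 0 ∂P - ∫ s, Sk κ |G s 0| ∂P := ⟨_, rfl⟩
  obtain ⟨B, hB⟩ : ∃ B, B = ∫ s, √(Q 1 (G s) 0) ∂P := ⟨_, rfl⟩
  have lb : Tendsto (fun n => A + C * (e n / δ) * B + 2 * e n ^ 2 * Sk κ M / δ ^ 2) atTop
      (𝓝 (A + C * (0 / δ) * B + 2 * 0 ^ 2 * Sk κ M / δ ^ 2)) :=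
    (tendsto_const_nhds.add (((el.div_const δ).const_mul C).mul_const B)).add
      ((((el.pow 2).const_mul 2).mul_const (Sk κ M)).div_const (δ ^ 2))
  have h := fatou (P := P)
    (F := fun n s => Sk κ |G s 0| * |G s 0| * YY (G s) 0 / (6 * qf (e n) (G s) 0 ^ 5))
    (F0 := fun s => Sk κ |G s 0| * |G s 0| * YY (G s) 0 / (6 * √(En (G s) 0) ^ 5))
    (b := fun n => A + C * (e n / δ) * B + 2 * e n ^ 2 * Sk κ M / δ ^ 2)
    (b0 := A + C * (0 / δ) * B + 2 * 0 ^ 2 * Sk κ M / δ ^ 2)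
    (fun n s => by
      have h1 := qf_pos (e0 n) (G s) 0
      have h2 := Sk_nn k |G s 0|
      have h3 := YY_nn (G s) 0
      positivity)
    (fun n => remS_meas hτ W k (e0 n)) (fun n => remS_int hτ W k (e0 n)) (fun n => ?_)
    (fun s => ?_) lb
  · refine ⟨h.1, ?_⟩
    have := h.2
    rw [hA] at this
    simp only [zero_div, mul_zero, zero_mul, add_zero, ne_eq, OfNat.ofNat_ne_zero,
      not_false_eq_true, zero_pow] at this
    linarith
  · have h1 := regS hτ W k (e0 n)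
    rw [← hB] at h1
    show ∫ s, Sk κ |G s 0| * |G s 0| * YY (G s) 0 / (6 * qf (e n) (G s) 0 ^ 5) ∂P ≤
      A + C * (e n / δ) * B + 2 * e n ^ 2 * Sk κ M / δ ^ 2
    rw [hA]
    linarith
  · rcases (En_nn (G s) 0).eq_or_lt with hz | hp
    · have hG : G s 0 = 0 := by
        have h1 : G s 0 ^ 2 + Q 1 (G s) 0 = 0 := hz.symm
        have h2 := Q_nn 1 (G s) 0
        have h3 : G s 0 ^ 2 = 0 := le_antisymm (by linarith) (sq_nonneg _)
        exact pow_eq_zero_iff (two_ne_zero) |>.1 h3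
      simp [hG]
    · have h1 := qf_lim (G s) 0 el
      have h2 : 6 * √(En (G s) 0) ^ 5 ≠ 0 := by positivity
      exact tendsto_const_nhds.div ((h1.pow 5).const_mul 6) h2

omit hτ W k [IsProbabilityMeasure P] [MeasurableSpace S] in
lemma gR_lim (f : E 2 → ℝ) {e : ℕ → ℝ} (e0 : ∀ n, 0 < e n) (he : Tendsto e atTop (𝓝 0)) :
    Tendsto (fun n => Q 1 f 0 / Rf (e n) f 0) atTop (𝓝 (√(Q 1 f 0))) := by
  rcases (Q_nn 1 f 0).eq_or_lt with hz | hp
  · rw [← hz]; simp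
  · have h1 : Tendsto (fun n => Q 1 f 0 + e n ^ 2) atTop (𝓝 (Q 1 f 0 + 0 ^ 2)) :=
      tendsto_const_nhds.add (he.pow 2)
    have h2 : Q 1 f 0 + 0 ^ 2 = Q 1 f 0 := by ring
    rw [h2] at h1
    have h3 : Tendsto (fun n => Rf (e n) f 0) atTop (𝓝 (√(Q 1 f 0))) :=
      (Real.continuous_sqrt.tendsto _).comp h1
    have h4 : √(Q 1 f 0) = Q 1 f 0 / √(Q 1 f 0) := (Real.div_sqrt).symm
    rw [h4]
    exact tendsto_const_nhds.div h3 (Real.sqrt_pos.2 hp).ne'

/-- the converse for waves with constant energy density -/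
theorem levE (h0 : ∀ᵐ s ∂P, ∀ y, En (G s) y = En (G s) 0) :
    ∫ s, κ |G s 0| * AT (G s) 0 ∂P ≤ ∫ s, Sk κ |G s 0| ∂P := by
  obtain ⟨e, he⟩ : ∃ e : ℕ → ℝ, e = fun n : ℕ => 1 / ((n : ℝ) + 1) := ⟨_, rfl⟩
  have e0 : ∀ n, 0 < e n := fun n => by rw [he]; positivity
  have el : Tendsto e atTop (𝓝 0) := by rw [he]; exact tendsto_one_div_add_atTop_nhds_zero_nat
  have h2 : Measurable fun s => |G s 0| := measurable_norm.comp (W.sf.meas 0)
  have h3 := ((sf_Q 1 W.sf).meas 0).sqrt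
  have nn : ∀ n s, 0 ≤ κ |G s 0| * Real.arctan (√(Q 1 (G s) 0) / |G s 0|) *
      (Q 1 (G s) 0 / Rf (e n) (G s) 0) := by
    intro n s
    have a1 := k.nn |G s 0|
    have a2 : 0 ≤ Real.arctan (√(Q 1 (G s) 0) / |G s 0|) :=
      Real.arctan_nonneg.2 (by positivity)
    have a3 := Q_nn 1 (G s) 0
    have a4 := Rf_pos (e0 n) (G s) 0
    positivity
  have mm : ∀ n, Measurable fun s => κ |G s 0| * Real.arctan (√(Q 1 (G s) 0) / |G s 0|) *
      (Q 1 (G s) 0 / Rf (e n) (G s) 0) := fun n =>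
    ((k.cont.measurable.comp h2).mul (Real.measurable_arctan.comp (h3.div h2))).mul
      (((sf_Q 1 W.sf).meas 0).div ((sf_Rf (e0 n) W.sf).meas 0))
  have ii : ∀ n, Integrable (fun s => κ |G s 0| * Real.arctan (√(Q 1 (G s) 0) / |G s 0|) *
      (Q 1 (G s) 0 / Rf (e n) (G s) 0)) P := by
    intro n
    refine Integrable.mono' (kAT_int hτ W k) (mm n).aestronglyMeasurable (ae_of_all _ fun s => ?_)
    rw [Real.norm_eq_abs, abs_of_nonneg (nn n s)]
    unfold AT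
    have a1 := k.nn |G s 0|
    have a2 : 0 ≤ Real.arctan (√(Q 1 (G s) 0) / |G s 0|) :=
      Real.arctan_nonneg.2 (by positivity)
    have hR := Rf_pos (e0 n) (G s) 0
    have h5 : Q 1 (G s) 0 / Rf (e n) (G s) 0 ≤ √(Q 1 (G s) 0) := by
      rw [div_le_iff₀ hR]
      have h6 := sg_R k (abs_nonneg (G s 0)) hR (e0 n) (Q_nn 1 (G s) 0) (Rf_sq (e0 n) _ _)
      have h7 := Real.sq_sqrt (Q_nn 1 (G s) 0)
      have h8 := Real.sqrt_nonneg (Q 1 (G s) 0)
      nlinarith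
    have h6 := mul_le_mul_of_nonneg_left h5 (mul_nonneg a1 a2)
    linarith
  have h := fatou (P := P)
    (F := fun n s => κ |G s 0| * Real.arctan (√(Q 1 (G s) 0) / |G s 0|) *
      (Q 1 (G s) 0 / Rf (e n) (G s) 0))
    (F0 := fun s => κ |G s 0| * Real.arctan (√(Q 1 (G s) 0) / |G s 0|) * √(Q 1 (G s) 0))
    (b := fun _ => ∫ s, Sk κ |G s 0| ∂P) (b0 := ∫ s, Sk κ |G s 0| ∂P) nn mm ii (fun n => ?_)
    (fun s => (gR_lim (G s) e0 el).const_mul _) tendsto_const_nhds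
  · refine le_trans (le_of_eq ?_) h.2
    refine integral_congr_ae (ae_of_all _ fun s => ?_)
    show κ |G s 0| * AT (G s) 0 = _
    unfold AT
    ring
  · have i1 := TT_int hτ W k (e0 n)
    have i4 := Sk_int hτ W k
    have h := integral_mono_ae (μ := P) ((ii n).sub i4) i1 (by
      filter_upwards [h0] with s hs
      exact TT_ge k (e0 n) (W.eq s) hs 0)
    rw [TT_zero hτ W k (e0 n)] at h
    have e9 : ∫ s, (κ |G s 0| * Real.arctan (√(Q 1 (G s) 0) / |G s 0|) *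
      (Q 1 (G s) 0 / Rf (e n) (G s) 0) - Sk κ |G s 0|) ∂P =
      ∫ s, κ |G s 0| * Real.arctan (√(Q 1 (G s) 0) / |G s 0|) *
      (Q 1 (G s) 0 / Rf (e n) (G s) 0) ∂P - ∫ s, Sk κ |G s 0| ∂P := integral_sub (ii n) i4
    have h' : ∫ s, (κ |G s 0| * Real.arctan (√(Q 1 (G s) 0) / |G s 0|) *
      (Q 1 (G s) 0 / Rf (e n) (G s) 0) - Sk κ |G s 0|) ∂P ≤ 0 := h
    rw [e9] at h'
    show ∫ s, κ |G s 0| * Real.arctan (√(Q 1 (G s) 0) / |G s 0|) *
      (Q 1 (G s) 0 / Rf (e n) (G s) 0) ∂P ≤ _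
    linarith

end main

end

end Pool.Agent.W2helper36.EM
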