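import Pool.Agent.W2helper36.EM.R

/-!
Project EM (helper36): level sets in the plane, box kernels and the nodal set.
-/

set_option autoImplicit false
set_option linter.unusedSectionVars false
open MeasureTheory Filter Topology
open scoped ContDiff ENNReal

namespace Pool.Agent.W2helper36.EM

open Pool.Agent.Y139.SW Pool.Agent.W2helper17.FM

noncomputable section

/-- the length of `(0, x) ∩ (a, b)` for `0 ≤ a < b`, `0 ≤ x` -/
def mb (a b x : ℝ) : ℝ := min (max (x - a) 0) (b - a)

/-- box kernels -/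
def kb (a b N x : ℝ) : ℝ := max 0 (min 1 (min (N * (x - a) - 1) (N * (b - x) - 1)))

lemma mb_nn {a b : ℝ} (h : a ≤ b) (x : ℝ) : 0 ≤ mb a b x :=
  le_min (le_max_right _ _) (by linarith)

lemma mb_cont (a b : ℝ) : Continuous (mb a b) := by unfold mb; fun_prop

lemma kb_cont (a b N : ℝ) : Continuous (kb a b N) := by unfold kb; fun_prop

lemma kb_nn (a b N x : ℝ) : 0 ≤ kb a b N x := le_max_left _ _

lemma kb_le (a b N x : ℝ) : kb a b N x ≤ 1 := max_le zero_le_one (min_le_left _ _)

section

variable {a b N : ℝ} (ha : 0 ≤ a) (hab : a < b) (hN : 1 ≤ N)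

include ha hab hN

lemma kb_lo {x : ℝ} (hx : x ≤ a + 1 / N) : kb a b N x = 0 := by
  have N0 : 0 < N := by linarith
  have h : N * (x - a) - 1 ≤ 0 := by
    have : x - a ≤ 1 / N := by linarith
    have := mul_le_mul_of_nonneg_left this N0.le
    rw [mul_one_div_cancel N0.ne'] at this
    linarith
  exact max_eq_left ((min_le_right _ _).trans ((min_le_left _ _).trans h))

lemma kb_hi {x : ℝ} (hx : b ≤ x) : kb a b N x = 0 := by
  have N0 : 0 < N := by linarith
  have h : N * (b - x) - 1 ≤ 0 := by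
    have := mul_nonneg N0.le (by linarith : 0 ≤ x - b)
    nlinarith
  exact max_eq_left ((min_le_right _ _).trans ((min_le_right _ _).trans h))

lemma kb_one {x : ℝ} (h1 : a + 2 / N ≤ x) (h2 : x ≤ b - 2 / N) : kb a b N x = 1 := by
  have N0 : 0 < N := by linarith
  have e : N * (2 / N) = 2 := by field_simp
  have g1 : 1 ≤ N * (x - a) - 1 := by
    have := mul_le_mul_of_nonneg_left (by linarith : 2 / N ≤ x - a) N0.le
    linarith
  have g2 : 1 ≤ N * (b - x) - 1 := by
    have := mul_le_mul_of_nonneg_left (by linarith : 2 / N ≤ b - x) N0.le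
    linarith
  unfold kb
  rw [min_eq_left (le_min g1 g2), max_eq_right zero_le_one]

lemma kb_ker : Ker (kb a b N) (a + 1 / N) (b + 1) 1 := by
  have N0 : 0 < N := by linarith
  have h1 : 1 / N ≤ 1 := (div_le_one N0).2 hN
  have h2 : 0 < 1 / N := by positivity
  exact ⟨kb_cont a b N, kb_nn a b N, kb_le a b N, by linarith, by linarith,
    fun x hx => kb_lo ha hab hN hx, fun x hx => kb_hi ha hab hN (by linarith)⟩

lemma kb_ind (x : ℝ) : kb a b N x ≤ (Set.Ioo a b).indicator (fun _ => 1) x := by
  have N0 : 0 < N := by linarith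
  by_cases hx : x ∈ Set.Ioo a b
  · rw [Set.indicator_of_mem hx]; exact kb_le _ _ _ _
  · rw [Set.indicator_of_notMem hx]
    rcases le_or_gt x a with h | h
    · have h2 : 0 < 1 / N := by positivity
      rw [kb_lo ha hab hN (by linarith)]
    · have : b ≤ x := by
        by_contra hc
        exact hx ⟨h, not_le.1 hc⟩
      rw [kb_hi ha hab hN this]

lemma Sk_up (x : ℝ) : Sk (kb a b N) x ≤ mb a b x := by
  have k := kb_ker ha hab hN
  have N0 : 0 < N := by linarith
  have h2 : 0 < 1 / N := by positivity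
  have cc := kb_cont a b N
  have key : ∀ {u v : ℝ}, u ≤ v → Sk (kb a b N) v - Sk (kb a b N) u ≤ v - u := by
    intro u v huv
    have e : Sk (kb a b N) v - Sk (kb a b N) u = ∫ t in u..v, kb a b N t :=
      intervalIntegral.integral_interval_sub_left (cc.intervalIntegrable 0 v)
        (cc.intervalIntegrable 0 u)
    rw [e]
    have h3 := intervalIntegral.integral_mono_on (μ := volume) (f := kb a b N) (g := fun _ => (1 : ℝ))
      huv (cc.intervalIntegrable _ _) (continuous_const.intervalIntegrable _ _)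
      (fun t _ => kb_le a b N t)
    simpa using h3
  have Sa : Sk (kb a b N) a = 0 := Sk_lo k (by linarith)
  refine le_min ?_ ?_
  · rcases le_total x a with h | h
    · rw [Sk_lo k (by linarith)]; exact le_max_right _ _
    · have := key h
      rw [Sa] at this
      refine le_trans ?_ (le_max_left _ _)
      linarith
  · have h3 := key hab.le
    rw [Sa] at h3
    have h4 : Sk (kb a b N) (b + 1) - Sk (kb a b N) b ≤ 0 := by
      have e : Sk (kb a b N) (b + 1) - Sk (kb a b N) b = ∫ t in b..(b + 1), kb a b N t :=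
        intervalIntegral.integral_interval_sub_left (cc.intervalIntegrable 0 _)
          (cc.intervalIntegrable 0 _)
      rw [e, intervalIntegral.integral_congr (g := fun _ => (0 : ℝ))]
      · simp
      · intro t ht
        rw [Set.uIcc_of_le (by linarith)] at ht
        exact kb_hi ha hab hN ht.1
    have h5 := Sk_le k x
    linarith

lemma Sk_low (x : ℝ) : mb a b x - 4 / N ≤ Sk (kb a b N) x := by
  have k := kb_ker ha hab hN
  have N0 : 0 < N := by linarith
  have h2 : 0 < 1 / N := by positivity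
  have e2 : 2 / N = 2 * (1 / N) := by ring
  have e4 : 4 / N = 4 * (1 / N) := by ring
  have cc := kb_cont a b N
  have S0 := Sk_nn k x
  rcases le_total x (a + 2 / N) with h | h
  · have h3 : mb a b x ≤ max (x - a) 0 := min_le_left _ _
    have h4 : max (x - a) 0 ≤ 2 / N := max_le (by linarith) (by positivity)
    linarith
  rcases le_total (b - 2 / N) (a + 2 / N) with h5 | h5
  · have h3 : mb a b x ≤ b - a := min_le_right _ _
    linarith
  have h6 : a + 2 / N ≤ min x (b - 2 / N) := le_min h h5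
  have h7 := Sk_mono k (min_le_left x (b - 2 / N))
  have h8 : Sk (kb a b N) (min x (b - 2 / N)) - Sk (kb a b N) (a + 2 / N) =
      min x (b - 2 / N) - (a + 2 / N) := by
    have e : Sk (kb a b N) (min x (b - 2 / N)) - Sk (kb a b N) (a + 2 / N) =
        ∫ t in (a + 2 / N)..(min x (b - 2 / N)), kb a b N t :=
      intervalIntegral.integral_interval_sub_left (cc.intervalIntegrable 0 _)
        (cc.intervalIntegrable 0 _)
    rw [e, intervalIntegral.integral_congr (g := fun _ => (1 : ℝ))]
    · simp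
    · intro t ht
      rw [Set.uIcc_of_le h6] at ht
      exact kb_one ha hab hN ht.1 (ht.2.trans (min_le_right _ _))
  have h9 := Sk_nn k (a + 2 / N)
  have h10 : mb a b x - 4 / N ≤ min x (b - 2 / N) - (a + 2 / N) := by
    have h11 : mb a b x ≤ max (x - a) 0 := min_le_left _ _
    have h12 : max (x - a) 0 = x - a := max_eq_left (by linarith)
    have h13 : mb a b x ≤ b - a := min_le_right _ _
    rcases le_total x (b - 2 / N) with h14 | h14
    · rw [min_eq_left h14]; linarith
    · rw [min_eq_right h14]; linarith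
  linarith

end

section main

variable {S : Type*} [MeasurableSpace S] {P : Measure S} {τ : E 2 → S → S}
variable [IsProbabilityMeasure P] (hτ : ∀ x, MeasurePreserving (τ x) P P)
  {G : S → E 2 → ℝ} (W : Wn 2 P τ G)

include hτ W

/-- the excess -/
def rx {d : ℕ} (f : E d → ℝ) : ℝ := |f 0| * YY f 0 / (6 * √(En f 0) ^ 5)

omit hτ W [IsProbabilityMeasure P] [MeasurableSpace S] in
lemma rx_nn {d : ℕ} (f : E d → ℝ) : 0 ≤ rx f := by
  unfold rx
  have := YY_nn f 0
  positivity

lemma rx_meas : Measurable (fun s => rx (G s)) := by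
  have h2 : Measurable fun s => |G s 0| := measurable_norm.comp (W.sf.meas 0)
  exact (h2.mul ((sf_YY W.sf).meas 0)).div
    (measurable_const.mul (((sf_En W.sf).meas 0).sqrt.pow_const 5))

lemma abs_me : Measurable fun s => |G s 0| := measurable_norm.comp (W.sf.meas 0)

omit hτ W in
lemma en_lim {e : ℕ → ℝ} (he : e = fun n : ℕ => 1 / ((n : ℝ) + 1)) :
    (∀ n, 0 < e n) ∧ Tendsto e atTop (𝓝 0) := by
  refine ⟨fun n => by rw [he]; positivity, ?_⟩
  rw [he]; exact tendsto_one_div_add_atTop_nhds_zero_nat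

/-- **the inequality for level sets between two levels** -/
theorem box {a b : ℝ} (ha : 0 ≤ a) (hab : a < b) :
    Integrable (fun s => mb a b |G s 0| * (1 + rx (G s))) P ∧
    ∫ s, mb a b |G s 0| * (1 + rx (G s)) ∂P ≤
      ∫ s, (Set.Ioo a b).indicator (fun _ => 1) |G s 0| * AT (G s) 0 ∂P := by
  obtain ⟨c, hc⟩ : ∃ c : ℕ → ℝ, c = fun n : ℕ => 4 / ((n : ℝ) + 1) := ⟨_, rfl⟩
  have cl : Tendsto c atTop (𝓝 0) := by
    have := (tendsto_one_div_add_atTop_nhds_zero_nat (𝕜 := ℝ)).const_mul 4
    rw [mul_zero] at this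
    refine this.congr fun n => ?_
    rw [hc]; ring
  have am := abs_me hτ W
  have rm := rx_meas hτ W
  have mi : Measurable fun s => (Set.Ioo a b).indicator (fun _ => (1 : ℝ)) |G s 0| *
      AT (G s) 0 :=
    ((measurable_const.indicator measurableSet_Ioo).comp am).mul (AT_meas hτ W)
  have iI : Integrable (fun s => (Set.Ioo a b).indicator (fun _ => (1 : ℝ)) |G s 0| *
      AT (G s) 0) P := by
    refine Integrable.mono' (AT_int hτ W) mi.aestronglyMeasurable (ae_of_all _ fun s => ?_)
    have h0 := AT_nn (G s) 0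
    by_cases hx : |G s 0| ∈ Set.Ioo a b
    · rw [Set.indicator_of_mem hx, one_mul, Real.norm_eq_abs, abs_of_nonneg h0]
    · rw [Set.indicator_of_notMem hx, zero_mul, norm_zero]; exact h0
  have nn : ∀ (n : ℕ) (s : S), 0 ≤ max (mb a b |G s 0| - c n) 0 * (1 + rx (G s)) := fun n s =>
    mul_nonneg (le_max_right _ _) (by linarith [rx_nn (G s)])
  have mm : ∀ n : ℕ, Measurable fun s => max (mb a b |G s 0| - c n) 0 * (1 + rx (G s)) := fun n =>
    ((((mb_cont a b).measurable.comp am).sub_const _).max measurable_const).mul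
      (measurable_const.add rm)
  have kk : ∀ n : ℕ, Ker (kb a b ((n : ℝ) + 1)) (a + 1 / ((n : ℝ) + 1)) (b + 1) 1 := fun n =>
    kb_ker ha hab (by linarith [Nat.cast_nonneg (α := ℝ) n])
  have iS : ∀ n : ℕ, Integrable (fun s => Sk (kb a b ((n : ℝ) + 1)) |G s 0| * (1 + rx (G s))) P := by
    intro n
    have i1 := Sk_int hτ W (kk n)
    have i2 := (levS hτ W (kk n)).1
    refine (i1.add i2).congr (ae_of_all _ fun s => ?_)
    show Sk (kb a b ((n : ℝ) + 1)) |G s 0| + Sk (kb a b ((n : ℝ) + 1)) |G s 0| * |G s 0| *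
      YY (G s) 0 / (6 * √(En (G s) 0) ^ 5) = _
    unfold rx
    ring
  have hle : ∀ (n : ℕ) (s : S), max (mb a b |G s 0| - c n) 0 * (1 + rx (G s)) ≤
      Sk (kb a b ((n : ℝ) + 1)) |G s 0| * (1 + rx (G s)) := by
    intro n s
    refine mul_le_mul_of_nonneg_right (max_le ?_ (Sk_nn (kk n) _)) (by linarith [rx_nn (G s)])
    have := Sk_low ha hab (N := (n : ℝ) + 1) (by linarith [Nat.cast_nonneg (α := ℝ) n]) |G s 0|
    rw [hc]; exact this
  have ii : ∀ n : ℕ, Integrable (fun s => max (mb a b |G s 0| - c n) 0 * (1 + rx (G s))) P := by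
    intro n
    refine Integrable.mono' (iS n) (mm n).aestronglyMeasurable (ae_of_all _ fun s => ?_)
    rw [Real.norm_eq_abs, abs_of_nonneg (nn n s)]
    exact hle n s
  have h := fatou (P := P) (F := fun n s => max (mb a b |G s 0| - c n) 0 * (1 + rx (G s)))
    (F0 := fun s => mb a b |G s 0| * (1 + rx (G s)))
    (b := fun _ => ∫ s, (Set.Ioo a b).indicator (fun _ => 1) |G s 0| * AT (G s) 0 ∂P)
    (b0 := ∫ s, (Set.Ioo a b).indicator (fun _ => 1) |G s 0| * AT (G s) 0 ∂P)
    nn mm ii (fun n => ?_) (fun s => ?_) tendsto_const_nhds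
  · exact h
  · have i1 := Sk_int hτ W (kk n)
    obtain ⟨i2, h2⟩ := levS hτ W (kk n)
    have h3 := integral_mono (ii n) (iS n) (hle n)
    have h4 : ∫ s, Sk (kb a b ((n : ℝ) + 1)) |G s 0| * (1 + rx (G s)) ∂P =
        ∫ s, Sk (kb a b ((n : ℝ) + 1)) |G s 0| * |G s 0| * YY (G s) 0 /
          (6 * √(En (G s) 0) ^ 5) ∂P + ∫ s, Sk (kb a b ((n : ℝ) + 1)) |G s 0| ∂P := by
      rw [← integral_add i2 i1]
      refine integral_congr_ae (ae_of_all _ fun s => ?_)
      show Sk (kb a b ((n : ℝ) + 1)) |G s 0| * (1 + rx (G s)) = _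
      unfold rx
      ring
    have h5 := integral_mono (kAT_int hτ W (kk n)) iI (fun s =>
      mul_le_mul_of_nonneg_right (kb_ind ha hab (N := (n : ℝ) + 1)
        (by linarith [Nat.cast_nonneg (α := ℝ) n]) |G s 0|) (AT_nn (G s) 0))
    exact h3.trans ((le_of_eq h4).trans (h2.trans h5))
  · have h1 : Tendsto (fun n => max (mb a b |G s 0| - c n) 0) atTop
        (𝓝 (max (mb a b |G s 0| - 0) 0)) :=
      (tendsto_const_nhds.sub cl).max tendsto_const_nhds
    rw [sub_zero, max_eq_left (mb_nn hab.le _)] at h1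
    exact h1.mul_const _

/-- the converse for waves with constant energy density -/
theorem boxE (h0 : ∀ᵐ s ∂P, ∀ y, En (G s) y = En (G s) 0) {a b : ℝ} (ha : 0 ≤ a) (hab : a < b) :
    ∫ s, (Set.Ioo a b).indicator (fun _ => 1) |G s 0| * AT (G s) 0 ∂P ≤
      ∫ s, mb a b |G s 0| ∂P := by
  have am := abs_me hτ W
  have kk : ∀ n : ℕ, Ker (kb a b ((n : ℝ) + 1)) (a + 1 / ((n : ℝ) + 1)) (b + 1) 1 := fun n =>
    kb_ker ha hab (by linarith [Nat.cast_nonneg (α := ℝ) n])
  have im : Integrable (fun s => mb a b |G s 0|) P := by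
    refine Integrable.mono' (integrable_const (b - a))
      ((mb_cont a b).measurable.comp am).aestronglyMeasurable (ae_of_all _ fun s => ?_)
    rw [Real.norm_eq_abs, abs_of_nonneg (mb_nn hab.le _)]
    exact min_le_right _ _
  have h := fatou (P := P) (F := fun (n : ℕ) s => kb a b ((n : ℝ) + 1) |G s 0| * AT (G s) 0)
    (F0 := fun s => (Set.Ioo a b).indicator (fun _ => 1) |G s 0| * AT (G s) 0)
    (b := fun _ => ∫ s, mb a b |G s 0| ∂P) (b0 := ∫ s, mb a b |G s 0| ∂P)
    (fun n s => mul_nonneg (kb_nn _ _ _ _) (AT_nn _ _))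
    (fun n => (((kb_cont a b _).measurable.comp am).mul (AT_meas hτ W)))
    (fun n => kAT_int hτ W (kk n)) (fun n => ?_) (fun s => ?_) tendsto_const_nhds
  · exact h.2
  · have h1 := levE hτ W (kk n) h0
    have h2 := integral_mono (Sk_int hτ W (kk n)) im (fun s => Sk_up ha hab (N := (n : ℝ) + 1)
      (by linarith [Nat.cast_nonneg (α := ℝ) n]) |G s 0|)
    exact h1.trans h2
  · refine Tendsto.mul_const _ ?_
    obtain ⟨x, hx⟩ : ∃ x, x = |G s 0| := ⟨_, rfl⟩
    rw [← hx]
    by_cases hxx : x ∈ Set.Ioo a b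
    · rw [Set.indicator_of_mem hxx]
      have hl : Tendsto (fun n : ℕ => 2 / ((n : ℝ) + 1)) atTop (𝓝 0) := by
        have := (tendsto_one_div_add_atTop_nhds_zero_nat (𝕜 := ℝ)).const_mul 2
        rw [mul_zero] at this
        refine this.congr fun n => ?_
        ring
      have e1 : ∀ᶠ n : ℕ in atTop, 2 / ((n : ℝ) + 1) < min (x - a) (b - x) :=
        hl.eventually_lt_const (lt_min (by linarith [hxx.1]) (by linarith [hxx.2]))
      have e2 : (fun n : ℕ => kb a b ((n : ℝ) + 1) x) =ᶠ[atTop] fun _ => 1 := by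
        filter_upwards [e1] with n hn
        have g1 := (hn.trans_le (min_le_left _ _)).le
        have g2 := (hn.trans_le (min_le_right _ _)).le
        exact kb_one ha hab (by linarith [Nat.cast_nonneg (α := ℝ) n]) (by linarith) (by linarith)
      exact (tendsto_congr' e2).2 tendsto_const_nhds
    · rw [Set.indicator_of_notMem hxx]
      have e2 : (fun n : ℕ => kb a b ((n : ℝ) + 1) x) = fun _ => 0 := by
        funext n
        have h3 := kb_ind ha hab (N := (n : ℝ) + 1) (by linarith [Nat.cast_nonneg (α := ℝ) n]) x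
        rw [Set.indicator_of_notMem hxx] at h3
        exact le_antisymm h3 (kb_nn _ _ _ _)
      rw [e2]; exact tendsto_const_nhds

end main

end

end Pool.Agent.W2helper36.EM
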