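import Pool.Agent.W2helper36.EM.T
import Pool.Agent.W2helper36.EM.K

/-!
Project EM (helper36): the nodal set of stationary waves in the plane.
-/

set_option autoImplicit false
set_option linter.unusedSectionVars false
open MeasureTheory Filter Topology
open scoped ContDiff ENNReal

namespace Pool.Agent.W2helper36.EM

open Pool.Agent.Y139.SW Pool.Agent.W2helper17.FM

noncomputable section

section main

variable {S : Type*} [MeasurableSpace S] {P : Measure S} {τ : E 2 → S → S}
variable [IsProbabilityMeasure P] (hτ : ∀ x, MeasurePreserving (τ x) P P)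
  {G : S → E 2 → ℝ} (W : Wn 2 P τ G)

include hτ W

/-- on the nodal set almost every gradient vanishes -/
lemma zero_grad : ∀ᵐ s ∂P, G s 0 = 0 → Q 1 (G s) 0 = 0 := by
  have hL := J_one G
  have iabs := abs_int hτ W
  obtain ⟨B, hB⟩ : ∃ B, B = Real.pi / 2 * ∫ s, |G s 0| ∂P := ⟨_, rfl⟩
  have iQ : Integrable (fun s => Q 1 (G s) 0) P :=
    int_bd hτ (by norm_num) W le_rfl ((sf_Q 1 W.sf).meas 0) (bd_Q1 G)
  have mz : MeasurableSet {s | G s 0 = 0} := W.sf.meas 0 (measurableSet_singleton 0)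
  obtain ⟨I, hI⟩ : ∃ I, I = ∫ s, {s | G s 0 = 0}.indicator (fun s => Q 1 (G s) 0) s ∂P := ⟨_, rfl⟩
  have iI : Integrable ({s | G s 0 = 0}.indicator (fun s => Q 1 (G s) 0)) P := iQ.indicator mz
  have nnI : ∀ s, 0 ≤ {s | G s 0 = 0}.indicator (fun s => Q 1 (G s) 0) s :=
    Set.indicator_nonneg fun s _ => Q_nn _ _ _
  have step : ∀ n : ℕ, (n : ℝ) * I ≤ B := by
    intro n
    obtain ⟨c, hc⟩ : ∃ c : ℝ, c = (n : ℝ) := ⟨_, rfl⟩
    have c0 : 0 ≤ c := by rw [hc]; exact Nat.cast_nonneg n
    rw [← hc]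
    have sk : ContDiff ℝ ∞ (fun x : ℝ => Real.arctan (c * x)) :=
      Real.contDiff_arctan.comp (contDiff_const.mul contDiff_id)
    have dk : ∀ x, deriv (fun x : ℝ => Real.arctan (c * x)) x = c / (1 + (c * x) ^ 2) := by
      intro x
      have h1 : HasDerivAt (fun x : ℝ => c * x) c x := by
        have := (hasDerivAt_id x).const_mul c
        simpa using this
      have h2 := (Real.hasDerivAt_arctan (c * x)).comp x h1
      have h3 : HasDerivAt (fun x : ℝ => Real.arctan (c * x)) (c / (1 + (c * x) ^ 2)) x := by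
        refine h2.congr_deriv ?_
        ring
      exact h3.deriv
    have sF := fun i : Fin 2 => (W.sf.comp sk).mul (W.sf.der i)
    have e1 : ∀ i s, D i (fun y => Real.arctan (c * G s y) * D i (G s) y) 0 =
        c / (1 + (c * G s 0) ^ 2) * D i (G s) 0 * D i (G s) 0 +
          Real.arctan (c * G s 0) * D i (D i (G s)) 0 := by
      intro i s
      have hf := W.sf.smooth s
      have h4 : ContDiff ℝ ∞ fun y => Real.arctan (c * G s y) := sk.comp hf
      rw [D_mul h4 (D_sm hf i)]
      have := D_comp sk hf i 0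
      rw [dk] at this
      rw [this]
    have b1 : Bd (J G) 0 (fun s => Real.arctan (c * G s 0)) := bd0 (c := Real.pi / 2) fun s => by
      rw [abs_le]
      exact ⟨(Real.neg_pi_div_two_lt_arctan _).le, (Real.arctan_lt_pi_div_two _).le⟩
    have b2 : Bd (J G) 0 (fun s => c / (1 + (c * G s 0) ^ 2)) := bd0 (c := c) fun s => by
      rw [abs_of_nonneg (by positivity)]
      exact div_le_self c0 (by nlinarith [sq_nonneg (c * G s 0)])
    have i0 : ∀ i, Integrable (fun s => Real.arctan (c * G s 0) * D i (G s) 0) P := fun i =>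
      int_bd hτ (by norm_num) W (r := 0 + 1) (by norm_num) ((sF i).meas 0)
        (Bd.mul hL b1 (bd_D G i))
    have i1 : ∀ i, Integrable (fun s => D i (fun y => Real.arctan (c * G s y) *
        D i (G s) y) 0) P := fun i => by
      refine int_bd hτ (by norm_num) W (r := 2) le_rfl (((sF i).der i).meas 0) ?_
      have t1 := Bd.mul hL (Bd.mul hL b2 (bd_D G i)) (bd_D G i)
      have t2 := Bd.mul hL b1 (bd_DD G i i)
      have t3 := Bd.add hL (Bd.mono hL (by norm_num : _ ≤ 2) t1) (Bd.mono hL (by norm_num : _ ≤ 2) t2)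
      simp only [← e1] at t3
      exact t3
    have z : ∀ i, ∫ s, D i (fun y => Real.arctan (c * G s y) * D i (G s) y) 0 ∂P = 0 :=
      fun i => div0 hτ (sF i) i (i0 i) (i1 i)
    have z2 : ∫ s, ∑ i, D i (fun y => Real.arctan (c * G s y) * D i (G s) y) 0 ∂P = 0 := by
      rw [integral_finsetSum _ fun i _ => i1 i]
      simp only [z, Finset.sum_const_zero]
    have hp : ∀ s, c * {s | G s 0 = 0}.indicator (fun s => Q 1 (G s) 0) s -
        Real.pi / 2 * |G s 0| ≤
        ∑ i, D i (fun y => Real.arctan (c * G s y) * D i (G s) y) 0 := by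
      intro s
      have e2 : ∑ i, D i (fun y => Real.arctan (c * G s y) * D i (G s) y) 0 =
          c / (1 + (c * G s 0) ^ 2) * Q 1 (G s) 0 - Real.arctan (c * G s 0) * G s 0 := by
        simp only [e1]
        rw [Finset.sum_add_distrib, ← Finset.mul_sum]
        have h3 : ∑ i, D i (D i (G s)) 0 = -G s 0 := W.eq s 0
        rw [h3, Q_one, Finset.mul_sum]
        have : ∑ i, c / (1 + (c * G s 0) ^ 2) * D i (G s) 0 * D i (G s) 0 =
          ∑ i, c / (1 + (c * G s 0) ^ 2) * D i (G s) 0 ^ 2 :=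
          Finset.sum_congr rfl fun i _ => by ring
        rw [this]; ring
      rw [e2]
      have h4 : Real.arctan (c * G s 0) * G s 0 ≤ Real.pi / 2 * |G s 0| := by
        refine (le_abs_self _).trans ?_
        rw [abs_mul]
        refine mul_le_mul_of_nonneg_right ?_ (abs_nonneg _)
        rw [abs_le]
        exact ⟨(Real.neg_pi_div_two_lt_arctan _).le, (Real.arctan_lt_pi_div_two _).le⟩
      have h5 : c * {s | G s 0 = 0}.indicator (fun s => Q 1 (G s) 0) s ≤
          c / (1 + (c * G s 0) ^ 2) * Q 1 (G s) 0 := by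
        by_cases hs : G s 0 = 0
        · rw [Set.indicator_of_mem (show s ∈ {s | G s 0 = 0} from hs), hs]
          simp
        · rw [Set.indicator_of_notMem (show s ∉ {s | G s 0 = 0} from hs), mul_zero]
          have := Q_nn 1 (G s) 0
          positivity
      linarith
    have h6 := integral_mono (μ := P) ((iI.const_mul c).sub (iabs.const_mul (Real.pi / 2)))
      (integrable_finsetSum _ fun i _ => i1 i) hp
    rw [z2] at h6
    have h7 : ∫ s, (c * {s | G s 0 = 0}.indicator (fun s => Q 1 (G s) 0) s -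
        Real.pi / 2 * |G s 0|) ∂P = c * I - B := by
      rw [integral_sub (iI.const_mul c) (iabs.const_mul (Real.pi / 2)), integral_const_mul,
        integral_const_mul, hI, hB]
    have h8 : ∫ s, (c * {s | G s 0 = 0}.indicator (fun s => Q 1 (G s) 0) s -
        Real.pi / 2 * |G s 0|) ∂P ≤ 0 := h6
    rw [h7] at h8
    linarith
  have I0 : 0 ≤ I := by rw [hI]; exact integral_nonneg nnI
  have I1 : I = 0 := by
    by_contra hne
    have Ip : 0 < I := lt_of_le_of_ne I0 (Ne.symm hne)
    obtain ⟨n, hn⟩ := exists_nat_gt (B / I)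
    rw [div_lt_iff₀ Ip] at hn
    linarith [step n]
  rw [hI] at I1
  have h9 := (integral_eq_zero_iff_of_nonneg nnI iI).1 I1
  filter_upwards [h9] with s hs h0
  rw [Set.indicator_of_mem (show s ∈ {s | G s 0 = 0} from h0)] at hs
  exact hs

/-- the smoothed nodal length -/
def Nd (P : Measure S) (G : S → E 2 → ℝ) (ε : ℝ) : ℝ :=
  (2 * ε)⁻¹ * ∫ s in {s | |G s 0| < ε}, √(Q 1 (G s) 0) ∂P

/-- the lower nodal length density -/
def nodal (P : Measure S) (G : S → E 2 → ℝ) : ℝ≥0∞ :=
  liminf (fun ε : ℝ => ENNReal.ofReal (Nd P G ε)) (𝓝[>] 0)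

/-- the regularised density -/
def He (G : S → E 2 → ℝ) (ε : ℝ) (s : S) : ℝ :=
  1 / (Real.pi * ε) * (mb 0 ε |G s 0| * (1 + rx (G s)))

lemma He_meas (ε : ℝ) : Measurable (He G ε) :=
  measurable_const.mul (((mb_cont 0 ε).measurable.comp (abs_me hτ W)).mul
    (measurable_const.add (rx_meas hτ W)))

lemma low {ε : ℝ} (hε : 0 < ε) : Integrable (He G ε) P ∧ ∫ s, He G ε s ∂P ≤ Nd P G ε := by
  obtain ⟨i1, h1⟩ := box hτ W le_rfl hε
  have ms : MeasurableSet {s | |G s 0| < ε} := (abs_me hτ W) measurableSet_Iio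
  have iQ := sQ_int hτ W
  have h2 : ∫ s, (Set.Ioo 0 ε).indicator (fun _ => 1) |G s 0| * AT (G s) 0 ∂P ≤
      Real.pi / 2 * ∫ s in {s | |G s 0| < ε}, √(Q 1 (G s) 0) ∂P := by
    rw [← integral_const_mul, ← integral_indicator ms]
    have mi : Measurable fun s => (Set.Ioo 0 ε).indicator (fun _ => (1 : ℝ)) |G s 0| *
        AT (G s) 0 :=
      ((measurable_const.indicator measurableSet_Ioo).comp (abs_me hτ W)).mul (AT_meas hτ W)
    have iI : Integrable (fun s => (Set.Ioo 0 ε).indicator (fun _ => (1 : ℝ)) |G s 0| *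
        AT (G s) 0) P := by
      refine Integrable.mono' (AT_int hτ W) mi.aestronglyMeasurable (ae_of_all _ fun s => ?_)
      have h0 := AT_nn (G s) 0
      by_cases hx : |G s 0| ∈ Set.Ioo 0 ε
      · rw [Set.indicator_of_mem hx, one_mul, Real.norm_eq_abs, abs_of_nonneg h0]
      · rw [Set.indicator_of_notMem hx, zero_mul, norm_zero]; exact h0
    refine integral_mono iI ((iQ.const_mul _).indicator ms) fun s => ?_
    by_cases hx : |G s 0| ∈ Set.Ioo 0 ε
    · have hx2 : s ∈ {s | |G s 0| < ε} := hx.2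
      show (Set.Ioo 0 ε).indicator (fun _ => 1) |G s 0| * AT (G s) 0 ≤ _
      rw [Set.indicator_of_mem hx, Set.indicator_of_mem hx2, one_mul]
      exact AT_le _ _
    · show (Set.Ioo 0 ε).indicator (fun _ => 1) |G s 0| * AT (G s) 0 ≤ _
      rw [Set.indicator_of_notMem hx, zero_mul]
      refine Set.indicator_nonneg (fun s _ => ?_) s
      have := Real.pi_pos
      positivity
  refine ⟨i1.const_mul _, ?_⟩
  unfold He Nd
  rw [integral_const_mul]
  have h3 := h1.trans h2
  have hp := Real.pi_pos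
  have h4 := mul_le_mul_of_nonneg_left h3 (by positivity : 0 ≤ 1 / (Real.pi * ε))
  refine h4.trans (le_of_eq ?_)
  field_simp

omit hτ W [IsProbabilityMeasure P] in
lemma He_nn {ε : ℝ} (hε : 0 ≤ ε) (s : S) : 0 ≤ He G ε s := by
  unfold He
  have h1 := mb_nn hε |G s 0|
  have h2 := rx_nn (G s)
  have h3 := Real.pi_pos
  positivity

/-- the limit density -/
def Hl (G : S → E 2 → ℝ) (s : S) : ℝ := 1 / Real.pi * (1 + rx (G s))

/-- **lower bound for the nodal length density** -/
theorem nod_ge : ∫⁻ s in {s | G s 0 ≠ 0}, ENNReal.ofReal (Hl G s) ∂P ≤ nodal P G := by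
  have ms : MeasurableSet {s | G s 0 ≠ 0} := (W.sf.meas 0 (measurableSet_singleton 0)).compl
  rw [← lintegral_indicator ms]
  have h1 := lintegral_liminf_le (μ := P) (u := 𝓝[>] (0 : ℝ))
    (f := fun (ε : ℝ) (s : S) => ENNReal.ofReal (He G ε s)) fun ε => (He_meas hτ W ε).ennreal_ofReal
  have h2 : ∀ s, {s | G s 0 ≠ 0}.indicator (fun s => ENNReal.ofReal (Hl G s)) s ≤
      liminf (fun ε : ℝ => ENNReal.ofReal (He G ε s)) (𝓝[>] 0) := by
    intro s
    by_cases hs : G s 0 = 0
    · rw [Set.indicator_of_notMem (by simpa using hs)]; exact bot_le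
    · rw [Set.indicator_of_mem (show s ∈ {s | G s 0 ≠ 0} from hs)]
      have e : (fun ε : ℝ => ENNReal.ofReal (He G ε s)) =ᶠ[𝓝[>] 0]
          fun _ => ENNReal.ofReal (Hl G s) := by
        have hp : 0 < |G s 0| := abs_pos.2 hs
        filter_upwards [Ioo_mem_nhdsGT hp] with ε hε
        congr 1
        unfold He Hl mb
        have hε0 := hε.1
        rw [sub_zero, sub_zero, max_eq_left (abs_nonneg _), min_eq_right hε.2.le]
        have h3 := Real.pi_pos
        field_simp
      rw [liminf_congr e, liminf_const]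
  refine (lintegral_mono h2).trans (h1.trans ?_)
  refine liminf_le_liminf ?_
  filter_upwards [self_mem_nhdsWithin] with ε hε
  obtain ⟨i1, h3⟩ := low hτ W hε
  rw [← ofReal_integral_eq_lintegral_ofReal i1 (ae_of_all _ (He_nn (le_of_lt hε)))]
  exact ENNReal.ofReal_le_ofReal h3

/-- the length of small level sets of waves with constant energy density -/
lemma up (h0 : ∀ᵐ s ∂P, ∀ y, En (G s) y = En (G s) 0) {ε : ℝ} (hε : 0 < ε) :
    Nd P G ε ≤ 1 / Real.pi * (P.real {s | G s 0 ≠ 0} + P.real {s | |G s 0| ∈ Set.Ioo 0 ε}) := by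
  have am := abs_me hτ W
  have ms : MeasurableSet {s | |G s 0| < ε} := am measurableSet_Iio
  have m1 : MeasurableSet {s | G s 0 ≠ 0} := (W.sf.meas 0 (measurableSet_singleton 0)).compl
  have m2 : MeasurableSet {s | |G s 0| ∈ Set.Ioo 0 ε} := am measurableSet_Ioo
  have iQ := sQ_int hτ W
  have hb := boxE hτ W h0 le_rfl hε
  have hz := zero_grad hτ W
  have hp := Real.pi_pos
  have mi : Measurable fun s => (Set.Ioo 0 ε).indicator (fun _ => (1 : ℝ)) |G s 0| *
      AT (G s) 0 :=
    ((measurable_const.indicator measurableSet_Ioo).comp am).mul (AT_meas hτ W)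
  have iI : Integrable (fun s => (Set.Ioo 0 ε).indicator (fun _ => (1 : ℝ)) |G s 0| *
      AT (G s) 0) P := by
    refine Integrable.mono' (AT_int hτ W) mi.aestronglyMeasurable (ae_of_all _ fun s => ?_)
    have h0 := AT_nn (G s) 0
    by_cases hx : |G s 0| ∈ Set.Ioo 0 ε
    · rw [Set.indicator_of_mem hx, one_mul, Real.norm_eq_abs, abs_of_nonneg h0]
    · rw [Set.indicator_of_notMem hx, zero_mul, norm_zero]; exact h0
  have i2 : Integrable ({s | |G s 0| ∈ Set.Ioo 0 ε}.indicator fun _ => ε) P :=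
    (integrable_const ε).indicator m2
  have h1 : Real.pi / 2 * ∫ s in {s | |G s 0| < ε}, √(Q 1 (G s) 0) ∂P ≤
      ∫ s, (Set.Ioo 0 ε).indicator (fun _ => 1) |G s 0| * AT (G s) 0 ∂P +
        ε * P.real {s | |G s 0| ∈ Set.Ioo 0 ε} := by
    have e1 : ε * P.real {s | |G s 0| ∈ Set.Ioo 0 ε} =
        ∫ s, {s | |G s 0| ∈ Set.Ioo 0 ε}.indicator (fun _ => ε) s ∂P := by
      rw [integral_indicator m2, setIntegral_const, smul_eq_mul, mul_comm]
    rw [e1, ← integral_add iI i2, ← integral_const_mul, ← integral_indicator ms]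
    refine integral_mono_ae ((iQ.const_mul _).indicator ms) (iI.add i2) ?_
    filter_upwards [hz] with s hs
    obtain ⟨g, hg⟩ : ∃ g, g = √(Q 1 (G s) 0) := ⟨_, rfl⟩
    have g0 : 0 ≤ g := by rw [hg]; exact Real.sqrt_nonneg _
    by_cases hx : |G s 0| < ε
    · by_cases hz2 : G s 0 = 0
      · have h3 := hs hz2
        have hgz : g = 0 := by rw [hg, h3]; simp
        have hn : |G s 0| ∉ Set.Ioo 0 ε := by rw [hz2]; simp
        rw [Set.indicator_of_mem (show s ∈ {s | |G s 0| < ε} from hx)]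
        show Real.pi / 2 * √(Q 1 (G s) 0) ≤ (Set.Ioo 0 ε).indicator (fun _ => 1) |G s 0| *
          AT (G s) 0 + {s | |G s 0| ∈ Set.Ioo 0 ε}.indicator (fun _ => ε) s
        rw [Set.indicator_of_notMem hn,
          Set.indicator_of_notMem (show s ∉ {s | |G s 0| ∈ Set.Ioo 0 ε} from hn), ← hg, hgz]
        simp
      · have hx0 : 0 < |G s 0| := abs_pos.2 hz2
        have hn : |G s 0| ∈ Set.Ioo 0 ε := ⟨hx0, hx⟩
        rw [Set.indicator_of_mem (show s ∈ {s | |G s 0| < ε} from hx)]
        show Real.pi / 2 * √(Q 1 (G s) 0) ≤ (Set.Ioo 0 ε).indicator (fun _ => 1) |G s 0| *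
          AT (G s) 0 + {s | |G s 0| ∈ Set.Ioo 0 ε}.indicator (fun _ => ε) s
        rw [Set.indicator_of_mem hn,
          Set.indicator_of_mem (show s ∈ {s | |G s 0| ∈ Set.Ioo 0 ε} from hn)]
        unfold AT
        rw [← hg, one_mul]
        rcases g0.eq_or_lt with h4 | h4
        · rw [← h4]; simp; exact hε.le
        · have h5 : Real.pi / 2 - Real.arctan (g / |G s 0|) ≤ |G s 0| / g := by
            have h6 : (g / |G s 0|)⁻¹ = |G s 0| / g := by rw [inv_div]
            have h7 := Real.arctan_inv_of_pos (x := g / |G s 0|) (by positivity)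
            rw [h6] at h7
            rw [← h7]
            have h8 := arctan_lip (a := |G s 0| / g) (b := 0) (by positivity)
            rw [Real.arctan_zero] at h8
            linarith
          have h9 := mul_le_mul_of_nonneg_left h5 g0
          have h10 : g * (|G s 0| / g) = |G s 0| := by field_simp
          rw [h10] at h9
          linarith
    · rw [Set.indicator_of_notMem (show s ∉ {s | |G s 0| < ε} from hx)]
      have h3 : 0 ≤ (Set.Ioo 0 ε).indicator (fun _ => (1 : ℝ)) |G s 0| * AT (G s) 0 :=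
        mul_nonneg (Set.indicator_nonneg (fun _ _ => zero_le_one) _) (AT_nn _ _)
      have h4 : 0 ≤ {s | |G s 0| ∈ Set.Ioo 0 ε}.indicator (fun _ => ε) s :=
        Set.indicator_nonneg (fun _ _ => hε.le) _
      exact add_nonneg h3 h4
  have h2 : ∫ s, mb 0 ε |G s 0| ∂P ≤ ε * P.real {s | G s 0 ≠ 0} := by
    have e1 : ε * P.real {s | G s 0 ≠ 0} = ∫ s, {s | G s 0 ≠ 0}.indicator (fun _ => ε) s ∂P := by
      rw [integral_indicator m1, setIntegral_const, smul_eq_mul, mul_comm]
    rw [e1]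
    have im : Integrable (fun s => mb 0 ε |G s 0|) P := by
      refine Integrable.mono' (integrable_const (ε - 0))
        ((mb_cont 0 ε).measurable.comp am).aestronglyMeasurable (ae_of_all _ fun s => ?_)
      rw [Real.norm_eq_abs, abs_of_nonneg (mb_nn hε.le _)]
      exact min_le_right _ _
    refine integral_mono im ((integrable_const ε).indicator m1) fun s => ?_
    by_cases hs : G s 0 = 0
    · show mb 0 ε |G s 0| ≤ {s | G s 0 ≠ 0}.indicator (fun _ => ε) s
      rw [Set.indicator_of_notMem (by simpa using hs), hs]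
      unfold mb
      simp [hε.le]
    · show mb 0 ε |G s 0| ≤ {s | G s 0 ≠ 0}.indicator (fun _ => ε) s
      rw [Set.indicator_of_mem (show s ∈ {s | G s 0 ≠ 0} from hs)]
      have : mb 0 ε |G s 0| ≤ ε - 0 := min_le_right _ _
      linarith
  have h3 : Real.pi / 2 * ∫ s in {s | |G s 0| < ε}, √(Q 1 (G s) 0) ∂P ≤
      ε * (P.real {s | G s 0 ≠ 0} + P.real {s | |G s 0| ∈ Set.Ioo 0 ε}) := by linarith
  unfold Nd
  have h4 := mul_le_mul_of_nonneg_left h3 (by positivity : 0 ≤ 1 / (Real.pi * ε))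
  have e1 : 1 / (Real.pi * ε) * (Real.pi / 2 * ∫ s in {s | |G s 0| < ε}, √(Q 1 (G s) 0) ∂P) =
      (2 * ε)⁻¹ * ∫ s in {s | |G s 0| < ε}, √(Q 1 (G s) 0) ∂P := by field_simp
  have e2 : 1 / (Real.pi * ε) * (ε * (P.real {s | G s 0 ≠ 0} +
      P.real {s | |G s 0| ∈ Set.Ioo 0 ε})) =
      1 / Real.pi * (P.real {s | G s 0 ≠ 0} + P.real {s | |G s 0| ∈ Set.Ioo 0 ε}) := by
    field_simp
  rw [e1, e2] at h4
  exact h4

/-- the nodal length density of waves with constant energy density -/
theorem nod_le (h0 : ∀ᵐ s ∂P, ∀ y, En (G s) y = En (G s) 0) :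
    nodal P G ≤ ENNReal.ofReal (1 / Real.pi * P.real {s | G s 0 ≠ 0}) := by
  obtain ⟨e, he⟩ : ∃ e : ℕ → ℝ, e = fun n : ℕ => 1 / ((n : ℝ) + 1) := ⟨_, rfl⟩
  obtain ⟨e0, el⟩ := en_lim he
  have e1 : Tendsto e atTop (𝓝[>] 0) :=
    tendsto_nhdsWithin_iff.2 ⟨el, Eventually.of_forall fun n => e0 n⟩
  have am := abs_me hτ W
  have hanti : Antitone fun n => {s | |G s 0| ∈ Set.Ioo 0 (e n)} := by
    intro n m hnm s hs
    refine ⟨hs.1, hs.2.trans_le ?_⟩
    rw [he]
    have : (n : ℝ) ≤ m := by exact_mod_cast hnm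
    exact one_div_le_one_div_of_le (by positivity) (by linarith)
  have hempty : ⋂ n, {s | |G s 0| ∈ Set.Ioo 0 (e n)} = ∅ := by
    ext s
    simp only [Set.mem_iInter, Set.mem_setOf_eq, Set.mem_empty_iff_false, iff_false]
    intro hs
    have h1 := ge_of_tendsto' el fun n => (hs n).2.le
    have h2 := (hs 0).1
    linarith
  have t1 : Tendsto (fun n => P {s | |G s 0| ∈ Set.Ioo 0 (e n)}) atTop (𝓝 0) := by
    have := tendsto_measure_iInter_atTop (μ := P)
      (s := fun n => {s | |G s 0| ∈ Set.Ioo 0 (e n)})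
      (fun n => (am measurableSet_Ioo : MeasurableSet {s | |G s 0| ∈ Set.Ioo 0 (e n)}).nullMeasurableSet)
      hanti ⟨0, measure_ne_top _ _⟩
    rw [hempty, measure_empty] at this
    exact this
  have t2 : Tendsto (fun n => P.real {s | |G s 0| ∈ Set.Ioo 0 (e n)}) atTop (𝓝 0) := by
    have := (ENNReal.tendsto_toReal (ENNReal.zero_ne_top)).comp t1
    rw [ENNReal.toReal_zero] at this
    exact this
  have t3 : Tendsto (fun n => ENNReal.ofReal (1 / Real.pi * (P.real {s | G s 0 ≠ 0} +
      P.real {s | |G s 0| ∈ Set.Ioo 0 (e n)}))) atTop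
      (𝓝 (ENNReal.ofReal (1 / Real.pi * (P.real {s | G s 0 ≠ 0} + 0)))) :=
    (ENNReal.continuous_ofReal.tendsto _).comp ((tendsto_const_nhds.add t2).const_mul _)
  rw [add_zero] at t3
  unfold nodal
  calc liminf (fun ε : ℝ => ENNReal.ofReal (Nd P G ε)) (𝓝[>] 0)
      ≤ liminf (fun ε : ℝ => ENNReal.ofReal (Nd P G ε)) (map e atTop) :=
        liminf_le_liminf_of_le e1
    _ = liminf (fun n => ENNReal.ofReal (Nd P G (e n))) atTop := rfl
    _ ≤ liminf (fun n => ENNReal.ofReal (1 / Real.pi * (P.real {s | G s 0 ≠ 0} +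
      P.real {s | |G s 0| ∈ Set.Ioo 0 (e n)}))) atTop :=
        liminf_le_liminf (Eventually.of_forall fun n =>
          ENNReal.ofReal_le_ofReal (up hτ W h0 (e0 n)))
    _ = _ := t3.liminf_eq

/-- if the density is minimal then `f |∇P|² = 0` -/
theorem nod_rig (h : nodal P G = ENNReal.ofReal (1 / Real.pi * P.real {s | G s 0 ≠ 0})) :
    ∀ᵐ s ∂P, G s 0 ^ 2 * YY (G s) 0 = 0 := by
  have h1 := nod_ge hτ W
  rw [h] at h1
  have ms : MeasurableSet {s | G s 0 ≠ 0} := (W.sf.meas 0 (measurableSet_singleton 0)).compl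
  have hp := Real.pi_pos
  have rm := rx_meas hτ W
  have e1 : ∀ s, ENNReal.ofReal (Hl G s) =
      ENNReal.ofReal (1 / Real.pi) + ENNReal.ofReal (1 / Real.pi * rx (G s)) := by
    intro s
    have := rx_nn (G s)
    unfold Hl
    rw [mul_add, mul_one, ENNReal.ofReal_add (by positivity) (by positivity)]
  have e2 : ENNReal.ofReal (1 / Real.pi * P.real {s | G s 0 ≠ 0}) =
      ENNReal.ofReal (1 / Real.pi) * P {s | G s 0 ≠ 0} := by
    rw [ENNReal.ofReal_mul (by positivity), measureReal_def,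
      ENNReal.ofReal_toReal (measure_ne_top _ _)]
  simp only [e1] at h1
  rw [lintegral_add_left measurable_const, setLIntegral_const, e2] at h1
  have fin : ENNReal.ofReal (1 / Real.pi) * P {s | G s 0 ≠ 0} ≠ ⊤ :=
    ENNReal.mul_ne_top ENNReal.ofReal_ne_top (measure_ne_top _ _)
  have h2 : ∫⁻ s in {s | G s 0 ≠ 0}, ENNReal.ofReal (1 / Real.pi * rx (G s)) ∂P = 0 := by
    have h3 : ENNReal.ofReal (1 / Real.pi) * P {s | G s 0 ≠ 0} +
        ∫⁻ s in {s | G s 0 ≠ 0}, ENNReal.ofReal (1 / Real.pi * rx (G s)) ∂P ≤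
        ENNReal.ofReal (1 / Real.pi) * P {s | G s 0 ≠ 0} + 0 := by rw [add_zero]; exact h1
    exact le_antisymm ((ENNReal.add_le_add_iff_left fin).1 h3) bot_le
  have mr : Measurable fun s => ENNReal.ofReal (1 / Real.pi * rx (G s)) :=
    (rm.const_mul (1 / Real.pi)).ennreal_ofReal
  rw [lintegral_eq_zero_iff mr] at h2
  have h4 := (ae_restrict_iff' ms).1 h2
  filter_upwards [h4] with s hs
  by_cases h0 : G s 0 = 0
  · rw [h0]; ring
  · have h5 : ENNReal.ofReal (1 / Real.pi * rx (G s)) = 0 := hs h0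
    rw [ENNReal.ofReal_eq_zero] at h5
    have h6 : rx (G s) ≤ 0 := by
      by_contra hc
      push Not at hc
      have : 0 < 1 / Real.pi * rx (G s) := by positivity
      linarith
    have h7 : rx (G s) = 0 := le_antisymm h6 (rx_nn _)
    unfold rx at h7
    have hE : 0 < En (G s) 0 := by
      unfold En
      have := Q_nn 1 (G s) 0
      positivity
    rcases div_eq_zero_iff.1 h7 with h8 | h8
    · rcases mul_eq_zero.1 h8 with h9 | h9
      · exact absurd (abs_eq_zero.1 h9) h0
      · rw [h9]; ring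
    · have : 0 < 6 * √(En (G s) 0) ^ 5 := by positivity
      linarith

end main

end

end Pool.Agent.W2helper36.EM
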