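import Pool.Agent.W2helper36.EM.U

/-!
Project EM (helper36): a stationary wave in the plane vanishes at the origin only if it vanishes
identically; the final theorem on nodal sets.
-/

set_option autoImplicit false
set_option linter.unusedSectionVars false
open MeasureTheory Filter Topology
open scoped ContDiff ENNReal

namespace Pool.Agent.W2helper36.EM

open Pool.Agent.Y139.SW Pool.Agent.W2helper17.FM

noncomputable section

section main

variable {S : Type*} [MeasurableSpace S] {P : Measure S} {τ : E 2 → S → S}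
variable [IsProbabilityMeasure P] (hτ : ∀ x, MeasurePreserving (τ x) P P)

include hτ

lemma sq_i {G : S → E 2 → ℝ} (W : Wn 2 P τ G) : Integrable (fun s => G s 0 ^ 2) P :=
  int_bd hτ (by norm_num) W (r := 2 * 1) (by norm_num) ((W.sf.meas 0).pow_const 2)
    (Bd.pow (J_one G) (bd_G G) 2)

lemma EQ1 {G : S → E 2 → ℝ} (W : Wn 2 P τ G) :
    ∫ s, Q 1 (G s) 0 ∂P = ∫ s, G s 0 ^ 2 ∂P := by
  have hL := J_one G
  have iQ : Integrable (fun s => Q 1 (G s) 0) P :=
    int_bd hτ (by norm_num) W le_rfl ((sf_Q 1 W.sf).meas 0) (bd_Q1 G)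
  have iG := sq_i hτ W
  have sF := fun i : Fin 2 => W.sf.mul (W.sf.der i)
  have e1 : ∀ i s, D i (fun y => G s y * D i (G s) y) 0 =
      D i (G s) 0 * D i (G s) 0 + G s 0 * D i (D i (G s)) 0 := fun i s =>
    D_mul (W.sf.smooth s) (D_sm (W.sf.smooth s) i) i 0
  have i0 : ∀ i, Integrable (fun s => G s 0 * D i (G s) 0) P := fun i =>
    int_bd hτ (by norm_num) W (r := 1 + 1) (by norm_num) ((sF i).meas 0)
      (Bd.mul hL (bd_G G) (bd_D G i))
  have i1 : ∀ i, Integrable (fun s => D i (fun y => G s y * D i (G s) y) 0) P := fun i => by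
    refine int_bd hτ (by norm_num) W (r := 1 + 1) (by norm_num) (((sF i).der i).meas 0) ?_
    simp only [e1]
    exact Bd.add hL (Bd.mul hL (bd_D G i) (bd_D G i)) (Bd.mul hL (bd_G G) (bd_DD G i i))
  have z : ∀ i, ∫ s, D i (fun y => G s y * D i (G s) y) 0 ∂P = 0 :=
    fun i => div0 hτ (sF i) i (i0 i) (i1 i)
  have z2 : ∫ s, ∑ i, D i (fun y => G s y * D i (G s) y) 0 ∂P = 0 := by
    rw [integral_finsetSum _ fun i _ => i1 i]
    simp only [z, Finset.sum_const_zero]
  have e2 : ∀ s, ∑ i, D i (fun y => G s y * D i (G s) y) 0 = Q 1 (G s) 0 - G s 0 ^ 2 := by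
    intro s
    simp only [e1]
    rw [Finset.sum_add_distrib, ← Finset.mul_sum]
    have h3 : ∑ i, D i (D i (G s)) 0 = -G s 0 := W.eq s 0
    rw [h3, Q_one]
    have : ∑ i, D i (G s) 0 * D i (G s) 0 = ∑ i, D i (G s) 0 ^ 2 :=
      Finset.sum_congr rfl fun i _ => by ring
    rw [this]; ring
  simp only [e2] at z2
  rw [integral_sub iQ iG] at z2
  linarith

lemma D_sq {G : S → E 2 → ℝ} (W : Wn 2 P τ G) (i : Fin 2) :
    ∫ s, D i (G s) 0 ^ 2 ∂P ≤ ∫ s, G s 0 ^ 2 ∂P := by
  have iQ : Integrable (fun s => Q 1 (G s) 0) P :=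
    int_bd hτ (by norm_num) W le_rfl ((sf_Q 1 W.sf).meas 0) (bd_Q1 G)
  rw [← EQ1 hτ W]
  refine integral_mono (sq_i hτ (W.der hτ (by norm_num) i)) iQ fun s => ?_
  show D i (G s) 0 ^ 2 ≤ Q 1 (G s) 0
  rw [Q_one]
  exact Finset.single_le_sum (f := fun j => D j (G s) 0 ^ 2) (fun _ _ => sq_nonneg _)
    (Finset.mem_univ i)

lemma Wit {G : S → E 2 → ℝ} (W : Wn 2 P τ G) (i : Fin 2) (k : ℕ) :
    Wn 2 P τ (fun s => (D i)^[k] (G s)) := by
  induction k with
  | zero => exact W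
  | succ k ih =>
    have := ih.der hτ (by norm_num) i
    simp only [Function.iterate_succ_apply']
    exact this

lemma Dk_sq {G : S → E 2 → ℝ} (W : Wn 2 P τ G) (i : Fin 2) (k : ℕ) :
    ∫ s, (D i)^[k] (G s) 0 ^ 2 ∂P ≤ ∫ s, G s 0 ^ 2 ∂P := by
  induction k with
  | zero => exact le_rfl
  | succ k ih =>
    simp only [Function.iterate_succ_apply']
    exact (D_sq hτ (Wit hτ W i k) i).trans ih

lemma Dk_l {G : S → E 2 → ℝ} (W : Wn 2 P τ G) (i : Fin 2) (k : ℕ) :
    ∫⁻ s, ‖(D i)^[k] (G s) 0‖ₑ ∂P ≤ ENNReal.ofReal (1 + ∫ s, G s 0 ^ 2 ∂P) := by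
  have W2 := Wit hτ W i k
  have i2 := sq_i hτ W2
  have i3 : Integrable (fun s => 1 + (D i)^[k] (G s) 0 ^ 2) P := (integrable_const 1).add i2
  calc ∫⁻ s, ‖(D i)^[k] (G s) 0‖ₑ ∂P
      ≤ ∫⁻ s, ENNReal.ofReal (1 + (D i)^[k] (G s) 0 ^ 2) ∂P := by
        refine lintegral_mono fun s => ?_
        rw [Real.enorm_eq_ofReal_abs]
        refine ENNReal.ofReal_le_ofReal ?_
        have : 0 ≤ (|(D i)^[k] (G s) 0| - 1) ^ 2 := sq_nonneg _
        nlinarith [sq_abs ((D i)^[k] (G s) 0), abs_nonneg ((D i)^[k] (G s) 0)]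
    _ = ENNReal.ofReal (∫ s, (1 + (D i)^[k] (G s) 0 ^ 2) ∂P) :=
        (ofReal_integral_eq_lintegral_ofReal i3 (ae_of_all _ fun s => by positivity)).symm
    _ ≤ _ := by
        refine ENNReal.ofReal_le_ofReal ?_
        rw [integral_add (integrable_const 1) i2]
        have := Dk_sq hτ W i k
        simp
        exact this

lemma Dk_zero {G : S → E 2 → ℝ} (W : Wn 2 P τ G) (i : Fin 2) :
    ∀ᵐ s ∂P, G s 0 = 0 → ∀ k, (D i)^[k] (G s) 0 = 0 := by
  have h : ∀ k : ℕ, ∀ᵐ s ∂P, (D i)^[k] (G s) 0 = 0 → (D i)^[k + 1] (G s) 0 = 0 := by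
    intro k
    filter_upwards [zero_grad hτ (Wit hτ W i k)] with s hs h0
    have h1 := hs h0
    rw [Q_one] at h1
    have h2 := (Finset.sum_eq_zero_iff_of_nonneg
      (fun j _ => sq_nonneg (D j ((D i)^[k] (G s)) 0))).1 h1 i (Finset.mem_univ i)
    rw [Function.iterate_succ_apply']
    exact pow_eq_zero_iff (two_ne_zero) |>.1 h2
  filter_upwards [ae_all_iff.2 h] with s hs h0 k
  induction k with
  | zero => exact h0
  | succ k ih => exact hs k ih

/-- iterated integration along a line -/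
lemma lineI {G : S → E 2 → ℝ} (W : Wn 2 P τ G) (i : Fin 2) (n : ℕ) : ∀ (k : ℕ) (t : ℝ), 0 ≤ t →
    ∫⁻ s in {s | G s 0 = 0}, ‖(D i)^[k] (G s) (t • EuclideanSpace.single i 1)‖ₑ ∂P ≤
      ENNReal.ofReal ((1 + ∫ s, G s 0 ^ 2 ∂P) * (t ^ n / n.factorial)) := by
  obtain ⟨c, hc⟩ : ∃ c, c = 1 + ∫ s, G s 0 ^ 2 ∂P := ⟨_, rfl⟩
  have c0 : 0 ≤ c := by
    rw [hc]
    have : 0 ≤ ∫ s, G s 0 ^ 2 ∂P := integral_nonneg fun s => sq_nonneg _
    linarith
  have ms : MeasurableSet {s | G s 0 = 0} := W.sf.meas 0 (measurableSet_singleton 0)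
  rw [← hc]
  induction n with
  | zero =>
    intro k t _
    have W2 := Wit hτ W i k
    have h1 := Dk_l hτ W i k
    rw [← hc] at h1
    have h2 := st_lint hτ W2.sf (t • (EuclideanSpace.single i 1 : E 2)) (k := fun x => ‖x‖ₑ)
      measurable_enorm
    refine (setLIntegral_le_lintegral _ _).trans ?_
    rw [h2]
    simpa using h1
  | succ n ih =>
    intro k t ht
    have W2 := Wit hτ W i k
    have W3 := Wit hτ W i (k + 1)
    obtain ⟨e, he⟩ : ∃ e : E 2, e = EuclideanSpace.single i 1 := ⟨_, rfl⟩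
    rw [← he] at ih ⊢
    have mK : Measurable (Function.uncurry fun (s : S) (r : ℝ) =>
        ‖(D i)^[k + 1] (G s) (r • e)‖ₑ) := by
      have h := joint W3.sf
      have h2 : Measurable fun p : S × ℝ => ((p.2 • e : E 2), p.1) := by fun_prop
      exact (h.comp h2).enorm
    have g1 : ∫⁻ s in {s | G s 0 = 0}, ‖(D i)^[k] (G s) (t • e)‖ₑ ∂P ≤
        ∫⁻ s in {s | G s 0 = 0}, (∫⁻ r in Set.Ioc 0 t, ‖(D i)^[k + 1] (G s) (r • e)‖ₑ) ∂P := by
      refine lintegral_mono_ae ?_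
      rw [ae_restrict_iff' ms]
      filter_upwards [Dk_zero hτ W i] with s hs h0
      have hz := hs h0 k
      have hsm := W2.sf.smooth s
      have h2 := intervalIntegral.integral_eq_sub_of_hasDerivAt (a := 0) (b := t)
        (f := fun r : ℝ => (D i)^[k] (G s) (r • e))
        (f' := fun r => (D i)^[k + 1] (G s) (r • e)) (fun r _ => ?_) ?_
      · rw [zero_smul, hz, sub_zero] at h2
        show ‖(D i)^[k] (G s) (t • e)‖ₑ ≤ _
        rw [← h2, intervalIntegral.integral_of_le ht]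
        exact enorm_integral_le_lintegral_enorm _
      · have := line hsm i r
        rw [← he, ← Function.iterate_succ_apply' (D i) k (G s)] at this
        exact this
      · exact ((W3.sf.smooth s).continuous.comp
          (continuous_id.smul continuous_const)).intervalIntegrable _ _
    refine g1.trans ?_
    rw [lintegral_lintegral_swap mK.aemeasurable]
    have h3 : ∫⁻ r in Set.Ioc 0 t, ∫⁻ s in {s | G s 0 = 0}, ‖(D i)^[k + 1] (G s) (r • e)‖ₑ ∂P ≤
        ∫⁻ r in Set.Ioc 0 t, ENNReal.ofReal (c * (r ^ n / n.factorial)) := by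
      refine setLIntegral_mono' measurableSet_Ioc fun r hr => ?_
      exact ih (k + 1) r hr.1.le
    refine h3.trans ?_
    have cont : Continuous fun r : ℝ => c * (r ^ n / n.factorial) := by fun_prop
    rw [← ofReal_integral_eq_lintegral_ofReal ((cont.integrableOn_Ioc))
      ((ae_restrict_iff' measurableSet_Ioc).2 (ae_of_all _ fun r hr => by
        have := hr.1.le
        positivity))]
    refine ENNReal.ofReal_le_ofReal (le_of_eq ?_)
    rw [← intervalIntegral.integral_of_le ht, intervalIntegral.integral_const_mul,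
      intervalIntegral.integral_div, integral_pow]
    rw [Nat.factorial_succ]
    push_cast
    have : (n.factorial : ℝ) ≠ 0 := by positivity
    have h5 : (n : ℝ) + 1 ≠ 0 := by positivity
    field_simp
    simp

lemma ray {G : S → E 2 → ℝ} (W : Wn 2 P τ G) (i : Fin 2) {t : ℝ} (ht : 0 ≤ t) :
    ∀ᵐ s ∂P, G s 0 = 0 → G s (t • EuclideanSpace.single i 1) = 0 := by
  have ms : MeasurableSet {s | G s 0 = 0} := W.sf.meas 0 (measurableSet_singleton 0)
  have h1 : ∫⁻ s in {s | G s 0 = 0}, ‖G s (t • EuclideanSpace.single i 1)‖ₑ ∂P = 0 := by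
    have h2 := fun n => lineI hτ W i n 0 t ht
    simp only [Function.iterate_zero, id] at h2
    have h3 : Tendsto (fun n : ℕ => ENNReal.ofReal ((1 + ∫ s, G s 0 ^ 2 ∂P) *
        (t ^ n / n.factorial))) atTop (𝓝 (ENNReal.ofReal ((1 + ∫ s, G s 0 ^ 2 ∂P) * 0))) :=
      (ENNReal.continuous_ofReal.tendsto _).comp
        ((FloorSemiring.tendsto_pow_div_factorial_atTop t).const_mul _)
    rw [mul_zero, ENNReal.ofReal_zero] at h3
    exact le_antisymm (ge_of_tendsto' h3 h2) bot_le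
  have mm : Measurable fun s => ‖G s (t • EuclideanSpace.single i 1)‖ₑ := (W.sf.meas _).enorm
  rw [lintegral_eq_zero_iff mm] at h1
  filter_upwards [(ae_restrict_iff' ms).1 h1] with s hs h0
  have := hs h0
  simpa using this

lemma ray2 {G : S → E 2 → ℝ} (W : Wn 2 P τ G) (i : Fin 2) (t : ℝ) :
    ∀ᵐ s ∂P, G s 0 = 0 → G s (t • EuclideanSpace.single i 1) = 0 := by
  rcases le_total 0 t with ht | ht
  · exact ray hτ W i ht
  · obtain ⟨v, hv⟩ : ∃ v : E 2, v = t • EuclideanSpace.single i 1 := ⟨_, rfl⟩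
    have h1 := ray hτ W i (t := -t) (by linarith)
    rw [neg_smul, ← hv] at h1
    have h2 := (hτ v).quasiMeasurePreserving.ae h1
    have h3 : ∀ᵐ s ∂P, G s v = 0 → G s 0 = 0 := by
      filter_upwards [h2] with s hs h0
      have a1 := hs (by rw [W.sf.cov, zero_add]; exact h0)
      rw [W.sf.cov, neg_add_cancel] at a1
      exact a1
    have ms : MeasurableSet {s | G s 0 = 0} := W.sf.meas 0 (measurableSet_singleton 0)
    have mv : MeasurableSet {s | G s v = 0} := W.sf.meas v (measurableSet_singleton 0)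
    have e1 : P {s | G s v = 0} = P {s | G s 0 = 0} := by
      have := (hτ v).measure_preimage ms.nullMeasurableSet
      rw [← this]
      congr 1
      ext s
      show G s v = 0 ↔ G (τ v s) 0 = 0
      rw [W.sf.cov, zero_add]
    have h4 := ae_eq_of_ae_subset_of_measure_ge (μ := P) (s := {s | G s v = 0})
      (t := {s | G s 0 = 0}) h3 (le_of_eq e1.symm) mv.nullMeasurableSet (measure_ne_top _ _)
    rw [← hv]
    filter_upwards [h4] with s hs h0
    have h5 : (s ∈ {s | G s v = 0}) = (s ∈ {s | G s 0 = 0}) := hs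
    have h6 : s ∈ {s | G s v = 0} := by rw [h5]; exact h0
    exact h6

/-- a stationary wave which vanishes at the origin vanishes identically -/
theorem van {G : S → E 2 → ℝ} (W : Wn 2 P τ G) : ∀ᵐ s ∂P, G s 0 = 0 → ∀ y, G s y = 0 := by
  have h : ∀ y : E 2, ∀ᵐ s ∂P, G s 0 = 0 → G s y = 0 := by
    intro y
    obtain ⟨v, hv⟩ : ∃ v : E 2, v = y 0 • EuclideanSpace.single 0 1 := ⟨_, rfl⟩
    obtain ⟨w, hw⟩ : ∃ w : E 2, w = y 1 • EuclideanSpace.single 1 1 := ⟨_, rfl⟩
    have ey : y = w + v := by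
      rw [hv, hw]
      ext j
      fin_cases j <;> simp
    have h1 := ray2 hτ W 0 (y 0)
    have h2 := ray2 hτ W 1 (y 1)
    rw [← hv] at h1
    rw [← hw] at h2
    have h3 := (hτ v).quasiMeasurePreserving.ae h2
    filter_upwards [h1, h3] with s hs1 hs3 h0
    have a1 := hs1 h0
    have a2 := hs3 (by rw [W.sf.cov, zero_add]; exact a1)
    rw [W.sf.cov] at a2
    rw [ey]; exact a2
  have hall := ae_all_iff.2 fun n => h (TopologicalSpace.denseSeq (E 2) n)
  filter_upwards [hall] with s hs h0 y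
  have hz : G s = fun _ => 0 := by
    refine Continuous.ext_on (TopologicalSpace.denseRange_denseSeq (E 2))
      (W.sf.smooth s).continuous continuous_const ?_
    rintro _ ⟨n, rfl⟩
    exact hs n h0
  exact congrFun hz y

lemma van_set {G : S → E 2 → ℝ} (W : Wn 2 P τ G) :
    {s | ∃ y, G s y ≠ 0} =ᵐ[P] {s | G s 0 ≠ 0} := by
  filter_upwards [van hτ W] with s hs
  refine propext ⟨fun h => ?_, fun h => ⟨0, h⟩⟩
  obtain ⟨y, hy⟩ := h
  exact fun h0 => hy (hs h0 y)

end main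

/-- the excess with explicit partial derivatives -/
def exc (f : Sp 2) : ℝ := |f.1 0| *
  (∑ i, fderiv ℝ (en f.1) 0 (EuclideanSpace.single i 1) ^ 2) / (6 * √(en f.1 0) ^ 5)

lemma exc_eq (f : Sp 2) : rx f.1 = exc f := by
  unfold rx exc
  rw [YY_eq, En_eq]

/-- the length of the gradient -/
def gr (f : Sp 2) : ℝ := √(∑ i, fderiv ℝ f.1 0 (EuclideanSpace.single i 1) ^ 2)

lemma gr_eq (f : Sp 2) : √(Q 1 f.1 0) = gr f := by
  unfold gr
  rw [Q_one]; rfl

/-- the lower nodal length density -/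
def nod (μ : Measure (Sp 2)) : ℝ≥0∞ :=
  liminf (fun ε : ℝ => ENNReal.ofReal ((2 * ε)⁻¹ * ∫ f in {f : Sp 2 | |f.1 0| < ε}, gr f ∂μ))
    (𝓝[>] 0)

theorem final2 (μ : Measure (Sp 2)) (pμ : IsProbabilityMeasure μ)
    (hμ : ∀ x : E 2, μ.map (sh x) = μ) (h : Integrable (fun f : Sp 2 => f.1 0 ^ 2) μ) :
    (∀ a b : ℝ, 0 ≤ a → a < b →
      Integrable (fun f : Sp 2 => min (max (|f.1 0| - a) 0) (b - a) * (1 + exc f)) μ ∧
      ∫ f : Sp 2, min (max (|f.1 0| - a) 0) (b - a) * (1 + exc f) ∂μ ≤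
        ∫ f in {f : Sp 2 | a < |f.1 0| ∧ |f.1 0| < b}, gr f * Real.arctan (gr f / |f.1 0|) ∂μ) ∧
    ∫⁻ f in {f : Sp 2 | ∃ y, f.1 y ≠ 0}, ENNReal.ofReal (1 / Real.pi * (1 + exc f)) ∂μ ≤ nod μ ∧
    (nod μ = ENNReal.ofReal (1 / Real.pi * μ.real {f : Sp 2 | ∃ y, f.1 y ≠ 0}) ↔
      ∀ᵐ f ∂μ, ∃ a, PW' a f) := by
  have hμ' : ∀ x, MeasurePreserving (sh (d := 2) x) μ μ := fun x => ⟨sh_me x, hμ x⟩
  have W := W2_of h
  have hv := van_set hμ' W
  have hreal : μ.real {f : Sp 2 | ∃ y, f.1 y ≠ 0} = μ.real {f : Sp 2 | f.1 0 ≠ 0} :=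
    measureReal_congr hv
  have hn : nod μ = nodal μ (fun f : Sp 2 => f.1) := by
    unfold nod nodal Nd
    simp only [gr_eq]
  refine ⟨fun a b ha hab => ?_, ?_, ?_⟩
  · obtain ⟨i1, h1⟩ := box hμ' W ha hab
    unfold mb at i1 h1
    simp only [exc_eq] at i1 h1
    refine ⟨i1, h1.trans (le_of_eq ?_)⟩
    have ms : MeasurableSet {f : Sp 2 | a < |f.1 0| ∧ |f.1 0| < b} :=
      (abs_me hμ' W) measurableSet_Ioo
    rw [← integral_indicator ms]
    refine integral_congr_ae (ae_of_all _ fun f => ?_)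
    show (Set.Ioo a b).indicator (fun _ => 1) |f.1 0| * AT f.1 0 = _
    unfold AT
    rw [gr_eq]
    by_cases hf : a < |f.1 0| ∧ |f.1 0| < b
    · rw [Set.indicator_of_mem (show |f.1 0| ∈ Set.Ioo a b from hf),
        Set.indicator_of_mem (show f ∈ {f : Sp 2 | a < |f.1 0| ∧ |f.1 0| < b} from hf), one_mul]
    · rw [Set.indicator_of_notMem (show |f.1 0| ∉ Set.Ioo a b from hf),
        Set.indicator_of_notMem (show f ∉ {f : Sp 2 | a < |f.1 0| ∧ |f.1 0| < b} from hf),
        zero_mul]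
  · have h1 := nod_ge hμ' W
    rw [hn, setLIntegral_congr hv]
    unfold Hl at h1
    simp only [exc_eq] at h1
    exact h1
  · rw [hn, hreal]
    constructor
    · intro he
      have h5 := nod_rig hμ' W he
      have sH : SF sh (fun (f : Sp 2) y => f.1 y ^ 2 * YY f.1 y) :=
        (sfS.comp (k := fun t => t ^ 2) (contDiff_id.pow 2)).mul (sf_YY sfS)
      filter_upwards [ever2 hμ' sH h5] with f hf
      have hc2 := const2 f.2.1 hf
      obtain ⟨w, a, φ, hw, ha, hfa⟩ := plane_wave f.2.1 f.2.2 (c := En f.1 0)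
        (fun y => hc2 y) (by norm_num)
      exact ⟨a, w, φ, hw, hfa⟩
    · intro hpw
      have hE : ∀ᵐ f : Sp 2 ∂μ, ∀ y, En f.1 y = En f.1 0 := by
        filter_upwards [hpw] with f hf y
        obtain ⟨a, ha⟩ := hf
        have ha' : PW a f.1 := ha
        rw [En_pw ha', En_pw ha']
      refine le_antisymm (nod_le hμ' W hE) ?_
      refine le_trans ?_ (nod_ge hμ' W)
      have ms : MeasurableSet {f : Sp 2 | f.1 0 ≠ 0} :=
        (W.sf.meas 0 (measurableSet_singleton 0)).compl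
      have e2 : ENNReal.ofReal (1 / Real.pi * μ.real {f : Sp 2 | f.1 0 ≠ 0}) =
          ∫⁻ _ in {f : Sp 2 | f.1 0 ≠ 0}, ENNReal.ofReal (1 / Real.pi) ∂μ := by
        rw [setLIntegral_const, ENNReal.ofReal_mul (by positivity), measureReal_def,
          ENNReal.ofReal_toReal (measure_ne_top _ _)]
      rw [e2]
      refine lintegral_mono fun f => ENNReal.ofReal_le_ofReal ?_
      unfold Hl
      have h1 := rx_nn f.1
      have h2 : 0 ≤ 1 / Real.pi := by positivity
      nlinarith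

end

end Pool.Agent.W2helper36.EM
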